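import Pool.Agent.Lib.MP_f58a57_nt.K.Defs
import Pool.Agent.Lib.MP_f58a57_nt.P.A3_Eval

/-! # K/A1_Deriv: derivatives along lines and the differential ring -/

open Complex MvPolynomial

noncomputable section

namespace Pool.Agent.MSK

open MSD MSP

variable {d : ℕ}

theorem tt_smul (z ζ : ℂ) (v : Fin d → ℂ) (l : Fin (d + 1)) : tt z (fun j => ζ * v j) l = ζ * tt z v l := by
  unfold tt
  refine Fin.cases ?_ (fun j => ?_) l
  · rw [Fin.cons_zero, Fin.cons_zero, mul_neg, Finset.mul_sum]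
    congr 1
    exact Finset.sum_congr rfl fun j _ => by ring
  · rw [Fin.cons_succ, Fin.cons_succ]

theorem tt_add (z : ℂ) (v w : Fin d → ℂ) (l : Fin (d + 1)) : tt z (fun j => v j + w j) l = tt z v l + tt z w l := by
  unfold tt
  refine Fin.cases ?_ (fun j => ?_) l
  · rw [Fin.cons_zero, Fin.cons_zero, Fin.cons_zero, ← neg_add, ← Finset.sum_add_distrib]
    congr 1
    exact Finset.sum_congr rfl fun j _ => by ring
  · rw [Fin.cons_succ, Fin.cons_succ, Fin.cons_succ]

/-- the defining relation of `V` -/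
theorem tt_rel (z : ℂ) (v : Fin d → ℂ) : ∑ l : Fin (d + 1), z ^ l.val * tt z v l = 0 := by
  unfold tt
  rw [Fin.sum_univ_succ]
  simp only [Fin.cons_zero, Fin.cons_succ, Fin.val_zero, pow_zero, one_mul, Fin.val_succ]
  exact neg_add_cancel _

theorem a1_tt_succ (z : ℂ) (v : Fin d → ℂ) (j : Fin d) : tt z v j.succ = v j := by
  unfold tt
  rw [Fin.cons_succ]

theorem a1_tt_zero (z : ℂ) (l : Fin (d + 1)) : tt z (fun _ : Fin d => (0 : ℂ)) l = 0 := by
  have h := tt_smul z 0 (fun _ : Fin d => (0 : ℂ)) l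
  simpa using h

theorem a1_As_smul (P : Par d) (s ζ : ℂ) (w : Fin d → ℂ) (j : Fin d) :
    As P s (fun i => ζ * w i) j = ζ * As P s w j := by
  unfold As
  rw [tt_smul, tt_smul, tt_smul]
  ring

theorem ev_zero (P : Par d) (D : Dt d) (a : Fin d → ℤ) : ev P D a 0 = vals P D := by
  funext v
  cases v with
  | X l => simp only [ev, vals, zero_mul]
  | Y l => simp only [ev, vals, zero_mul]
  | Q j =>
    simp only [ev, vals, zero_mul]
    unfold Xi
    have h1 : As P D.s (fun _ : Fin d => (0 : ℂ)) j = 0 := by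
      unfold As
      rw [a1_tt_zero, a1_tt_zero, a1_tt_zero]
      ring
    have h2 : ∀ l, D.ps l 0 = 0 := by
      intro l
      unfold Dt.ps
      rw [add_zero, sub_self]
    rw [h1, h2, h2, h2]
    ring
  | b l => rfl
  | g => rfl
  | k => rfl
  | z => rfl
  | r => rfl

/-- general principle: a derivation and the derivative of the variables -/
theorem a1_main {σ : Type*} (val : ℂ → σ → ℂ) (f : σ → MvPolynomial σ ℤ) (c t : ℂ)
    (h : ∀ v, HasDerivAt (fun t' => val t' v) (c * MvPolynomial.aeval (val t) (f v)) t) (p : MvPolynomial σ ℤ) :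
    HasDerivAt (fun t' => MvPolynomial.aeval (val t') p)
      (c * MvPolynomial.aeval (val t) (MvPolynomial.mkDerivation ℤ f p)) t := by
  induction p using MvPolynomial.induction_on with
  | C a =>
    have e1 : (fun t' => MvPolynomial.aeval (val t') (MvPolynomial.C a : MvPolynomial σ ℤ)) =
        fun _ => ((a : ℤ) : ℂ) := by
      funext t'
      rw [MvPolynomial.aeval_C]
      simp
    rw [e1, ← MvPolynomial.algebraMap_eq, Derivation.map_algebraMap, map_zero, mul_zero]
    exact hasDerivAt_const t _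
  | add p q hp hq =>
    have e1 : (fun t' => MvPolynomial.aeval (val t') (p + q)) =
        fun t' => MvPolynomial.aeval (val t') p + MvPolynomial.aeval (val t') q := by
      funext t'
      rw [map_add]
    rw [e1, map_add, map_add, mul_add]
    exact hp.add hq
  | mul_X p v hp =>
    have e1 : (fun t' => MvPolynomial.aeval (val t') (p * MvPolynomial.X v)) =
        fun t' => MvPolynomial.aeval (val t') p * val t' v := by
      funext t'
      rw [map_mul, MvPolynomial.aeval_X]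
    rw [e1, Derivation.leibniz, MvPolynomial.mkDerivation_X, map_add, smul_eq_mul, smul_eq_mul, map_mul, map_mul,
      MvPolynomial.aeval_X]
    have h3 := hp.fun_mul (h v)
    have e2 : c * (MvPolynomial.aeval (val t) p * MvPolynomial.aeval (val t) (f v) +
        val t v * MvPolynomial.aeval (val t) (MvPolynomial.mkDerivation ℤ f p)) =
        c * MvPolynomial.aeval (val t) (MvPolynomial.mkDerivation ℤ f p) * val t v +
        MvPolynomial.aeval (val t) p * (c * MvPolynomial.aeval (val t) (f v)) := by ring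
    rw [e2]
    exact h3

theorem a1_ca (P : Par d) (D : Dt d) (a : Fin d → ℤ) (ζ : ℂ) (l : Fin (d + 1)) :
    MvPolynomial.aeval (ev P D a ζ) (ca a l) = tt P.z (fun j => (a j : ℂ)) l := by
  unfold ca tt
  refine Fin.cases ?_ (fun j => ?_) l
  · rw [Fin.cons_zero, Fin.cons_zero, map_neg, map_sum]
    congr 1
    refine Finset.sum_congr rfl fun j _ => ?_
    rw [map_mul, map_pow, MvPolynomial.aeval_X, MvPolynomial.aeval_C]
    rfl
  · rw [Fin.cons_succ, Fin.cons_succ, MvPolynomial.aeval_C]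
    rfl

theorem a1_X (D : Dt d) (l : Fin (d + 1)) (u ζ : ℂ) (h : th D.τ (D.h l + ζ * u) ≠ 0) :
    HasDerivAt (fun ζ' => D.X l (ζ' * u)) (D.om * (u * D.Y l (ζ * u))) ζ := by
  have h0 := D.ne
  have h1 : HasDerivAt (fun ζ' : ℂ => D.h l + ζ' * u) u ζ := by
    simpa using ((hasDerivAt_id ζ).mul_const u).const_add (D.h l)
  have h2 := (wp_analyticAt D.τ (sE D.τ) D.im _ h).differentiableAt.hasDerivAt
  have h3 := (h2.comp ζ h1).div_const (D.om ^ 2)
  have e : D.om * (u * D.Y l (ζ * u)) = deriv (wp D.τ (sE D.τ)) (D.h l + ζ * u) * u / D.om ^ 2 := by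
    unfold Dt.Y
    field_simp
  rw [e]
  exact h3

theorem a1_Y (D : Dt d) (l : Fin (d + 1)) (u ζ : ℂ) (h : th D.τ (D.h l + ζ * u) ≠ 0) :
    HasDerivAt (fun ζ' => D.Y l (ζ' * u))
      (D.om * (u * (6 * D.X l (ζ * u) ^ 2 - 2 / 3 * Real.pi ^ 4 * e4 D.τ / D.om ^ 4))) ζ := by
  have h0 := D.ne
  have h1 : HasDerivAt (fun ζ' : ℂ => D.h l + ζ' * u) u ζ := by
    simpa using ((hasDerivAt_id ζ).mul_const u).const_add (D.h l)
  have h2 := wp_ode2 D.τ D.im _ h
  have h3 := (h2.comp ζ h1).div_const (D.om ^ 3)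
  have e : D.om * (u * (6 * D.X l (ζ * u) ^ 2 - 2 / 3 * Real.pi ^ 4 * e4 D.τ / D.om ^ 4)) =
      (6 * wp D.τ (sE D.τ) (D.h l + ζ * u) ^ 2 - 2 / 3 * Real.pi ^ 4 * MSD.e4 D.τ) * u / D.om ^ 3 := by
    unfold Dt.X
    field_simp
  rw [e]
  exact h3

theorem a1_ps (D : Dt d) (l : Fin (d + 1)) (u ζ : ℂ) (h : th D.τ (D.h l + ζ * u) ≠ 0) :
    HasDerivAt (fun ζ' => D.ps l (ζ' * u)) (-(D.om ^ 2 * D.X l (ζ * u) + sE D.τ) * u) ζ := by
  have h0 := D.ne
  have h1 : HasDerivAt (fun ζ' : ℂ => D.h l + ζ' * u) u ζ := by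
    simpa using ((hasDerivAt_id ζ).mul_const u).const_add (D.h l)
  have h2 := hasDerivAt_ph D.τ (sE D.τ) D.im _ h
  have h3 := (h2.comp ζ h1).sub_const (ph D.τ (D.h l))
  have e : D.om ^ 2 * D.X l (ζ * u) = wp D.τ (sE D.τ) (D.h l + ζ * u) := by
    unfold Dt.X
    field_simp
  rw [e]
  exact h3

/-- A1a. PROOF. As in `a3_main` (file P/A3_Eval; the proof there works for every index type) it suffices to treat the variables:
`d/dζ X_l = tt_l(a) wp'(..)/om² = om · tt_l(a) Y_l`; `d/dζ Y_l = tt_l(a) (6 wp² - (2/3)π⁴ e4)/om³ = om · tt_l(a) (6 X_l² - g)` (`wp_ode2`);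
`d/dζ ps_l = - tt_l(a) (wp + sE)` (`hasDerivAt_ph` with `s = sE τ`), so with `rh (kap - sE/om²) = s` the derivative of `Xi_j` is
`om (a_j + s(..)) + (rh/om) (tt_{j-1}(a)(wp + sE) + b_j tt_d(a) (wp + sE) - z tt_j(a) (wp + sE)) = om (a_j + rh (tt_{j-1}(a)(X_{j-1} + kap) + ...))`, which is
`om · aeval (dv a (Q j))` (`As` is linear, `tt z a j.succ = a j`, the polynomials `ca a l` have the value `tt z a l`). -/
theorem hasDerivAt_ev (P : Par d) (D : Dt d) (a : Fin d → ℤ) (ζ : ℂ)
    (h : ∀ l, th D.τ (D.h l + ζ * tt P.z (fun j => (a j : ℂ)) l) ≠ 0) (p : MvPolynomial (Vr d) ℤ) :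
    HasDerivAt (fun ζ' => MvPolynomial.aeval (ev P D a ζ') p) (D.om * MvPolynomial.aeval (ev P D a ζ) (der a p)) ζ := by
  refine a1_main (ev P D a) (dv a) D.om ζ (fun v => ?_) p
  have h0 := D.ne
  cases v with
  | X l =>
    have e : MvPolynomial.aeval (ev P D a ζ) (dv a (Vr.X l)) =
        tt P.z (fun j => (a j : ℂ)) l * D.Y l (ζ * tt P.z (fun j => (a j : ℂ)) l) := by
      simp only [dv, map_mul, a1_ca, MvPolynomial.aeval_X]
      rfl
    rw [e]
    exact a1_X D l _ ζ (h l)
  | Y l =>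
    have e : MvPolynomial.aeval (ev P D a ζ) (dv a (Vr.Y l)) =
        tt P.z (fun j => (a j : ℂ)) l * (6 * D.X l (ζ * tt P.z (fun j => (a j : ℂ)) l) ^ 2
          - 2 / 3 * Real.pi ^ 4 * e4 D.τ / D.om ^ 4) := by
      simp only [dv, map_mul, map_sub, map_pow, a1_ca, MvPolynomial.aeval_X, map_ofNat]
      rfl
    rw [e]
    exact a1_Y D l _ ζ (h l)
  | Q j =>
    have hc := a1_ps D j.castSucc _ ζ (h j.castSucc)
    have hl := a1_ps D (Fin.last d) _ ζ (h (Fin.last d))
    have hs := a1_ps D j.succ _ ζ (h j.succ)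
    have h1 : HasDerivAt (fun ζ' : ℂ => D.om * As P D.s (fun i => ζ' * (a i : ℂ)) j)
        (D.om * As P D.s (fun i => (a i : ℂ)) j) ζ := by
      have e : (fun ζ' : ℂ => D.om * As P D.s (fun i => ζ' * (a i : ℂ)) j) =
          fun ζ' => D.om * (ζ' * As P D.s (fun i => (a i : ℂ)) j) := by
        funext ζ'
        rw [a1_As_smul]
      rw [e]
      simpa using ((hasDerivAt_id ζ).mul_const (As P D.s (fun i => (a i : ℂ)) j)).const_mul D.om
    have h2 := h1.fun_sub ((((hc.fun_add (hl.const_mul (P.b j.succ : ℂ))).fun_sub (hs.const_mul P.z))).const_mul (rh / D.om))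
    have e : D.om * MvPolynomial.aeval (ev P D a ζ) (dv a (Vr.Q j)) =
        D.om * As P D.s (fun i => (a i : ℂ)) j - rh / D.om *
          (-(D.om ^ 2 * D.X j.castSucc (ζ * tt P.z (fun i => (a i : ℂ)) j.castSucc) + sE D.τ) *
              tt P.z (fun i => (a i : ℂ)) j.castSucc +
            (P.b j.succ : ℂ) * (-(D.om ^ 2 * D.X (Fin.last d) (ζ * tt P.z (fun i => (a i : ℂ)) (Fin.last d)) + sE D.τ) *
              tt P.z (fun i => (a i : ℂ)) (Fin.last d)) -
            P.z * (-(D.om ^ 2 * D.X j.succ (ζ * tt P.z (fun i => (a i : ℂ)) j.succ) + sE D.τ) *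
              tt P.z (fun i => (a i : ℂ)) j.succ)) := by
      have e1 : MvPolynomial.aeval (ev P D a ζ) (dv a (Vr.Q j)) =
          (a j : ℂ) - rh * (-(tt P.z (fun i => (a i : ℂ)) j.castSucc *
              (D.X j.castSucc (ζ * tt P.z (fun i => (a i : ℂ)) j.castSucc) + D.kap))
            - (P.b j.succ : ℂ) * (tt P.z (fun i => (a i : ℂ)) (Fin.last d) *
              (D.X (Fin.last d) (ζ * tt P.z (fun i => (a i : ℂ)) (Fin.last d)) + D.kap))
            + P.z * (tt P.z (fun i => (a i : ℂ)) j.succ *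
              (D.X j.succ (ζ * tt P.z (fun i => (a i : ℂ)) j.succ) + D.kap))) := by
        simp only [dv, map_mul, map_sub, map_add, map_neg, a1_ca, MvPolynomial.aeval_X, MvPolynomial.aeval_C]
        rfl
      rw [e1]
      unfold As Dt.s
      rw [a1_tt_succ]
      field_simp
      ring
    rw [e]
    exact h2
  | b l =>
    simp only [dv, map_zero, mul_zero]
    exact hasDerivAt_const ζ _
  | g =>
    simp only [dv, map_zero, mul_zero]
    exact hasDerivAt_const ζ _
  | k =>
    simp only [dv, map_zero, mul_zero]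
    exact hasDerivAt_const ζ _
  | z =>
    simp only [dv, map_zero, mul_zero]
    exact hasDerivAt_const ζ _
  | r =>
    simp only [dv, map_zero, mul_zero]
    exact hasDerivAt_const ζ _

end Pool.Agent.MSK
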