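import Pool.Agent.Lib.MP_f58a57_nt.K.Defs
import Pool.Agent.Lib.MP_f58a57_nt.K.A1_Deriv

/-! # K/A1b_Iter: iterated derivatives of the auxiliary function -/

open Complex MvPolynomial

noncomputable section

namespace Pool.Agent.MSK

open MSD MSP

variable {d : ℕ}

/-- the monomials along the line are values of polynomials -/
theorem a1b_mon (P : Par d) (D : Dt d) {L : ℕ} (a : Fin d → ℤ) (ν : Ix d L) (ζ : ℂ) :
    mon P D ν (fun j => ζ * a j) (tt P.z (fun j => ζ * a j)) = MvPolynomial.aeval (ev P D a ζ) (Mon ν) := by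
  have ht : tt P.z (fun j => ζ * (a j : ℂ)) = fun l => ζ * tt P.z (fun i => (a i : ℂ)) l := by
    funext l
    exact tt_smul P.z ζ (fun j => (a j : ℂ)) l
  unfold mon Mon
  rw [ht]
  simp only [map_mul, map_prod, map_pow, MvPolynomial.aeval_X, ev]

/-- the auxiliary function along the line -/
theorem a1b_FF (P : Par d) (D : Dt d) {L : ℕ} (c : Ix d L → ℂ) (a : Fin d → ℤ) (ζ : ℂ) :
    FF P D c (fun j => ζ * a j) = ∑ ν, c ν * MvPolynomial.aeval (ev P D a ζ) (Mon ν) := by
  unfold FF Fh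
  refine Finset.sum_congr rfl (fun ν _ => ?_)
  rw [a1b_mon]

/-- the theta functions do not vanish near the base point -/
theorem a1b_near (P : Par d) (D : Dt d) (a : Fin d → ℤ) :
    ∀ᶠ ζ : ℂ in nhds 0, ∀ l, th D.τ (D.h l + ζ * tt P.z (fun j => (a j : ℂ)) l) ≠ 0 := by
  rw [Filter.eventually_all]
  intro l
  have hc : Continuous (fun ζ : ℂ => th D.τ (D.h l + ζ * tt P.z (fun j => (a j : ℂ)) l)) :=
    (th_differentiable D.τ D.im).continuous.comp (by fun_prop)
  have h0 : (fun ζ : ℂ => th D.τ (D.h l + ζ * tt P.z (fun j => (a j : ℂ)) l)) 0 ≠ 0 := by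
    simpa using D.hh l
  exact hc.continuousAt.eventually_ne h0

/-- the derivative of the linear combinations -/
theorem a1b_deriv (P : Par d) (D : Dt d) {L : ℕ} (c : Ix d L → ℂ) (a : Fin d → ℤ) (ζ : ℂ)
    (h : ∀ l, th D.τ (D.h l + ζ * tt P.z (fun j => (a j : ℂ)) l) ≠ 0) (p : Ix d L → MvPolynomial (Vr d) ℤ) :
    HasDerivAt (fun ζ' => ∑ ν, c ν * MvPolynomial.aeval (ev P D a ζ') (p ν))
      (D.om * ∑ ν, c ν * MvPolynomial.aeval (ev P D a ζ) (der a (p ν))) ζ := by
  have h1 : HasDerivAt (fun ζ' => ∑ ν, c ν * MvPolynomial.aeval (ev P D a ζ') (p ν))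
      (∑ ν, c ν * (D.om * MvPolynomial.aeval (ev P D a ζ) (der a (p ν)))) ζ :=
    HasDerivAt.fun_sum (fun ν _ => (hasDerivAt_ev P D a ζ h (p ν)).const_mul (c ν))
  convert h1 using 1
  rw [Finset.mul_sum]
  refine Finset.sum_congr rfl (fun ν _ => ?_)
  ring

/-- the iterated derivative near the base point -/
theorem a1b_iter (P : Par d) (D : Dt d) {L : ℕ} (c : Ix d L → ℂ) (a : Fin d → ℤ) (k : ℕ) :
    iteratedDeriv k (fun ζ : ℂ => FF P D c (fun j => ζ * a j)) =ᶠ[nhds 0]
      fun ζ => D.om ^ k * ∑ ν, c ν * MvPolynomial.aeval (ev P D a ζ) ((der a)^[k] (Mon ν)) := by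
  induction k with
  | zero =>
    refine Filter.Eventually.of_forall (fun ζ => ?_)
    simp only [iteratedDeriv_zero, pow_zero, one_mul, Function.iterate_zero, id]
    exact a1b_FF P D c a ζ
  | succ k ih =>
    rw [iteratedDeriv_succ]
    refine ih.deriv.trans ?_
    filter_upwards [a1b_near P D a] with ζ hζ
    have h1 := (a1b_deriv P D c a ζ hζ (fun ν => (der a)^[k] (Mon ν))).const_mul (D.om ^ k)
    rw [h1.deriv]
    simp only [Function.iterate_succ_apply']
    ring

/-- A1b. PROOF. `FF` along the line is `∑ c ν * aeval (ev ζ) (Mon ν)`; the condition of A1a holds for `ζ` near `0` (continuity, `D.hh`), so by induction on `k`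
the `k`-th derivative is `om^k ∑ c ν aeval (ev ζ) (der^[k] (Mon ν))` near `0`; at `0` use `ev_zero`. -/
theorem iteratedDeriv_FF (P : Par d) (D : Dt d) {L : ℕ} (c : Ix d L → ℂ) (a : Fin d → ℤ) (k : ℕ) :
    iteratedDeriv k (fun ζ : ℂ => FF P D c (fun j => ζ * a j)) 0 =
      D.om ^ k * ∑ ν, c ν * MvPolynomial.aeval (vals P D) ((der a)^[k] (Mon ν)) := by
  have h := (a1b_iter P D c a k).self_of_nhds
  rw [h]
  show D.om ^ k * ∑ ν, c ν * MvPolynomial.aeval (ev P D a 0) ((der a)^[k] (Mon ν)) = _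
  rw [ev_zero]

/-- `FF` along a line is analytic at `0` -/
theorem FF_line_analytic (P : Par d) (D : Dt d) {L : ℕ} (c : Ix d L → ℂ) (a : Fin d → ℤ) :
    AnalyticAt ℂ (fun ζ : ℂ => FF P D c (fun j => ζ * a j)) 0 := by
  rw [Complex.analyticAt_iff_eventually_differentiableAt]
  filter_upwards [a1b_near P D a] with ζ hζ
  have h1 := (a1b_deriv P D c a ζ hζ (fun ν => Mon ν)).differentiableAt
  refine h1.congr_of_eventuallyEq (Filter.Eventually.of_forall (fun ζ' => ?_))
  exact a1b_FF P D c a ζ'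

end Pool.Agent.MSK
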