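import Pool.Agent.Lib.MP_f58a57_nt.K.Defs
import Pool.Agent.Lib.MP_f58a57_nt.P.A1_Len

/-! # K/A2_Bd: degree and length of iterated derivatives -/

open Complex MvPolynomial

noncomputable section

namespace Pool.Agent.MSK

open MSD MSP

variable {d : ℕ}

/-- degree and length -/
def a2_B {σ : Type*} (e : ℕ) (H : ℝ) (p : MvPolynomial σ ℤ) : Prop := p.totalDegree ≤ e ∧ mlen p ≤ H

theorem a2_mono {σ : Type*} {e e' : ℕ} {H H' : ℝ} {p : MvPolynomial σ ℤ} (h : a2_B e H p) (he : e ≤ e')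
    (hH : H ≤ H') : a2_B e' H' p := ⟨h.1.trans he, h.2.trans hH⟩

theorem a2_C {σ : Type*} (c : ℤ) : a2_B 0 |(c : ℝ)| (MvPolynomial.C c : MvPolynomial σ ℤ) :=
  ⟨(MvPolynomial.totalDegree_C c).le, (mlen_C c).le⟩

theorem a2_var {σ : Type*} (v : σ) : a2_B 1 1 (MvPolynomial.X v : MvPolynomial σ ℤ) := by
  refine ⟨(MvPolynomial.totalDegree_X v).le, ?_⟩
  change mlen (MvPolynomial.monomial (Finsupp.single v 1) (1 : ℤ)) ≤ 1
  rw [mlen_monomial]
  simp

theorem a2_add {σ : Type*} {e e' : ℕ} {H H' : ℝ} {p q : MvPolynomial σ ℤ} (h : a2_B e H p) (h' : a2_B e' H' q) :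
    a2_B (max e e') (H + H') (p + q) := by
  refine ⟨(MvPolynomial.totalDegree_add _ _).trans (max_le_max h.1 h'.1), ?_⟩
  exact (mlen_add _ _).trans (add_le_add h.2 h'.2)

theorem a2_mul {σ : Type*} {e e' : ℕ} {H H' : ℝ} {p q : MvPolynomial σ ℤ} (h : a2_B e H p) (h' : a2_B e' H' q) :
    a2_B (e + e') (H * H') (p * q) := by
  refine ⟨(MvPolynomial.totalDegree_mul _ _).trans (add_le_add h.1 h'.1), ?_⟩
  exact (mlen_mul _ _).trans (mul_le_mul h.2 h'.2 (mlen_nonneg _) ((mlen_nonneg _).trans h.2))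

theorem a2_neg' {σ : Type*} {e : ℕ} {H : ℝ} {p : MvPolynomial σ ℤ} (h : a2_B e H p) : a2_B e H (-p) := by
  have h1 := a2_mul (a2_C (σ := σ) (-1)) h
  have e1 : MvPolynomial.C (-1 : ℤ) * p = -p := by
    rw [map_neg, map_one, neg_one_mul]
  rw [e1] at h1
  exact a2_mono h1 (by omega) (by simp)

theorem a2_sub {σ : Type*} {e e' : ℕ} {H H' : ℝ} {p q : MvPolynomial σ ℤ} (h : a2_B e H p) (h' : a2_B e' H' q) :
    a2_B (max e e') (H + H') (p - q) := by
  rw [sub_eq_add_neg]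
  exact a2_add h (a2_neg' h')

theorem a2_pow {σ : Type*} {e : ℕ} {p : MvPolynomial σ ℤ} (h : a2_B e 1 p) (k : ℕ) : a2_B (e * k) 1 (p ^ k) := by
  induction k with
  | zero =>
    rw [pow_zero, ← MvPolynomial.C_1]
    exact a2_mono (a2_C 1) (by omega) (by simp)
  | succ k ih =>
    rw [pow_succ]
    exact a2_mono (a2_mul ih h) (by rw [Nat.mul_succ]) (by simp)

theorem a2_sum {σ ι : Type*} (s : Finset ι) (p : ι → MvPolynomial σ ℤ) (e : ℕ) (H : ι → ℝ)
    (h : ∀ i ∈ s, a2_B e (H i) (p i)) : a2_B e (∑ i ∈ s, H i) (∑ i ∈ s, p i) := by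
  refine ⟨MvPolynomial.totalDegree_finsetSum_le fun i hi => (h i hi).1, ?_⟩
  exact (mlen_sum _ _).trans (Finset.sum_le_sum fun i hi => (h i hi).2)

theorem a2_prod {σ ι : Type*} (s : Finset ι) (p : ι → MvPolynomial σ ℤ) (e : ι → ℕ)
    (h : ∀ i ∈ s, a2_B (e i) 1 (p i)) : a2_B (∑ i ∈ s, e i) 1 (∏ i ∈ s, p i) := by
  classical
  induction s using Finset.induction_on with
  | empty =>
    rw [Finset.prod_empty, Finset.sum_empty, ← MvPolynomial.C_1]
    exact a2_mono (a2_C 1) le_rfl (by simp)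
  | insert i s hi ih =>
    rw [Finset.prod_insert hi, Finset.sum_insert hi]
    refine a2_mono (a2_mul (h i (Finset.mem_insert_self _ _))
      (ih fun j hj => h j (Finset.mem_insert_of_mem hj))) le_rfl (by simp)

/-- degree and length of `ca`. -/
theorem a2_ca (a : Fin d → ℤ) (A : ℝ) (hA : 1 ≤ A) (ha : ∀ j, |(a j : ℝ)| ≤ A) (l : Fin (d + 1)) :
    a2_B d ((d + 1) * A) (ca a l) := by
  have hA0 : 0 ≤ A := zero_le_one.trans hA
  have hd : (0 : ℝ) ≤ d := Nat.cast_nonneg _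
  unfold ca
  refine Fin.cases ?_ (fun j => ?_) l
  · rw [Fin.cons_zero]
    have h1 : a2_B d (∑ _j : Fin d, A)
        (∑ j : Fin d, (MvPolynomial.X Vr.z : MvPolynomial (Vr d) ℤ) ^ (j.val + 1) * MvPolynomial.C (a j)) := by
      refine a2_sum _ _ _ _ fun j _ => ?_
      refine a2_mono (a2_mul (a2_pow (a2_var Vr.z) (j.val + 1)) (a2_C (a j))) ?_ ?_
      · have := j.isLt
        omega
      · rw [one_mul]
        exact ha j
    refine a2_mono (a2_neg' h1) le_rfl ?_
    rw [Finset.sum_const, Finset.card_univ, Fintype.card_fin, nsmul_eq_mul]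
    nlinarith
  · rw [Fin.cons_succ]
    refine a2_mono (a2_C (a j)) (by omega) ?_
    have := ha j
    nlinarith

/-- degree and length of the derivatives of the variables. -/
theorem a2_dv (a : Fin d → ℤ) (A : ℝ) (hA : 1 ≤ A) (ha : ∀ j, |(a j : ℝ)| ≤ A) (v : Vr d) :
    a2_B (d + 3) (8 * (d + 1) * A) (dv a v) := by
  have hA0 : 0 ≤ A := zero_le_one.trans hA
  have hd : (0 : ℝ) ≤ d := Nat.cast_nonneg _
  have hdA : 0 ≤ (d : ℝ) * A := mul_nonneg hd hA0
  have hca := a2_ca a A hA ha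
  have h0 : a2_B (d + 3) (8 * (d + 1) * A) (0 : MvPolynomial (Vr d) ℤ) := by
    rw [← MvPolynomial.C_0]
    refine a2_mono (a2_C 0) (by omega) ?_
    simp
    positivity
  cases v with
  | X l =>
    change a2_B _ _ (ca a l * MvPolynomial.X (Vr.Y l))
    exact a2_mono (a2_mul (hca l) (a2_var _)) (by omega) (by nlinarith)
  | Y l =>
    change a2_B _ _ (ca a l * (6 * MvPolynomial.X (Vr.X l) ^ 2 - MvPolynomial.X Vr.g))
    have h1 : a2_B 2 6 (6 * (MvPolynomial.X (Vr.X l) : MvPolynomial (Vr d) ℤ) ^ 2) := by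
      have h2 := a2_mul (a2_C (σ := Vr d) 6) (a2_pow (a2_var (Vr.X l)) 2)
      rw [show (MvPolynomial.C (6 : ℤ) : MvPolynomial (Vr d) ℤ) = 6 from map_ofNat _ 6] at h2
      exact a2_mono h2 (by omega) (by norm_num)
    exact a2_mono (a2_mul (hca l) (a2_sub h1 (a2_var Vr.g))) (by omega) (by nlinarith)
  | Q j =>
    change a2_B _ _ (MvPolynomial.C (a j) - MvPolynomial.X Vr.r *
      (-(ca a j.castSucc * (MvPolynomial.X (Vr.X j.castSucc) + MvPolynomial.X Vr.k))
        - MvPolynomial.X (Vr.b j.succ) * (ca a (Fin.last d) * (MvPolynomial.X (Vr.X (Fin.last d)) + MvPolynomial.X Vr.k))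
        + MvPolynomial.X Vr.z * (ca a j.succ * (MvPolynomial.X (Vr.X j.succ) + MvPolynomial.X Vr.k))))
    have hk : ∀ l : Fin (d + 1), a2_B (d + 1) ((d + 1) * A * 2)
        (ca a l * (MvPolynomial.X (Vr.X l) + MvPolynomial.X Vr.k)) := by
      intro l
      refine a2_mono (a2_mul (hca l) (a2_add (a2_var _) (a2_var _))) (by omega) (by nlinarith)
    have h1 := a2_neg' (hk j.castSucc)
    have h2 := a2_mul (a2_var (Vr.b j.succ)) (hk (Fin.last d))
    have h3 := a2_mul (a2_var (Vr.z : Vr d)) (hk j.succ)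
    have h4 := a2_add (a2_sub h1 h2) h3
    have h5 := a2_sub (a2_C (σ := Vr d) (a j)) (a2_mul (a2_var (Vr.r : Vr d)) h4)
    refine a2_mono h5 (by omega) ?_
    have := ha j
    nlinarith
  | b l => exact h0
  | g => exact h0
  | k => exact h0
  | z => exact h0
  | r => exact h0

/-- A2a. PROOF. `der a p = ∑_m ∑_v c_m m_v X^(m - e_v) dv a v` over the monomials `m` of `p` and the variables `v`; `∑_v m_v ≤ n`, and
`mlen (ca a l) ≤ d A`, so `mlen (dv a v) ≤ 7 (d+1) A`; the degrees: `ca` has degree `≤ d`, `dv a v` has degree `≤ d + 3`, one variable is removed.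
Compare `a2_gen`, `Bd.der₁` in P/A2_Der (with the lemmas `mlen_add, mlen_mul, mlen_monomial` of P/A1_Len). -/
theorem der_bd (a : Fin d → ℤ) (A : ℝ) (hA : 1 ≤ A) (ha : ∀ j, |(a j : ℝ)| ≤ A) (n : ℕ) (H : ℝ) (p : MvPolynomial (Vr d) ℤ)
    (h1 : p.totalDegree ≤ n) (h2 : mlen p ≤ H) :
    (der a p).totalDegree ≤ n + (d + 3) ∧ mlen (der a p) ≤ 8 * (d + 1) * A * n * H := by
  classical
  have hA0 : 0 ≤ A := zero_le_one.trans hA
  have hc : (0 : ℝ) ≤ 8 * (d + 1) * A := by positivity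
  have key : ∀ m ∈ p.support, a2_B (n + (d + 3)) (|((p.coeff m : ℤ) : ℝ)| * (8 * (d + 1) * A * n))
      (der a (MvPolynomial.monomial m (p.coeff m))) := by
    intro m hm
    unfold der
    rw [MvPolynomial.mkDerivation_monomial, ← MvPolynomial.C_mul', Finsupp.sum]
    have hdeg : ∑ v ∈ m.support, m v ≤ n := (MvPolynomial.le_totalDegree hm).trans h1
    have hs : a2_B (n + (d + 3)) (∑ v ∈ m.support, (m v : ℝ) * (8 * (d + 1) * A))
        (∑ v ∈ m.support, (MvPolynomial.monomial (m - Finsupp.single v 1) ((m v : ℕ) : ℤ)) • dv a v) := by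
      refine a2_sum _ _ _ _ fun v _ => ?_
      rw [smul_eq_mul]
      have h3 : a2_B n (m v : ℝ)
          (MvPolynomial.monomial (m - Finsupp.single v 1) ((m v : ℕ) : ℤ) : MvPolynomial (Vr d) ℤ) := by
        refine ⟨(MvPolynomial.totalDegree_monomial_le _ _).trans ?_, ?_⟩
        · refine le_trans ?_ hdeg
          have e1 : (m - Finsupp.single v 1).sum (fun _ => id) = ∑ w, (m - Finsupp.single v 1 : Vr d →₀ ℕ) w :=
            Finsupp.sum_fintype _ _ (fun _ => rfl)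
          have e2 : ∑ w ∈ m.support, m w = ∑ w, m w := Finsupp.sum_fintype m (fun _ e => e) (fun _ => rfl)
          rw [e1, e2]
          refine Finset.sum_le_sum fun w _ => ?_
          rw [Finsupp.coe_tsub, Pi.sub_apply]
          exact Nat.sub_le _ _
        · rw [mlen_monomial]
          push_cast
          rw [abs_of_nonneg (Nat.cast_nonneg _)]
      exact a2_mul h3 (a2_dv a A hA ha v)
    have h4 := a2_mul (a2_C (σ := Vr d) (p.coeff m)) hs
    refine a2_mono h4 (by omega) ?_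
    refine mul_le_mul_of_nonneg_left ?_ (abs_nonneg _)
    rw [← Finset.sum_mul, mul_comm]
    refine mul_le_mul_of_nonneg_left ?_ hc
    exact_mod_cast hdeg
  have hsum := a2_sum p.support _ _ _ key
  rw [← map_sum, ← p.as_sum] at hsum
  refine ⟨hsum.1, hsum.2.trans ?_⟩
  rw [← Finset.sum_mul]
  have h7 : ∑ m ∈ p.support, |((p.coeff m : ℤ) : ℝ)| ≤ H := h2
  have h8 : (0 : ℝ) ≤ 8 * (d + 1) * A * n := mul_nonneg hc (Nat.cast_nonneg _)
  calc _ ≤ H * (8 * (d + 1) * A * n) := mul_le_mul_of_nonneg_right h7 h8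
    _ = _ := by ring

/-- the monomials have length `1`. -/
theorem a2_Mon {L : ℕ} (ν : Ix d L) : a2_B ((2 * d + 1) * L) 1 (Mon ν) := by
  unfold Mon
  have h1 := a2_prod (Finset.univ : Finset (Fin (d + 1)))
    (fun l => (MvPolynomial.X (Vr.X l) : MvPolynomial (Vr d) ℤ) ^ (ν.1 l).val) (fun _ => L) (fun l _ => by
      refine a2_mono (a2_pow (a2_var (Vr.X l)) (ν.1 l).val) ?_ le_rfl
      have := (ν.1 l).isLt
      omega)
  have h2 := a2_prod (Finset.univ : Finset (Fin d))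
    (fun j => (MvPolynomial.X (Vr.Q j) : MvPolynomial (Vr d) ℤ) ^ (ν.2 j).val) (fun _ => L) (fun j _ => by
      refine a2_mono (a2_pow (a2_var (Vr.Q j)) (ν.2 j).val) ?_ le_rfl
      have := (ν.2 j).isLt
      omega)
  refine a2_mono (a2_mul h1 h2) ?_ (by simp)
  rw [Finset.sum_const, Finset.sum_const, Finset.card_univ, Finset.card_univ, Fintype.card_fin, Fintype.card_fin,
    smul_eq_mul, smul_eq_mul]
  apply le_of_eq
  ring

/-- A2b. PROOF. Induction on `k` with A2a, starting with `Mon ν` (degree `≤ (2d+1)L`, length `1`); all factors are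
`≤ 8 (d+1) A ((2d+1)L + (d+3)T)` and this number is `≥ 1`. -/
theorem der_iter_Mon (a : Fin d → ℤ) (A : ℝ) (hA : 1 ≤ A) (ha : ∀ j, |(a j : ℝ)| ≤ A) {L : ℕ} (ν : Ix d L) (T k : ℕ) (hT : 1 ≤ T)
    (hk : k ≤ T) :
    ((der a)^[k] (Mon ν)).totalDegree ≤ (2 * d + 1) * L + (d + 3) * T ∧
      mlen ((der a)^[k] (Mon ν)) ≤ (8 * (d + 1) * A * ((2 * d + 1) * L + (d + 3) * T)) ^ T := by
  have hA0 : 0 ≤ A := zero_le_one.trans hA
  have hc : (0 : ℝ) ≤ 8 * (d + 1) * A := by positivity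
  have hT' : (1 : ℝ) ≤ T := by exact_mod_cast hT
  have hd : (0 : ℝ) ≤ d := Nat.cast_nonneg _
  have hL : (0 : ℝ) ≤ L := Nat.cast_nonneg _
  have hB1 : (1 : ℝ) ≤ 8 * (d + 1) * A * ((2 * d + 1) * L + (d + 3) * T) := by
    have h1 : (1 : ℝ) ≤ 8 * (d + 1) * A := by nlinarith [mul_nonneg hd hA0]
    have h2 : (1 : ℝ) ≤ (2 * d + 1) * L + (d + 3) * T := by
      have : (0 : ℝ) ≤ (2 * d + 1) * L := by positivity
      nlinarith
    exact one_le_mul_of_one_le_of_one_le h1 h2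
  have main : ∀ k, k ≤ T → ((der a)^[k] (Mon ν)).totalDegree ≤ (2 * d + 1) * L + (d + 3) * k ∧
      mlen ((der a)^[k] (Mon ν)) ≤ (8 * (d + 1) * A * ((2 * d + 1) * L + (d + 3) * T)) ^ k := by
    intro k
    induction k with
    | zero =>
      intro _
      rw [Function.iterate_zero, id_eq, pow_zero]
      exact ⟨(a2_Mon ν).1.trans (by omega), (a2_Mon ν).2⟩
    | succ k ih =>
      intro hk'
      obtain ⟨h1, h2⟩ := ih (by omega)
      rw [Function.iterate_succ_apply']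
      obtain ⟨h3, h4⟩ := der_bd a A hA ha _ _ _ h1 h2
      refine ⟨h3.trans (by rw [Nat.mul_succ]; omega), h4.trans ?_⟩
      rw [pow_succ]
      have h5 : 0 ≤ (8 * (d + 1) * A * ((2 * d + 1) * L + (d + 3) * T)) ^ k := pow_nonneg (zero_le_one.trans hB1) _
      rw [mul_comm (_ ^ k)]
      refine mul_le_mul_of_nonneg_right ?_ h5
      refine mul_le_mul_of_nonneg_left ?_ hc
      push_cast
      have h6 : (k : ℝ) ≤ T := by exact_mod_cast (by omega : k ≤ T)
      nlinarith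
  obtain ⟨h1, h2⟩ := main k hk
  refine ⟨h1.trans ?_, h2.trans (pow_le_pow_right₀ hB1 hk)⟩
  have := Nat.mul_le_mul_left (d + 3) hk
  omega

end Pool.Agent.MSK
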