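import Pool.Agent.Lib.MP_f58a57_nt.K.Defs
import Pool.Agent.Lib.MP_f58a57_nt.P.A6_Norm

/-! # K/A3_Norm: the norm lemma for an arbitrary finite set of variables -/

open Complex Filter Topology IntermediateField Polynomial

noncomputable section

namespace Pool.Agent.MSK

open MSD MSP

variable {d : ℕ}

theorem a3_mlen_rename {σ τ : Type*} (f : σ → τ) (hf : Function.Injective f) (P : MvPolynomial σ ℤ) :
    mlen (MvPolynomial.rename f P) = mlen P := by
  classical
  unfold mlen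
  rw [MvPolynomial.support_rename_of_injective hf, Finset.sum_image]
  · refine Finset.sum_congr rfl fun m _ => ?_
    rw [MvPolynomial.coeff_rename_mapDomain f hf]
  · intro a _ b _ h
    exact Finsupp.mapDomain_injective hf h

/-- A3a. PROOF. `norm_lemma` (P/A6_Norm) with `r = 0`, `s = card σ` and the polynomials renamed by an equivalence `σ ≃ Fin 0 ⊕ Fin s` (`MvPolynomial.rename`);
`Bd 0 l H` of the renamed polynomial: `∑ i : Fin 0 = 0`, the degree in the variables `inr` is the total degree (`MvPolynomial.le_totalDegree`), `mlen` is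
invariant under renaming by an equivalence. -/
theorem norm_lemma_fin {σ : Type} [Fintype σ] (ϑ : ℂ) (hϑ : Transcendental ℚ ϑ) (y : σ → ℂ)
    (hy : ∀ j, IsAlgebraic ℚ⟮ϑ⟯ (y j)) : ∃ C : ℝ, 1 ≤ C ∧
    ∀ (ι : Type) [Fintype ι] (l δ : ℕ) (H H' : ℝ) (p : ι → Polynomial ℤ) (Ξ : ι → MvPolynomial σ ℤ), 1 ≤ H → 1 ≤ H' →
      (∀ ν, (Ξ ν).totalDegree ≤ l ∧ mlen (Ξ ν) ≤ H) → (∀ ν, (p ν).natDegree ≤ δ) → (∀ ν, len (p ν) ≤ H') →
      ∑ ν, aeval ϑ (p ν) * MvPolynomial.aeval y (Ξ ν) ≠ 0 →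
      ∃ Q : Polynomial ℤ, aeval ϑ Q ≠ 0 ∧ (Q.natDegree : ℝ) ≤ C * (δ + l) ∧
        Real.log (len Q) ≤ C * (Real.log (Fintype.card ι * H * H') + (l + 1)) ∧
        Real.log ‖aeval ϑ Q‖ ≤ Real.log ‖∑ ν, aeval ϑ (p ν) * MvPolynomial.aeval y (Ξ ν)‖ +
          C * (Real.log (Fintype.card ι * H * H') + (l + δ + 1)) := by
  classical
  set e : σ ≃ Fin (Fintype.card σ) := Fintype.equivFin σ with he
  obtain ⟨C, hC1, hC⟩ := norm_lemma (r := 0) (s := Fintype.card σ) ϑ hϑ (fun i => i.elim0)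
    (fun j => y (e.symm j)) (fun i => i.elim0) (fun j => hy (e.symm j))
  refine ⟨C, hC1, ?_⟩
  intro ι _ l δ H H' p Ξ hH hH' hΞ hp hp' hne
  have hf : Function.Injective (fun a : σ => (Sum.inr (e a) : Fin 0 ⊕ Fin (Fintype.card σ))) := by
    intro a b hab
    exact e.injective (Sum.inr.inj hab)
  have hae : ∀ P : MvPolynomial σ ℤ,
      MvPolynomial.aeval (Sum.elim (fun i : Fin 0 => (i.elim0 : ℂ)) fun j => y (e.symm j))
        (MvPolynomial.rename (fun a : σ => (Sum.inr (e a) : Fin 0 ⊕ Fin (Fintype.card σ))) P) =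
        MvPolynomial.aeval y P := by
    intro P
    rw [MvPolynomial.aeval_rename]
    congr 2
    funext a
    simp
  have hBd : ∀ ν, Bd 0 l H (MvPolynomial.rename
      (fun a : σ => (Sum.inr (e a) : Fin 0 ⊕ Fin (Fintype.card σ))) (Ξ ν)) := by
    intro ν
    refine ⟨fun m _ => by simp, fun m hm => ?_, ?_⟩
    · rw [MvPolynomial.support_rename_of_injective hf, Finset.mem_image] at hm
      obtain ⟨n, hn, rfl⟩ := hm
      have h1 : ∑ j : Fin (Fintype.card σ), (Finsupp.mapDomain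
          (fun a : σ => (Sum.inr (e a) : Fin 0 ⊕ Fin (Fintype.card σ))) n) (Sum.inr j) =
          ∑ a : σ, n a := by
        rw [← Equiv.sum_comp e]
        refine Finset.sum_congr rfl fun a _ => ?_
        exact Finsupp.mapDomain_apply hf n a
      rw [h1]
      have h2 := MvPolynomial.le_totalDegree hn
      have h3 : (n.sum fun _ k => k) = ∑ a : σ, n a :=
        Finsupp.sum_fintype n _ (fun _ => rfl)
      rw [h3] at h2
      exact h2.trans (hΞ ν).1
    · rw [a3_mlen_rename _ hf]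
      exact (hΞ ν).2
  have key := hC ι 0 l δ H H' p (fun ν => MvPolynomial.rename
      (fun a : σ => (Sum.inr (e a) : Fin 0 ⊕ Fin (Fintype.card σ))) (Ξ ν)) hH hH' hBd hp hp' (by
        simp only [hae]
        exact hne)
  simp only [hae] at key
  obtain ⟨Q, h1, h2, h3, h4⟩ := key
  refine ⟨Q, h1, h2, ?_, ?_⟩
  · simpa using h3
  · simpa using h4

end Pool.Agent.MSK
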