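import Pool.Agent.Lib.MP_f58a57_nt.K.Defs
import Pool.Agent.Lib.MP_f58a57_nt.P.A6_Norm
import Pool.Agent.Lib.MP_f58a57_nt.P.F3_Special

/-! # K/A3b_Liou: Liouville inequality -/

open Complex Filter Topology IntermediateField Polynomial

noncomputable section

namespace Pool.Agent.MSK

open MSD MSP

variable {d : ℕ}

theorem a3b_trans : Transcendental ℚ ((liouvilleNumber ((2 : ℕ) : ℝ) : ℝ) : ℂ) := by
  have hL : Transcendental ℤ (liouvilleNumber ((2 : ℕ) : ℝ)) := transcendental_liouvilleNumber le_rfl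
  have hL2 : Transcendental ℚ (liouvilleNumber ((2 : ℕ) : ℝ)) := by
    intro h'
    exact hL ((IsFractionRing.isAlgebraic_iff ℤ ℚ ℝ).mpr h')
  intro h'
  exact hL2 ((isAlgebraic_algebraMap_iff (algebraMap ℝ ℂ).injective).1 h')

/-- A3b, Liouville's inequality. PROOF. `norm_lemma` with `r = 1`, `s = 0`, `x = z`, any transcendental `ϑ` (one exists, e.g. by `MSP.exists_theta` or
cardinality), `ι = Unit`, `p = 1`, `δ = l = 0`, `D = d`, `H = (d+1) B`, `H' = 1`, `Ξ = ∑ x_l X^l`: the polynomial `Q` has degree `≤ C · 0 = 0`, so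
`Q(ϑ)` is a nonzero integer and `0 ≤ log ‖∑ x_l z^l‖ + C (log ((d+1) B) + d + 1)`. -/
theorem liouville (z : ℂ) (hz : IsAlgebraic ℚ z) (d : ℕ) : ∃ C : ℝ, 1 ≤ C ∧ ∀ (B : ℝ) (x : Fin (d + 1) → ℤ), 1 ≤ B →
    (∀ l, |(x l : ℝ)| ≤ B) → ∑ l : Fin (d + 1), (x l : ℂ) * z ^ l.val ≠ 0 →
    Real.exp (-(C * (1 + Real.log B))) ≤ ‖∑ l : Fin (d + 1), (x l : ℂ) * z ^ l.val‖ := by
  obtain ⟨C, hC1, hC⟩ := norm_lemma (r := 1) (s := 0) _ a3b_trans (fun _ => z) Fin.elim0 (fun _ => hz)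
    (fun j => Fin.elim0 j)
  have hlog : 0 ≤ Real.log ((d : ℝ) + 1) := Real.log_nonneg (by linarith [(Nat.cast_nonneg d : (0 : ℝ) ≤ d)])
  have hd0 : (0 : ℝ) ≤ d := Nat.cast_nonneg d
  refine ⟨C * (Real.log ((d : ℝ) + 1) + d + 1), ?_, ?_⟩
  · nlinarith
  intro B x hB hx hne
  have hB0 : 0 ≤ Real.log B := Real.log_nonneg hB
  set Ξ : MvPolynomial (Fin 1 ⊕ Fin 0) ℤ :=
    ∑ l : Fin (d + 1), MvPolynomial.monomial (Finsupp.single (Sum.inl 0) l.val) (x l) with hΞ
  have hsupp : ∀ m ∈ Ξ.support, ∃ l : Fin (d + 1), m = Finsupp.single (Sum.inl 0) l.val := by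
    intro m hm
    have h1 := MvPolynomial.support_sum hm
    rw [Finset.mem_biUnion] at h1
    obtain ⟨l, -, hl⟩ := h1
    have h2 := MvPolynomial.support_monomial_subset hl
    rw [Finset.mem_singleton] at h2
    exact ⟨l, h2⟩
  have hev : MvPolynomial.aeval (Sum.elim (fun _ : Fin 1 => z) (Fin.elim0 : Fin 0 → ℂ)) Ξ
      = ∑ l : Fin (d + 1), (x l : ℂ) * z ^ l.val := by
    rw [hΞ, map_sum]
    refine Finset.sum_congr rfl fun l _ => ?_
    rw [MvPolynomial.aeval_monomial, Finsupp.prod_single_index (by simp)]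
    simp
  have hBd : Bd d 0 (((d : ℝ) + 1) * B) Ξ := by
    refine ⟨?_, ?_, ?_⟩
    · intro m hm
      obtain ⟨l, rfl⟩ := hsupp m hm
      simp only [Finset.univ_unique, Finset.sum_singleton]
      have : (Finsupp.single (Sum.inl 0 : Fin 1 ⊕ Fin 0) l.val) (Sum.inl default) = l.val := by
        rw [Subsingleton.elim (default : Fin 1) 0, Finsupp.single_eq_same]
      rw [this]
      omega
    · intro m _
      simp
    · refine (mlen_sum _ _).trans ?_
      calc ∑ l : Fin (d + 1), mlen (MvPolynomial.monomial (Finsupp.single (Sum.inl 0 : Fin 1 ⊕ Fin 0) l.val) (x l))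
          ≤ ∑ _l : Fin (d + 1), B := Finset.sum_le_sum fun l _ => by
            rw [mlen_monomial]
            exact hx l
        _ = ((d : ℝ) + 1) * B := by
            rw [Finset.sum_const, Finset.card_univ, Fintype.card_fin, nsmul_eq_mul]
            push_cast
            ring
  have hH : 1 ≤ ((d : ℝ) + 1) * B := by nlinarith
  obtain ⟨Q, hQ0, hQd, -, hQn⟩ := hC Unit d 0 0 (((d : ℝ) + 1) * B) 1 (fun _ => 1) (fun _ => Ξ) hH le_rfl
    (fun _ => hBd) (fun _ => by simp) (fun _ => by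
      have h1 := len_C 1
      simpa using h1.le) (by
      simp only [Finset.univ_unique, Finset.sum_singleton, map_one, one_mul, hev]
      exact hne)
  simp only [Finset.univ_unique, Finset.sum_singleton, map_one, one_mul, hev, Fintype.card_unit, Nat.cast_one,
    mul_one, Nat.cast_zero, add_zero, mul_zero] at hQn hQd
  have hQd0 : Q.natDegree = 0 := by
    have h1 : (Q.natDegree : ℝ) ≤ 0 := by simpa using hQd
    exact_mod_cast le_antisymm h1 (Nat.cast_nonneg _)
  obtain ⟨a, rfl⟩ : ∃ a : ℤ, Q = Polynomial.C a := ⟨_, Polynomial.eq_C_of_natDegree_eq_zero hQd0⟩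
  have ha0 : a ≠ 0 := by
    rintro rfl
    simp at hQ0
  have hlog0 : 0 ≤ Real.log ‖aeval ((liouvilleNumber ((2 : ℕ) : ℝ) : ℝ) : ℂ) (Polynomial.C a : Polynomial ℤ)‖ := by
    apply Real.log_nonneg
    have h1 : aeval ((liouvilleNumber ((2 : ℕ) : ℝ) : ℝ) : ℂ) (Polynomial.C a : Polynomial ℤ) = (a : ℂ) := by
      rw [Polynomial.aeval_C]
      simp
    rw [h1, Complex.norm_intCast]
    exact_mod_cast Int.one_le_abs ha0
  have hpos : 0 < ‖∑ l : Fin (d + 1), (x l : ℂ) * z ^ l.val‖ := norm_pos_iff.2 hne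
  rw [← Real.le_log_iff_exp_le hpos]
  have hlB : Real.log (((d : ℝ) + 1) * B) = Real.log ((d : ℝ) + 1) + Real.log B :=
    Real.log_mul (by positivity) (by positivity)
  rw [hlB] at hQn
  have hkey : C * (Real.log ((d : ℝ) + 1) + Real.log B + (d + 1)) ≤
      C * (Real.log ((d : ℝ) + 1) + d + 1) * (1 + Real.log B) := by
    have hC0 : 0 ≤ C := by linarith
    rw [mul_assoc]
    apply mul_le_mul_of_nonneg_left _ hC0
    nlinarith [mul_nonneg hlog hB0, mul_nonneg hd0 hB0]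
  linarith

end Pool.Agent.MSK
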