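import Pool.Agent.Lib.MP_f58a57_nt.K.Defs
import Pool.Agent.Lib.MP_f58a57_nt.P.E1_Dup

/-! # K/A4_Gmon: the entire version of the monomials -/

open Complex

noncomputable section

namespace Pool.Agent.MSK

open MSD MSP

variable {d : ℕ}

theorem a4_ps (D : Dt d) (t : Fin (d + 1) → ℂ) (h : pp D t ≠ 0) (l : Fin (d + 1)) :
    D.ps l (t l) * pp D t = En D t l := by
  have h0 : N0 D.τ (D.h l + t l) ≠ 0 := (Finset.prod_ne_zero_iff.mp h) l (Finset.mem_univ l)
  unfold pp En
  rw [← Finset.mul_prod_erase Finset.univ (fun m => N0 D.τ (D.h m + t m)) (Finset.mem_univ l), ← mul_assoc]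
  congr 1
  unfold Dt.ps
  rw [show ph D.τ (D.h l + t l) = N1 D.τ (D.h l + t l) / N0 D.τ (D.h l + t l) from rfl]
  field_simp

theorem a4_Xi (P : Par d) (D : Dt d) (w : Fin d → ℂ) (t : Fin (d + 1) → ℂ) (h : pp D t ≠ 0) (j : Fin d) :
    Xi P D w t j * pp D t = Zn P D w t j := by
  unfold Xi Zn
  rw [← a4_ps D t h j.castSucc, ← a4_ps D t h (Fin.last d), ← a4_ps D t h j.succ]
  ring

/-- A4a. PROOF. `X l = N2/(N0² om²)`, `ps l = (N1 - ph(h) N0)/N0`, so `En l = ps l · pp`, `Zn j = Xi j · pp`; count the exponents of `N0 (h_l + t_l)`: `2 a + 2 (L - a) = 2L` from the first product and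
`L` from each of the `d` factors `Zn^i pp^(L-i)`. -/
theorem gmon_eq (P : Par d) (D : Dt d) {L : ℕ} (ν : Ix d L) (w : Fin d → ℂ) (t : Fin (d + 1) → ℂ) (h : pp D t ≠ 0) :
    mon P D ν w t * pp D t ^ ((d + 2) * L) = gmon P D ν w t := by
  have e1 : pp D t ^ ((d + 2) * L) = (∏ l, N0 D.τ (D.h l + t l) ^ (2 * L)) * ∏ _j : Fin d, pp D t ^ L := by
    rw [Finset.prod_const, Finset.card_univ, Fintype.card_fin, Finset.prod_pow, ← pow_mul]
    rw [show (∏ l, N0 D.τ (D.h l + t l)) = pp D t from rfl, ← pow_add]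
    congr 1
    ring
  unfold mon gmon
  rw [e1, mul_mul_mul_comm, ← Finset.prod_mul_distrib, ← Finset.prod_mul_distrib]
  congr 1
  · refine Finset.prod_congr rfl (fun l _ => ?_)
    have h0 : N0 D.τ (D.h l + t l) ≠ 0 := (Finset.prod_ne_zero_iff.mp h) l (Finset.mem_univ l)
    have ha : (ν.1 l).val ≤ L := (ν.1 l).isLt.le
    have hp : N0 D.τ (D.h l + t l) ^ (2 * L) = (N0 D.τ (D.h l + t l) ^ 2) ^ (ν.1 l).val *
        N0 D.τ (D.h l + t l) ^ (2 * (L - (ν.1 l).val)) := by
      rw [← pow_mul, ← pow_add]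
      congr 1
      omega
    rw [hp, ← mul_assoc, ← mul_pow]
    congr 2
    unfold Dt.X
    rw [show wp D.τ (sE D.τ) (D.h l + t l) = N2 D.τ (sE D.τ) (D.h l + t l) / N0 D.τ (D.h l + t l) ^ 2 from rfl]
    field_simp
  · refine Finset.prod_congr rfl (fun j _ => ?_)
    have hi : (ν.2 j).val ≤ L := (ν.2 j).isLt.le
    have hp : pp D t ^ L = pp D t ^ (ν.2 j).val * pp D t ^ (L - (ν.2 j).val) := by
      rw [← pow_add]
      congr 1
      omega
    rw [hp, ← mul_assoc, ← mul_pow, a4_Xi P D w t h j]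

theorem a4_prod {ι : Type*} [DecidableEq ι] (S : Finset ι) (f : ι → (Fin d → ℂ) → ℂ) (h : ∀ i ∈ S, Differentiable ℂ (f i)) :
    Differentiable ℂ (fun v : Fin d → ℂ => ∏ i ∈ S, f i v) := by
  induction S using Finset.induction_on with
  | empty => simp
  | insert a S ha ih =>
    simp only [Finset.prod_insert ha]
    exact (h a (Finset.mem_insert_self a S)).mul (ih (fun i hi => h i (Finset.mem_insert_of_mem hi)))

theorem a4_tt (z : ℂ) (l : Fin (d + 1)) : Differentiable ℂ (fun v : Fin d → ℂ => tt z v l) := by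
  refine Fin.cases ?_ (fun j => ?_) l
  · simp only [tt, Fin.cons_zero]
    fun_prop
  · simp only [tt, Fin.cons_succ]
    fun_prop

theorem a4_pp (P : Par d) (D : Dt d) : Differentiable ℂ (fun v : Fin d → ℂ => pp D (tt P.z v)) := by
  unfold pp
  refine a4_prod _ _ (fun l _ => ?_)
  exact (e1_N0_diff D.τ D.im).comp ((a4_tt P.z l).const_add (D.h l))

theorem a4_En (P : Par d) (D : Dt d) (l : Fin (d + 1)) :
    Differentiable ℂ (fun v : Fin d → ℂ => En D (tt P.z v) l) := by
  unfold En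
  have h1 : Differentiable ℂ (fun v : Fin d → ℂ => N1 D.τ (D.h l + tt P.z v l)) :=
    (e1_N1_diff D.τ D.im).comp ((a4_tt P.z l).const_add (D.h l))
  have h0 : ∀ m : Fin (d + 1), Differentiable ℂ (fun v : Fin d → ℂ => N0 D.τ (D.h m + tt P.z v m)) :=
    fun m => (e1_N0_diff D.τ D.im).comp ((a4_tt P.z m).const_add (D.h m))
  refine (h1.sub ((h0 l).const_mul _)).mul ?_
  exact a4_prod _ _ (fun m _ => h0 m)

theorem a4_Zn (P : Par d) (D : Dt d) (j : Fin d) :
    Differentiable ℂ (fun v : Fin d → ℂ => Zn P D v (tt P.z v) j) := by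
  unfold Zn As
  have hA : Differentiable ℂ (fun v : Fin d → ℂ => tt P.z v j.succ + D.s * (tt P.z v j.castSucc +
      P.b j.succ * tt P.z v (Fin.last d) - P.z * tt P.z v j.succ)) := by
    have h1 := a4_tt (d := d) P.z j.succ
    have h2 := a4_tt (d := d) P.z j.castSucc
    have h3 := a4_tt (d := d) P.z (Fin.last d)
    exact h1.add (((h2.add (h3.const_mul _)).sub (h1.const_mul _)).const_mul _)
  refine ((hA.const_mul _).mul (a4_pp P D)).sub (Differentiable.const_mul ?_ _)
  exact ((a4_En P D _).add ((a4_En P D _).const_mul _)).sub ((a4_En P D _).const_mul _)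

/-- A4b. the entire function on `V` -/
theorem gmon_differentiable (P : Par d) (D : Dt d) {L : ℕ} (ν : Ix d L) :
    Differentiable ℂ (fun v : Fin d → ℂ => gmon P D ν v (tt P.z v)) := by
  unfold gmon
  refine Differentiable.mul ?_ ?_
  · refine a4_prod _ _ (fun l _ => ?_)
    have h2 : Differentiable ℂ (fun v : Fin d → ℂ => N2 D.τ (sE D.τ) (D.h l + tt P.z v l)) :=
      (e1_N2_diff D.τ (sE D.τ) D.im).comp ((a4_tt P.z l).const_add (D.h l))
    have h0 : Differentiable ℂ (fun v : Fin d → ℂ => N0 D.τ (D.h l + tt P.z v l)) :=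
      (e1_N0_diff D.τ D.im).comp ((a4_tt P.z l).const_add (D.h l))
    have h2' : Differentiable ℂ (fun v : Fin d → ℂ => N2 D.τ (sE D.τ) (D.h l + tt P.z v l) / D.om ^ 2) := by
      simp only [div_eq_mul_inv]
      exact h2.mul_const _
    exact (h2'.pow _).mul (h0.pow _)
  · refine a4_prod _ _ (fun j _ => ?_)
    exact ((a4_Zn P D j).pow _).mul ((a4_pp P D).pow _)

theorem pp_differentiable (P : Par d) (D : Dt d) : Differentiable ℂ (fun v : Fin d → ℂ => pp D (tt P.z v)) := by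
  exact a4_pp P D

theorem pp_zero_ne (D : Dt d) : pp D 0 ≠ 0 := by
  unfold pp
  refine Finset.prod_ne_zero_iff.mpr (fun l _ => ?_)
  simpa [N0] using D.hh l

end Pool.Agent.MSK
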