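import Pool.Agent.Lib.MP_f58a57_nt.K.Defs
import Mathlib.FieldTheory.RatFunc.AsPolynomial

/-! # K/B1_Embed: embeddings of the algebraic closure of `ℚ(θ)` which move `θ` -/

open Complex IntermediateField

noncomputable section

namespace Pool.Agent.MSK

open MSD MSP

variable {d : ℕ}

/-- the field of algebraic numbers -/
abbrev b1_k : IntermediateField ℚ ℂ := algebraicClosure ℚ ℂ

theorem b1_trans {θ : ℂ} (h : Transcendental ℚ θ) : Transcendental b1_k θ := by
  intro hθ
  have hk : Algebra.IsAlgebraic ℚ b1_k := algebraicClosure.isAlgebraic ℚ ℂ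
  exact h (hθ.restrictScalars ℚ)

/-- the isomorphism of `k(θ)` with `k(θ')` -/
theorem b1_hom {θ θ' : ℂ} (h : Transcendental b1_k θ) (h' : Transcendental b1_k θ') :
    ∃ f : b1_k⟮θ⟯ →ₐ[b1_k] ℂ, f (AdjoinSimple.gen b1_k θ) = θ' := by
  let e := RatFunc.algEquivOfTranscendental θ h
  let e' := RatFunc.algEquivOfTranscendental θ' h'
  refine ⟨(b1_k⟮θ'⟯.val).comp (e'.toAlgHom.comp e.symm.toAlgHom), ?_⟩
  have h1 : e.symm (AdjoinSimple.gen b1_k θ) = RatFunc.X := by
    rw [AlgEquiv.symm_apply_eq]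
    exact Subtype.ext (RatFunc.algEquivOfTranscendental_X θ h).symm
  have h2 : e' RatFunc.X = AdjoinSimple.gen b1_k θ' := Subtype.ext (RatFunc.algEquivOfTranscendental_X θ' h')
  change ((e' (e.symm (AdjoinSimple.gen b1_k θ)) : b1_k⟮θ'⟯) : ℂ) = θ'
  rw [h1, h2]
  rfl

theorem b1_alg {θ x : ℂ} (h : IsAlgebraic ℚ⟮θ⟯ x) : IsAlgebraic b1_k⟮θ⟯ x := by
  have hle : ℚ⟮θ⟯ ≤ (b1_k⟮θ⟯).restrictScalars ℚ := by
    rw [adjoin_simple_le_iff]
    exact mem_adjoin_simple_self b1_k θ
  obtain ⟨p, hp, hx⟩ := h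
  let j : ℚ⟮θ⟯ →+* b1_k⟮θ⟯ := (IntermediateField.inclusion hle).toRingHom
  refine ⟨p.map j, ?_, ?_⟩
  · rwa [Polynomial.map_ne_zero_iff j.injective]
  · rw [Polynomial.aeval_def, Polynomial.eval₂_map]
    exact hx

/-- extension of an embedding of a subfield to a field of algebraic elements -/
private theorem b1_ext {k L M : Type*} [Field k] [Field L] [Field M] [IsAlgClosed M] [Algebra k L] [Algebra L M] [Algebra k M]
    [IsScalarTower k L M] (f : L →ₐ[k] M) (K : Subfield M) (hK : ∀ x : K, IsAlgebraic L (x : M)) :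
    ∃ g : K →+* M, (∀ (x : K) (l : L), (x : M) = algebraMap L M l → g x = f l) ∧
      ∀ (x : K) (c : k), (x : M) = algebraMap k M c → g x = algebraMap k M c := by
  let E := algebraicClosure L M
  obtain ⟨φ, hφ⟩ := IsAlgClosed.surjective_domRestrict_of_isAlgebraic (K := k) (L := L) (M := M) (E := E) f
  have hmem : ∀ x : K, (x : M) ∈ E := fun x => mem_algebraicClosure_iff.mpr (hK x)
  let i : K →+* E := RingHom.codRestrict (SubringClass.subtype K) E hmem
  have h3 : ∀ (x : K) (l : L), (x : M) = algebraMap L M l → φ (i x) = f l := by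
    intro x l hx
    have h1 : i x = algebraMap L E l := Subtype.ext hx
    rw [h1, ← hφ]
    rfl
  refine ⟨(φ : E →+* M).comp i, h3, ?_⟩
  intro x c hx
  have h4 := h3 x (algebraMap k L c) (by rw [hx, IsScalarTower.algebraMap_apply k L M])
  change φ (i x) = _
  rw [h4, f.commutes]

/-- B1. PROOF. Let `k = algebraicClosure ℚ ℂ`. `θ, θ'` are transcendental over `k` (`Transcendental` over `ℚ` and `k/ℚ` algebraic). So there is a `k`-algebra
homomorphism `k⟮θ⟯ → ℂ` with `θ ↦ θ'`: `k⟮θ⟯` is the field of fractions of `k[θ] ≅ k[X]` (evaluation at `θ` is injective on `k[X]`; every element of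
`k⟮θ⟯` is `r(θ)/s(θ)`, `IntermediateField.mem_adjoin_simple_iff`; or lift the injective map `k[X] → ℂ`, `X ↦ θ'` to `RatFunc k`/the fraction field,
`IsFractionRing.lift`, and identify `RatFunc k ≃ k⟮θ⟯`; or use `AlgebraicIndependent.aevalEquivField` for the one-element family). Every element of `Kc θ` is
algebraic over `k⟮θ⟯`, and `ℂ` is algebraically closed, so the map extends to the algebraic closure of `k⟮θ⟯` in `ℂ`
(`IsAlgClosed.lift`, with the algebra structure on `ℂ` given by the homomorphism), restrict it to `Kc θ`. -/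
theorem exists_emb (θ θ' : ℂ) (h : Transcendental ℚ θ) (h' : Transcendental ℚ θ') : Nonempty (Emb θ θ') := by
  obtain ⟨f, hf⟩ := b1_hom (b1_trans h) (b1_trans h')
  obtain ⟨g, hg1, hg2⟩ := b1_ext f (Kc θ).toSubfield (fun x => b1_alg (mem_algebraicClosure_iff.mp x.2))
  refine ⟨⟨g, ?_, ?_⟩⟩
  · intro x hx
    rw [← hf]
    exact hg1 x _ hx
  · intro x hx
    exact hg2 x ⟨x, mem_algebraicClosure_iff.mpr hx⟩ rfl

end Pool.Agent.MSK
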