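import Pool.Agent.Lib.MP_f58a57_nt.K.Defs
import Pool.Agent.Lib.MP_f58a57_nt.P.A4b_Rep

/-! # K/B2_Grow: growth of algebraic functions -/

open Complex IntermediateField

noncomputable section

namespace Pool.Agent.MSK

open MSD MSP

variable {d : ℕ}

/-- an equation of `x` over `ℤ[θ]` -/
theorem b2_rel (θ : ℂ) (x : Kc θ) : ∃ (n : ℕ) (g : ℕ → Polynomial ℤ), 1 ≤ n ∧
    Polynomial.aeval θ (g n) ≠ 0 ∧
    ∑ i ∈ Finset.range (n + 1), Polynomial.aeval θ (g i) * (x : ℂ) ^ i = 0 := by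
  have halg : IsAlgebraic ℚ⟮θ⟯ (x : ℂ) := mem_algebraicClosure_iff.1 x.2
  have hint : IsIntegral ℚ⟮θ⟯ (x : ℂ) := halg.isIntegral
  set P := minpoly ℚ⟮θ⟯ (x : ℂ) with hP
  have hn : 1 ≤ P.natDegree := minpoly.natDegree_pos hint
  obtain ⟨h, hh, g, hg⟩ := a4b_many θ (fun i : Fin (P.natDegree + 1) => P.coeff i)
  refine ⟨P.natDegree, fun i => if hi : i < P.natDegree + 1 then g ⟨i, hi⟩ else 0, hn, ?_, ?_⟩
  · simp only [Nat.lt_succ_self, dif_pos]
    rw [hg]
    have h1 : P.coeff P.natDegree = 1 := (minpoly.monic hint)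
    simp only [h1]
    simpa using hh
  · have h2 : ∀ i ∈ Finset.range (P.natDegree + 1),
        Polynomial.aeval θ (if hi : i < P.natDegree + 1 then g ⟨i, hi⟩ else 0) * (x : ℂ) ^ i =
        Polynomial.aeval θ h * ((P.coeff i : ℂ) * (x : ℂ) ^ i) := by
      intro i hi
      rw [dif_pos (Finset.mem_range.1 hi), hg]
      ring
    rw [Finset.sum_congr rfl h2, ← Finset.mul_sum]
    have h3 : Polynomial.aeval (x : ℂ) P = 0 := minpoly.aeval _ _
    rw [Polynomial.aeval_eq_sum_range] at h3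
    have h4 : ∑ i ∈ Finset.range (P.natDegree + 1), (P.coeff i : ℂ) * (x : ℂ) ^ i = 0 := by
      rw [← h3]
      refine Finset.sum_congr rfl fun i _ => ?_
      rw [Algebra.smul_def]
      rfl
    rw [h4, mul_zero]

/-- a nonzero integral polynomial is at least `1` in absolute value near infinity -/
theorem b2_low (p : Polynomial ℤ) (hp : p ≠ 0) : ∃ R : ℝ, ∀ z : ℂ, R ≤ ‖z‖ →
    1 ≤ ‖Polynomial.aeval z p‖ := by
  set q : Polynomial ℂ := p.map (algebraMap ℤ ℂ) with hq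
  have hinj : Function.Injective (algebraMap ℤ ℂ) := by
    rw [algebraMap_int_eq]
    exact Int.cast_injective
  have hev : ∀ z : ℂ, Polynomial.aeval z p = q.eval z := by
    intro z
    rw [hq, Polynomial.eval_map_algebraMap]
  rcases Nat.eq_zero_or_pos p.natDegree with h0 | h0
  · obtain ⟨a, ha⟩ := Polynomial.natDegree_eq_zero.1 h0
    refine ⟨0, fun z _ => ?_⟩
    rw [← ha, Polynomial.aeval_C, algebraMap_int_eq, eq_intCast]
    have ha0 : a ≠ 0 := by
      rintro rfl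
      exact hp (by rw [← ha, map_zero])
    have h1 : (1 : ℤ) ≤ |a| := Int.one_le_abs ha0
    rw [Complex.norm_intCast]
    exact_mod_cast h1
  · have hdeg : 0 < q.degree := by
      rw [hq, Polynomial.degree_map_eq_of_injective hinj]
      exact Polynomial.natDegree_pos_iff_degree_pos.1 h0
    have ht := Polynomial.tendsto_norm_atTop q hdeg (l := Bornology.cobounded ℂ) (z := id)
      tendsto_norm_cobounded_atTop
    have h2 := ht.eventually_ge_atTop 1
    obtain ⟨R, -, hR⟩ := (Filter.hasBasis_cobounded_norm (E := ℂ)).eventually_iff.1 h2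
    refine ⟨R, fun z hz => ?_⟩
    rw [hev]
    exact hR hz

theorem b2_up (p : Polynomial ℤ) : ∃ A : ℝ, ∀ m : ℕ, p.natDegree ≤ m → ∀ z : ℂ, 1 ≤ ‖z‖ →
    ‖Polynomial.aeval z p‖ ≤ A * ‖z‖ ^ m := by
  refine ⟨∑ i ∈ Finset.range (p.natDegree + 1), ‖((p.coeff i : ℤ) : ℂ)‖, fun m hm z hz => ?_⟩
  rw [Polynomial.aeval_eq_sum_range, Finset.sum_mul]
  refine (norm_sum_le _ _).trans (Finset.sum_le_sum fun i hi => ?_)
  rw [zsmul_eq_mul, norm_mul, norm_pow]
  have h1 : i ≤ m := (Nat.lt_succ_iff.1 (Finset.mem_range.1 hi)).trans hm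
  exact mul_le_mul_of_nonneg_left (pow_le_pow_right₀ hz h1) (norm_nonneg _)

theorem b2_root {n : ℕ} (hn : 1 ≤ n) (a : ℕ → ℂ) (y : ℂ) (B : ℝ) (hB : 1 ≤ B) (ha : 1 ≤ ‖a n‖)
    (haB : ∀ i < n, ‖a i‖ ≤ B) (h : ∑ i ∈ Finset.range (n + 1), a i * y ^ i = 0) :
    ‖y‖ ≤ n * B := by
  have hn' : (1 : ℝ) ≤ n := by exact_mod_cast hn
  by_cases hy : ‖y‖ ≤ 1
  · nlinarith
  push Not at hy
  rw [Finset.sum_range_succ] at h
  have h1 : a n * y ^ n = -∑ i ∈ Finset.range n, a i * y ^ i := by linear_combination h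
  have h2 : ‖y‖ ^ n ≤ n * B * ‖y‖ ^ (n - 1) := by
    calc ‖y‖ ^ n ≤ ‖a n‖ * ‖y‖ ^ n := le_mul_of_one_le_left (by positivity) ha
      _ = ‖∑ i ∈ Finset.range n, a i * y ^ i‖ := by rw [← norm_pow, ← norm_mul, h1, norm_neg]
      _ ≤ ∑ i ∈ Finset.range n, ‖a i * y ^ i‖ := norm_sum_le _ _
      _ ≤ ∑ i ∈ Finset.range n, B * ‖y‖ ^ (n - 1) := by
          refine Finset.sum_le_sum fun i hi => ?_
          have hi' := Finset.mem_range.1 hi
          rw [norm_mul, norm_pow]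
          exact mul_le_mul (haB i hi') (pow_le_pow_right₀ hy.le (by omega)) (by positivity)
            (by linarith)
      _ = n * B * ‖y‖ ^ (n - 1) := by
          rw [Finset.sum_const, Finset.card_range, nsmul_eq_mul]
          ring
  have h3 : ‖y‖ ^ n = ‖y‖ * ‖y‖ ^ (n - 1) := by
    rw [← pow_succ']
    congr 1
    omega
  rw [h3] at h2
  exact le_of_mul_le_mul_right h2 (by positivity)

/-- B2. PROOF. `x` is a root of a polynomial `∑_k p_k(θ) X^k`, `p_k ∈ ℤ[T]`, with `p_n(θ) ≠ 0` for the highest `n` (`n ≥ 1`; clear the denominators of the minimal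
polynomial over `ℚ(θ)`). Apply `σ`: `∑ p_k(θ') (σx)^k = 0`. For `‖θ'‖` large `‖p_n(θ')‖ ≥ c > 0` (a nonzero polynomial is bounded below near infinity) and
`‖p_k(θ')‖ ≤ C ‖θ'‖^m`; so `‖σx‖ ≤ 1 + ∑_{k<n} ‖p_k(θ')‖/‖p_n(θ')‖ ≤ ‖θ'‖^(m+1)`. -/
theorem emb_growth (θ : ℂ) (h : Transcendental ℚ θ) (x : Kc θ) : ∃ (C : ℕ) (R : ℝ), 1 ≤ R ∧ ∀ (θ' : ℂ) (e : Emb θ θ'), R ≤ ‖θ'‖ →
    ‖e.σ x‖ ≤ ‖θ'‖ ^ C := by
  obtain ⟨n, g, hn, hgn, hrel⟩ := b2_rel θ x
  have hgn0 : g n ≠ 0 := by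
    intro h0
    rw [h0, map_zero] at hgn
    exact hgn rfl
  obtain ⟨R₀, hR₀⟩ := b2_low (g n) hgn0
  choose A hA using fun i => b2_up (g i)
  set m := (Finset.range n).sup (fun i => (g i).natDegree) with hm
  have hmi : ∀ i < n, (g i).natDegree ≤ m := fun i hi =>
    Finset.le_sup (f := fun i => (g i).natDegree) (Finset.mem_range.2 hi)
  set A' : ℝ := 1 + ∑ i ∈ Finset.range n, |A i| with hA'
  have hAi : ∀ i < n, A i ≤ A' := by
    intro i hi
    have h1 : |A i| ≤ ∑ i ∈ Finset.range n, |A i| :=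
      Finset.single_le_sum (f := fun i => |A i|) (fun _ _ => abs_nonneg _) (Finset.mem_range.2 hi)
    have h2 := le_abs_self (A i)
    linarith
  have hA1 : 1 ≤ A' := by
    have : 0 ≤ ∑ i ∈ Finset.range n, |A i| := Finset.sum_nonneg fun _ _ => abs_nonneg _
    linarith
  refine ⟨m + 1, max 1 (max R₀ (n * A')), le_max_left _ _, fun θ' e hθ' => ?_⟩
  have h1 : 1 ≤ ‖θ'‖ := (le_max_left _ _).trans hθ'
  have h2 : R₀ ≤ ‖θ'‖ := ((le_max_left _ _).trans (le_max_right _ _)).trans hθ'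
  have h3 : n * A' ≤ ‖θ'‖ := ((le_max_right _ _).trans (le_max_right _ _)).trans hθ'
  -- the equation of `σ x`
  have hθmem : θ ∈ Kc θ := by
    rw [mem_algebraicClosure_iff]
    exact isAlgebraic_algebraMap (⟨θ, IntermediateField.mem_adjoin_simple_self ℚ θ⟩ : ℚ⟮θ⟯)
  set θK : Kc θ := ⟨θ, hθmem⟩ with hθK
  have hcoe : ∀ p : Polynomial ℤ, ((Polynomial.aeval θK p : Kc θ) : ℂ) = Polynomial.aeval θ p := by
    intro p
    rw [Polynomial.aeval_def, Polynomial.aeval_def]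
    have := Polynomial.hom_eval₂ p (algebraMap ℤ (Kc θ)) (algebraMap (Kc θ) ℂ) θK
    rw [show (algebraMap (Kc θ) ℂ).comp (algebraMap ℤ (Kc θ)) = algebraMap ℤ ℂ from
      RingHom.ext_int _ _] at this
    exact this
  have hK : ∑ i ∈ Finset.range (n + 1), Polynomial.aeval θK (g i) * x ^ i = 0 := by
    apply Subtype.ext
    have h4 : ((∑ i ∈ Finset.range (n + 1), Polynomial.aeval θK (g i) * x ^ i : Kc θ) : ℂ) =
        ∑ i ∈ Finset.range (n + 1), Polynomial.aeval θ (g i) * (x : ℂ) ^ i := by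
      push_cast
      exact Finset.sum_congr rfl fun i _ => by rw [hcoe]
    rw [h4, hrel]
    rfl
  have hσ : ∑ i ∈ Finset.range (n + 1), Polynomial.aeval θ' (g i) * (e.σ x) ^ i = 0 := by
    have h5 := congrArg e.σ hK
    rw [map_sum, map_zero] at h5
    rw [← h5]
    refine Finset.sum_congr rfl fun i _ => ?_
    rw [map_mul, map_pow]
    congr 1
    rw [Polynomial.aeval_def, Polynomial.aeval_def, Polynomial.hom_eval₂, e.th θK rfl]
    congr 1
    exact RingHom.ext_int _ _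
  have hpow : 1 ≤ ‖θ'‖ ^ m := one_le_pow₀ h1
  have h6 := b2_root hn (fun i => Polynomial.aeval θ' (g i)) (e.σ x) (A' * ‖θ'‖ ^ m)
    (by nlinarith) (hR₀ θ' h2) (fun i hi => by
      refine (hA i m (hmi i hi) θ' h1).trans ?_
      exact mul_le_mul_of_nonneg_right (hAi i hi) (by positivity)) hσ
  calc ‖e.σ x‖ ≤ n * (A' * ‖θ'‖ ^ m) := h6
    _ = (n * A') * ‖θ'‖ ^ m := by ring
    _ ≤ ‖θ'‖ * ‖θ'‖ ^ m := mul_le_mul_of_nonneg_right h3 (by positivity)
    _ = ‖θ'‖ ^ (m + 1) := by rw [pow_succ']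

/-- B2'. an equation of `x` over `ℤ[θ]`, in a form that can be transported: a nonzero polynomial in two variables with `F(θ, x) = 0` -/
theorem exists_rel (θ : ℂ) (x : Kc θ) : ∃ F : MvPolynomial (Fin 2) ℤ, F ≠ 0 ∧
    MvPolynomial.aeval ![θ, (x : ℂ)] F = 0 := by
  obtain ⟨n, g, hn, hgn, hrel⟩ := b2_rel θ x
  set F : MvPolynomial (Fin 2) ℤ := ∑ i ∈ Finset.range (n + 1),
    Polynomial.aeval (MvPolynomial.X 0) (g i) * MvPolynomial.X 1 ^ i with hF
  have hev : ∀ y : ℂ, MvPolynomial.aeval ![θ, y] F =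
      ∑ i ∈ Finset.range (n + 1), Polynomial.aeval θ (g i) * y ^ i := by
    intro y
    rw [hF, map_sum]
    refine Finset.sum_congr rfl fun i _ => ?_
    rw [map_mul, map_pow, MvPolynomial.aeval_X, ← Polynomial.aeval_algHom_apply,
      MvPolynomial.aeval_X]
    simp
  refine ⟨F, ?_, by rw [hev, hrel]⟩
  intro h0
  set q : Polynomial ℂ := ∑ i ∈ Finset.range (n + 1),
    Polynomial.C (Polynomial.aeval θ (g i)) * Polynomial.X ^ i with hq
  have hq0 : q = 0 := by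
    apply Polynomial.funext
    intro y
    have h1 := hev y
    rw [h0, map_zero] at h1
    rw [hq, Polynomial.eval_finset_sum, Polynomial.eval_zero, h1]
    refine Finset.sum_congr rfl fun i _ => ?_
    simp
  have h2 : q.coeff n = Polynomial.aeval θ (g n) := by
    rw [hq, Polynomial.finset_sum_coeff]
    simp only [Polynomial.coeff_C_mul, Polynomial.coeff_X_pow]
    rw [Finset.sum_eq_single n]
    · simp
    · intro i _ hi
      simp [Ne.symm hi]
    · intro hi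
      exact absurd (Finset.mem_range.2 (Nat.lt_succ_self n)) hi
  rw [hq0, Polynomial.coeff_zero] at h2
  exact hgn h2.symm

end Pool.Agent.MSK
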