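import Pool.Agent.Lib.MP_f58a57_nt.K.Defs
import Pool.Agent.Lib.MP_f58a57_nt.Q03_Growth
import Pool.Agent.Lib.MP_f58a57_nt.F3_Cusp
import Pool.Agent.Lib.MP_f58a57_nt.H34_Cusp

/-! # K/B3_Cusp: size near the cusp -/

open Complex Filter Topology

noncomputable section

namespace Pool.Agent.MSK

open MSD MSP

variable {d : ℕ}

/-- the path to the cusp -/
theorem b3_path : Tendsto (fun y : ℝ => I * (y : ℂ)) atTop (comap Complex.im atTop) := by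
  rw [tendsto_comap_iff]
  refine tendsto_id.congr fun y => ?_
  simp

theorem b3_lim (g : ℂ → ℂ) (c : ℕ → ℤ) (hc : QExp c g) (h0 : c 0 = 1) :
    Tendsto (fun y : ℝ => g (I * y)) atTop (𝓝 1) := by
  have h1 := (a5_tendsto hc).comp b3_path
  rw [h0, Int.cast_one] at h1
  exact h1

theorem b3_ev {g : ℝ → ℂ} (h : Tendsto g atTop (𝓝 1)) : ∀ᶠ y in atTop, ‖g y - 1‖ ≤ 1 / 4 := by
  rw [tendsto_iff_norm_sub_tendsto_zero] at h
  exact h.eventually (eventually_le_nhds (show (0 : ℝ) < 1 / 4 by norm_num))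

/-- B3a. PROOF. `e2, e4, e6 → 1` and `dl / q → 1` for `y → ∞` (`q = e^{-2πy}`; see `e6_cusp`, `q03_lim` in Q03_Growth, `F3_Cusp`, `H34_Cusp`),
so `j q → 1`. -/
theorem cusp_size : ∃ Y : ℝ, 1 ≤ Y ∧ ∀ y : ℝ, Y ≤ y → ‖e2 (I * y) - 1‖ ≤ 1 / 4 ∧ ‖e4 (I * y) - 1‖ ≤ 1 / 4 ∧ ‖e6 (I * y) - 1‖ ≤ 1 / 4 ∧
    Real.exp (2 * Real.pi * y) / 2 ≤ ‖jj (I * y)‖ ∧ ‖jj (I * y)‖ ≤ 2 * Real.exp (2 * Real.pi * y) := by
  obtain ⟨c2, hc2, h2⟩ := e2_q
  obtain ⟨c4, hc4, h4⟩ := e4_q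
  obtain ⟨c6, hc6, h6⟩ := e6_q
  have l2 := b3_lim e2 c2 hc2 h2
  have l4 := b3_lim e4 c4 hc4 h4
  have l6 := b3_lim e6 c6 hc6 h6
  have lq : Tendsto (fun y : ℝ => qq (I * y) / dl (I * y)) atTop (𝓝 1) := q03_lim.comp b3_path
  have lj : Tendsto (fun y : ℝ => jj (I * y) * qq (I * y)) atTop (𝓝 1) := by
    have h := (l4.pow 3).mul lq
    rw [one_pow, one_mul] at h
    refine h.congr fun y => ?_
    unfold jj
    ring
  obtain ⟨Y, hY⟩ := eventually_atTop.1 ((b3_ev l2).and ((b3_ev l4).and ((b3_ev l6).and (b3_ev lj))))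
  refine ⟨max 1 Y, le_max_left _ _, fun y hy => ?_⟩
  obtain ⟨a2, a4, a6, aj⟩ := hY y ((le_max_right _ _).trans hy)
  refine ⟨a2, a4, a6, ?_⟩
  have hq : ‖qq (I * y)‖ = Real.exp (-(2 * Real.pi * y)) := by
    rw [a5_norm_qq]
    congr 2
    simp
  have hE : 0 < Real.exp (2 * Real.pi * y) := Real.exp_pos _
  have hEq : Real.exp (-(2 * Real.pi * y)) * Real.exp (2 * Real.pi * y) = 1 := by
    rw [← Real.exp_add, neg_add_cancel, Real.exp_zero]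
  have hj1 : ‖jj (I * y) * qq (I * y)‖ ≤ 5 / 4 := by
    have := norm_add_le (jj (I * y) * qq (I * y) - 1) 1
    rw [sub_add_cancel, norm_one] at this
    linarith
  have hj2 : 3 / 4 ≤ ‖jj (I * y) * qq (I * y)‖ := by
    have := norm_sub_norm_le (1 : ℂ) (1 - jj (I * y) * qq (I * y))
    rw [sub_sub_cancel, norm_one, norm_sub_rev] at this
    linarith
  rw [norm_mul, hq] at hj1 hj2
  have hJ : ‖jj (I * y)‖ = ‖jj (I * y)‖ * Real.exp (-(2 * Real.pi * y)) * Real.exp (2 * Real.pi * y) := by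
    rw [mul_assoc, hEq, mul_one]
  constructor
  · rw [hJ]
    nlinarith
  · rw [hJ]
    nlinarith

end Pool.Agent.MSK
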