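import Pool.Agent.Lib.MP_f58a57_nt.K.Defs
import Pool.Agent.Lib.MP_f58a57_nt.Q03_Growth
import Pool.Agent.Lib.MP_f58a57_nt.F1b_IndepE
import Pool.Agent.Lib.MP_f58a57_nt.B4_HeckeQ
import Pool.Agent.Lib.MP_f58a57_nt.K.B3_Cusp

/-! # K/B3b_Phi: polynomials in `j` and `e2 e4 / e6` near the cusp -/

open Complex Filter Topology

noncomputable section

namespace Pool.Agent.MSK

open MSD MSP

variable {d : ℕ}

/-- the homogenised polynomial -/
def b3b_H (F : MvPolynomial (Fin 2) ℤ) (A D B E : ℂ) : ℂ :=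
  ∑ s ∈ F.support, ((F.coeff s : ℤ) : ℂ) *
    ((A ^ s 0 * D ^ (F.totalDegree - s 0)) * (B ^ s 1 * E ^ (F.totalDegree - s 1)))

theorem b3b_hom (F : MvPolynomial (Fin 2) ℤ) (A D B E : ℂ) (hD : D ≠ 0) (hE : E ≠ 0) :
    b3b_H F A D B E = (D * E) ^ F.totalDegree * MvPolynomial.aeval ![A / D, B / E] F := by
  rw [MvPolynomial.aeval_def, MvPolynomial.eval₂_eq', b3b_H, Finset.mul_sum]
  refine Finset.sum_congr rfl fun s hs => ?_
  have h1 : s 0 + s 1 ≤ F.totalDegree := by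
    have h2 := MvPolynomial.le_totalDegree hs
    rwa [Finsupp.sum_fintype _ _ (fun _ => rfl), Fin.sum_univ_two] at h2
  have h3 : ∀ (a b : ℂ) (n k : ℕ), b ≠ 0 → k ≤ n → b ^ n * (a / b) ^ k = a ^ k * b ^ (n - k) := by
    intro a b n k hb hk
    obtain ⟨l, rfl⟩ := Nat.exists_eq_add_of_le hk
    rw [Nat.add_sub_cancel_left, pow_add, div_pow]
    field_simp
  have h4 := h3 A D F.totalDegree (s 0) hD (by omega)
  have h5 := h3 B E F.totalDegree (s 1) hE (by omega)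
  simp only [Fin.prod_univ_two, Matrix.cons_val_zero, Matrix.cons_val_one, algebraMap_int_eq,
    Int.coe_castRingHom]
  rw [← h4, ← h5, mul_pow]
  ring

/-- the corresponding function -/
def b3b_G (F : MvPolynomial (Fin 2) ℤ) (z : ℂ) : ℂ :=
  b3b_H F (e4 z ^ 3) (dl z) (e2 z * e4 z) (e6 z)

theorem b3b_int (F : MvPolynomial (Fin 2) ℤ) : HasIntQ (b3b_G F) := by
  obtain ⟨c2, q2, -⟩ := e2_q
  obtain ⟨c4, q4, -⟩ := e4_q
  obtain ⟨c6, q6, -⟩ := e6_q
  obtain ⟨cd, qd, -⟩ := dl_q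
  have Q2 : HasIntQ e2 := ⟨c2, q2⟩
  have Q4 : HasIntQ e4 := ⟨c4, q4⟩
  have Q6 : HasIntQ e6 := ⟨c6, q6⟩
  have QD : HasIntQ dl := ⟨cd, qd⟩
  unfold b3b_G b3b_H
  refine B4_sum _ _ fun s _ => ?_
  exact B4_mul (B4_const _) (B4_mul (B4_mul (B4_pow (B4_pow Q4 3) _) (B4_pow QD _))
    (B4_mul (B4_pow (B4_mul Q2 Q4) _) (B4_pow Q6 _)))

/-- the polynomial in three variables -/
def b3b_P (F : MvPolynomial (Fin 2) ℤ) : MvPolynomial (Fin 3) ℂ :=
  ∑ s ∈ F.support, MvPolynomial.C ((F.coeff s : ℤ) : ℂ) *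
    (((MvPolynomial.X 1 ^ 3) ^ s 0 *
      (MvPolynomial.C (1 / 1728) * (MvPolynomial.X 1 ^ 3 - MvPolynomial.X 2 ^ 2)) ^ (F.totalDegree - s 0)) *
      ((MvPolynomial.X 0 * MvPolynomial.X 1) ^ s 1 * MvPolynomial.X 2 ^ (F.totalDegree - s 1)))

theorem b3b_eval (F : MvPolynomial (Fin 2) ℤ) (x : Fin 3 → ℂ) :
    MvPolynomial.eval x (b3b_P F) =
      b3b_H F (x 1 ^ 3) ((x 1 ^ 3 - x 2 ^ 2) / 1728) (x 0 * x 1) (x 2) := by
  rw [b3b_P, b3b_H, map_sum]
  refine Finset.sum_congr rfl fun s _ => ?_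
  simp only [map_mul, map_pow, map_sub, MvPolynomial.eval_C, MvPolynomial.eval_X]
  have h1 : (x 1 ^ 3 - x 2 ^ 2) / 1728 = 1 / 1728 * (x 1 ^ 3 - x 2 ^ 2) := by ring
  rw [h1]

theorem b3b_ne (F : MvPolynomial (Fin 2) ℤ) (hF : F ≠ 0) : ∃ z : ℂ, 0 < z.im ∧ b3b_G F z ≠ 0 := by
  by_contra hcon
  push Not at hcon
  have hP : b3b_P F = 0 := by
    refine indep_E _ fun z hz => ?_
    rw [b3b_eval]
    exact hcon z hz
  have hJ : ∀ J φ : ℂ, J ≠ 0 → J ≠ 1728 → MvPolynomial.aeval ![J, φ] F = 0 := by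
    intro J φ h0 h1
    obtain ⟨t, ht⟩ := IsAlgClosed.exists_pow_nat_eq (1 - 1728 / J : ℂ) (n := 2) (by norm_num)
    have ht0 : t ≠ 0 := by
      rintro rfl
      rw [zero_pow (by norm_num)] at ht
      apply h1
      field_simp at ht
      linear_combination -ht
    have h2 := b3b_eval F ![φ * t, 1, t]
    rw [hP, map_zero] at h2
    simp only [Matrix.cons_val_zero, Matrix.cons_val_one, Matrix.cons_val_two, Matrix.head_cons,
      Matrix.tail_cons, one_pow, mul_one] at h2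
    have h3 : (1 - t ^ 2) / 1728 = 1 / J := by
      rw [ht]
      field_simp
      ring
    rw [h3, b3b_hom F _ _ _ _ (one_div_ne_zero h0) ht0] at h2
    have h4 : (1 : ℂ) / (1 / J) = J := by rw [one_div_one_div]
    rw [h4, mul_div_cancel_right₀ _ ht0] at h2
    exact (mul_eq_zero.1 h2.symm).resolve_left
      (pow_ne_zero _ (mul_ne_zero (one_div_ne_zero h0) ht0))
  have hq : MvPolynomial.X 0 * (MvPolynomial.X 0 - MvPolynomial.C 1728) *
      MvPolynomial.map (Int.castRingHom ℂ) F = 0 := by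
    refine MvPolynomial.funext fun x => ?_
    rw [map_zero, map_mul, map_mul, map_sub, MvPolynomial.eval_X, MvPolynomial.eval_C]
    by_cases h0 : x 0 = 0
    · rw [h0, zero_mul, zero_mul]
    by_cases h1 : x 0 = 1728
    · rw [h1, sub_self, mul_zero, zero_mul]
    have h2 := hJ (x 0) (x 1) h0 h1
    have h3 : (![x 0, x 1] : Fin 2 → ℂ) = x := by
      funext i
      fin_cases i <;> rfl
    rw [h3, MvPolynomial.aeval_def, algebraMap_int_eq] at h2
    rw [MvPolynomial.eval_map, h2, mul_zero]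
  have hX : (MvPolynomial.X 0 : MvPolynomial (Fin 2) ℂ) ≠ 0 := MvPolynomial.X_ne_zero 0
  have hX' : (MvPolynomial.X 0 - MvPolynomial.C 1728 : MvPolynomial (Fin 2) ℂ) ≠ 0 := by
    intro h
    have h1 := congrArg (MvPolynomial.eval (fun _ => (0 : ℂ))) h
    rw [map_sub, MvPolynomial.eval_X, MvPolynomial.eval_C, map_zero] at h1
    norm_num at h1
  have hm : MvPolynomial.map (Int.castRingHom ℂ) F = 0 :=
    (mul_eq_zero.1 hq).resolve_left (mul_ne_zero hX hX')
  apply hF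
  refine MvPolynomial.map_injective (Int.castRingHom ℂ) (RingHom.injective_int _) ?_
  rw [hm, map_zero]

/-- a function with a nonzero integer `q`-expansion is at least `‖q‖ ^ m / 2` near the cusp -/
theorem b3b_low {f : ℂ → ℂ} (hf : HasIntQ f) (hne : ∃ z : ℂ, 0 < z.im ∧ f z ≠ 0) :
    ∃ m : ℕ, ∀ᶠ z in comap Complex.im atTop, ‖qq z‖ ^ m / 2 ≤ ‖f z‖ := by
  obtain ⟨c, hc⟩ := hf
  have hex : ∃ n, c n ≠ 0 := by
    by_contra hcon
    push Not at hcon
    obtain ⟨z, hz, hfz⟩ := hne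
    apply hfz
    refine (hc z hz).unique ?_
    have h1 : (fun n => (c n : ℂ) * qq z ^ n) = fun _ => 0 := by
      funext n
      rw [hcon n, Int.cast_zero, zero_mul]
    rw [h1]
    exact hasSum_zero
  obtain ⟨m, hm, hmin⟩ : ∃ m, c m ≠ 0 ∧ ∀ i < m, c i = 0 :=
    ⟨Nat.find hex, Nat.find_spec hex, fun i hi => not_not.1 (Nat.find_min hex hi)⟩
  refine ⟨m, ?_⟩
  have hs : QExp (fun n => c (n + m)) (fun z => f z / qq z ^ m) := by
    intro z hz
    have hq : qq z ≠ 0 := q03_ne z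
    have h1 := (hasSum_nat_add_iff' m).2 (hc z hz)
    have h0 : ∑ i ∈ Finset.range m, (c i : ℂ) * qq z ^ i = 0 := by
      refine Finset.sum_eq_zero fun i hi => ?_
      rw [hmin i (Finset.mem_range.1 hi), Int.cast_zero, zero_mul]
    rw [h0, sub_zero] at h1
    have h2 := h1.div_const (qq z ^ m)
    refine h2.congr_fun fun n => ?_
    rw [pow_add]
    field_simp
  have ht := a5_tendsto hs
  rw [tendsto_iff_norm_sub_tendsto_zero] at ht
  have h2 := ht.eventually (eventually_le_nhds (show (0 : ℝ) < 1 / 2 by norm_num))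
  filter_upwards [h2] with z hz
  rw [zero_add] at hz
  have h3 : (1 : ℝ) ≤ ‖(c m : ℂ)‖ := by
    rw [Complex.norm_intCast]
    exact_mod_cast Int.one_le_abs hm
  have h4 : ‖(c m : ℂ)‖ - ‖f z / qq z ^ m‖ ≤ 1 / 2 := by
    refine (norm_sub_norm_le _ _).trans ?_
    rw [norm_sub_rev]
    exact hz
  have hq0 : 0 < ‖qq z‖ ^ m := pow_pos (norm_pos_iff.2 (q03_ne z)) _
  have h5 : (1 / 2 : ℝ) ≤ ‖f z / qq z ^ m‖ := by linarith
  rw [norm_div, norm_pow, le_div_iff₀ hq0] at h5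
  linarith

/-- B3b. PROOF. Let `N` be the total degree of `F = ∑ f_{ab} X_0^a X_1^b` and `G(z) = ∑ f_{ab} e4^(3a) dl^(N-a) (e2 e4)^b e6^(N-b) = (dl e6)^N F(j, e2 e4/e6)`.
`G` is a polynomial in `e2, e4, e6` (`dl = (e4³ - e6²)/1728`) which is not zero: in the corresponding polynomial `P(X_0, X_1, X_2)` the coefficient of `X_0^b` is
`X_1^b X_2^(N-b) ∑_a f_{ab} X_1^(3a) Δ^(N-a)`, `Δ = (X_1³ - X_2²)/1728`, and for `X_1 = 1` the sum is a nonzero polynomial in `Δ`. By `indep_E` `G` is not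
identically zero. `G` is holomorphic in the upper half plane, `G(z+1) = G(z)`, and bounded for `Im z ≥ 1`, so `G(z) = g(e^{2πiz})` with `g` analytic near `0` (e.g. with
the `q`-expansions with integer coefficients of `e2, e4, e6, dl`, `HasIntQ`/`QExp` in A0_Q, A1_Basic; or `Function.Periodic.cuspFunction`), `g` is not the zero germ
(identity theorem), so `‖g(q)‖ ≥ c ‖q‖^m` for small `q`. Finally `‖dl e6‖ ≤ 2` near the cusp. -/
theorem phi_poly (F : MvPolynomial (Fin 2) ℤ) (hF : F ≠ 0) : ∃ C Y : ℝ, 1 ≤ Y ∧ ∀ y : ℝ, Y ≤ y →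
    Real.exp (-(C * y)) ≤ ‖MvPolynomial.aeval ![jj (I * y), phi y] F‖ := by
  obtain ⟨m, hm⟩ := b3b_low (b3b_int F) (b3b_ne F hF)
  have hd : ∀ᶠ z in comap Complex.im atTop, ‖dl z‖ ≤ 1 := by
    obtain ⟨c, hc, h0, -⟩ := dl_q
    have h1 := a5_tendsto hc
    rw [h0, Int.cast_zero, tendsto_zero_iff_norm_tendsto_zero] at h1
    exact h1.eventually (eventually_le_nhds one_pos)
  obtain ⟨Y6, -, hY6⟩ := e6_cusp
  have h6 : ∀ᶠ z in comap Complex.im atTop, ‖e6 z - 1‖ ≤ 1 / 4 := by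
    rw [eventually_comap]
    filter_upwards [eventually_ge_atTop (Y6 : ℝ)] with y hy z hz
    exact hY6 z (hz ▸ hy)
  have hall := (hm.and (hd.and h6))
  rw [eventually_comap] at hall
  obtain ⟨Y, hY⟩ := eventually_atTop.1 hall
  refine ⟨2 * Real.pi * m + (F.totalDegree + 1) * Real.log 2, max Y 1, le_max_right _ _,
    fun y hy => ?_⟩
  have hy1 : 1 ≤ y := (le_max_right _ _).trans hy
  have him : (I * (y : ℂ)).im = y := by simp
  obtain ⟨h1, h2, h3⟩ := hY y ((le_max_left _ _).trans hy) (I * y) him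
  have hd0 : dl (I * y) ≠ 0 := dl_ne_zero _ (by rw [him]; linarith)
  have h6n : ‖e6 (I * y)‖ ≤ 2 := by
    have := norm_sub_norm_le (e6 (I * y)) 1
    rw [norm_one] at this
    linarith
  have h60 : e6 (I * y) ≠ 0 := by
    intro h0
    rw [h0, zero_sub, norm_neg, norm_one] at h3
    norm_num at h3
  have hG : b3b_G F (I * y) = (dl (I * y) * e6 (I * y)) ^ F.totalDegree *
      MvPolynomial.aeval ![jj (I * y), phi y] F := by
    rw [b3b_G, b3b_hom F _ _ _ _ hd0 h60]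
    rfl
  have hle : ‖dl (I * y) * e6 (I * y)‖ ≤ 2 := by
    rw [norm_mul]
    have := mul_le_mul h2 h6n (norm_nonneg _) zero_le_one
    linarith
  rw [hG, norm_mul, norm_pow, a5_norm_qq, him] at h1
  have hpw : ‖dl (I * y) * e6 (I * y)‖ ^ F.totalDegree ≤ 2 ^ F.totalDegree :=
    pow_le_pow_left₀ (norm_nonneg _) hle _
  have h7 : Real.exp (-(2 * Real.pi * y)) ^ m / 2 ≤
      2 ^ F.totalDegree * ‖MvPolynomial.aeval ![jj (I * y), phi y] F‖ :=
    h1.trans (mul_le_mul_of_nonneg_right hpw (norm_nonneg _))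
  have h8 : Real.exp (-((2 * Real.pi * m + (F.totalDegree + 1) * Real.log 2) * y)) ≤
      Real.exp (-(2 * Real.pi * y)) ^ m / 2 / 2 ^ F.totalDegree := by
    rw [← Real.exp_nat_mul]
    have e1 : Real.exp (m * -(2 * Real.pi * y)) / 2 / 2 ^ F.totalDegree =
        Real.exp (m * -(2 * Real.pi * y) - (F.totalDegree + 1) * Real.log 2) := by
      rw [Real.exp_sub]
      have e2 : Real.exp ((F.totalDegree + 1) * Real.log 2) = 2 * 2 ^ F.totalDegree := by
        have e3 : ((F.totalDegree : ℝ) + 1) * Real.log 2 =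
            ((F.totalDegree + 1 : ℕ) : ℝ) * Real.log 2 := by push_cast; ring
        rw [e3, Real.exp_nat_mul, Real.exp_log two_pos, pow_succ]
        ring
      rw [e2, div_div]
    rw [e1, Real.exp_le_exp]
    have e4 : (F.totalDegree + 1 : ℝ) * Real.log 2 ≤ (F.totalDegree + 1) * Real.log 2 * y := by
      have : 0 ≤ (F.totalDegree + 1 : ℝ) * Real.log 2 :=
        mul_nonneg (by positivity) (Real.log_nonneg (by norm_num))
      nlinarith
    linarith
  refine h8.trans ?_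
  rw [div_le_iff₀ (by positivity)]
  linarith

end Pool.Agent.MSK
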