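import Pool.Agent.Lib.MP_f58a57_nt.K.Defs
import Pool.Agent.Lib.MP_f58a57_nt.K.B2_Grow
import Pool.Agent.Lib.MP_f58a57_nt.K.B3b_Phi

/-! # K/B5_EmbPhi: an algebraic function of `j` is not close to `e2 e4 / e6` -/

open Complex Filter Topology IntermediateField

noncomputable section

namespace Pool.Agent.MSK

open MSD MSP

variable {d : ℕ}

/-- `θ` as an element of `Kc θ` -/
def b5_th (θ : ℂ) : Kc θ := algebraMap ℚ⟮θ⟯ (Kc θ) ⟨θ, mem_adjoin_simple_self ℚ θ⟩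

theorem b5_th_coe (θ : ℂ) : ((b5_th θ : Kc θ) : ℂ) = θ := rfl

theorem b5_apply (θ θ' : ℂ) (e : Emb θ θ') (x : Kc θ) (F : MvPolynomial (Fin 2) ℤ)
    (hF : MvPolynomial.aeval ![θ, (x : ℂ)] F = 0) : MvPolynomial.aeval ![θ', e.σ x] F = 0 := by
  have h1 : ((MvPolynomial.aeval ![b5_th θ, x] F : Kc θ) : ℂ) = MvPolynomial.aeval ![θ, (x : ℂ)] F := by
    have h2 : ((algebraMap (Kc θ) ℂ).comp
        (MvPolynomial.aeval ![b5_th θ, x] : MvPolynomial (Fin 2) ℤ →ₐ[ℤ] Kc θ).toRingHom) =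
        (MvPolynomial.aeval ![θ, (x : ℂ)] : MvPolynomial (Fin 2) ℤ →ₐ[ℤ] ℂ).toRingHom := by
      refine MvPolynomial.ringHom_ext (fun r => by simp) (fun i => ?_)
      fin_cases i
      · simp [b5_th_coe]
      · simp
    exact congrArg (fun f => f F) h2
  have h3 : (MvPolynomial.aeval ![b5_th θ, x] F : Kc θ) = 0 := by
    apply Subtype.ext
    rw [h1, hF]
    rfl
  have h4 : (e.σ.comp (MvPolynomial.aeval ![b5_th θ, x] : MvPolynomial (Fin 2) ℤ →ₐ[ℤ] Kc θ).toRingHom) =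
      (MvPolynomial.aeval ![θ', e.σ x] : MvPolynomial (Fin 2) ℤ →ₐ[ℤ] ℂ).toRingHom := by
    refine MvPolynomial.ringHom_ext (fun r => by simp) (fun i => ?_)
    fin_cases i
    · simp [e.th (b5_th θ) (b5_th_coe θ)]
    · simp
  have h5 := congrArg (fun f => f F) h4
  have h6 : e.σ (MvPolynomial.aeval ![b5_th θ, x] F : Kc θ) = MvPolynomial.aeval ![θ', e.σ x] F := h5
  rw [← h6, h3, map_zero]

theorem b5_diff (F : MvPolynomial (Fin 2) ℤ) : ∃ (C : ℝ) (N : ℕ), 0 ≤ C ∧ ∀ a b b' : ℂ,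
    ‖MvPolynomial.aeval ![a, b'] F‖ ≤ C * (1 + ‖a‖ + ‖b‖ + ‖b'‖) ^ N ∧
    ‖MvPolynomial.aeval ![a, b] F - MvPolynomial.aeval ![a, b'] F‖ ≤ ‖b - b'‖ * (C * (1 + ‖a‖ + ‖b‖ + ‖b'‖) ^ N) := by
  induction F using MvPolynomial.induction_on with
  | C r =>
    refine ⟨‖(r : ℂ)‖, 0, norm_nonneg _, fun a b b' => ⟨?_, ?_⟩⟩
    · simp
    · simp only [MvPolynomial.algHom_C, sub_self, norm_zero]
      positivity
  | add p q hp hq =>
    obtain ⟨C1, N1, h1, H1⟩ := hp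
    obtain ⟨C2, N2, h2, H2⟩ := hq
    refine ⟨C1 + C2, N1 + N2, by positivity, fun a b b' => ?_⟩
    obtain ⟨A1, B1⟩ := H1 a b b'
    obtain ⟨A2, B2⟩ := H2 a b b'
    set T := 1 + ‖a‖ + ‖b‖ + ‖b'‖ with hT
    have hT1 : 1 ≤ T := by
      have := norm_nonneg a
      have := norm_nonneg b
      have := norm_nonneg b'
      linarith
    have e1 : T ^ N1 ≤ T ^ (N1 + N2) := pow_le_pow_right₀ hT1 (by omega)
    have e2 : T ^ N2 ≤ T ^ (N1 + N2) := pow_le_pow_right₀ hT1 (by omega)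
    have f1 : C1 * T ^ N1 ≤ C1 * T ^ (N1 + N2) := mul_le_mul_of_nonneg_left e1 h1
    have f2 : C2 * T ^ N2 ≤ C2 * T ^ (N1 + N2) := mul_le_mul_of_nonneg_left e2 h2
    have hn : 0 ≤ ‖b - b'‖ := norm_nonneg _
    constructor
    · rw [map_add]
      refine (norm_add_le _ _).trans ?_
      rw [add_mul]
      linarith
    · rw [map_add, map_add, add_sub_add_comm]
      refine (norm_add_le _ _).trans ?_
      have g1 := mul_le_mul_of_nonneg_left f1 hn
      have g2 := mul_le_mul_of_nonneg_left f2 hn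
      have : ‖b - b'‖ * ((C1 + C2) * T ^ (N1 + N2)) =
        ‖b - b'‖ * (C1 * T ^ (N1 + N2)) + ‖b - b'‖ * (C2 * T ^ (N1 + N2)) := by ring
      rw [this]
      linarith
  | mul_X p i hp =>
    obtain ⟨C1, N1, h1, H1⟩ := hp
    refine ⟨2 * C1, N1 + 1, by positivity, fun a b b' => ?_⟩
    obtain ⟨A1, B1⟩ := H1 a b b'
    have hna := norm_nonneg a
    have hnb := norm_nonneg b
    have hnb' := norm_nonneg b'
    set T := 1 + ‖a‖ + ‖b‖ + ‖b'‖ with hT
    have hT1 : 1 ≤ T := by linarith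
    have haT : ‖a‖ ≤ T := by linarith
    have hbT : ‖b‖ ≤ T := by linarith
    have hb'T : ‖b'‖ ≤ T := by linarith
    have hn : 0 ≤ ‖b - b'‖ := norm_nonneg _
    have hX : 0 ≤ C1 * T ^ N1 := by positivity
    have hXT : 0 ≤ C1 * T ^ N1 * T := by positivity
    have hpw : 2 * C1 * T ^ (N1 + 1) = 2 * (C1 * T ^ N1 * T) := by ring
    rw [hpw]
    fin_cases i
    · simp only [map_mul, MvPolynomial.aeval_X, Fin.zero_eta, Matrix.cons_val_zero, Fin.isValue]
      constructor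
      · rw [norm_mul]
        calc _ ≤ C1 * T ^ N1 * T := mul_le_mul A1 haT hna hX
          _ ≤ _ := by linarith
      · rw [← sub_mul, norm_mul]
        calc _ ≤ (‖b - b'‖ * (C1 * T ^ N1)) * T := mul_le_mul B1 haT hna (mul_nonneg hn hX)
          _ = ‖b - b'‖ * (C1 * T ^ N1 * T) := by ring
          _ ≤ _ := mul_le_mul_of_nonneg_left (by linarith) hn
    · simp only [map_mul, MvPolynomial.aeval_X, Fin.mk_one, Matrix.cons_val_one, Matrix.cons_val_fin_one, Fin.isValue]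
      constructor
      · rw [norm_mul]
        calc _ ≤ C1 * T ^ N1 * T := mul_le_mul A1 hb'T hnb' hX
          _ ≤ _ := by linarith
      · have hs : MvPolynomial.aeval ![a, b] p * b - MvPolynomial.aeval ![a, b'] p * b' =
            (MvPolynomial.aeval ![a, b] p - MvPolynomial.aeval ![a, b'] p) * b +
              MvPolynomial.aeval ![a, b'] p * (b - b') := by ring
        rw [hs]
        refine (norm_add_le _ _).trans ?_
        rw [norm_mul, norm_mul]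
        have g1 : ‖MvPolynomial.aeval ![a, b] p - MvPolynomial.aeval ![a, b'] p‖ * ‖b‖ ≤
            (‖b - b'‖ * (C1 * T ^ N1)) * T := mul_le_mul B1 hbT hnb (mul_nonneg hn hX)
        have g2 : ‖MvPolynomial.aeval ![a, b'] p‖ * ‖b - b'‖ ≤ (C1 * T ^ N1) * ‖b - b'‖ :=
          mul_le_mul_of_nonneg_right A1 hn
        have g3 : (C1 * T ^ N1) * ‖b - b'‖ ≤ (C1 * T ^ N1 * T) * ‖b - b'‖ := by
          apply mul_le_mul_of_nonneg_right _ hn
          nlinarith
        have : ‖b - b'‖ * (2 * (C1 * T ^ N1 * T)) = (‖b - b'‖ * (C1 * T ^ N1)) * T +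
            (C1 * T ^ N1 * T) * ‖b - b'‖ := by ring
        rw [this]
        linarith

theorem b5_pow (y J : ℝ) (hy : 1 ≤ y) (hJ0 : 0 ≤ J) (hJ : J ≤ 2 * Real.exp (2 * Real.pi * y)) (C : ℕ) :
    J ^ C ≤ Real.exp ((2 * Real.pi + 1) * C * y) := by
  have h1 : (2 : ℝ) ≤ Real.exp 1 := by
    have := Real.add_one_le_exp (1 : ℝ)
    linarith
  have h2 : Real.exp 1 ≤ Real.exp y := Real.exp_le_exp.2 hy
  have h3 : J ≤ Real.exp ((2 * Real.pi + 1) * y) := by
    refine hJ.trans ?_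
    have : (2 * Real.pi + 1) * y = y + 2 * Real.pi * y := by ring
    rw [this, Real.exp_add]
    exact mul_le_mul_of_nonneg_right (h1.trans h2) (Real.exp_pos _).le
  calc J ^ C ≤ Real.exp ((2 * Real.pi + 1) * y) ^ C := pow_le_pow_left₀ hJ0 h3 C
    _ = Real.exp ((2 * Real.pi + 1) * C * y) := by
        rw [← Real.exp_nat_mul]
        congr 1
        ring

/-- B5. PROOF. `F` from `exists_rel`. Applying `e.σ` to `F(θ, x) = 0`: `F(jj(iy), σx) = 0`. By `phi_poly`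
`e^{-Cy} ≤ ‖F(jj, phi)‖ = ‖F(jj, phi) - F(jj, σx)‖ ≤ ‖phi - σx‖ · C' (1 + ‖jj‖ + ‖phi‖ + ‖σx‖)^N` and `‖jj‖ ≤ 2 e^{2πy}` (`cusp_size`), `‖phi‖ ≤ 4`,
`‖σx‖ ≤ ‖jj‖^C''` (`emb_growth`, as `‖jj(iy)‖ → ∞`). -/
theorem emb_phi (θ : ℂ) (h : Transcendental ℚ θ) (x : Kc θ) : ∃ C Y : ℝ, 1 ≤ Y ∧ ∀ y : ℝ, Y ≤ y → ∀ e : Emb θ (jj (I * y)),
    Real.exp (-(C * y)) ≤ ‖e.σ x - phi y‖ := by
  obtain ⟨F, hF0, hF⟩ := exists_rel θ x
  obtain ⟨C1, Y1, hY1, H1⟩ := phi_poly F hF0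
  obtain ⟨C2, N, hC2, H2⟩ := b5_diff F
  obtain ⟨Y3, hY3, H3⟩ := cusp_size
  obtain ⟨C4, R, hR, H4⟩ := emb_growth θ h x
  set K : ℝ := 3 + (2 * Real.pi + 1) * (C4 + 1) with hK
  have hpi := Real.pi_pos
  refine ⟨C1 + C2 + N * K, max (max Y1 Y3) (max R 1), le_max_of_le_right (le_max_right _ _), fun y hy e => ?_⟩
  have hy1 : Y1 ≤ y := (le_max_left _ _).trans ((le_max_left _ _).trans hy)
  have hy3 : Y3 ≤ y := (le_max_right _ _).trans ((le_max_left _ _).trans hy)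
  have hyR : R ≤ y := (le_max_left _ _).trans ((le_max_right _ _).trans hy)
  have hyo : 1 ≤ y := (le_max_right _ _).trans ((le_max_right _ _).trans hy)
  obtain ⟨hc2, hc4, hc6, hj1, hj2⟩ := H3 y hy3
  have hjR : R ≤ ‖jj (I * y)‖ := by
    refine hyR.trans (le_trans ?_ hj1)
    have h1 := Real.add_one_le_exp (2 * Real.pi * y)
    have h2 : 2 * y ≤ 2 * Real.pi * y := by nlinarith [Real.pi_gt_three]
    linarith
  have hg := H4 _ e hjR
  have hg2 : ‖e.σ x‖ ≤ Real.exp ((2 * Real.pi + 1) * C4 * y) := hg.trans (b5_pow y _ hyo (norm_nonneg _) hj2 C4)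
  have hphi : ‖phi y‖ ≤ 4 := by
    unfold phi
    rw [norm_div, norm_mul]
    have a2 : ‖e2 (I * y)‖ ≤ 5 / 4 := by
      have := norm_add_le (e2 (I * y) - 1) 1
      simp only [sub_add_cancel, norm_one] at this
      linarith
    have a4 : ‖e4 (I * y)‖ ≤ 5 / 4 := by
      have := norm_add_le (e4 (I * y) - 1) 1
      simp only [sub_add_cancel, norm_one] at this
      linarith
    have a6 : 3 / 4 ≤ ‖e6 (I * y)‖ := by
      have := norm_sub_norm_le (1 : ℂ) (1 - e6 (I * y))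
      rw [norm_sub_rev 1 (e6 (I * y))] at this
      simp only [sub_sub_cancel, norm_one] at this
      linarith
    rw [div_le_iff₀ (by linarith)]
    have := mul_le_mul a2 a4 (norm_nonneg _) (by norm_num)
    linarith
  have hzero := b5_apply θ _ e x F hF
  have h1 := H1 y hy1
  obtain ⟨-, h2⟩ := H2 (jj (I * y)) (phi y) (e.σ x)
  rw [hzero, sub_zero] at h2
  set T := 1 + ‖jj (I * y)‖ + ‖phi y‖ + ‖e.σ x‖ with hT
  have hE1 : (1 : ℝ) ≤ Real.exp ((2 * Real.pi + 1) * (C4 + 1) * y) := Real.one_le_exp (by positivity)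
  have hE2 : Real.exp (2 * Real.pi * y) ≤ Real.exp ((2 * Real.pi + 1) * (C4 + 1) * y) := by
    apply Real.exp_le_exp.2
    have hC4 : (0 : ℝ) ≤ C4 := Nat.cast_nonneg _
    have e1 : (2 * Real.pi + 1) * (C4 + 1) * y = 2 * Real.pi * y + ((2 * Real.pi + 1) * C4 * y + y) := by ring
    rw [e1]
    have : 0 ≤ (2 * Real.pi + 1) * C4 * y + y := by positivity
    linarith
  have hE3 : Real.exp ((2 * Real.pi + 1) * C4 * y) ≤ Real.exp ((2 * Real.pi + 1) * (C4 + 1) * y) := by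
    apply Real.exp_le_exp.2
    have : 0 ≤ (2 * Real.pi + 1) * y := by positivity
    linarith
  have hT8 : T ≤ 8 * Real.exp ((2 * Real.pi + 1) * (C4 + 1) * y) := by
    rw [hT]
    linarith
  have h8 : (8 : ℝ) ≤ Real.exp (3 * y) := by
    have h9 : (2 : ℝ) ≤ Real.exp 1 := by
      have := Real.add_one_le_exp (1 : ℝ)
      linarith
    have h10 : Real.exp 1 ≤ Real.exp y := Real.exp_le_exp.2 hyo
    have h11 : Real.exp (3 * y) = Real.exp y ^ 3 := by
      rw [← Real.exp_nat_mul]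
      norm_num
    rw [h11]
    calc (8 : ℝ) = 2 ^ 3 := by norm_num
      _ ≤ Real.exp y ^ 3 := pow_le_pow_left₀ (by norm_num) (h9.trans h10) 3
  have hTK : T ≤ Real.exp (K * y) := by
    refine hT8.trans ?_
    have : K * y = 3 * y + (2 * Real.pi + 1) * (C4 + 1) * y := by rw [hK]; ring
    rw [this, Real.exp_add]
    exact mul_le_mul_of_nonneg_right h8 (Real.exp_pos _).le
  have hT0 : 0 ≤ T := by positivity
  have hTN : T ^ N ≤ Real.exp (N * K * y) := by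
    calc T ^ N ≤ Real.exp (K * y) ^ N := pow_le_pow_left₀ hT0 hTK N
      _ = Real.exp (N * K * y) := by
        rw [← Real.exp_nat_mul]
        congr 1
        ring
  have hC2e : C2 ≤ Real.exp (C2 * y) := by
    have h12 := Real.add_one_le_exp (C2 * y)
    nlinarith
  have h13 : C2 * T ^ N ≤ Real.exp (C2 * y) * Real.exp (N * K * y) :=
    mul_le_mul hC2e hTN (by positivity) (Real.exp_pos _).le
  have h14 : Real.exp (-(C1 * y)) ≤ ‖phi y - e.σ x‖ * (Real.exp (C2 * y) * Real.exp (N * K * y)) :=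
    h1.trans (h2.trans (mul_le_mul_of_nonneg_left h13 (norm_nonneg _)))
  rw [norm_sub_rev]
  have h15 : Real.exp (-((C1 + C2 + N * K) * y)) = Real.exp (-(C1 * y)) * (Real.exp (C2 * y) * Real.exp (N * K * y))⁻¹ := by
    rw [← Real.exp_add, ← Real.exp_neg, ← Real.exp_add]
    congr 1
    ring
  rw [h15]
  have h16 : 0 < Real.exp (C2 * y) * Real.exp (N * K * y) := by positivity
  rw [← div_eq_mul_inv, div_le_iff₀ h16]
  exact h14

/-- B5b. PROOF. `emb_growth` for `x` and `x⁻¹` (if `x ≠ 0`) and `cusp_size`. -/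
theorem emb_size (θ : ℂ) (h : Transcendental ℚ θ) (x : Kc θ) (hx : x ≠ 0) : ∃ C Y : ℝ, 1 ≤ Y ∧ ∀ y : ℝ, Y ≤ y → ∀ e : Emb θ (jj (I * y)),
    Real.exp (-(C * y)) ≤ ‖e.σ x‖ ∧ ‖e.σ x‖ ≤ Real.exp (C * y) := by
  obtain ⟨Y3, hY3, H3⟩ := cusp_size
  obtain ⟨C4, R, hR, H4⟩ := emb_growth θ h x
  obtain ⟨C5, R5, hR5, H5⟩ := emb_growth θ h x⁻¹
  have hpi := Real.pi_pos
  refine ⟨(2 * Real.pi + 1) * (C4 + C5), max Y3 (max (max R R5) 1), le_max_of_le_right (le_max_right _ _), fun y hy e => ?_⟩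
  have hy3 : Y3 ≤ y := (le_max_left _ _).trans hy
  have hyR : R ≤ y := (le_max_left _ _).trans ((le_max_left _ _).trans ((le_max_right _ _).trans hy))
  have hyR5 : R5 ≤ y := (le_max_right _ _).trans ((le_max_left _ _).trans ((le_max_right _ _).trans hy))
  have hyo : 1 ≤ y := (le_max_right _ _).trans ((le_max_right _ _).trans hy)
  obtain ⟨-, -, -, hj1, hj2⟩ := H3 y hy3
  have hjy : y ≤ ‖jj (I * y)‖ := by
    refine le_trans ?_ hj1
    have h1 := Real.add_one_le_exp (2 * Real.pi * y)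
    have h2 : 2 * y ≤ 2 * Real.pi * y := by nlinarith [Real.pi_gt_three]
    linarith
  have hg := (H4 _ e (hyR.trans hjy)).trans (b5_pow y _ hyo (norm_nonneg _) hj2 C4)
  have hg5 := (H5 _ e (hyR5.trans hjy)).trans (b5_pow y _ hyo (norm_nonneg _) hj2 C5)
  have hC4 : (0 : ℝ) ≤ C4 := Nat.cast_nonneg _
  have hC5 : (0 : ℝ) ≤ C5 := Nat.cast_nonneg _
  constructor
  · rw [map_inv₀, norm_inv] at hg5
    have hne : e.σ x ≠ 0 := by
      rw [Ne, map_eq_zero]
      exact hx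
    have hpos : 0 < ‖e.σ x‖ := norm_pos_iff.2 hne
    have h1 : Real.exp (-((2 * Real.pi + 1) * C5 * y)) ≤ ‖e.σ x‖ := by
      rw [Real.exp_neg]
      exact inv_le_of_inv_le₀ hpos hg5
    refine le_trans (Real.exp_le_exp.2 ?_) h1
    have : 0 ≤ (2 * Real.pi + 1) * C4 * y := by positivity
    linarith
  · refine hg.trans (Real.exp_le_exp.2 ?_)
    have : 0 ≤ (2 * Real.pi + 1) * C5 * y := by positivity
    linarith

end Pool.Agent.MSK
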