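import Pool.Agent.Lib.MP_f58a57_nt.K.Defs
import Pool.Agent.Lib.MP_f58a57_nt.K.B3_Cusp
import Pool.Agent.Lib.MP_f58a57_nt.Q03_Growth

/-! # K/B6_Trans: transcendental values of `j(iy)` -/

open Complex Filter Topology IntermediateField

noncomputable section

namespace Pool.Agent.MSK

open MSD MSP

variable {d : ℕ}

/-- B6. PROOF. `y ↦ jj (I y)` is continuous and not constant on `[Y, Y']` for `Y'` large (`cusp_size`), so its image is a connected set with more than one point,
hence uncountable; the algebraic numbers are countable. -/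
theorem exists_trans (Y : ℝ) : ∃ y : ℝ, Y ≤ y ∧ Transcendental ℚ (jj (I * y)) := by
  obtain ⟨Y₀, hY₀, h⟩ := cusp_size
  set a : ℝ := max Y Y₀ with ha
  have haY : Y ≤ a := le_max_left _ _
  have haY₀ : Y₀ ≤ a := le_max_right _ _
  by_contra hcon
  push Not at hcon
  have halg : ∀ y : ℝ, Y ≤ y → IsAlgebraic ℚ (jj (I * y)) := by
    intro y hy
    have := hcon y hy
    rwa [Transcendental, not_not] at this
  set f : ℝ → ℝ := fun y => ‖jj (I * y)‖ with hf
  have hcont : ContinuousOn f (Set.Icc a (a + 1)) := by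
    have h1 : ContinuousOn jj {z : ℂ | 0 < z.im} := by
      have h2 : DifferentiableOn ℂ jj {z : ℂ | 0 < z.im} := by
        unfold jj
        exact (e4_diff.pow 3).div dl_diff fun z hz => dl_ne_zero z hz
      exact h2.continuousOn
    have h3 : ContinuousOn (fun y : ℝ => jj (I * y)) (Set.Icc a (a + 1)) := by
      refine h1.comp (by fun_prop) ?_
      intro y hy
      have : a ≤ y := hy.1
      simp
      linarith
    exact h3.norm
  have hiv := intermediate_value_Icc (show a ≤ a + 1 by linarith) hcont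
  have hcnt : (f '' Set.Icc a (a + 1)).Countable := by
    have h1 : f '' Set.Icc a (a + 1) ⊆ (fun w : ℂ => ‖w‖) '' {x : ℂ | IsAlgebraic ℚ x} := by
      rintro _ ⟨y, hy, rfl⟩
      exact ⟨jj (I * y), halg y (haY.trans hy.1), rfl⟩
    exact ((Algebraic.countable ℚ ℂ).image _).mono h1
  have hc2 := hcnt.mono hiv
  rw [Cardinal.Real.Icc_countable_iff] at hc2
  have h4 := (h a haY₀).2.2.2.2
  have h5 := (h (a + 1) (by linarith)).2.2.2.1
  have h6 : Real.exp (2 * Real.pi * (a + 1)) = Real.exp (2 * Real.pi * a) * Real.exp (2 * Real.pi) := by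
    rw [← Real.exp_add]; congr 1; ring
  have h7 : 7 ≤ Real.exp (2 * Real.pi) := by
    have := Real.add_one_le_exp (2 * Real.pi)
    have := Real.pi_gt_three
    linarith
  have h8 := Real.exp_pos (2 * Real.pi * a)
  rw [h6] at h5
  have h9 : f (a + 1) ≤ f a := hc2
  have h10 : f a ≤ 2 * Real.exp (2 * Real.pi * a) := h4
  have h11 : Real.exp (2 * Real.pi * a) * Real.exp (2 * Real.pi) / 2 ≤ f (a + 1) := h5
  nlinarith

end Pool.Agent.MSK
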