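import Pool.Agent.Lib.MP_f58a57_nt.K.Defs
import Pool.Agent.Lib.MP_f58a57_nt.Q03_Growth

/-! # K/B7_Om: a curve with given invariants -/

open Complex Filter Topology IntermediateField

noncomputable section

namespace Pool.Agent.MSK

open MSD MSP

variable {d : ℕ}

/-- B7a. PROOF. `e4, e6` are not zero at `iy`. Put `u = (G₆/(π⁶e6)) (π⁴e4/G₄)` and `om² = 1/u` (`IsAlgClosed.exists_pow_nat_eq`). Then `π⁴e4 u² = G₄` and `π⁶e6 u³ = G₆` are both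
equivalent to `G₆² (π⁴e4)³ = G₄³ (π⁶e6)²`, which follows from `1728 G₄³ = jj (G₄³ - G₆²)` and `jj = 1728 e4³/(e4³ - e6²)`. -/
theorem exists_om (z : ℂ) (h4 : e4 z ≠ 0) (h6 : e6 z ≠ 0) (hd : dl z ≠ 0) (G₄ G₆ : ℂ) (g4 : G₄ ≠ 0) (g6 : G₆ ≠ 0)
    (hG : 1728 * G₄ ^ 3 = jj z * (G₄ ^ 3 - G₆ ^ 2)) :
    ∃ om : ℂ, om ≠ 0 ∧ Real.pi ^ 4 * e4 z / om ^ 4 = G₄ ∧ Real.pi ^ 6 * e6 z / om ^ 6 = G₆ := by
  have hpi : (Real.pi : ℂ) ≠ 0 := by exact_mod_cast Real.pi_ne_zero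
  have hdl : 1728 * dl z = e4 z ^ 3 - e6 z ^ 2 := by
    unfold dl
    ring
  have hkey : G₄ ^ 3 * e6 z ^ 2 = e4 z ^ 3 * G₆ ^ 2 := by
    rw [jj, div_mul_eq_mul_div, eq_div_iff hd] at hG
    have h1 : G₄ ^ 3 * (1728 * dl z) = e4 z ^ 3 * (G₄ ^ 3 - G₆ ^ 2) := by linear_combination hG
    rw [hdl] at h1
    linear_combination -h1
  set w : ℂ := (Real.pi ^ 2 * e6 z * G₄) / (G₆ * e4 z) with hw
  have hw0 : w ≠ 0 := by
    rw [hw]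
    exact div_ne_zero (mul_ne_zero (mul_ne_zero (pow_ne_zero _ hpi) h6) g4) (mul_ne_zero g6 h4)
  obtain ⟨om, hom⟩ := IsAlgClosed.exists_pow_nat_eq w (n := 2) (by norm_num)
  have hom0 : om ≠ 0 := by
    intro h
    rw [h] at hom
    simp at hom
    exact hw0 hom.symm
  refine ⟨om, hom0, ?_, ?_⟩
  · have h1 : om ^ 4 = w ^ 2 := by rw [← hom]; ring
    rw [h1, div_eq_iff (pow_ne_zero _ hw0), hw, div_pow, mul_div_assoc', eq_div_iff (pow_ne_zero _ (mul_ne_zero g6 h4))]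
    linear_combination (-(Real.pi : ℂ) ^ 4) * hkey
  · have h1 : om ^ 6 = w ^ 3 := by rw [← hom]; ring
    rw [h1, div_eq_iff (pow_ne_zero _ hw0), hw, div_pow, mul_div_assoc', eq_div_iff (pow_ne_zero _ (mul_ne_zero g6 h4))]
    linear_combination (-(Real.pi : ℂ) ^ 6) * e6 z * G₆ * hkey

end Pool.Agent.MSK
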