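import Pool.Agent.Lib.MP_f58a57_nt.K.Defs

/-! # K/T3_Diff: the difference formula for `wp` -/

open Complex Filter Topology

noncomputable section

namespace Pool.Agent.MSK

open MSD MSP

variable {d : ℕ}

/-- the entire function `N2(a) th(b)² - N2(b) th(a)² + th'(0)² th(a+b) th(a-b)` -/
def t3_f (τ s b a : ℂ) : ℂ :=
  N2 τ s a * th τ b ^ 2 - N2 τ s b * th τ a ^ 2 + (deriv (th τ) 0) ^ 2 * (th τ (a + b) * th τ (a - b))

theorem t3_th_zero (τ : ℂ) : th τ 0 = 0 := by
  unfold th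
  simp

theorem t3_deriv_neg (τ x : ℂ) : deriv (th τ) (-x) = deriv (th τ) x := by
  have h1 : (fun x : ℂ => th τ (-x)) = fun x : ℂ => -th τ x := by
    funext x
    exact th_neg τ x
  have h2 := congrArg (fun g : ℂ → ℂ => deriv g x) h1
  simp only [deriv_comp_neg, deriv.fun_neg'] at h2
  simpa using h2

theorem t3_deriv2_neg (τ x : ℂ) : deriv (deriv (th τ)) (-x) = -deriv (deriv (th τ)) x := by
  have h1 : (fun x : ℂ => deriv (th τ) (-x)) = fun x : ℂ => deriv (th τ) x := by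
    funext x
    exact t3_deriv_neg τ x
  have h2 := congrArg (fun g : ℂ → ℂ => deriv g x) h1
  have h3 : deriv (fun x : ℂ => deriv (th τ) (-x)) x = -deriv (deriv (th τ)) (-x) :=
    deriv_comp_neg (deriv (th τ)) x
  have h4 : -deriv (deriv (th τ)) (-x) = deriv (deriv (th τ)) x := by
    rw [← h3]
    exact h2
  rw [← h4, neg_neg]

theorem t3_N2_neg (τ s x : ℂ) : N2 τ s (-x) = N2 τ s x := by
  unfold N2
  rw [t3_deriv_neg, t3_deriv2_neg, th_neg]
  ring

theorem t3_f_neg (τ s b a : ℂ) : t3_f τ s b (-a) = t3_f τ s b a := by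
  unfold t3_f
  have h1 : -a + b = -(a - b) := by ring
  have h2 : -a - b = -(a + b) := by ring
  rw [t3_N2_neg, th_neg, h1, h2, th_neg, th_neg]
  ring

theorem t3_f_zero (τ s b : ℂ) : t3_f τ s b 0 = 0 := by
  unfold t3_f
  have h1 : N2 τ s 0 = deriv (th τ) 0 ^ 2 := by
    unfold N2
    rw [t3_th_zero]
    ring
  rw [h1, t3_th_zero, zero_add, zero_sub, th_neg]
  ring

theorem t3_f_diff (τ : ℂ) (hτ : 0 < τ.im) (s b : ℂ) : Differentiable ℂ (t3_f τ s b) := by
  have h0 := th_differentiable τ hτ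
  have h1 : Differentiable ℂ (deriv (th τ)) := h0.deriv
  have h2 : Differentiable ℂ (deriv (deriv (th τ))) := h1.deriv
  unfold t3_f N2
  fun_prop

theorem t3_f_deriv (τ s b : ℂ) : deriv (t3_f τ s b) 0 = 0 := by
  have h1 : (fun x : ℂ => t3_f τ s b (-x)) = fun x : ℂ => t3_f τ s b x := by
    funext x
    exact t3_f_neg τ s b x
  have h3 : deriv (fun x : ℂ => t3_f τ s b (-x)) 0 = -deriv (t3_f τ s b) (-0) :=
    deriv_comp_neg (t3_f τ s b) 0
  rw [h1, neg_zero] at h3
  have h4 : deriv (t3_f τ s b) 0 = -deriv (t3_f τ s b) 0 := h3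
  exact self_eq_neg.1 h4

theorem t3_au (τ : ℂ) (m n : ℤ) (a b : ℂ) : au τ m n (a + b) * au τ m n (a - b) = au τ m n a ^ 2 := by
  unfold au
  have h1 : ∀ x y z w : ℂ, (z * x) * (z * y) = z ^ 2 * (x * y) := by intros; ring
  rw [mul_pow, h1 _ _ _ 0, ← Complex.exp_add, ← Complex.exp_nat_mul]
  congr 2
  push_cast
  ring

theorem t3_f_shift (τ : ℂ) (hτ : 0 < τ.im) (s b : ℂ) (m n : ℤ) (a : ℂ) :
    t3_f τ s b (a + m + n * τ) = au τ m n a ^ 2 * t3_f τ s b a := by
  have e0 : ∀ x, th τ (x + m + n * τ) = au τ m n x * th τ x := fun x => N0_shift τ hτ m n x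
  unfold t3_f
  have h1 : a + m + n * τ + b = (a + b) + m + n * τ := by ring
  have h2 : a + m + n * τ - b = (a - b) + m + n * τ := by ring
  rw [h1, h2, N2_shift τ s hτ, e0, e0, e0, ← t3_au τ m n a b]
  have h3 := t3_au τ m n a b
  have h4 : au τ m n (a + b) * th τ (a + b) * (au τ m n (a - b) * th τ (a - b)) =
      (au τ m n (a + b) * au τ m n (a - b)) * (th τ (a + b) * th τ (a - b)) := by ring
  rw [h4, h3, mul_pow]
  ring

open Classical in
/-- the quotient of `t3_f` by `th²`, extended to the lattice -/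
def t3_D (τ : ℂ) (hτ : 0 < τ.im) (s b : ℂ) (x : ℂ) : ℂ :=
  if x ∈ (MSP.pp τ hτ).lattice then dslope (dslope (t3_f τ s b) 0) 0 0 / (deriv (th τ) 0) ^ 2
  else t3_f τ s b x / th τ x ^ 2

theorem t3_D_add (τ : ℂ) (hτ : 0 < τ.im) (s b : ℂ) (x : ℂ) (l : (MSP.pp τ hτ).lattice) :
    t3_D τ hτ s b (x + l) = t3_D τ hτ s b x := by
  have h : (x + l ∈ (MSP.pp τ hτ).lattice) ↔ (x ∈ (MSP.pp τ hτ).lattice) := by
    simpa using ((MSP.pp τ hτ).lattice.toAddSubgroup.add_mem_cancel_right (y := x) l.2)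
  unfold t3_D
  by_cases hx : x ∈ (MSP.pp τ hτ).lattice
  · rw [if_pos (h.2 hx), if_pos hx]
  · rw [if_neg (fun h' => hx (h.1 h')), if_neg hx]
    obtain ⟨m, n, hl⟩ := PeriodPair.mem_lattice.1 l.2
    have h1 : x + (l : ℂ) = x + m + n * τ := by
      rw [← hl]
      simp only [MSP.pp]
      ring
    have e0 : th τ (x + m + n * τ) = au τ m n x * th τ x := N0_shift τ hτ m n x
    rw [h1, t3_f_shift τ hτ, e0, mul_pow]
    exact mul_div_mul_left _ _ (pow_ne_zero 2 (au_ne τ m n x))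

theorem t3_D_off (τ : ℂ) (hτ : 0 < τ.im) (s b : ℂ) (x : ℂ) (hx : x ∉ (MSP.pp τ hτ).lattice) :
    AnalyticAt ℂ (t3_D τ hτ s b) x := by
  have h1 : AnalyticAt ℂ (t3_f τ s b) x := (t3_f_diff τ hτ s b).analyticAt x
  have h2 : AnalyticAt ℂ (th τ) x := (th_differentiable τ hτ).analyticAt x
  have h3 : AnalyticAt ℂ (fun x => t3_f τ s b x / th τ x ^ 2) x :=
    h1.div (h2.pow 2) (pow_ne_zero 2 (fun h => hx ((mem_pp τ hτ x).2 h)))
  refine h3.congr ?_
  filter_upwards [(MSP.pp τ hτ).isClosed_lattice.isOpen_compl.mem_nhds hx] with y hy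
  unfold t3_D
  rw [if_neg (show y ∉ (MSP.pp τ hτ).lattice from hy)]

theorem t3_dslope_diff {f : ℂ → ℂ} (hf : Differentiable ℂ f) : Differentiable ℂ (dslope f 0) := by
  have h := (Complex.differentiableOn_dslope (s := Set.univ) (c := (0 : ℂ)) (f := f) Filter.univ_mem).2
    hf.differentiableOn
  exact differentiableOn_univ.1 h

theorem t3_D_zero (τ : ℂ) (hτ : 0 < τ.im) (s b : ℂ) : AnalyticAt ℂ (t3_D τ hτ s b) 0 := by
  set L := MSP.pp τ hτ with hL
  have hf := t3_f_diff τ hτ s b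
  have hf1 := t3_dslope_diff hf
  have hf2 := t3_dslope_diff hf1
  have ht1 := t3_dslope_diff (th_differentiable τ hτ)
  have h0 : dslope (th τ) 0 0 = deriv (th τ) 0 := dslope_same _ _
  have hne : dslope (th τ) 0 0 ≠ 0 := by
    rw [h0]
    exact deriv_th_zero_ne τ hτ
  have h1 : AnalyticAt ℂ (fun x => dslope (dslope (t3_f τ s b) 0) 0 x / dslope (th τ) 0 x ^ 2) 0 :=
    (hf2.analyticAt 0).div ((ht1.analyticAt 0).pow 2) (pow_ne_zero 2 hne)
  refine h1.congr ?_
  have h2 := L.compl_lattice_sdiff_singleton_mem_nhds 0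
  filter_upwards [h2] with x hx
  by_cases hx0 : x = 0
  · subst hx0
    unfold t3_D
    rw [if_pos (zero_mem _), h0]
  · have hxL : x ∉ L.lattice := fun hxL => hx ⟨hxL, hx0⟩
    unfold t3_D
    rw [if_neg hxL]
    have e1 : dslope (t3_f τ s b) 0 0 = 0 := by rw [dslope_same, t3_f_deriv]
    have e2 : dslope (dslope (t3_f τ s b) 0) 0 x = t3_f τ s b x / x ^ 2 := by
      rw [dslope_of_ne _ hx0, slope_def_field, e1, dslope_of_ne _ hx0, slope_def_field, t3_f_zero]
      field_simp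
      ring
    have e3 : dslope (th τ) 0 x = th τ x / x := by
      rw [dslope_of_ne _ hx0, slope_def_field, t3_th_zero]
      ring
    have e4 : th τ x ≠ 0 := fun h => hxL ((mem_pp τ hτ x).2 h)
    rw [e2, e3]
    field_simp

theorem t3_D_analytic (τ : ℂ) (hτ : 0 < τ.im) (s b : ℂ) (x : ℂ) : AnalyticAt ℂ (t3_D τ hτ s b) x := by
  by_cases hx : x ∈ (MSP.pp τ hτ).lattice
  · have h0 := t3_D_zero τ hτ s b
    have h1 : AnalyticAt ℂ (fun y => t3_D τ hτ s b (y - x)) x := by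
      have h2 : AnalyticAt ℂ (t3_D τ hτ s b) ((fun y : ℂ => y - x) x) := by
        simpa using h0
      exact h2.comp (f := fun y : ℂ => y - x) (by fun_prop)
    refine h1.congr (Eventually.of_forall fun y => ?_)
    have := t3_D_add τ hτ s b (y - x) ⟨x, hx⟩
    simp only [sub_add_cancel] at this
    exact this.symm
  · exact t3_D_off τ hτ s b x hx

theorem t3_f_eq_zero (τ : ℂ) (hτ : 0 < τ.im) (s a b : ℂ) (ha : th τ a ≠ 0) (hb : th τ b ≠ 0) :
    t3_f τ s b a = 0 := by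
  have hd : Differentiable ℂ (t3_D τ hτ s b) := fun x => (t3_D_analytic τ hτ s b x).differentiableAt
  have h1 : t3_D τ hτ s b a = t3_D τ hτ s b b :=
    hd.apply_eq_apply_of_bounded (IsZLattice.isCompact_range_of_periodic (MSP.pp τ hτ).lattice _
      hd.continuous fun z w hw => by
        have := t3_D_add τ hτ s b z ⟨w, hw⟩
        exact this).isBounded a b
  have h2 : t3_f τ s b b = 0 := by
    unfold t3_f
    simp only [sub_self, t3_th_zero, mul_zero, add_zero]
  unfold t3_D at h1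
  rw [if_neg (fun h => ha ((mem_pp τ hτ a).1 h)), if_neg (fun h => hb ((mem_pp τ hτ b).1 h)), h2,
    zero_div, div_eq_zero_iff] at h1
  rcases h1 with h | h
  · exact h
  · exact absurd h (pow_ne_zero 2 ha)

/-- T3a. PROOF. Fix `b` with `th b ≠ 0` and let `f(a) = N2(a) th(b)² - N2(b) th(a)² + th'(0)² th(a+b) th(a-b)`. It is entire, `f(a + m + nτ) = au(a)² f(a)`
(`N2_shift`, `N0_shift`, `au(a+b) au(a-b) = au(a)²`), `f(-a) = f(a)` (`th_neg`), `f(0) = 0` (`N2(0) = th'(0)²`), so `f` has a double zero at `0`, and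
`f / th²` has removable singularities at the lattice points, is entire and doubly periodic, hence constant (bounded; compare P/T7_Wp for the technique). It vanishes at
`a = b`. So `f = 0`; divide by `th(a)² th(b)²`. -/
theorem wp_diff (τ : ℂ) (hτ : 0 < τ.im) (s a b : ℂ) (ha : th τ a ≠ 0) (hb : th τ b ≠ 0) :
    wp τ s a - wp τ s b = -(deriv (th τ) 0) ^ 2 * th τ (a + b) * th τ (a - b) / (th τ a ^ 2 * th τ b ^ 2) := by
  have h := t3_f_eq_zero τ hτ s a b ha hb
  unfold t3_f at h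
  unfold wp N0
  rw [div_sub_div _ _ (pow_ne_zero 2 ha) (pow_ne_zero 2 hb)]
  congr 1
  linear_combination h

end Pool.Agent.MSK
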