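import Pool.Agent.Lib.MP_f58a57_nt.K.Defs
import Pool.Agent.Lib.MP_f58a57_nt.K.T3_Diff

/-! # K/T3b_Half: half periods -/

open Complex

noncomputable section

namespace Pool.Agent.MSK

open MSD MSP

variable {d : ℕ}

theorem t3b_wp_neg (τ s t : ℂ) : wp τ s (-t) = wp τ s t := by
  unfold wp N0
  rw [t3_N2_neg, th_neg, neg_sq]

theorem t3b_ne (τ : ℂ) (hτ : 0 < τ.im) (m n : ℤ) (h : Odd m ∨ Odd n) : th τ ((m + n * τ) / 2) ≠ 0 := by
  intro h0
  obtain ⟨m', n', e⟩ := (th_eq_zero_iff τ hτ _).1 h0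
  have e1 : ((m - 2 * m' : ℤ) : ℂ) + ((n - 2 * n' : ℤ) : ℂ) * τ = 0 := by
    push_cast
    linear_combination 2 * e
  have him := congrArg Complex.im e1
  simp only [add_im, intCast_im, mul_im, intCast_re, zero_mul, add_zero, zero_add, zero_im] at him
  have hn : ((n - 2 * n' : ℤ) : ℝ) = 0 := by
    rcases mul_eq_zero.1 him with h' | h'
    · exact h'
    · exact absurd h' hτ.ne'
  have hn' : n - 2 * n' = 0 := by exact_mod_cast hn
  rw [hn'] at e1
  simp only [Int.cast_zero, zero_mul, add_zero] at e1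
  have hm' : m - 2 * m' = 0 := by exact_mod_cast e1
  rcases h with h | h
  · obtain ⟨k, hk⟩ := h
    omega
  · obtain ⟨k, hk⟩ := h
    omega

/-- T3b' the general form: `h = (m + nτ)/2` not in the lattice -/
theorem wp_half' (τ : ℂ) (hτ : 0 < τ.im) (m n : ℤ) (hh : th τ ((m + n * τ) / 2) ≠ 0) :
    deriv (wp τ (sE τ)) ((m + n * τ) / 2) = 0 := by
  set h : ℂ := (m + n * τ) / 2 with hdef
  have h1 : (fun t : ℂ => wp τ (sE τ) (h - t)) = fun t : ℂ => wp τ (sE τ) (h + t) := by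
    funext t
    rw [← t3b_wp_neg, ← t7_wp_add τ hτ (sE τ) m n]
    congr 1
    rw [hdef]
    ring
  have h2 : deriv (fun t : ℂ => wp τ (sE τ) (h - t)) 0 = -deriv (wp τ (sE τ)) (h - 0) :=
    deriv_comp_const_sub (f := wp τ (sE τ)) h 0
  have h3 : deriv (fun t : ℂ => wp τ (sE τ) (h + t)) 0 = deriv (wp τ (sE τ)) (h + 0) :=
    deriv_comp_const_add (f := wp τ (sE τ)) h 0
  rw [h1, h3, sub_zero, add_zero] at h2
  exact self_eq_neg.1 h2

/-- T3b. PROOF. `wp` is even and has the period `2h`, so `wp(h + t) = wp(-h - t) = wp(h - t)`; the derivative at `t = 0` is zero. `h` is not in the lattice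
(`th_eq_zero_iff`). -/
theorem wp_half (τ : ℂ) (hτ : 0 < τ.im) (h : ℂ) (hh : h = 1 / 2 ∨ h = τ / 2 ∨ h = (1 + τ) / 2) :
    th τ h ≠ 0 ∧ deriv (wp τ (sE τ)) h = 0 := by
  obtain ⟨m, n, hmn, e⟩ : ∃ m n : ℤ, (Odd m ∨ Odd n) ∧ h = (m + n * τ) / 2 := by
    rcases hh with h' | h' | h'
    · exact ⟨1, 0, Or.inl odd_one, by rw [h']; push_cast; ring⟩
    · exact ⟨0, 1, Or.inr odd_one, by rw [h']; push_cast; ring⟩
    · exact ⟨1, 1, Or.inl odd_one, by rw [h']; push_cast; ring⟩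
  have h1 := t3b_ne τ hτ m n hmn
  rw [e]
  exact ⟨h1, wp_half' τ hτ m n h1⟩

theorem t3b_diff (τ : ℂ) (hτ : 0 < τ.im) (s a b : ℂ) (ha : th τ a ≠ 0) (hb : th τ b ≠ 0)
    (h1 : th τ (a + b) ≠ 0) (h2 : th τ (a - b) ≠ 0) : wp τ s a ≠ wp τ s b := by
  intro h
  have h3 := wp_diff τ hτ s a b ha hb
  rw [h, sub_self] at h3
  have h4 : -(deriv (th τ) 0) ^ 2 * th τ (a + b) * th τ (a - b) / (th τ a ^ 2 * th τ b ^ 2) ≠ 0 :=
    div_ne_zero (mul_ne_zero (mul_ne_zero (neg_ne_zero.2 (pow_ne_zero 2 (deriv_th_zero_ne τ hτ))) h1) h2)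
      (mul_ne_zero (pow_ne_zero 2 ha) (pow_ne_zero 2 hb))
  exact h4 h3.symm

theorem t3b_cubic {g k a b c x : ℂ} (ha : 4 * a ^ 3 - g * a - k = 0) (hb : 4 * b ^ 3 - g * b - k = 0)
    (hc : 4 * c ^ 3 - g * c - k = 0) (hx : 4 * x ^ 3 - g * x - k = 0) (hab : a ≠ b) (hac : a ≠ c) (hbc : b ≠ c) :
    a = x ∨ b = x ∨ c = x := by
  by_cases hxa : a = x
  · exact Or.inl hxa
  by_cases hxb : b = x
  · exact Or.inr (Or.inl hxb)
  refine Or.inr (Or.inr ?_)
  have e1 : 4 * (a ^ 2 + a * b + b ^ 2) - g = 0 := by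
    have : (a - b) * (4 * (a ^ 2 + a * b + b ^ 2) - g) = 0 := by linear_combination ha - hb
    exact (mul_eq_zero.1 this).resolve_left (sub_ne_zero.2 hab)
  have e2 : 4 * (a ^ 2 + a * c + c ^ 2) - g = 0 := by
    have : (a - c) * (4 * (a ^ 2 + a * c + c ^ 2) - g) = 0 := by linear_combination ha - hc
    exact (mul_eq_zero.1 this).resolve_left (sub_ne_zero.2 hac)
  have e3 : 4 * (a ^ 2 + a * x + x ^ 2) - g = 0 := by
    have : (a - x) * (4 * (a ^ 2 + a * x + x ^ 2) - g) = 0 := by linear_combination ha - hx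
    exact (mul_eq_zero.1 this).resolve_left (sub_ne_zero.2 hxa)
  have e4 : a + b + c = 0 := by
    have : (b - c) * (a + b + c) = 0 := by linear_combination (e1 - e2) / 4
    exact (mul_eq_zero.1 this).resolve_left (sub_ne_zero.2 hbc)
  have e5 : a + b + x = 0 := by
    have : (b - x) * (a + b + x) = 0 := by linear_combination (e1 - e3) / 4
    exact (mul_eq_zero.1 this).resolve_left (sub_ne_zero.2 hxb)
  linear_combination e4 - e5

/-- T3c. PROOF. By `wp_ode` and T3b the three numbers `e_i = wp h_i` (`h_i = 1/2, τ/2, (1+τ)/2`) are roots of the cubic polynomial; they are different by `wp_diff`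
(`h_i ± h_j` is not in the lattice, `deriv_th_zero_ne`). A cubic polynomial has at most three roots. -/
theorem half_root (τ : ℂ) (hτ : 0 < τ.im) (x : ℂ)
    (hx : 4 * x ^ 3 - 4 / 3 * Real.pi ^ 4 * e4 τ * x - 8 / 27 * Real.pi ^ 6 * e6 τ = 0) :
    ∃ h : ℂ, (h = 1 / 2 ∨ h = τ / 2 ∨ h = (1 + τ) / 2) ∧ wp τ (sE τ) h = x := by
  have hr : ∀ h : ℂ, (h = 1 / 2 ∨ h = τ / 2 ∨ h = (1 + τ) / 2) →
      4 * wp τ (sE τ) h ^ 3 - 4 / 3 * Real.pi ^ 4 * e4 τ * wp τ (sE τ) h - 8 / 27 * Real.pi ^ 6 * e6 τ = 0 := by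
    intro h hh
    obtain ⟨h1, h2⟩ := wp_half τ hτ h hh
    rw [← wp_ode τ hτ h h1, h2]
    ring
  have r1 := hr (1 / 2) (Or.inl rfl)
  have r2 := hr (τ / 2) (Or.inr (Or.inl rfl))
  have r3 := hr ((1 + τ) / 2) (Or.inr (Or.inr rfl))
  have n1 := (wp_half τ hτ (1 / 2) (Or.inl rfl)).1
  have n2 := (wp_half τ hτ (τ / 2) (Or.inr (Or.inl rfl))).1
  have n3 := (wp_half τ hτ ((1 + τ) / 2) (Or.inr (Or.inr rfl))).1
  have d12 : wp τ (sE τ) (1 / 2) ≠ wp τ (sE τ) (τ / 2) := by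
    refine t3b_diff τ hτ _ _ _ n1 n2 ?_ ?_
    · have := t3b_ne τ hτ 1 1 (Or.inl odd_one)
      convert this using 2
      push_cast
      ring
    · have := t3b_ne τ hτ 1 (-1) (Or.inl odd_one)
      convert this using 2
      push_cast
      ring
  have d13 : wp τ (sE τ) (1 / 2) ≠ wp τ (sE τ) ((1 + τ) / 2) := by
    refine t3b_diff τ hτ _ _ _ n1 n3 ?_ ?_
    · have := t3b_ne τ hτ 2 1 (Or.inr odd_one)
      convert this using 2
      push_cast
      ring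
    · have := t3b_ne τ hτ 0 (-1) (Or.inr (by decide))
      convert this using 2
      push_cast
      ring
  have d23 : wp τ (sE τ) (τ / 2) ≠ wp τ (sE τ) ((1 + τ) / 2) := by
    refine t3b_diff τ hτ _ _ _ n2 n3 ?_ ?_
    · have := t3b_ne τ hτ 1 2 (Or.inl odd_one)
      convert this using 2
      push_cast
      ring
    · have := t3b_ne τ hτ (-1) 0 (Or.inl (by decide))
      convert this using 2
      push_cast
      ring
  rcases t3b_cubic r1 r2 r3 hx d12 d13 d23 with h | h | h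
  · exact ⟨1 / 2, Or.inl rfl, h⟩
  · exact ⟨τ / 2, Or.inr (Or.inl rfl), h⟩
  · exact ⟨(1 + τ) / 2, Or.inr (Or.inr rfl), h⟩

end Pool.Agent.MSK
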