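import Pool.Agent.Lib.MP_f58a57_nt.K.Defs
import Pool.Agent.Lib.MP_f58a57_nt.K.B5_EmbPhi
import Pool.Agent.Lib.MP_f58a57_nt.K.B7_Om
import Pool.Agent.Lib.MP_f58a57_nt.K.T3b_Half
import Pool.Agent.Lib.MP_f58a57_nt.K.A1_Deriv
import Pool.Agent.Lib.MP_f58a57_nt.K.B3_Cusp
import Pool.Agent.Lib.MP_f58a57_nt.G2_Link

/-! # K/B8_Spec: the specialised curve -/

open Complex Filter Topology IntermediateField

noncomputable section

namespace Pool.Agent.MSK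

open MSD MSP

variable {d : ℕ}

/-! generic lemmas about a field and a homomorphism to `ℂ` (cheap instance problems) -/

private theorem b8_g1 {K : Type*} [Field K] (σ : K →+* ℂ) (r k u w B : K) (φ : ℂ) (hB : B = r * w * u / 3) (hB0 : B ≠ 0) :
    1 + σ r * (σ k - σ u / 3 * φ) * σ w = σ B * (σ ((1 + r * w * k) / B) - φ) := by
  have hσB : σ B ≠ 0 := (map_ne_zero σ).2 hB0
  have hB' : σ B = σ r * σ w * σ u / 3 := by
    rw [hB, map_div₀, map_mul, map_mul, map_ofNat]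
  have h4 : σ B * (σ ((1 + r * w * k) / B) - φ) = σ (1 + r * w * k) - σ B * φ := by
    rw [map_div₀, mul_sub (σ B), mul_div_cancel₀ _ hσB]
  rw [h4, map_add, map_one, map_mul, map_mul, hB']
  ring

private theorem b8_g2 {K : Type*} [Field K] (σ : K →+* ℂ) (T A B : K) (h : 1728 * A ^ 3 = T * (A ^ 3 - B ^ 2)) :
    1728 * σ A ^ 3 = σ T * (σ A ^ 3 - σ B ^ 2) := by
  have h := congrArg σ h
  rw [map_mul, map_mul, map_sub, map_pow, map_pow, map_ofNat] at h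
  exact h

private theorem b8_g3 {K : Type*} [Field K] (σ : K →+* ℂ) (x A B : K) :
    σ (4 * x ^ 3 - 4 / 3 * A * x - 8 / 27 * B) = 4 * σ x ^ 3 - 4 / 3 * σ A * σ x - 8 / 27 * σ B := by
  rw [map_sub, map_sub, map_mul, map_mul, map_mul, map_mul, map_div₀, map_div₀, map_pow, map_ofNat, map_ofNat,
      map_ofNat, map_ofNat]

private theorem b8_g4 {K : Type*} [Field K] (σ : K →+* ℂ) (x A : K) :
    σ (27 / 8 * (4 * x ^ 3 - 4 / 3 * A * x)) = 27 / 8 * (4 * σ x ^ 3 - 4 / 3 * σ A * σ x) := by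
  rw [map_mul, map_sub, map_mul, map_mul, map_mul, map_div₀, map_div₀, map_pow, map_ofNat, map_ofNat, map_ofNat, map_ofNat]

private theorem b8_g5 {K : Type*} [Field K] (σ : K →+* ℂ) (x : K) : σ (3 / 2 * x) = 3 / 2 * σ x := by
  rw [map_mul, map_div₀, map_ofNat, map_ofNat]

private theorem b8_g6 {K : Type*} [Field K] (σ : K →+* ℂ) (x : K) : σ (2 / 3 * x) = 2 / 3 * σ x := by
  rw [map_mul, map_div₀, map_ofNat, map_ofNat]

private theorem b8_g7 {K : Type*} [Field K] (σ : K →+* ℂ) (T A B : K) (h : 1728 * σ A ^ 3 = σ T * (σ A ^ 3 - σ B ^ 2)) :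
    1728 * A ^ 3 = T * (A ^ 3 - B ^ 2) := by
  apply σ.injective
  rw [map_mul, map_mul, map_sub, map_pow, map_pow, map_ofNat]
  exact h

private theorem b8_g8 {K : Type*} [Field K] (σ : K →+* ℂ) (x A B : K) (h : 4 * σ x ^ 3 - 4 / 3 * σ A * σ x - 8 / 27 * σ B = 0) :
    4 * x ^ 3 - 4 / 3 * A * x - 8 / 27 * B = 0 := by
  apply σ.injective
  rw [b8_g3, map_zero]
  exact h

private theorem b8_g9 {K : Type*} [Field K] [CharZero K] (r w u : K) (hr : r ≠ 0) (hw : w ≠ 0) (hu : u ≠ 0) :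
    r * w * u / 3 ≠ 0 := div_ne_zero (mul_ne_zero (mul_ne_zero hr hw) hu) three_ne_zero

theorem b8_det (θ : ℂ) (htr : Transcendental ℚ θ) (r k u w : Kc θ) (hr : r ≠ 0) (hu : u ≠ 0) (hw : w ≠ 0) :
    ∃ C Y : ℝ, 1 ≤ Y ∧ ∀ y : ℝ, Y ≤ y → ∀ e : Emb θ (jj (I * y)),
      Real.exp (-(C * y)) ≤ ‖1 + e.σ r * (e.σ k - e.σ u / 3 * phi y) * e.σ w‖ := by
  obtain ⟨B, hB⟩ : ∃ B : Kc θ, B = r * w * u / 3 := ⟨_, rfl⟩
  have hB0 : B ≠ 0 := by
    rw [hB]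
    exact b8_g9 r w u hr hw hu
  obtain ⟨C1, Y1, hY1, h1⟩ := emb_size θ htr B hB0
  obtain ⟨C2, Y2, hY2, h2⟩ := emb_phi θ htr ((1 + r * w * k) / B)
  refine ⟨C1 + C2, max Y1 Y2, hY1.trans (le_max_left _ _), fun y hy e => ?_⟩
  have e1 := (h1 y ((le_max_left _ _).trans hy) e).1
  have e2 := h2 y ((le_max_right _ _).trans hy) e
  have hid := b8_g1 e.σ r k u w B (phi y) hB hB0
  rw [hid, norm_mul]
  calc Real.exp (-((C1 + C2) * y)) = Real.exp (-(C1 * y)) * Real.exp (-(C2 * y)) := by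
        rw [← Real.exp_add, add_mul, neg_add]
    _ ≤ _ := mul_le_mul e1 e2 (Real.exp_pos _).le (norm_nonneg _)

theorem b8_Y0 (P : Par d) (D : Dt d) (hD : IsOrig P D) (l : Fin (d + 1)) :
    deriv (wp D.τ (sE D.τ)) (D.h l + 0) = 0 := by
  have hh := D.hh l
  rw [add_zero]
  rw [hD.h, ← hD.τ] at hh ⊢
  unfold hP at hh ⊢
  split_ifs at hh ⊢ with h1 h2
  · have e : -D.τ / 2 = ((0 : ℤ) + (-1 : ℤ) * D.τ) / 2 := by push_cast; ring
    rw [e] at hh ⊢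
    exact wp_half' D.τ D.im 0 (-1) hh
  · have e : (1 : ℂ) / 2 = ((1 : ℤ) + (0 : ℤ) * D.τ) / 2 := by push_cast; ring
    rw [e] at hh ⊢
    exact wp_half' D.τ D.im 1 0 hh
  · have e : (1 - D.τ) / 2 = ((1 : ℤ) + (-1 : ℤ) * D.τ) / 2 := by push_cast; ring
    rw [e] at hh ⊢
    exact wp_half' D.τ D.im 1 (-1) hh

theorem b8_ode (D : Dt d) (l : Fin (d + 1)) (h0 : deriv (wp D.τ (sE D.τ)) (D.h l + 0) = 0) :
    4 * D.X l 0 ^ 3 - 4 / 3 * (Real.pi ^ 4 * e4 D.τ / D.om ^ 4) * D.X l 0 - 8 / 27 * (Real.pi ^ 6 * e6 D.τ / D.om ^ 6) = 0 := by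
  have h1 := wp_ode D.τ D.im (D.h l + 0) (by rw [add_zero]; exact D.hh l)
  rw [h0] at h1
  have hom := D.ne
  have e : 4 * D.X l 0 ^ 3 - 4 / 3 * (Real.pi ^ 4 * e4 D.τ / D.om ^ 4) * D.X l 0 - 8 / 27 * (Real.pi ^ 6 * e6 D.τ / D.om ^ 6) =
      (4 * wp D.τ (sE D.τ) (D.h l + 0) ^ 3 - 4 / 3 * Real.pi ^ 4 * MSD.e4 D.τ * wp D.τ (sE D.τ) (D.h l + 0)
      - 8 / 27 * Real.pi ^ 6 * MSD.e6 D.τ) / D.om ^ 6 := by
    unfold Dt.X
    field_simp
  rw [e, ← h1]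
  simp

theorem b8_rel (z om : ℂ) (h0 : dl z ≠ 0) (hom : om ≠ 0) :
    1728 * (Real.pi ^ 4 * e4 z / om ^ 4) ^ 3 = jj z * ((Real.pi ^ 4 * e4 z / om ^ 4) ^ 3 - (Real.pi ^ 6 * e6 z / om ^ 6) ^ 2) := by
  have h1 : jj z * (e4 z ^ 3 - e6 z ^ 2) = 1728 * e4 z ^ 3 := by
    unfold jj
    have h2 : e4 z ^ 3 - e6 z ^ 2 = 1728 * dl z := by
      unfold dl
      ring
    rw [h2]
    field_simp
  have h3 : (Real.pi ^ 4 * e4 z / om ^ 4) ^ 3 - (Real.pi ^ 6 * e6 z / om ^ 6) ^ 2 =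
      (Real.pi : ℂ) ^ 12 / om ^ 12 * (e4 z ^ 3 - e6 z ^ 2) := by
    field_simp
  rw [h3]
  calc 1728 * (Real.pi ^ 4 * e4 z / om ^ 4) ^ 3 = (Real.pi : ℂ) ^ 12 / om ^ 12 * (1728 * e4 z ^ 3) := by
        field_simp
    _ = _ := by
        rw [← h1]
        ring

/-- the specialised curve and the values of its invariants -/
theorem b8_curve (θ : ℂ) (y : ℝ) (hy0 : 0 < y) (e : Emb θ (jj (I * y))) (h4 : e4 (I * y) ≠ 0) (h6 : e6 (I * y) ≠ 0)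
    (hd : dl (I * y) ≠ 0) (θK G4 G6 k : Kc θ) (hθ : (θK : ℂ) = θ) (g4 : G4 ≠ 0) (g6 : G6 ≠ 0)
    (hG : 1728 * G4 ^ 3 = θK * (G4 ^ 3 - G6 ^ 2)) (x : Fin (d + 1) → Kc θ)
    (hx : ∀ l, 4 * x l ^ 3 - 4 / 3 * G4 * x l - 8 / 27 * G6 = 0) :
    ∃ D' : Dt d, D'.τ = I * y ∧ (∀ l, D'.h l = 1 / 2 ∨ D'.h l = D'.τ / 2 ∨ D'.h l = (1 + D'.τ) / 2) ∧
      D'.kap = e.σ k ∧ Real.pi ^ 4 * e4 D'.τ / D'.om ^ 4 = e.σ G4 ∧ Real.pi ^ 6 * e6 D'.τ / D'.om ^ 6 = e.σ G6 ∧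
      (∀ l, D'.X l 0 = e.σ (x l)) ∧ ∀ l, D'.Y l 0 = 0 := by
  have him : 0 < (I * (y : ℂ)).im := by simpa using hy0
  have hG' : 1728 * e.σ G4 ^ 3 = jj (I * y) * (e.σ G4 ^ 3 - e.σ G6 ^ 2) := by
    have h := b8_g2 e.σ θK G4 G6 hG
    rw [e.th θK hθ] at h
    exact h
  obtain ⟨om, hom, ho4, ho6⟩ := exists_om (I * y) h4 h6 hd (e.σ G4) (e.σ G6) ((map_ne_zero e.σ).2 g4) ((map_ne_zero e.σ).2 g6) hG'
  have hroot : ∀ l, ∃ h : ℂ, (h = 1 / 2 ∨ h = (I * (y : ℂ)) / 2 ∨ h = (1 + I * (y : ℂ)) / 2) ∧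
      wp (I * y) (sE (I * y)) h = om ^ 2 * e.σ (x l) := by
    intro l
    apply half_root (I * y) him
    have h := b8_g3 e.σ (x l) G4 G6
    rw [hx l, map_zero, ← ho4, ← ho6] at h
    have h2 : 4 * (om ^ 2 * e.σ (x l)) ^ 3 - 4 / 3 * Real.pi ^ 4 * e4 (I * y) * (om ^ 2 * e.σ (x l)) - 8 / 27 * Real.pi ^ 6 * e6 (I * y) =
        om ^ 6 * (4 * e.σ (x l) ^ 3 - 4 / 3 * (Real.pi ^ 4 * e4 (I * y) / om ^ 4) * e.σ (x l) -
          8 / 27 * (Real.pi ^ 6 * e6 (I * y) / om ^ 6)) := by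
      field_simp
    rw [h2, ← h, mul_zero]
  choose h hh hw using hroot
  have hth : ∀ l, th (I * y) (h l) ≠ 0 ∧ deriv (wp (I * y) (sE (I * y))) (h l) = 0 := fun l => wp_half (I * y) him (h l) (hh l)
  refine ⟨⟨I * y, him, om, hom, e.σ k, h, fun l => (hth l).1⟩, rfl, hh, rfl, ho4, ho6, fun l => ?_, fun l => ?_⟩
  · show wp (I * y) (sE (I * y)) (h l + 0) / om ^ 2 = e.σ (x l)
    rw [add_zero, hw l]
    field_simp
  · show deriv (wp (I * y) (sE (I * y))) (h l + 0) / om ^ 3 = 0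
    rw [add_zero, (hth l).2, zero_div]

theorem b8_pi : (9 : ℝ) ≤ Real.pi ^ 2 ∧ Real.pi ^ 2 ≤ 10 := by
  have h1 := pow_le_pow_left₀ (by norm_num : (0 : ℝ) ≤ 3) Real.pi_gt_three.le 2
  have h2 := pow_le_pow_left₀ Real.pi_pos.le Real.pi_lt_d2.le 2
  constructor
  · exact le_trans (by norm_num) h1
  · exact h2.trans (by norm_num)

/-- the size of `om'` -/
theorem b8_om (y : ℝ) (hy : 1 ≤ y) (om u a4 a6 : ℂ) (hom : om ≠ 0) (hu : u ≠ 0) (C : ℝ) (h4 : ‖a4 - 1‖ ≤ 1 / 4) (h6 : ‖a6 - 1‖ ≤ 1 / 4)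
    (hu1 : Real.exp (-(C * y)) ≤ ‖u‖) (hu2 : ‖u‖ ≤ Real.exp (C * y)) (h : om ^ 2 * (a4 * u) = Real.pi ^ 2 * a6) :
    ‖om‖ ≤ Real.exp ((|C| + 3) * y) ∧ Real.exp (-((|C| + 3) * y)) ≤ ‖om‖ := by
  have hn : ‖om‖ ^ 2 * (‖a4‖ * ‖u‖) = Real.pi ^ 2 * ‖a6‖ := by
    have := congrArg norm h
    rw [norm_mul, norm_mul, norm_mul, norm_pow, norm_pow, Complex.norm_real, Real.norm_of_nonneg Real.pi_pos.le] at this
    exact this
  obtain ⟨hp1, hp2⟩ := b8_pi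
  have a41 : 3 / 4 ≤ ‖a4‖ := by
    have := norm_sub_norm_le (1 : ℂ) (1 - a4)
    rw [sub_sub_cancel, norm_one, norm_sub_rev] at this
    linarith
  have a42 : ‖a4‖ ≤ 5 / 4 := by
    have := norm_sub_norm_le a4 (1 : ℂ)
    rw [norm_one] at this
    linarith
  have a61 : 3 / 4 ≤ ‖a6‖ := by
    have := norm_sub_norm_le (1 : ℂ) (1 - a6)
    rw [sub_sub_cancel, norm_one, norm_sub_rev] at this
    linarith
  have a62 : ‖a6‖ ≤ 5 / 4 := by
    have := norm_sub_norm_le a6 (1 : ℂ)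
    rw [norm_one] at this
    linarith
  have hCy : C * y ≤ |C| * y := mul_le_mul_of_nonneg_right (le_abs_self C) (by linarith)
  have hu1' : Real.exp (-(|C| * y)) ≤ ‖u‖ := (Real.exp_le_exp.2 (by linarith)).trans hu1
  have hu2' : ‖u‖ ≤ Real.exp (|C| * y) := hu2.trans (Real.exp_le_exp.2 (by linarith))
  have hE : 0 < Real.exp (|C| * y) := Real.exp_pos _
  have hEE : Real.exp (|C| * y) * Real.exp (-(|C| * y)) = 1 := by
    rw [← Real.exp_add]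
    simp
  have hE1 : 1 ≤ Real.exp (|C| * y) := Real.one_le_exp (by positivity)
  have ho := norm_nonneg om
  have hup : ‖om‖ ^ 2 ≤ 17 * Real.exp (|C| * y) := by
    have h1 : ‖om‖ ^ 2 * (3 / 4 * Real.exp (-(|C| * y))) ≤ 10 * (5 / 4) := by
      calc ‖om‖ ^ 2 * (3 / 4 * Real.exp (-(|C| * y))) ≤ ‖om‖ ^ 2 * (‖a4‖ * ‖u‖) := by gcongr
        _ = Real.pi ^ 2 * ‖a6‖ := hn
        _ ≤ 10 * (5 / 4) := by gcongr
    calc ‖om‖ ^ 2 = (‖om‖ ^ 2 * (3 / 4 * Real.exp (-(|C| * y)))) * (4 / 3 * Real.exp (|C| * y)) := by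
          linear_combination -(‖om‖ ^ 2) * hEE
      _ ≤ (10 * (5 / 4)) * (4 / 3 * Real.exp (|C| * y)) := by gcongr
      _ ≤ 17 * Real.exp (|C| * y) := by linarith
  have hlo : Real.exp (-(|C| * y)) ≤ ‖om‖ ^ 2 := by
    have h1 : 9 * (3 / 4) ≤ ‖om‖ ^ 2 * (5 / 4 * Real.exp (|C| * y)) := by
      calc 9 * (3 / 4) ≤ Real.pi ^ 2 * ‖a6‖ := by gcongr
        _ = ‖om‖ ^ 2 * (‖a4‖ * ‖u‖) := hn.symm
        _ ≤ ‖om‖ ^ 2 * (5 / 4 * Real.exp (|C| * y)) := by gcongr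
    have hE' : 0 < Real.exp (-(|C| * y)) := Real.exp_pos _
    have h2 : 9 * (3 / 4) * Real.exp (-(|C| * y)) ≤ ‖om‖ ^ 2 * (5 / 4) := by
      calc 9 * (3 / 4) * Real.exp (-(|C| * y)) ≤ ‖om‖ ^ 2 * (5 / 4 * Real.exp (|C| * y)) * Real.exp (-(|C| * y)) := by gcongr
        _ = ‖om‖ ^ 2 * (5 / 4) := by linear_combination (‖om‖ ^ 2 * (5 / 4)) * hEE
    linarith
  have e3 : (17 : ℝ) ≤ Real.exp (3 * y) := by
    have h1 : Real.exp 3 ≤ Real.exp (3 * y) := Real.exp_le_exp.2 (by linarith)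
    have h2 : (2.7 : ℝ) ≤ Real.exp 1 := by linarith [Real.exp_one_gt_d9]
    have h3 : Real.exp 3 = Real.exp 1 ^ 3 := by
      rw [← Real.exp_nat_mul]
      norm_num
    have h4 : (2.7 : ℝ) ^ 3 ≤ Real.exp 1 ^ 3 := pow_le_pow_left₀ (by norm_num) h2 3
    rw [← h3] at h4
    norm_num at h4
    linarith
  constructor
  · have h1 : ‖om‖ ^ 2 ≤ Real.exp ((|C| + 3) * y) := by
      refine hup.trans ?_
      rw [add_mul, Real.exp_add]
      have := mul_le_mul_of_nonneg_left e3 hE.le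
      linarith
    have h2 : 1 ≤ Real.exp ((|C| + 3) * y) := Real.one_le_exp (mul_nonneg (add_nonneg (abs_nonneg C) (by norm_num)) (by linarith))
    refine (sq_le_sq₀ ho (Real.exp_pos _).le).1 (h1.trans ?_)
    rw [sq]
    exact le_mul_of_one_le_left (Real.exp_pos _).le h2
  · have h1 : Real.exp (-((|C| + 3) * y)) ≤ Real.exp (-(|C| * y)) := Real.exp_le_exp.2 (by rw [add_mul]; linarith)
    have h2 : Real.exp (-((|C| + 3) * y)) ≤ 1 := Real.exp_le_one_iff.2 (by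
      have : 0 ≤ (|C| + 3) * y := mul_nonneg (add_nonneg (abs_nonneg C) (by norm_num)) (by linarith)
      linarith)
    refine (sq_le_sq₀ (Real.exp_pos _).le ho).1 (le_trans ?_ (h1.trans hlo))
    rw [sq]
    exact mul_le_of_le_one_left (Real.exp_pos _).le h2

/-- B7b. PROOF. Let `G₄ = π⁴ e4(z)/om⁴`, `G₆ = π⁶ e6(z)/om⁶`, `x_l = vals (X l)`. `G₄ = (3/2) vals g` is in `Kc θ`; the point `h_l` is a half period, `D.Y l 0 = 0`
(`wp_half'`; `D.h = hP P.z`, `D.hh`), so by `wp_ode` divided by `om⁶`: `4 x_l³ - (4/3) G₄ x_l - (8/27) G₆ = 0`, hence `G₆ ∈ Kc θ`. `G₄, G₆ ≠ 0` since `deriv jj z ≠ 0` (`G2_ne`),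
and `jj z (G₄³ - G₆²) = 1728 G₄³`, `θ = jj z`. Apply `σ = e.σ`: `exists_om` with `σG₄, σG₆` gives `om'`; `4 σ(x_l)³ - (4/3) σG₄ σx_l - (8/27) σG₆ = 0`, so
`X = om'² σ(x_l)` satisfies `4X³ - (4/3)π⁴e4 X - (8/27) π⁶e6 = 0` at `iy`, and by `half_root` `X = wp(h'_l)` for a half period `h'_l` (`wp_half`: `th ≠ 0`, derivative `0`). Let
`D' = (iy, om', kap' = σ(kap), h')`. Then `vals P D' v = σ (vals P D v)` for all `v` (`b`, `z`, `r` are algebraic, `Q ↦ 0`, `Y ↦ 0`).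
`Adm`: `om'⁻²` = `(G₆'/G₄') e4/(π² e6)`, so the bounds for `‖om'‖` follow from `emb_size` for `G₆/G₄`, and `cusp_size`; `‖kap'‖` from `emb_size` (or `kap = 0`). The determinant:
`sE(iy)/om'² = (1/3)(G₆'/G₄') phi(y)` (`sE = (π²/3) e2`), so with `w = rt i - z ≠ 0`: `1 + s' w = σ(A) - σ(B) phi`, `A = 1 + rh w kap`, `B = rh w G₆/(3 G₄) ≠ 0` in `Kc θ`
(`w` algebraic: `P.rel`), `= -σ(B)(phi - σ(A/B))`: `emb_phi` for `A/B` and `emb_size` for `B`. Take the maximum of the finitely many constants. -/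
theorem exists_spec (P : Par d) (D : Dt d) (hD : IsOrig P D) (hj : deriv jj P.z ≠ 0) (htr : Transcendental ℚ (jj P.z))
    (hal : InK (jj P.z) P D) : ∃ C₀ Y : ℝ, 1 ≤ C₀ ∧ 1 ≤ Y ∧ ∀ y : ℝ, Y ≤ y → ∀ e : Emb (jj P.z) (jj (I * y)), ∃ D' : Dt d,
    Adm C₀ y P D' ∧ ∀ (v : Vr d) (x : Kc (jj P.z)), (x : ℂ) = vals P D v → vals P D' v = e.σ x := by
  have hτ : D.τ = P.z := hD.τ
  have hj' : deriv jj D.τ ≠ 0 := by
    rw [hτ]
    exact hj
  obtain ⟨n4, n6, ndl⟩ := G2_ne D.τ D.im hj'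
  have hπ : (Real.pi : ℂ) ≠ 0 := by exact_mod_cast Real.pi_ne_zero
  have hom := D.ne
  have hι : ∀ x : Kc (jj P.z), algebraMap (Kc (jj P.z)) ℂ x = (x : ℂ) := fun _ => rfl
  have hinj : Function.Injective (algebraMap (Kc (jj P.z)) ℂ) := (algebraMap (Kc (jj P.z)) ℂ).injective
  -- the values as elements of the field
  let xv : Vr d → Kc (jj P.z) := fun v => ⟨vals P D v, mem_algebraicClosure_iff.2 (hal v)⟩
  have hxv : ∀ v, algebraMap (Kc (jj P.z)) ℂ (xv v) = vals P D v := fun v => rfl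
  obtain ⟨θK, hθK⟩ : ∃ θK : Kc (jj P.z), (θK : ℂ) = jj P.z :=
    ⟨algebraMap ℚ⟮jj P.z⟯ (Kc (jj P.z)) (AdjoinSimple.gen ℚ (jj P.z)), AdjoinSimple.algebraMap_gen ℚ (jj P.z)⟩
  have halgK : ∀ x : ℂ, IsAlgebraic ℚ x → ∃ xK : Kc (jj P.z), (xK : ℂ) = x := by
    intro x hx
    refine ⟨⟨x, mem_algebraicClosure_iff.2 ?_⟩, rfl⟩
    exact hx.tower_top ℚ⟮jj P.z⟯
  have hY0 : ∀ l, deriv (wp D.τ (sE D.τ)) (D.h l + 0) = 0 := b8_Y0 P D hD
  have hode : ∀ l, 4 * D.X l 0 ^ 3 - 4 / 3 * (Real.pi ^ 4 * e4 D.τ / D.om ^ 4) * D.X l 0 - 8 / 27 * (Real.pi ^ 6 * e6 D.τ / D.om ^ 6) = 0 :=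
    fun l => b8_ode D l (hY0 l)
  obtain ⟨G4, hG4⟩ : ∃ G4 : Kc (jj P.z), algebraMap (Kc (jj P.z)) ℂ G4 = Real.pi ^ 4 * e4 D.τ / D.om ^ 4 := by
    refine ⟨3 / 2 * xv .g, ?_⟩
    rw [b8_g5, hxv]
    show 3 / 2 * (2 / 3 * Real.pi ^ 4 * e4 D.τ / D.om ^ 4) = _
    ring
  obtain ⟨G6, hG6⟩ : ∃ G6 : Kc (jj P.z), algebraMap (Kc (jj P.z)) ℂ G6 = Real.pi ^ 6 * e6 D.τ / D.om ^ 6 := by
    refine ⟨27 / 8 * (4 * xv (.X 0) ^ 3 - 4 / 3 * G4 * xv (.X 0)), ?_⟩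
    rw [b8_g4, hxv, hG4]
    show 27 / 8 * (4 * D.X 0 0 ^ 3 - 4 / 3 * (Real.pi ^ 4 * e4 D.τ / D.om ^ 4) * D.X 0 0) = _
    linear_combination 27 / 8 * hode 0
  have hG40 : G4 ≠ 0 := by
    intro h
    rw [h, map_zero] at hG4
    exact (div_ne_zero (mul_ne_zero (pow_ne_zero 4 hπ) n4) (pow_ne_zero 4 hom)) hG4.symm
  have hG60 : G6 ≠ 0 := by
    intro h
    rw [h, map_zero] at hG6
    exact (div_ne_zero (mul_ne_zero (pow_ne_zero 6 hπ) n6) (pow_ne_zero 6 hom)) hG6.symm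
  have hrel : 1728 * G4 ^ 3 = θK * (G4 ^ 3 - G6 ^ 2) := by
    apply b8_g7 (algebraMap (Kc (jj P.z)) ℂ)
    rw [hG4, hG6, hι θK, hθK, ← hτ]
    exact b8_rel D.τ D.om ndl hom
  have hodeK : ∀ l, 4 * xv (.X l) ^ 3 - 4 / 3 * G4 * xv (.X l) - 8 / 27 * G6 = 0 := by
    intro l
    apply b8_g8 (algebraMap (Kc (jj P.z)) ℂ)
    rw [hG4, hG6, hxv]
    exact hode l
  -- the algebraic numbers
  have hrta : ∀ i, IsAlgebraic ℚ (P.rt i) := by
    intro i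
    refine ⟨Polynomial.X ^ (d + 1) - ∑ l : Fin (d + 1), Polynomial.C (P.b l) * Polynomial.X ^ l.val, ?_, ?_⟩
    · intro h0
      have h1 := congrArg (fun q => Polynomial.coeff q (d + 1)) h0
      simp only [Polynomial.coeff_sub, Polynomial.coeff_X_pow, if_true, Polynomial.coeff_zero, Polynomial.finsetSum_coeff,
        Polynomial.coeff_C_mul] at h1
      rw [Finset.sum_eq_zero] at h1
      · norm_num at h1
      · intro l _
        rw [if_neg (by have := l.isLt; omega), mul_zero]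
    · simp only [map_sub, map_pow, Polynomial.aeval_X, map_sum, map_mul, Polynomial.aeval_C]
      rw [P.rel i, sub_eq_zero]
      rfl
  have hza : IsAlgebraic ℚ P.z := hrta 0
  have hra : IsAlgebraic ℚ rh := by
    refine ⟨4 * Polynomial.X ^ 2 + 1, ?_, ?_⟩
    · intro h0
      have h1 := congrArg (fun q => Polynomial.eval 0 q) h0
      simp at h1
    · simp only [map_add, map_mul, map_pow, Polynomial.aeval_X, map_one, map_ofNat, rh]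
      linear_combination I_sq
  obtain ⟨rK, hrK⟩ := halgK rh hra
  have hrK0 : rK ≠ 0 := by
    intro h
    rw [h] at hrK
    have : rh = 0 := hrK.symm
    simp [rh] at this
  obtain ⟨u, hu⟩ : ∃ u : Kc (jj P.z), u = G6 / G4 := ⟨_, rfl⟩
  have hu0 : u ≠ 0 := by
    rw [hu]
    exact div_ne_zero hG60 hG40
  obtain ⟨Yc, hYc, hcusp⟩ := cusp_size
  obtain ⟨Cu, Yu, hYu, husz⟩ := emb_size (jj P.z) htr u hu0
  obtain ⟨Ck, Yk, hYk, hksz⟩ : ∃ C Y : ℝ, 1 ≤ Y ∧ ∀ y : ℝ, Y ≤ y → ∀ e : Emb (jj P.z) (jj (I * y)), ‖e.σ (xv .k)‖ ≤ Real.exp (C * y) := by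
    by_cases hk : xv .k = 0
    · refine ⟨0, 1, le_refl _, fun y _ e => ?_⟩
      rw [hk, map_zero, norm_zero]
      exact (Real.exp_pos _).le
    · obtain ⟨C, Y, hY, h⟩ := emb_size (jj P.z) htr (xv .k) hk
      exact ⟨C, Y, hY, fun y hy e => (h y hy e).2⟩
  have hdet : ∀ i : Fin (d + 1), ∃ C Y : ℝ, 1 ≤ Y ∧ (i ≠ 0 → ∀ y : ℝ, Y ≤ y → ∀ e : Emb (jj P.z) (jj (I * y)),
      Real.exp (-(C * y)) ≤ ‖1 + rh * (e.σ (xv .k) - e.σ u / 3 * phi y) * (P.rt i - P.z)‖) := by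
    intro i
    by_cases hi : i = 0
    · exact ⟨0, 1, le_refl _, fun h => absurd hi h⟩
    · have hwa : IsAlgebraic ℚ (P.rt i - P.z) := (hrta i).sub hza
      obtain ⟨wK, hwK⟩ := halgK _ hwa
      have hwK0 : wK ≠ 0 := by
        intro h
        rw [h] at hwK
        have h1 : P.rt i - P.z = 0 := hwK.symm
        exact hi (P.inj (sub_eq_zero.1 h1))
      obtain ⟨C, Y, hY, h⟩ := b8_det (jj P.z) htr rK (xv .k) u wK hrK0 hu0 hwK0
      refine ⟨C, Y, hY, fun _ y hy e => ?_⟩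
      have h1 := h y hy e
      rw [e.al rK (by rw [hrK]; exact hra), e.al wK (by rw [hwK]; exact hwa), hrK, hwK] at h1
      exact h1
  choose Cd Yd hYd hdet' using hdet
  refine ⟨4 + |Cu| + |Ck| + ∑ i, |Cd i|, Yc + Yu + Yk + ∑ i, Yd i, ?_, ?_, fun y hy e => ?_⟩
  · have h1 : 0 ≤ ∑ i, |Cd i| := Finset.sum_nonneg fun _ _ => abs_nonneg _
    have h2 := abs_nonneg Cu
    have h3 := abs_nonneg Ck
    linarith
  · have h1 : 0 ≤ ∑ i, Yd i := Finset.sum_nonneg fun i _ => by linarith [hYd i]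
    linarith
  have hYd0 : 0 ≤ ∑ i, Yd i := Finset.sum_nonneg fun i _ => by linarith [hYd i]
  have hCd0 : 0 ≤ ∑ i, |Cd i| := Finset.sum_nonneg fun _ _ => abs_nonneg _
  have hy1 : 1 ≤ y := by linarith
  have hCu0 := abs_nonneg Cu
  have hCk0 := abs_nonneg Ck
  obtain ⟨c2, c4, c6, cj1, cj2⟩ := hcusp y (by linarith)
  have h4 : e4 (I * y) ≠ 0 := by
    intro h
    rw [h] at c4
    norm_num at c4
  have h6 : e6 (I * y) ≠ 0 := by
    intro h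
    rw [h] at c6
    norm_num at c6
  have hdl : dl (I * y) ≠ 0 := by
    intro h
    unfold jj at cj1
    rw [h, div_zero, norm_zero] at cj1
    have := Real.exp_pos (2 * Real.pi * y)
    linarith
  obtain ⟨D', hτ', hh', hk', ho4, ho6, hX', hY'⟩ := b8_curve (d := d) (jj P.z) y (by linarith) e h4 h6 hdl θK G4 G6 (xv .k) hθK hG40 hG60 hrel
    (fun l => xv (.X l)) hodeK
  have hom' := D'.ne
  have huσ : D'.om ^ 2 * (e4 (I * y) * e.σ u) = Real.pi ^ 2 * e6 (I * y) := by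
    rw [hu, map_div₀, ← ho4, ← ho6, hτ']
    field_simp
  have huσ0 : e.σ u ≠ 0 := (map_ne_zero e.σ).2 hu0
  obtain ⟨hsz1, hsz2⟩ := husz y (by linarith) e
  obtain ⟨hom1, hom2⟩ := b8_om y hy1 D'.om (e.σ u) _ _ hom' huσ0 Cu c4 c6 hsz1 hsz2 huσ
  have hs : D'.s = rh * (e.σ (xv .k) - e.σ u / 3 * phi y) := by
    unfold Dt.s
    rw [hk', hτ']
    congr 2
    unfold sE phi
    rw [div_eq_iff (pow_ne_zero 2 hom')]
    have h1 : (Real.pi : ℂ) ^ 2 = D'.om ^ 2 * (e4 (I * y) * e.σ u) / e6 (I * y) := by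
      rw [huσ]
      field_simp
    rw [h1]
    field_simp
  refine ⟨D', ⟨hτ', hh', ?_, ?_, ?_, fun i hi => ?_⟩, fun v x hx => ?_⟩
  · refine hom1.trans (Real.exp_le_exp.2 (mul_le_mul_of_nonneg_right ?_ (by linarith)))
    linarith
  · refine le_trans (Real.exp_le_exp.2 (neg_le_neg (mul_le_mul_of_nonneg_right ?_ (by linarith)))) hom2
    linarith
  · rw [hk']
    refine (hksz y (by linarith) e).trans (Real.exp_le_exp.2 (mul_le_mul_of_nonneg_right ?_ (by linarith)))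
    have := le_abs_self Ck
    linarith
  · rw [hs]
    have hle : Yd i ≤ ∑ i, Yd i := Finset.single_le_sum (f := Yd) (fun i _ => by linarith [hYd i]) (Finset.mem_univ i)
    have hle2 : |Cd i| ≤ ∑ i, |Cd i| := Finset.single_le_sum (f := fun i => |Cd i|) (fun i _ => abs_nonneg _) (Finset.mem_univ i)
    refine le_trans (Real.exp_le_exp.2 (neg_le_neg (mul_le_mul_of_nonneg_right ?_ (by linarith)))) (hdet' i hi y (by linarith) e)
    have := le_abs_self (Cd i)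
    linarith
  · have hxx : x = xv v := Subtype.ext hx
    rw [hxx]
    cases v with
    | X l => exact hX' l
    | Y l =>
      have h1 : xv (.Y l) = 0 := by
        apply hinj
        rw [hxv, map_zero]
        show deriv (wp D.τ (sE D.τ)) (D.h l + 0) / D.om ^ 3 = 0
        rw [hY0 l, zero_div]
      rw [h1, map_zero]
      exact hY' l
    | Q j =>
      have h1 : xv (.Q j) = 0 := by
        apply hinj
        rw [hxv, map_zero]
        rfl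
      rw [h1, map_zero]
      rfl
    | b l =>
      have h1 : IsAlgebraic ℚ ((xv (.b l) : Kc (jj P.z)) : ℂ) := isAlgebraic_algebraMap (P.b l)
      rw [e.al _ h1]
      rfl
    | g =>
      have h1 : xv (.g : Vr d) = 2 / 3 * G4 := by
        apply hinj
        rw [hxv, b8_g6, hG4]
        show 2 / 3 * Real.pi ^ 4 * e4 D.τ / D.om ^ 4 = _
        ring
      rw [h1, b8_g6, ← ho4]
      show 2 / 3 * Real.pi ^ 4 * e4 D'.τ / D'.om ^ 4 = _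
      ring
    | k => exact hk'
    | z =>
      have h1 : IsAlgebraic ℚ ((xv .z : Kc (jj P.z)) : ℂ) := hza
      rw [e.al _ h1]
      rfl
    | r =>
      have h1 : IsAlgebraic ℚ ((xv .r : Kc (jj P.z)) : ℂ) := hra
      rw [e.al _ h1]
      rfl

end Pool.Agent.MSK
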