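import Pool.Agent.Lib.MP_f58a57_nt.K.Defs

/-! # K/C1_One: interpolation at real nodes -/

open Complex

noncomputable section

namespace Pool.Agent.MSK

open MSD MSP

variable {d : ℕ}

/-- the nodes -/
def c1o_x (K : ℕ) (k : ℕ) : ℂ := (k : ℂ) / K

/-- iterated divided differences -/
def c1o_h (K : ℕ) (h : ℂ → ℂ) : ℕ → (ℂ → ℂ)
  | 0 => h
  | k + 1 => dslope (c1o_h K h k) (c1o_x K k)

theorem c1o_diff (K : ℕ) (h : ℂ → ℂ) (hd : Differentiable ℂ h) (k : ℕ) :
    Differentiable ℂ (c1o_h K h k) := by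
  induction k with
  | zero => exact hd
  | succ k ih =>
    have h1 : DifferentiableOn ℂ (dslope (c1o_h K h k) (c1o_x K k)) Set.univ :=
      (Complex.differentiableOn_dslope Filter.univ_mem).2 ih.differentiableOn
    exact differentiableOn_univ.1 h1

theorem c1o_step (K : ℕ) (h : ℂ → ℂ) (k : ℕ) (z : ℂ) :
    c1o_h K h k z = c1o_h K h k (c1o_x K k) + (z - c1o_x K k) * c1o_h K h (k + 1) z := by
  have := sub_smul_dslope (c1o_h K h k) (c1o_x K k) z
  rw [smul_eq_mul] at this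
  show _ = _ + (z - c1o_x K k) * dslope (c1o_h K h k) (c1o_x K k) z
  rw [this]; ring

theorem c1o_newton (K : ℕ) (h : ℂ → ℂ) (n : ℕ) (z : ℂ) :
    h z = (∑ k ∈ Finset.range n, c1o_h K h k (c1o_x K k) * ∏ m ∈ Finset.range k, (z - c1o_x K m)) +
      c1o_h K h n z * ∏ m ∈ Finset.range n, (z - c1o_x K m) := by
  induction n with
  | zero => simp [c1o_h]
  | succ n ih =>
    rw [ih, c1o_step K h n z, Finset.sum_range_succ, Finset.prod_range_succ]
    ring

theorem c1o_norm_x (K k : ℕ) (hk : k < K) : ‖c1o_x K k‖ ≤ 1 := by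
  unfold c1o_x
  rw [norm_div, Complex.norm_natCast, Complex.norm_natCast]
  have : (0:ℝ) < K := by exact_mod_cast (by omega : 0 < K)
  rw [div_le_one this]
  exact_mod_cast hk.le

theorem c1o_max (K : ℕ) (R B : ℝ) (hR : 3 ≤ R) (h : ℂ → ℂ) (hd : Differentiable ℂ h)
    (hB : ∀ ζ : ℂ, ‖ζ‖ ≤ R → ‖h ζ‖ ≤ B) (k : ℕ) (hk : k ≤ K) :
    ∀ ζ : ℂ, ‖ζ‖ ≤ R → ‖c1o_h K h k ζ‖ ≤ (2 / (R - 1)) ^ k * B := by
  induction k with
  | zero => intro ζ hζ; simpa [c1o_h] using hB ζ hζ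
  | succ k ih =>
    have ih' := ih (by omega)
    intro ζ hζ
    have hx : ‖c1o_x K k‖ ≤ 1 := c1o_norm_x K k (by omega)
    have hRpos : 0 < R := by linarith
    have hfr : ∀ z ∈ frontier (Metric.ball (0:ℂ) R), ‖c1o_h K h (k+1) z‖ ≤ (2 / (R - 1)) ^ (k+1) * B := by
      intro z hz
      rw [frontier_ball _ hRpos.ne', mem_sphere_zero_iff_norm] at hz
      have h1 : R - 1 ≤ ‖z - c1o_x K k‖ := by
        have := norm_sub_norm_le z (c1o_x K k)
        linarith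
      have h2 : ‖(z - c1o_x K k) * c1o_h K h (k+1) z‖ ≤ 2 * ((2 / (R - 1)) ^ k * B) := by
        have h3 : (z - c1o_x K k) * c1o_h K h (k+1) z = c1o_h K h k z - c1o_h K h k (c1o_x K k) := by
          rw [c1o_step K h k z]; ring
        rw [h3]
        calc _ ≤ ‖c1o_h K h k z‖ + ‖c1o_h K h k (c1o_x K k)‖ := norm_sub_le _ _
          _ ≤ (2 / (R - 1)) ^ k * B + (2 / (R - 1)) ^ k * B :=
            add_le_add (ih' z hz.le) (ih' _ (by linarith))
          _ = _ := by ring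
      rw [norm_mul] at h2
      have hR1 : 0 < R - 1 := by linarith
      have h4 : (R - 1) * ‖c1o_h K h (k+1) z‖ ≤ 2 * ((2 / (R - 1)) ^ k * B) :=
        le_trans (mul_le_mul_of_nonneg_right h1 (norm_nonneg _)) h2
      have h5 : (2 / (R - 1)) ^ (k+1) * B = (2 * ((2 / (R - 1)) ^ k * B)) / (R - 1) := by
        rw [pow_succ]; ring
      rw [h5, le_div_iff₀ hR1]
      linarith
    have hcl : ζ ∈ closure (Metric.ball (0:ℂ) R) := by
      rw [closure_ball _ hRpos.ne', mem_closedBall_zero_iff]; exact hζ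
    exact Complex.norm_le_of_forall_mem_frontier_norm_le Metric.isBounded_ball
      ((c1o_diff K h hd (k+1)).diffContOnCl) hfr hcl

open Polynomial in
/-- the Newton polynomial -/
def c1o_p (K : ℕ) (h : ℂ → ℂ) : ℂ[X] :=
  ∑ k ∈ Finset.range K, C (c1o_h K h k (c1o_x K k)) * ∏ m ∈ Finset.range k, (X - C (c1o_x K m))

open Polynomial in
theorem c1o_p_eval (K : ℕ) (h : ℂ → ℂ) (z : ℂ) : (c1o_p K h).eval z =
    ∑ k ∈ Finset.range K, c1o_h K h k (c1o_x K k) * ∏ m ∈ Finset.range k, (z - c1o_x K m) := by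
  simp [c1o_p, eval_finsetSum, eval_prod]

open Polynomial in
theorem c1o_p_deg (K : ℕ) (hK : 1 ≤ K) (h : ℂ → ℂ) : (c1o_p K h).degree < K := by
  unfold c1o_p
  rw [← mem_degreeLT]
  refine Submodule.sum_mem _ fun k hk => ?_
  rw [mem_degreeLT]
  rw [Finset.mem_range] at hk
  have h1 : (∏ m ∈ Finset.range k, (X - C (c1o_x K m))).degree = (k : WithBot ℕ) := by
    rw [degree_prod]; simp
  refine lt_of_le_of_lt (degree_mul_le _ _) ?_
  rw [h1]
  calc (C (c1o_h K h k (c1o_x K k))).degree + (k : WithBot ℕ) ≤ 0 + k := by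
        gcongr; exact degree_C_le
    _ = (k : WithBot ℕ) := zero_add _
    _ < K := by exact_mod_cast hk

theorem c1o_prod_fact (K j : ℕ) (hj : j < K) :
    ∏ m ∈ (Finset.range K).erase j, |(j:ℝ) - m| = (j.factorial : ℝ) * ((K - 1 - j).factorial : ℝ) := by
  have hsplit : (Finset.range K).erase j = Finset.range j ∪ Finset.Ico (j+1) K := by
    ext m; simp only [Finset.mem_erase, Finset.mem_range, Finset.mem_union, Finset.mem_Ico]; omega
  have hdisj : Disjoint (Finset.range j) (Finset.Ico (j+1) K) := by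
    rw [Finset.disjoint_left]; intro m hm hm'
    simp only [Finset.mem_range, Finset.mem_Ico] at hm hm'; omega
  rw [hsplit, Finset.prod_union hdisj]
  congr 1
  · rw [← Finset.prod_range_reflect, ← Finset.prod_range_add_one_eq_factorial]
    push_cast
    refine Finset.prod_congr rfl fun m hm => ?_
    rw [Finset.mem_range] at hm
    have : ((j - 1 - m : ℕ) : ℝ) = (j:ℝ) - 1 - m := by
      rw [Nat.cast_sub (by omega), Nat.cast_sub (by omega)]; simp
    rw [this]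
    rw [show (j:ℝ) - (j - 1 - m) = m + 1 by ring]
    exact abs_of_nonneg (by positivity)
  · rw [Finset.prod_Ico_eq_prod_range, ← Finset.prod_range_add_one_eq_factorial,
      show K - (j+1) = K - 1 - j by omega]
    push_cast
    refine Finset.prod_congr rfl fun m hm => ?_
    rw [show (j:ℝ) - (j + 1 + m) = -(m + 1) by ring, abs_neg]
    exact abs_of_nonneg (by positivity)

theorem c1o_basis (K j : ℕ) (hj : j < K) (ζ : ℂ) (hζ : ‖ζ‖ ≤ 1) :
    ∏ m ∈ (Finset.range K).erase j, (‖ζ - c1o_x K m‖ / ‖c1o_x K j - c1o_x K m‖) ≤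
      (2 * K) ^ (K - 1) / ((K - 1).factorial : ℝ) * ((K - 1).choose j : ℝ) := by
  have hKpos : (0:ℝ) < K := by exact_mod_cast (by omega : 0 < K)
  rw [Finset.prod_div_distrib]
  have hnum : ∏ m ∈ (Finset.range K).erase j, ‖ζ - c1o_x K m‖ ≤ 2 ^ (K - 1) := by
    have hcard : ((Finset.range K).erase j).card = K - 1 := by
      rw [Finset.card_erase_of_mem (Finset.mem_range.2 hj), Finset.card_range]
    rw [← hcard]
    refine le_trans (Finset.prod_le_prod (g := fun _ => (2:ℝ)) (fun _ _ => norm_nonneg _) ?_) (by simp)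
    intro m hm
    have hm' : m < K := by simpa using (Finset.mem_of_mem_erase hm)
    calc _ ≤ ‖ζ‖ + ‖c1o_x K m‖ := norm_sub_le _ _
      _ ≤ 1 + 1 := add_le_add hζ (c1o_norm_x K m hm')
      _ = 2 := by norm_num
  have hden : ∏ m ∈ (Finset.range K).erase j, ‖c1o_x K j - c1o_x K m‖ =
      (j.factorial : ℝ) * ((K - 1 - j).factorial : ℝ) / K ^ (K - 1) := by
    have hcard : ((Finset.range K).erase j).card = K - 1 := by
      rw [Finset.card_erase_of_mem (Finset.mem_range.2 hj), Finset.card_range]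
    rw [← c1o_prod_fact K j hj]
    have : ∀ m ∈ (Finset.range K).erase j, ‖c1o_x K j - c1o_x K m‖ = |(j:ℝ) - m| / K := by
      intro m _
      unfold c1o_x
      rw [← sub_div, norm_div, Complex.norm_natCast]
      congr 1
      rw [show ((j:ℂ) - (m:ℂ)) = (((j:ℝ) - (m:ℝ) : ℝ) : ℂ) by push_cast; ring, Complex.norm_real,
        Real.norm_eq_abs]
    rw [Finset.prod_congr rfl this, Finset.prod_div_distrib, Finset.prod_const, hcard]
  rw [hden]
  have hch : ((K - 1).choose j : ℝ) * ((j.factorial : ℝ) * ((K - 1 - j).factorial : ℝ)) = ((K-1).factorial : ℝ) := by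
    have := Nat.choose_mul_factorial_mul_factorial (show j ≤ K - 1 by omega)
    rw [← mul_assoc]; exact_mod_cast this
  have hf1 : (0:ℝ) < (j.factorial : ℝ) := by exact_mod_cast Nat.factorial_pos _
  have hf2 : (0:ℝ) < ((K - 1 - j).factorial : ℝ) := by exact_mod_cast Nat.factorial_pos _
  have hf3 : (0:ℝ) < ((K - 1).factorial : ℝ) := by exact_mod_cast Nat.factorial_pos _
  rw [div_le_iff₀ (by positivity)]
  have : (2 * (K:ℝ)) ^ (K - 1) / ((K - 1).factorial : ℝ) * ((K - 1).choose j : ℝ) *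
      ((j.factorial : ℝ) * ((K - 1 - j).factorial : ℝ) / K ^ (K - 1)) =
      2 ^ (K-1) * (((K - 1).choose j : ℝ) * ((j.factorial : ℝ) * ((K - 1 - j).factorial : ℝ)) / ((K-1).factorial : ℝ)) := by
    rw [mul_pow]; field_simp
  rw [this, hch, div_self hf3.ne', mul_one]
  exact hnum

theorem c1o_exp (K : ℕ) (hK : 1 ≤ K) :
    (2 * (K:ℝ)) ^ (K - 1) / ((K - 1).factorial : ℝ) * 2 ^ (K - 1) ≤ 22 ^ K := by
  obtain ⟨n, rfl⟩ : ∃ n, K = n + 1 := ⟨K - 1, by omega⟩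
  simp only [Nat.add_sub_cancel]
  have h1 : (((n + 1 : ℕ) : ℝ)) ^ n / (n.factorial : ℝ) ≤ Real.exp ((n + 1 : ℕ) : ℝ) :=
    Real.pow_div_factorial_le_exp _ (by positivity) n
  have h2 : Real.exp ((n + 1 : ℕ) : ℝ) = Real.exp 1 ^ (n + 1) := by
    rw [← Real.exp_nat_mul, mul_one]
  have h3 : Real.exp 1 ≤ 3 := by linarith [Real.exp_one_lt_d9]
  have h4 : Real.exp 1 ^ (n + 1) ≤ 3 ^ (n + 1) := pow_le_pow_left₀ (Real.exp_pos _).le h3 _
  calc (2 * (((n + 1 : ℕ) : ℝ))) ^ n / (n.factorial : ℝ) * 2 ^ n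
      = 4 ^ n * ((((n + 1 : ℕ) : ℝ)) ^ n / (n.factorial : ℝ)) := by
        rw [mul_pow, show (4:ℝ) = 2 * 2 by norm_num, mul_pow]; ring
    _ ≤ 4 ^ n * 3 ^ (n + 1) := by
        apply mul_le_mul_of_nonneg_left _ (by positivity)
        exact h1.trans (h2 ▸ h4)
    _ ≤ 4 ^ (n+1) * 3 ^ (n+1) := by
        apply mul_le_mul_of_nonneg_right _ (by positivity)
        exact pow_le_pow_right₀ (by norm_num) (by omega)
    _ = 12 ^ (n+1) := by rw [← mul_pow]; norm_num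
    _ ≤ 22 ^ (n+1) := pow_le_pow_left₀ (by norm_num) (by norm_num) _

theorem c1o_inj (K : ℕ) (hK : 1 ≤ K) : Set.InjOn (c1o_x K) (Finset.range K : Finset ℕ) := by
  intro a _ b _ hab
  have hK0 : (K:ℂ) ≠ 0 := by exact_mod_cast (by omega : K ≠ 0)
  unfold c1o_x at hab
  rw [div_left_inj' hK0] at hab
  exact_mod_cast hab

open Polynomial in
theorem c1o_lagrange (K : ℕ) (hK : 1 ≤ K) (ε : ℝ) (h : ℂ → ℂ)
    (hε : ∀ j < K, ‖h ((j : ℂ) / K)‖ ≤ ε) (ζ : ℂ) (hζ : ‖ζ‖ ≤ 1) :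
    ‖(c1o_p K h).eval ζ‖ ≤ 22 ^ K * ε := by
  have hε0 : 0 ≤ ε := (norm_nonneg _).trans (hε 0 (by omega))
  have hval : ∀ j ∈ Finset.range K, (c1o_p K h).eval (c1o_x K j) = h (c1o_x K j) := by
    intro j hj
    rw [c1o_newton K h K (c1o_x K j), c1o_p_eval]
    have : ∏ m ∈ Finset.range K, (c1o_x K j - c1o_x K m) = 0 :=
      Finset.prod_eq_zero hj (sub_self _)
    rw [this, mul_zero, add_zero]
  have hint : c1o_p K h = Lagrange.interpolate (Finset.range K) (c1o_x K) (fun j => h (c1o_x K j)) :=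
    Lagrange.eq_interpolate_of_eval_eq _ (c1o_inj K hK) (by simpa using c1o_p_deg K hK h) hval
  rw [hint, Lagrange.interpolate_apply, eval_finsetSum]
  refine (norm_sum_le _ _).trans ?_
  have hterm : ∀ j ∈ Finset.range K, ‖(C (h (c1o_x K j)) * Lagrange.basis (Finset.range K) (c1o_x K) j).eval ζ‖ ≤
      ε * ((2 * K) ^ (K - 1) / ((K - 1).factorial : ℝ) * ((K - 1).choose j : ℝ)) := by
    intro j hj
    rw [Finset.mem_range] at hj
    rw [eval_mul, eval_C, norm_mul]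
    refine mul_le_mul (hε j hj) ?_ (norm_nonneg _) hε0
    refine le_trans (le_of_eq ?_) (c1o_basis K j hj ζ hζ)
    rw [Lagrange.basis, eval_prod, norm_prod]
    refine Finset.prod_congr rfl fun m _ => ?_
    rw [Lagrange.basisDivisor, eval_mul, eval_C, norm_mul, norm_inv, eval_sub, eval_X, eval_C,
      div_eq_inv_mul]
  refine (Finset.sum_le_sum hterm).trans ?_
  rw [← Finset.mul_sum, ← Finset.mul_sum]
  have hsum : ∑ j ∈ Finset.range K, ((K - 1).choose j : ℝ) = 2 ^ (K - 1) := by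
    have := Nat.sum_range_choose (K - 1)
    rw [show K - 1 + 1 = K by omega] at this
    exact_mod_cast this
  rw [hsum, mul_comm]
  exact mul_le_mul_of_nonneg_right (c1o_exp K hK) hε0

/-- C1a. PROOF. `x_k = k/K`, `h_0 = h`, `h_{k+1} = dslope h_k x_k` (so `h_k(ζ) = h_k(x_k) + (ζ - x_k) h_{k+1}(ζ)`), all entire. By the maximum principle on `‖ζ‖ ≤ R` (on the circle `‖ζ - x_k‖ ≥ R - 1`)
`sup ‖h_{k+1}‖ ≤ 2 sup ‖h_k‖/(R-1)`. So `h = p + h_K ∏_{k<K} (ζ - x_k)` with a polynomial `p` of degree `< K`, and for `‖ζ‖ ≤ 1` the last term is `≤ B (2/(R-1))^K 2^K`. `p` takes the values `h(x_j)` at the nodes, so it is their Lagrange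
interpolation polynomial: `‖p(ζ)‖ ≤ ε ∑_j ∏_{m≠j} ‖ζ - x_m‖/|x_j - x_m| ≤ ε K 2^(K-1) K^(K-1)/(min_j j!(K-1-j)!) ≤ ε K 2^(K-1) 2^(K-1) K^(K-1)/(K-1)! ≤ ε K (4e)^K ≤ 22^K ε`  (`K^K/K! ≤ e^K`, `K (4e)^K ≤ 22^K`:
`4e < 10.88`, `K ≤ 2^K`). -/
theorem interp_one (K : ℕ) (hK : 1 ≤ K) (R B ε : ℝ) (hR : 3 ≤ R) (h : ℂ → ℂ) (hd : Differentiable ℂ h)
    (hB : ∀ ζ : ℂ, ‖ζ‖ ≤ R → ‖h ζ‖ ≤ B) (hε : ∀ j < K, ‖h ((j : ℂ) / K)‖ ≤ ε) :
    ∀ ζ : ℂ, ‖ζ‖ ≤ 1 → ‖h ζ‖ ≤ 22 ^ K * ε + (4 / (R - 1)) ^ K * B := by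
  intro ζ hζ
  have h1 : h ζ = (c1o_p K h).eval ζ + c1o_h K h K ζ * ∏ m ∈ Finset.range K, (ζ - c1o_x K m) := by
    rw [c1o_p_eval]; exact c1o_newton K h K ζ
  rw [h1]
  refine (norm_add_le _ _).trans (add_le_add (c1o_lagrange K hK ε h hε ζ hζ) ?_)
  rw [norm_mul, norm_prod]
  have h2 := c1o_max K R B hR h hd hB K le_rfl ζ (by linarith)
  have h3 : ∏ m ∈ Finset.range K, ‖ζ - c1o_x K m‖ ≤ 2 ^ K := by
    refine le_trans (Finset.prod_le_prod (g := fun _ => (2:ℝ)) (fun _ _ => norm_nonneg _) ?_) (by simp)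
    intro m hm
    have hm' : m < K := by simpa using hm
    calc _ ≤ ‖ζ‖ + ‖c1o_x K m‖ := norm_sub_le _ _
      _ ≤ 1 + 1 := add_le_add hζ (c1o_norm_x K m hm')
      _ = 2 := by norm_num
  calc _ ≤ ((2 / (R - 1)) ^ K * B) * 2 ^ K :=
        mul_le_mul h2 h3 (Finset.prod_nonneg fun _ _ => norm_nonneg _) ((norm_nonneg _).trans h2)
    _ = (4 / (R - 1)) ^ K * B := by
        rw [show (4:ℝ) / (R - 1) = (2 / (R - 1)) * 2 by ring, mul_pow]; ring

end Pool.Agent.MSK
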