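import Pool.Agent.Lib.MP_f58a57_nt.K.Defs
import Pool.Agent.Lib.MP_f58a57_nt.K.C1_One

/-! # K/C1b_Multi: interpolation at real nodes, several variables -/

open Complex

noncomputable section

namespace Pool.Agent.MSK

open MSD MSP

variable {d : ℕ}

theorem c1b_node (K : ℕ) (i : Fin K) : ‖((i.val : ℂ) / K)‖ ≤ 1 := by
  rw [norm_div, Complex.norm_natCast, Complex.norm_natCast]
  have hi : (i.val : ℝ) ≤ K := by exact_mod_cast i.2.le
  exact div_le_one_of_le₀ hi (Nat.cast_nonneg K)

theorem c1b_step {d : ℕ} (K : ℕ) (hK : 1 ≤ K) (R B ε : ℝ) (hR : 3 ≤ R) (g : (Fin d → ℂ) → ℂ) (hd : Differentiable ℂ g)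
    (hB : ∀ y : Fin d → ℂ, (∀ j, ‖y j‖ ≤ R) → ‖g y‖ ≤ B) (hε : ∀ i : Fin d → Fin K, ‖g (fun j => ((i j).val : ℂ) / K)‖ ≤ ε)
    (m : ℕ) : m ≤ d → ∀ y : Fin d → ℂ, (∀ j : Fin d, j.val < m → ‖y j‖ ≤ 1) →
      (∀ j : Fin d, m ≤ j.val → ∃ i : Fin K, y j = (i.val : ℂ) / K) →
      ‖g y‖ ≤ 22 ^ (m * K) * ε + m * 22 ^ (m * K) * (4 / (R - 1)) ^ K * B := by
  induction m with
  | zero =>
    intro _ y _ hy
    choose i hi using fun j : Fin d => hy j (Nat.zero_le _)
    have e : y = fun j => ((i j).val : ℂ) / K := funext hi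
    rw [e]
    simpa using hε i
  | succ m ih =>
    intro hm y hy1 hy2
    have hmd : m < d := hm
    set k : Fin d := ⟨m, hmd⟩ with hk
    set h : ℂ → ℂ := fun ζ => g (Function.update y k ζ) with hh
    have hup : Differentiable ℂ (fun ζ : ℂ => Function.update y k ζ) := by
      rw [differentiable_pi]
      intro j
      by_cases hj : j = k
      · subst hj
        simp only [Function.update_self]
        exact differentiable_id
      · simp only [Function.update_of_ne hj]
        exact differentiable_const _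
    have hhd : Differentiable ℂ h := hd.comp hup
    have hb1 : ∀ ζ : ℂ, ‖ζ‖ ≤ R → ‖h ζ‖ ≤ B := by
      intro ζ hζ
      refine hB _ fun j => ?_
      by_cases hj : j = k
      · subst hj
        rw [Function.update_self]
        exact hζ
      · rw [Function.update_of_ne hj]
        have h1 : ‖y j‖ ≤ 1 := by
          rcases lt_or_ge j.val (m + 1) with h' | h'
          · exact hy1 j h'
          · obtain ⟨i, hi⟩ := hy2 j h'
            rw [hi]
            exact c1b_node K i
        linarith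
    have hb2 : ∀ j < K, ‖h ((j : ℂ) / K)‖ ≤ 22 ^ (m * K) * ε + m * 22 ^ (m * K) * (4 / (R - 1)) ^ K * B := by
      intro j hj
      refine ih hmd.le _ (fun l hl => ?_) (fun l hl => ?_)
      · have hl' : l ≠ k := by
          intro e
          rw [e] at hl
          exact absurd hl (lt_irrefl m)
        rw [Function.update_of_ne hl']
        exact hy1 l (Nat.lt_succ_of_lt hl)
      · by_cases hlk : l = k
        · exact ⟨⟨j, hj⟩, by rw [hlk, Function.update_self]⟩
        · rw [Function.update_of_ne hlk]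
          refine hy2 l ?_
          have h1 : l.val ≠ m := fun e => hlk (Fin.ext e)
          omega
    have h0 := interp_one K hK R B _ hR h hhd hb1 hb2 (y k) (hy1 k (Nat.lt_succ_self m))
    have e1 : h (y k) = g y := by
      rw [hh]
      simp only [Function.update_eq_self]
    rw [e1] at h0
    have hB0 : 0 ≤ B := (norm_nonneg _).trans (hB 0 fun j => by simp; linarith)
    have hq : 0 ≤ (4 / (R - 1)) ^ K := pow_nonneg (div_nonneg (by norm_num) (by linarith)) K
    refine h0.trans ?_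
    have e2 : (22 : ℝ) ^ ((m + 1) * K) = 22 ^ K * 22 ^ (m * K) := by
      rw [← pow_add]
      congr 1
      ring
    have e3 : (1 : ℝ) ≤ 22 ^ ((m + 1) * K) := one_le_pow₀ (by norm_num)
    have e4 : (4 / (R - 1)) ^ K * B ≤ 22 ^ ((m + 1) * K) * ((4 / (R - 1)) ^ K * B) :=
      le_mul_of_one_le_left (mul_nonneg hq hB0) e3
    push_cast
    rw [e2] at e4 ⊢
    nlinarith [e4]

/-- C1b. PROOF. For `m = 0..d` let `A_m` be the supremum of `‖g‖` over the points whose first `m` coordinates are in the unit disc and whose other coordinates are nodes `i/K`. C1a in the variable `m` gives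
`A_{m+1} ≤ 22^K A_m + (4/(R-1))^K B`. -/
theorem interp_multi {d : ℕ} (K : ℕ) (hK : 1 ≤ K) (R B ε : ℝ) (hR : 3 ≤ R) (g : (Fin d → ℂ) → ℂ) (hd : Differentiable ℂ g)
    (hB : ∀ y : Fin d → ℂ, (∀ j, ‖y j‖ ≤ R) → ‖g y‖ ≤ B) (hε : ∀ i : Fin d → Fin K, ‖g (fun j => ((i j).val : ℂ) / K)‖ ≤ ε) :
    ∀ y : Fin d → ℂ, (∀ j, ‖y j‖ ≤ 1) → ‖g y‖ ≤ 22 ^ (d * K) * ε + d * 22 ^ (d * K) * (4 / (R - 1)) ^ K * B := by
  intro y hy
  exact c1b_step K hK R B ε hR g hd hB hε d le_rfl y (fun j _ => hy j) (fun j hj => absurd j.2 (not_lt.2 hj))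

end Pool.Agent.MSK
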