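import Pool.Agent.Lib.MP_f58a57_nt.K.Defs
import Pool.Agent.Lib.MP_f58a57_nt.K.A1_Deriv

/-! # K/C2_Geo: geometry of the lattice -/

open Complex

noncomputable section

namespace Pool.Agent.MSK

open MSD MSP

variable {d : ℕ}

theorem c2g_zrel (P : Par d) : P.z ^ (d + 1) = ∑ l : Fin (d + 1), (P.b l : ℂ) * P.z ^ l.val := P.rel 0

/-- C2a. PROOF. `d ≥ 1`. With `λ_l = mm b n l + n_l z`: `∑ z^l λ_l = -b_0 n_d + ∑_{j} z^(j+1) (-n_j - b_{j+1} n_d) + ∑ n_l z^(l+1) = n_d (z^(d+1) - ∑ b_l z^l) = 0` (`P.rel 0`), so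
`λ_0 = -∑ z^(j+1) λ_{j+1}`. -/
theorem tt_gam (P : Par d) (n : Fin (d + 1) → ℝ) (l : Fin (d + 1)) : tt P.z (gam P n) l = mm P.b n l + n l * P.z := by
  refine Fin.cases ?_ (fun j => ?_) l
  · have hS1 : ∑ l : Fin (d + 1), (n l : ℂ) * P.z ^ (l.val + 1) =
        (n 0 : ℂ) * P.z + ∑ j : Fin d, (n j.succ : ℂ) * P.z ^ (j.val + 2) := by
      rw [Fin.sum_univ_succ]; simp [add_assoc]
    have hS2 : ∑ l : Fin (d + 1), (n l : ℂ) * P.z ^ (l.val + 1) =
        (∑ j : Fin d, (n j.castSucc : ℂ) * P.z ^ (j.val + 1)) + (n (Fin.last d) : ℂ) * P.z ^ (d + 1) := by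
      rw [Fin.sum_univ_castSucc]; simp
    have hz : P.z ^ (d + 1) = (P.b 0 : ℂ) + ∑ j : Fin d, (P.b j.succ : ℂ) * P.z ^ (j.val + 1) := by
      rw [c2g_zrel, Fin.sum_univ_succ]; simp
    have hsum : ∑ j : Fin d, P.z ^ (j.val + 1) * gam P n j =
        -(∑ j : Fin d, (n j.castSucc : ℂ) * P.z ^ (j.val + 1)) -
          (n (Fin.last d) : ℂ) * (∑ j : Fin d, (P.b j.succ : ℂ) * P.z ^ (j.val + 1)) +
          ∑ j : Fin d, (n j.succ : ℂ) * P.z ^ (j.val + 2) := by
      rw [Finset.mul_sum, ← Finset.sum_neg_distrib, ← Finset.sum_sub_distrib, ← Finset.sum_add_distrib]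
      refine Finset.sum_congr rfl fun j _ => ?_
      simp only [gam, mm, Fin.cons_succ]
      push_cast
      ring
    have h0 : tt P.z (gam P n) 0 = -∑ j : Fin d, P.z ^ (j.val + 1) * gam P n j := rfl
    rw [h0, hsum]
    simp only [mm, Fin.cons_zero]
    push_cast
    linear_combination (hS1 - hS2) - (n (Fin.last d) : ℂ) * hz
  · rfl

/-- C2b. `nn` and `ro` are real linear; `nn (gam n) = n`, `ro (gam n) = 0`. -/
theorem nn_gam (P : Par d) (n : Fin (d + 1) → ℝ) : nn P (gam P n) = n := by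
  have him : P.z.im ≠ 0 := P.im.ne'
  funext l
  unfold nn
  rw [tt_gam]
  simp only [Complex.add_im, Complex.ofReal_im, Complex.mul_im, Complex.ofReal_re, zero_mul, zero_add, add_zero]
  field_simp

theorem ro_gam (P : Par d) (n : Fin (d + 1) → ℝ) : ro P (gam P n) = 0 := by
  funext l
  unfold ro
  rw [nn_gam, tt_gam]
  simp

theorem nn_add (P : Par d) (v w : Fin d → ℂ) : nn P (v + w) = nn P v + nn P w := by
  funext l
  have : tt P.z (v + w) l = tt P.z v l + tt P.z w l := tt_add P.z v w l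
  simp only [nn, Pi.add_apply]
  rw [this, Complex.add_im]; ring

theorem c2g_mm_add (b : Fin (d + 1) → ℚ) (n m : Fin (d + 1) → ℝ) (l : Fin (d + 1)) :
    mm b (n + m) l = mm b n l + mm b m l := by
  refine Fin.cases ?_ (fun j => ?_) l
  · simp only [mm, Fin.cons_zero, Pi.add_apply]; ring
  · simp only [mm, Fin.cons_succ, Pi.add_apply]; ring

theorem ro_add (P : Par d) (v w : Fin d → ℂ) : ro P (v + w) = ro P v + ro P w := by
  funext l
  have : tt P.z (v + w) l = tt P.z v l + tt P.z w l := tt_add P.z v w l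
  simp only [ro, Pi.add_apply]
  rw [this, nn_add, c2g_mm_add, Complex.add_re]
  simp only [Pi.add_apply]
  ring

/-- C2c. PROOF. `v - gam (nn v)` has real coordinates `tt_l = ro v l` (imaginary parts: `Im tt_l (gam n) = n_l Im z`). So `∑ z^l ro_l = 0`, i.e. `ro_0 + z ro_1 = -∑_{l≥2} z^l ro_l`, and taking imaginary and real parts
`|ro_1|, |ro_0| ≤ C max_{l≥2} |ro_l| ≤ C √P2`. -/
theorem decomp (P : Par d) (v : Fin d → ℂ) (l : Fin (d + 1)) : tt P.z v l = tt P.z (gam P (nn P v)) l + (ro P v l : ℂ) := by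
  have him : P.z.im ≠ 0 := P.im.ne'
  rw [tt_gam]
  apply Complex.ext
  · simp only [ro, Complex.add_re, Complex.ofReal_re, Complex.mul_re, Complex.ofReal_im, zero_mul, sub_zero]
    ring
  · simp only [nn, Complex.add_im, Complex.ofReal_im, Complex.mul_im, Complex.ofReal_re, zero_mul, zero_add, add_zero]
    field_simp

theorem ro_bound (P : Par d) (hd : 2 ≤ d) : ∃ C : ℝ, 1 ≤ C ∧ ∀ v : Fin d → ℂ, ∀ l, |ro P v l| ≤ C * Real.sqrt (P2 P v) := by
  have him : 0 < P.z.im := P.im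
  obtain ⟨e, rfl⟩ : ∃ e, d = e + 1 := ⟨d - 1, by omega⟩
  set C0 : ℝ := ∑ l : Fin (e + 1 + 1), ‖P.z‖ ^ l.val with hC0
  have hC0n : 0 ≤ C0 := Finset.sum_nonneg fun _ _ => by positivity
  refine ⟨1 + C0 + C0 / P.z.im + ‖P.z‖ * (C0 / P.z.im), ?_, ?_⟩
  · have : 0 ≤ C0 / P.z.im := by positivity
    have h2 : 0 ≤ ‖P.z‖ * (C0 / P.z.im) := by positivity
    linarith
  intro v l
  set S := Real.sqrt (P2 P v) with hS
  have hSn : 0 ≤ S := Real.sqrt_nonneg _
  have hge : ∀ l : Fin (e + 1 + 1), 2 ≤ l.val → |ro P v l| ≤ S := by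
    intro l hl
    apply Real.abs_le_sqrt
    have := Finset.single_le_sum (f := fun l : Fin (e + 1 + 1) => if 2 ≤ l.val then ro P v l ^ 2 else 0)
      (fun i _ => by positivity) (Finset.mem_univ l)
    simpa [hl, P2] using this
  have hrel : ∑ l : Fin (e + 1 + 1), P.z ^ l.val * (ro P v l : ℂ) = 0 := by
    have h1 := tt_rel P.z v
    have h2 := tt_rel P.z (gam P (nn P v))
    have h3 : ∑ l : Fin (e + 1 + 1), P.z ^ l.val * (ro P v l : ℂ) =
        ∑ l : Fin (e + 1 + 1), P.z ^ l.val * tt P.z v l - ∑ l : Fin (e + 1 + 1), P.z ^ l.val * tt P.z (gam P (nn P v)) l := by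
      rw [← Finset.sum_sub_distrib]
      refine Finset.sum_congr rfl fun l _ => ?_
      rw [decomp P v l]; ring
    rw [h3, h1, h2, sub_zero]
  rw [Fin.sum_univ_succ, Fin.sum_univ_succ] at hrel
  set E : ℂ := ∑ i : Fin e, P.z ^ i.succ.succ.val * (ro P v i.succ.succ : ℂ) with hE
  have hEn : ‖E‖ ≤ C0 * S := by
    calc ‖E‖ ≤ ∑ i : Fin e, ‖P.z ^ i.succ.succ.val * (ro P v i.succ.succ : ℂ)‖ := norm_sum_le _ _
      _ ≤ ∑ i : Fin e, ‖P.z‖ ^ i.succ.succ.val * S := by
          refine Finset.sum_le_sum fun i _ => ?_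
          rw [norm_mul, norm_pow, Complex.norm_real, Real.norm_eq_abs]
          exact mul_le_mul_of_nonneg_left (hge _ (by simp)) (by positivity)
      _ = (∑ i : Fin e, ‖P.z‖ ^ i.succ.succ.val) * S := by rw [Finset.sum_mul]
      _ ≤ C0 * S := by
          apply mul_le_mul_of_nonneg_right _ hSn
          rw [hC0, Fin.sum_univ_succ, Fin.sum_univ_succ]
          have : 0 ≤ ‖P.z‖ ^ (0 : Fin (e + 1 + 1)).val := by positivity
          have : 0 ≤ ‖P.z‖ ^ (Fin.succ (0 : Fin (e + 1))).val := by positivity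
          linarith
  have hrel' : (ro P v 0 : ℂ) + P.z * (ro P v (Fin.succ 0) : ℂ) = -E := by
    have h0 : P.z ^ (0 : Fin (e + 1 + 1)).val = 1 := by simp
    have h1 : P.z ^ (Fin.succ (0 : Fin (e + 1))).val = P.z := by simp
    rw [h0, h1] at hrel
    linear_combination hrel
  have hb : |ro P v (Fin.succ 0)| ≤ C0 / P.z.im * S := by
    have h1 := congrArg Complex.im hrel'
    simp only [Complex.add_im, Complex.ofReal_im, Complex.mul_im, Complex.ofReal_re, mul_zero, zero_add, Complex.neg_im] at h1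
    have h2 : |ro P v (Fin.succ 0)| * P.z.im ≤ C0 * S := by
      rw [← abs_of_pos him, ← abs_mul]
      calc |ro P v (Fin.succ 0) * P.z.im| = |-E.im| := by rw [← h1]; ring_nf
        _ = |E.im| := abs_neg _
        _ ≤ ‖E‖ := Complex.abs_im_le_norm _
        _ ≤ _ := hEn
    rw [div_mul_eq_mul_div, le_div_iff₀ him]
    exact h2
  have ha : |ro P v 0| ≤ C0 * S + ‖P.z‖ * (C0 / P.z.im * S) := by
    have h1 : (ro P v 0 : ℂ) = -E - P.z * (ro P v (Fin.succ 0) : ℂ) := by linear_combination hrel'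
    calc |ro P v 0| = ‖(ro P v 0 : ℂ)‖ := by rw [Complex.norm_real, Real.norm_eq_abs]
      _ = ‖-E - P.z * (ro P v (Fin.succ 0) : ℂ)‖ := by rw [h1]
      _ ≤ ‖-E‖ + ‖P.z * (ro P v (Fin.succ 0) : ℂ)‖ := norm_sub_le _ _
      _ ≤ C0 * S + ‖P.z‖ * (C0 / P.z.im * S) := by
          rw [norm_neg, norm_mul, Complex.norm_real, Real.norm_eq_abs]
          exact add_le_add hEn (mul_le_mul_of_nonneg_left hb (norm_nonneg _))
  have hc1 : 0 ≤ C0 * S := by positivity
  have hc2 : 0 ≤ C0 / P.z.im * S := by positivity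
  have hc3 : 0 ≤ ‖P.z‖ * (C0 / P.z.im * S) := by positivity
  have hexp : (1 + C0 + C0 / P.z.im + ‖P.z‖ * (C0 / P.z.im)) * S =
      S + C0 * S + C0 / P.z.im * S + ‖P.z‖ * (C0 / P.z.im * S) := by ring
  rw [hexp]
  by_cases hl : 2 ≤ l.val
  · have := hge l hl
    linarith
  · have hl' : l = 0 ∨ l = Fin.succ 0 := by
      have : l.val = 0 ∨ l.val = 1 := by omega
      rcases this with h | h
      · left; exact Fin.ext h
      · right; exact Fin.ext (by simpa using h)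
    rcases hl' with rfl | rfl
    · linarith
    · linarith

end Pool.Agent.MSK
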