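import Pool.Agent.Lib.MP_f58a57_nt.K.Defs
import Pool.Agent.Lib.MP_f58a57_nt.K.C2_Geo

/-! # K/C2b_Cover: the covering -/

open Complex

noncomputable section

namespace Pool.Agent.MSK

open MSD MSP

variable {d : ℕ}

/-- the cell of a point -/
def c2b_key (P : Par d) (q : ℕ) (v : Fin d → ℂ) : (Fin (d + 1) → ℤ) × (Fin (d + 1) → ℤ) :=
  (fun l => ⌊nn P v l⌋ % (q : ℤ), fun l => if 2 ≤ l.val then ⌊ro P v l⌋ else 0)

theorem c2b_prod (e a : ℕ) : ∏ l : Fin (e + 2), (if 2 ≤ l.val then a else 1) = a ^ e := by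
  rw [Fin.prod_univ_succ, Fin.prod_univ_succ]
  simp

/-- the set of the cells -/
def c2b_keys (d q N : ℕ) : Finset ((Fin (d + 1) → ℤ) × (Fin (d + 1) → ℤ)) :=
  (Fintype.piFinset fun _ => Finset.Ico (0 : ℤ) q) ×ˢ
    Fintype.piFinset fun l : Fin (d + 1) => if 2 ≤ l.val then Finset.Icc (-(N : ℤ)) N else {0}

theorem c2b_keys_card (e q N : ℕ) : (c2b_keys (e + 1) q N).card = q ^ (e + 2) * (2 * N + 1) ^ e := by
  rw [c2b_keys, Finset.card_product, Fintype.card_piFinset, Fintype.card_piFinset]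
  congr 1
  · simp
  · rw [← c2b_prod e (2 * N + 1)]
    refine Finset.prod_congr rfl fun l _ => ?_
    split_ifs
    · rw [Int.card_Icc]
      omega
    · simp

/-- two points of the same cell -/
theorem c2b_near (P : Par d) (q : ℕ) (hq : 1 ≤ q) {C : ℝ} (hC : ∀ v : Fin d → ℂ, ∀ l, |ro P v l| ≤ C * Real.sqrt (P2 P v)) (hC1 : 1 ≤ C)
    (v w : Fin d → ℂ) (h : c2b_key P q v = c2b_key P q w) : ∃ n : Fin (d + 1) → ℤ,
      ∀ j, ‖v j - gam P (fun l => (q : ℝ) * n l) j - w j‖ ≤ (1 + ∑ l, |(P.b l : ℝ)| + ‖P.z‖) + C * Real.sqrt (d + 1) := by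
  have hk := congrArg Prod.fst h
  have hr := congrArg Prod.snd h
  have hq0 : (q : ℤ) ≠ 0 := by positivity
  have hn : ∀ l, ∃ n : ℤ, ⌊nn P v l⌋ - ⌊nn P w l⌋ = q * n := by
    intro l
    have h1 : ⌊nn P v l⌋ % (q : ℤ) = ⌊nn P w l⌋ % (q : ℤ) := congrFun hk l
    exact Int.ModEq.dvd (show ⌊nn P w l⌋ ≡ ⌊nn P v l⌋ [ZMOD q] from h1.symm)
  choose n hn using hn
  refine ⟨n, ?_⟩
  set g : Fin d → ℂ := gam P (fun l => (q : ℝ) * n l) with hg
  set u : Fin d → ℂ := fun j => v j - g j - w j with hu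
  have huv : v = u + (g + w) := by
    funext j
    simp only [hu, Pi.add_apply]
    ring
  have hnn : ∀ l, |nn P u l| ≤ 1 := by
    intro l
    have h1 : nn P v l = nn P u l + ((q : ℝ) * n l + nn P w l) := by
      conv_lhs => rw [huv]
      rw [nn_add, nn_add, hg, nn_gam]
      rfl
    have h2 : (⌊nn P v l⌋ : ℝ) - ⌊nn P w l⌋ = q * n l := by exact_mod_cast hn l
    have h3 := Int.floor_le (nn P v l)
    have h4 := Int.lt_floor_add_one (nn P v l)
    have h5 := Int.floor_le (nn P w l)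
    have h6 := Int.lt_floor_add_one (nn P w l)
    rw [abs_le]
    constructor <;> linarith
  have hro : ∀ l : Fin (d + 1), 2 ≤ l.val → |ro P u l| ≤ 1 := by
    intro l hl
    have h1 : ro P v l = ro P u l + (0 + ro P w l) := by
      conv_lhs => rw [huv]
      rw [ro_add, ro_add, hg, ro_gam]
      rfl
    have h2 : ⌊ro P v l⌋ = ⌊ro P w l⌋ := by
      have := congrFun hr l
      simpa [c2b_key, hl] using this
    have h3 := Int.floor_le (ro P v l)
    have h4 := Int.lt_floor_add_one (ro P v l)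
    have h5 := Int.floor_le (ro P w l)
    have h6 := Int.lt_floor_add_one (ro P w l)
    have h7 : (⌊ro P v l⌋ : ℝ) = ⌊ro P w l⌋ := by exact_mod_cast h2
    rw [abs_le]
    constructor <;> linarith
  have hP2 : P2 P u ≤ d + 1 := by
    have h1 : P2 P u ≤ ∑ _l : Fin (d + 1), (1 : ℝ) := by
      refine Finset.sum_le_sum fun l _ => ?_
      split_ifs with hl
      · have := hro l hl
        rw [abs_le] at this
        nlinarith [this.1, this.2]
      · exact zero_le_one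
    simpa using h1
  intro j
  have hdec := decomp P u j.succ
  rw [tt_gam] at hdec
  have huj : tt P.z u j.succ = v j - g j - w j := rfl
  rw [huj] at hdec
  rw [hdec]
  refine (norm_add_le _ _).trans (add_le_add ?_ ?_)
  · refine (norm_add_le _ _).trans (add_le_add ?_ ?_)
    · rw [Complex.norm_real, Real.norm_eq_abs]
      have h1 : mm P.b (nn P u) j.succ = -nn P u j.castSucc - (P.b j.succ : ℝ) * nn P u (Fin.last d) := rfl
      rw [h1]
      refine (abs_sub _ _).trans (add_le_add ?_ ?_)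
      · rw [abs_neg]
        exact hnn _
      · rw [abs_mul]
        calc |(P.b j.succ : ℝ)| * |nn P u (Fin.last d)| ≤ |(P.b j.succ : ℝ)| * 1 :=
              mul_le_mul_of_nonneg_left (hnn _) (abs_nonneg _)
          _ = |(P.b j.succ : ℝ)| := mul_one _
          _ ≤ ∑ l, |(P.b l : ℝ)| := Finset.single_le_sum (f := fun l => |(P.b l : ℝ)|) (fun l _ => abs_nonneg _) (Finset.mem_univ _)
    · rw [norm_mul, Complex.norm_real, Real.norm_eq_abs]
      calc |nn P u j.succ| * ‖P.z‖ ≤ 1 * ‖P.z‖ := mul_le_mul_of_nonneg_right (hnn _) (norm_nonneg _)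
        _ = ‖P.z‖ := one_mul _
  · rw [Complex.norm_real, Real.norm_eq_abs]
    refine (hC u _).trans (mul_le_mul_of_nonneg_left (Real.sqrt_le_sqrt hP2) (by linarith))

/-- C2d. the covering. PROOF. The real linear map `Ψ : ℝ^(d+1) × ℝ^(d-1) → ℂ^d`, `(n, ρ) ↦ gam n + (ρ_{j+1})_j`, where `ρ = (ρ_0, ρ_1, ρ_2, ..., ρ_d)` is the real vector with the given `ρ_l`, `l ≥ 2`, and
`ρ_0 + z ρ_1 = -∑_{l≥2} z^l ρ_l`, satisfies `Ψ(nn v, (ro v l)_{l≥2}) = v` (C2c). Let `S` be the set of all `Ψ(k, r)` with `k ∈ {0..q-1}^(d+1)`, `r ∈ ℤ^(d-1)`, `|r_l| ≤ R + 1`: `card ≤ q^(d+1) (2R+3)^(d-1) ≤ C R^(d-1)`. Given `v` with `P2 v ≤ R²` write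
`nn v l = q n_l + k_l + f_l`, `0 ≤ f_l < 1`, `ro v l = r_l + g_l`, `0 ≤ g_l < 1` (`l ≥ 2`): `v = gam(q n) + Ψ(k, r) + Ψ(f, g)` and `‖Ψ(f,g)‖ ≤ C`. -/
theorem cover (P : Par d) (hd : 2 ≤ d) (q : ℕ) (hq : 1 ≤ q) : ∃ C : ℝ, 1 ≤ C ∧ ∀ R : ℝ, 1 ≤ R → ∃ S : Finset (Fin d → ℂ),
    (S.card : ℝ) ≤ C * R ^ (d - 1) ∧ ∀ v : Fin d → ℂ, P2 P v ≤ R ^ 2 → ∃ n : Fin (d + 1) → ℤ, ∃ s ∈ S,
      ∀ j, ‖v j - gam P (fun l => (q : ℝ) * n l) j - s j‖ ≤ C := by
  classical
  obtain ⟨e, rfl⟩ : ∃ e, d = e + 1 := ⟨d - 1, by omega⟩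
  obtain ⟨C₀, hC₀, hC⟩ := ro_bound P hd
  set A : ℝ := (1 + ∑ l, |(P.b l : ℝ)| + ‖P.z‖) + C₀ * Real.sqrt ((e + 1 : ℕ) + 1) with hA
  have hA1 : 1 ≤ A := by
    have h1 : 0 ≤ ∑ l, |(P.b l : ℝ)| := Finset.sum_nonneg fun l _ => abs_nonneg _
    have h2 : 0 ≤ ‖P.z‖ := norm_nonneg _
    have h3 : 0 ≤ C₀ * Real.sqrt ((e + 1 : ℕ) + 1) := mul_nonneg (by linarith) (Real.sqrt_nonneg _)
    linarith
  refine ⟨A + (q : ℝ) ^ (e + 2) * 7 ^ e, ?_, ?_⟩
  · have : (0 : ℝ) ≤ (q : ℝ) ^ (e + 2) * 7 ^ e := by positivity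
    linarith
  intro R hR
  let N : ℕ := ⌈R⌉₊ + 1
  let rep : (Fin (e + 1 + 1) → ℤ) × (Fin (e + 1 + 1) → ℤ) → (Fin (e + 1) → ℂ) := fun κ =>
    if h : ∃ v, P2 P v ≤ R ^ 2 ∧ c2b_key P q v = κ then Classical.choose h else 0
  refine ⟨(c2b_keys (e + 1) q N).image rep, ?_, ?_⟩
  · have h1 : (((c2b_keys (e + 1) q N).image rep).card : ℝ) ≤ (q : ℝ) ^ (e + 2) * (2 * N + 1) ^ e := by
      have h2 := Finset.card_image_le (s := c2b_keys (e + 1) q N) (f := rep)
      rw [c2b_keys_card] at h2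
      exact_mod_cast h2
    have hN : (N : ℝ) ≤ R + 2 := by
      have := Nat.ceil_lt_add_one (by linarith : 0 ≤ R)
      simp only [N]
      push_cast
      linarith
    have h3 : (2 * (N : ℝ) + 1) ^ e ≤ (7 * R) ^ e := pow_le_pow_left₀ (by positivity) (by linarith) _
    rw [Nat.add_sub_cancel]
    calc _ ≤ (q : ℝ) ^ (e + 2) * (2 * N + 1) ^ e := h1
      _ ≤ (q : ℝ) ^ (e + 2) * (7 * R) ^ e := mul_le_mul_of_nonneg_left h3 (by positivity)
      _ = (0 + (q : ℝ) ^ (e + 2) * 7 ^ e) * R ^ e := by rw [mul_pow]; ring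
      _ ≤ (A + (q : ℝ) ^ (e + 2) * 7 ^ e) * R ^ e :=
          mul_le_mul_of_nonneg_right (by linarith) (by positivity)
  · intro v hv
    have hex : ∃ v', P2 P v' ≤ R ^ 2 ∧ c2b_key P q v' = c2b_key P q v := ⟨v, hv, rfl⟩
    have hrep : rep (c2b_key P q v) = Classical.choose hex := dif_pos hex
    have hkey : c2b_key P q v = c2b_key P q (rep (c2b_key P q v)) := by
      rw [hrep]
      exact (Classical.choose_spec hex).2.symm
    obtain ⟨n, hn⟩ := c2b_near P q hq hC hC₀ v _ hkey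
    refine ⟨n, rep (c2b_key P q v), Finset.mem_image_of_mem _ ?_, fun j => ?_⟩
    · rw [c2b_keys, Finset.mem_product, Fintype.mem_piFinset, Fintype.mem_piFinset]
      constructor
      · intro l
        have hq0 : (0 : ℤ) < q := by exact_mod_cast hq
        rw [Finset.mem_Ico]
        exact ⟨Int.emod_nonneg _ hq0.ne', Int.emod_lt_of_pos _ hq0⟩
      · intro l
        by_cases hl : 2 ≤ l.val
        · rw [if_pos hl]
          have h1 : (c2b_key P q v).2 l = ⌊ro P v l⌋ := if_pos hl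
          rw [h1, Finset.mem_Icc]
          have h2 : ro P v l ^ 2 ≤ R ^ 2 := by
            refine le_trans ?_ hv
            have h3 : (if 2 ≤ l.val then ro P v l ^ 2 else 0) ≤ P2 P v :=
              Finset.single_le_sum (f := fun l : Fin (e + 1 + 1) => if 2 ≤ l.val then ro P v l ^ 2 else 0)
                (fun l _ => by split_ifs <;> positivity) (Finset.mem_univ l)
            rwa [if_pos hl] at h3
          have h4 := abs_le.1 (abs_le_of_sq_le_sq h2 (by linarith))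
          have h5 : R ≤ ⌈R⌉₊ := Nat.le_ceil R
          have h6 := Int.floor_le (ro P v l)
          have h7 := Int.lt_floor_add_one (ro P v l)
          constructor
          · have h8 : -((N : ℤ) : ℝ) ≤ (⌊ro P v l⌋ : ℝ) := by
              simp only [N]
              push_cast
              linarith [h4.1]
            exact_mod_cast h8
          · have h8 : (⌊ro P v l⌋ : ℝ) ≤ ((N : ℤ) : ℝ) := by
              simp only [N]
              push_cast
              linarith [h4.2]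
            exact_mod_cast h8
        · rw [if_neg hl, Finset.mem_singleton]
          exact if_neg hl
    · refine (hn j).trans ?_
      have : (0 : ℝ) ≤ (q : ℝ) ^ (e + 2) * 7 ^ e := by positivity
      rw [← hA]
      linarith

end Pool.Agent.MSK
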