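import Pool.Agent.Lib.MP_f58a57_nt.K.Defs
import Pool.Agent.Lib.MP_f58a57_nt.K.C2_Geo
import Mathlib.Analysis.RCLike.Extend

/-! # K/C2c_Qf: the quadratic form -/

open Complex

noncomputable section

namespace Pool.Agent.MSK

open MSD MSP

variable {d : ℕ}

theorem c2c_tt_add (z : ℂ) (v w : Fin d → ℂ) (l : Fin (d + 1)) : tt z (v + w) l = tt z v l + tt z w l := by
  refine Fin.cases ?_ (fun j => ?_) l
  · simp only [tt, Fin.cons_zero, Pi.add_apply, mul_add, Finset.sum_add_distrib, neg_add]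
  · simp only [tt, Fin.cons_succ, Pi.add_apply]

theorem c2c_tt_smul (z : ℂ) (c : ℝ) (v : Fin d → ℂ) (l : Fin (d + 1)) : tt z (c • v) l = c * tt z v l := by
  refine Fin.cases ?_ (fun j => ?_) l
  · simp only [tt, Fin.cons_zero, Pi.smul_apply, Complex.real_smul]
    rw [mul_neg, Finset.mul_sum]
    congr 1
    refine Finset.sum_congr rfl fun j _ => ?_
    ring
  · simp only [tt, Fin.cons_succ, Pi.smul_apply, Complex.real_smul]

theorem c2c_mm_smul (b : Fin (d + 1) → ℚ) (c : ℝ) (n : Fin (d + 1) → ℝ) (l : Fin (d + 1)) :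
    mm b (fun i => c * n i) l = c * mm b n l := by
  refine Fin.cases ?_ (fun j => ?_) l
  · simp only [mm, Fin.cons_zero]
    ring
  · simp only [mm, Fin.cons_succ]
    ring

/-- the imaginary parts as linear maps -/
def c2c_im (P : Par d) (l : Fin (d + 1)) : (Fin d → ℂ) →ₗ[ℝ] ℝ where
  toFun v := (tt P.z v l).im
  map_add' v w := by rw [c2c_tt_add, Complex.add_im]
  map_smul' c v := by rw [c2c_tt_smul, Complex.im_ofReal_mul, RingHom.id_apply, smul_eq_mul]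

theorem c2c_nn_smul (P : Par d) (c : ℝ) (v : Fin d → ℂ) : nn P (c • v) = fun i => c * nn P v i := by
  funext i
  unfold nn
  rw [c2c_tt_smul, Complex.im_ofReal_mul]
  ring

/-- the transversal coordinates as linear maps -/
def c2c_ro (P : Par d) (l : Fin (d + 1)) : (Fin d → ℂ) →ₗ[ℝ] ℝ where
  toFun v := ro P v l
  map_add' v w := by rw [ro_add, Pi.add_apply]
  map_smul' c v := by
    rw [RingHom.id_apply, smul_eq_mul]
    unfold ro
    rw [c2c_nn_smul, c2c_tt_smul, c2c_mm_smul, Complex.re_ofReal_mul]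
    ring

/-- the linear functional `y ↦ 2 B(s, y)` -/
def c2c_B (P : Par d) (s : Fin d → ℂ) : (Fin d → ℂ) →ₗ[ℝ] ℝ :=
  (2 * Real.pi) • (∑ l, ((tt P.z s l).im / P.z.im) • c2c_im P l +
    ∑ l : Fin (d + 1), (if 2 ≤ l.val then ro P s l else 0) • c2c_ro P l)

theorem c2c_B_apply (P : Par d) (s y : Fin d → ℂ) : c2c_B P s y =
    2 * Real.pi * (∑ l, (tt P.z s l).im / P.z.im * (tt P.z y l).im +
      ∑ l : Fin (d + 1), (if 2 ≤ l.val then ro P s l else 0) * ro P y l) := by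
  unfold c2c_B
  rw [LinearMap.smul_apply, LinearMap.add_apply, LinearMap.sum_apply, LinearMap.sum_apply]
  rfl

/-- C2e. PROOF. `Qf` is a real quadratic form: `Qf (s + y) = Qf s + 2 B(s, y) + Qf y` with `B` real bilinear; the real linear functional `y ↦ 2 B(s, y)` is the real part of the complex linear functional `y ↦ 2 B(s, y) - i 2 B(s, iy)`. -/
theorem Qf_polar (P : Par d) (s : Fin d → ℂ) : ∃ ℓ : (Fin d → ℂ) →ₗ[ℂ] ℂ, ∀ y : Fin d → ℂ, Qf P (s + y) = Qf P s + (ℓ y).re + Qf P y := by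
  refine ⟨Module.Dual.extendRCLike (𝕜 := ℂ) (c2c_B P s), fun y => ?_⟩
  have h1 : ((Module.Dual.extendRCLike (𝕜 := ℂ) (c2c_B P s)) y).re = c2c_B P s y :=
    Module.Dual.re_extendRCLike_apply (𝕜 := ℂ) (c2c_B P s) y
  rw [h1, c2c_B_apply]
  have h2 : ∑ l, (tt P.z (s + y) l).im ^ 2 / P.z.im = ∑ l, (tt P.z s l).im ^ 2 / P.z.im +
      2 * ∑ l, (tt P.z s l).im / P.z.im * (tt P.z y l).im + ∑ l, (tt P.z y l).im ^ 2 / P.z.im := by
    rw [Finset.mul_sum, ← Finset.sum_add_distrib, ← Finset.sum_add_distrib]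
    refine Finset.sum_congr rfl fun l _ => ?_
    rw [c2c_tt_add, Complex.add_im]
    ring
  have h3 : P2 P (s + y) = P2 P s + 2 * ∑ l : Fin (d + 1), (if 2 ≤ l.val then ro P s l else 0) * ro P y l + P2 P y := by
    unfold P2
    rw [Finset.mul_sum, ← Finset.sum_add_distrib, ← Finset.sum_add_distrib]
    refine Finset.sum_congr rfl fun l _ => ?_
    rw [ro_add, Pi.add_apply]
    split_ifs
    · ring
    · ring
  unfold Qf
  rw [h2, h3]
  ring

theorem c2c_P2_nonneg (P : Par d) (v : Fin d → ℂ) : 0 ≤ P2 P v := by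
  unfold P2
  refine Finset.sum_nonneg fun l _ => ?_
  split_ifs
  · positivity
  · exact le_rfl

theorem Qf_nonneg (P : Par d) (v : Fin d → ℂ) : 0 ≤ Qf P v := by
  unfold Qf
  refine mul_nonneg Real.pi_pos.le (add_nonneg (Finset.sum_nonneg fun l _ => ?_) (c2c_P2_nonneg P v))
  exact div_nonneg (sq_nonneg _) P.im.le

theorem c2c_lin_bound (f : (Fin d → ℂ) →ₗ[ℝ] ℝ) : ∃ C : ℝ, 0 ≤ C ∧ ∀ v, f v ^ 2 ≤ C * ‖v‖ ^ 2 := by
  refine ⟨‖LinearMap.toContinuousLinearMap f‖ ^ 2, sq_nonneg _, fun v => ?_⟩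
  have h1 := (LinearMap.toContinuousLinearMap f).le_opNorm v
  rw [LinearMap.coe_toContinuousLinearMap', Real.norm_eq_abs] at h1
  rw [← mul_pow, ← sq_abs]
  exact pow_le_pow_left₀ (abs_nonneg _) h1 2

theorem Qf_le (P : Par d) : ∃ C : ℝ, 1 ≤ C ∧ ∀ v : Fin d → ℂ, Qf P v ≤ C * ‖v‖ ^ 2 := by
  choose a ha0 ha using fun l => c2c_lin_bound (c2c_im P l)
  choose r hr0 hr using fun l => c2c_lin_bound (c2c_ro P l)
  have hz := P.im
  have hzi : 0 < P.z.im := hz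
  have hS1 : 0 ≤ ∑ l, a l / P.z.im := Finset.sum_nonneg fun l _ => div_nonneg (ha0 l) hzi.le
  have hS2 : 0 ≤ ∑ l, r l := Finset.sum_nonneg fun l _ => hr0 l
  have hpi := Real.pi_pos
  refine ⟨1 + Real.pi * (∑ l, a l / P.z.im + ∑ l, r l), by nlinarith [mul_nonneg hpi.le (add_nonneg hS1 hS2)], fun v => ?_⟩
  have h1 : ∑ l, (tt P.z v l).im ^ 2 / P.z.im ≤ (∑ l, a l / P.z.im) * ‖v‖ ^ 2 := by
    rw [Finset.sum_mul]
    refine Finset.sum_le_sum fun l _ => ?_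
    rw [div_mul_eq_mul_div]
    exact div_le_div_of_nonneg_right (ha l v) hzi.le
  have h2 : P2 P v ≤ (∑ l, r l) * ‖v‖ ^ 2 := by
    unfold P2
    rw [Finset.sum_mul]
    refine Finset.sum_le_sum fun l _ => ?_
    split_ifs
    · exact hr l v
    · exact mul_nonneg (hr0 l) (sq_nonneg _)
  unfold Qf
  have h3 : 0 ≤ ‖v‖ ^ 2 := sq_nonneg _
  calc Real.pi * (∑ l, (tt P.z v l).im ^ 2 / P.z.im + P2 P v)
      ≤ Real.pi * ((∑ l, a l / P.z.im) * ‖v‖ ^ 2 + (∑ l, r l) * ‖v‖ ^ 2) := by gcongr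
    _ = Real.pi * (∑ l, a l / P.z.im + ∑ l, r l) * ‖v‖ ^ 2 := by ring
    _ ≤ (1 + Real.pi * (∑ l, a l / P.z.im + ∑ l, r l)) * ‖v‖ ^ 2 := by nlinarith

end Pool.Agent.MSK
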