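import Pool.Agent.Lib.MP_f58a57_nt.K.Defs
import Pool.Agent.Lib.MP_f58a57_nt.K.C1b_Multi
import Pool.Agent.Lib.MP_f58a57_nt.K.C2b_Cover
import Pool.Agent.Lib.MP_f58a57_nt.K.C2c_Qf

/-! # K/C3_Small: a quasi-periodic entire function which is small at the points of a finite set is small everywhere -/

open Complex

noncomputable section

namespace Pool.Agent.MSK

open MSD MSP

variable {d : ℕ}

theorem c3_P2_nonneg (P : Par d) (v : Fin d → ℂ) : 0 ≤ P2 P v := by
  unfold P2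
  refine Finset.sum_nonneg fun l _ => ?_
  split_ifs
  · positivity
  · exact le_rfl

theorem c3_Nn_nonneg (P : Par d) (M : ℕ) (G : (Fin d → ℂ) → ℂ) (v : Fin d → ℂ) : 0 ≤ Nn P M G v := by
  unfold Nn
  positivity

/-- one polydisc -/
theorem c3_one (P : Par d) (M : ℕ) (C1 : ℝ) (s : Fin d → ℂ) (G : (Fin d → ℂ) → ℂ)
    (hG : Differentiable ℂ G) (N ε : ℝ) (hN0 : 0 ≤ N) (hε0 : 0 ≤ ε) (hN : ∀ v, Nn P M G v ≤ N) (K : ℕ) (hK : 1 ≤ K)
    (hε : ∀ i : Fin d → Fin K, Nn P M G (fun j => s j + C1 * (((i j).val : ℂ) / K)) ≤ ε) (R' C4 : ℝ) (hR' : 3 ≤ R')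
    (hC4 : ∀ y : Fin d → ℂ, (∀ j, ‖y j‖ ≤ R') → Qf P (fun j => C1 * y j) ≤ C4) (u : Fin d → ℂ) (hu : ∀ j, ‖u j‖ ≤ 1) :
    Nn P M G (fun j => s j + C1 * u j) ≤ 22 ^ (d * K) * (ε * Real.exp (M * C4)) +
      d * 22 ^ (d * K) * (4 / (R' - 1)) ^ K * (N * Real.exp (M * C4)) := by
  obtain ⟨ℓ, hℓ⟩ := Qf_polar P s
  have hgd : Differentiable ℂ (fun y : Fin d → ℂ => G (fun j => s j + C1 * y j) * cexp (-(M * ℓ (fun j => C1 * y j)))) := by
    have h1 : Differentiable ℂ (fun y : Fin d → ℂ => (fun j => s j + (C1 : ℂ) * y j)) := by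
      rw [differentiable_pi]
      intro j
      fun_prop
    have h2 : Differentiable ℂ (fun y : Fin d → ℂ => (fun j => (C1 : ℂ) * y j)) := by
      rw [differentiable_pi]
      intro j
      fun_prop
    have h3 : Differentiable ℂ (fun y : Fin d → ℂ => ℓ y) := (LinearMap.toContinuousLinearMap ℓ).differentiable
    exact (hG.comp h1).mul (((h3.comp h2).const_mul (M : ℂ)).neg.cexp)
  have hg : ∀ y : Fin d → ℂ, ‖G (fun j => s j + C1 * y j) * cexp (-(M * ℓ (fun j => C1 * y j)))‖ =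
      Nn P M G (fun j => s j + C1 * y j) * Real.exp (M * Qf P s) * Real.exp (M * Qf P (fun j => C1 * y j)) := by
    intro y
    have h1 := hℓ (fun j => C1 * y j)
    have h2 : s + (fun j => (C1 : ℂ) * y j) = fun j => s j + C1 * y j := rfl
    rw [h2] at h1
    unfold Nn
    rw [norm_mul, Complex.norm_exp, mul_assoc, mul_assoc, ← Real.exp_add, ← Real.exp_add]
    congr 2
    rw [h1]
    have h3 : (-((M : ℂ) * ℓ (fun j => C1 * y j))).re = -(M * (ℓ (fun j => C1 * y j)).re) := by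
      rw [Complex.neg_re, ← Complex.ofReal_natCast, Complex.re_ofReal_mul]
    rw [h3]
    ring
  have hbd : ∀ (y : Fin d → ℂ) (T : ℝ), 0 ≤ T → (∀ j, ‖y j‖ ≤ R') → Nn P M G (fun j => s j + C1 * y j) ≤ T →
      ‖G (fun j => s j + C1 * y j) * cexp (-(M * ℓ (fun j => C1 * y j)))‖ ≤ T * Real.exp (M * C4) * Real.exp (M * Qf P s) := by
    intro y T hT0 hy hT
    rw [hg y]
    have h1 : Real.exp (M * Qf P (fun j => C1 * y j)) ≤ Real.exp (M * C4) :=
      Real.exp_le_exp.mpr (mul_le_mul_of_nonneg_left (hC4 y hy) (Nat.cast_nonneg M))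
    calc Nn P M G (fun j => s j + C1 * y j) * Real.exp (M * Qf P s) * Real.exp (M * Qf P (fun j => C1 * y j))
        ≤ T * Real.exp (M * Qf P s) * Real.exp (M * C4) := by gcongr
      _ = _ := by ring
  have key := interp_multi K hK R' (N * Real.exp (M * C4) * Real.exp (M * Qf P s)) (ε * Real.exp (M * C4) * Real.exp (M * Qf P s)) hR'
    (fun y : Fin d → ℂ => G (fun j => s j + C1 * y j) * cexp (-(M * ℓ (fun j => C1 * y j)))) hgd
    (fun y hy => hbd y N hN0 hy (hN _))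
    (fun i => hbd _ ε hε0 (fun j => by
      have hKp : (0 : ℝ) < K := by exact_mod_cast hK
      rw [norm_div, Complex.norm_natCast, Complex.norm_natCast]
      have : ((i j).val : ℝ) / K ≤ 1 := by
        rw [div_le_one hKp]
        exact_mod_cast (i j).isLt.le
      linarith) (hε i)) u hu
  have h5 := hg u
  rw [h5] at key
  have h6 : 1 ≤ Real.exp (M * Qf P (fun j => C1 * u j)) := by
    exact Real.one_le_exp (mul_nonneg (Nat.cast_nonneg M) (Qf_nonneg P _))
  have h7 : 0 < Real.exp (M * Qf P s) := Real.exp_pos _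
  have h8 : Nn P M G (fun j => s j + C1 * u j) * Real.exp (M * Qf P s) ≤
      Nn P M G (fun j => s j + C1 * u j) * Real.exp (M * Qf P s) * Real.exp (M * Qf P (fun j => C1 * u j)) :=
    le_mul_of_one_le_right (mul_nonneg (c3_Nn_nonneg P M G _) h7.le) h6
  have h9 : Nn P M G (fun j => s j + C1 * u j) * Real.exp (M * Qf P s) ≤
      (22 ^ (d * K) * (ε * Real.exp (M * C4)) +
      d * 22 ^ (d * K) * (4 / (R' - 1)) ^ K * (N * Real.exp (M * C4))) * Real.exp (M * Qf P s) := by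
    refine (h8.trans key).trans (le_of_eq ?_)
    ring
  exact le_of_mul_le_mul_right h9 h7

/-- C3. PROOF. `C₁` from `cover`. Let `K = C₃ M` (`C₃` large), `Sp = {s + C₁ (i_j/K)_j : s ∈ S, i ∈ {0..K-1}^d}`, `card ≤ C R^(d-1) M^d`. Let `N* = sup Nn(v)` (finite, `≤ B`). For any `v`: if `P2 v > R²` then `Nn v ≤ B e^{-MR²}`. Otherwise
take `n, s` from `cover` and `u = (v - gam(qn) - s)/C₁`, `‖u_j‖ ≤ 1`, `Nn v = Nn (s + C₁ u)`. Let `g(u) = G(s + C₁u) exp(-M ℓ_s(C₁u))`, `ℓ_s` from `Qf_polar`: `‖g(u)‖ = Nn(s + C₁u) exp(M Qf s + M Qf(C₁u))`. With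
`R' = 1 + 16·22^d` (a constant): on `‖u_j‖ ≤ R'`: `‖g‖ ≤ N* e^{M Qf s} e^{M C₄}`; at the nodes `‖g‖ ≤ ε e^{M Qf s + M C₄}`. By `interp_multi`
`Nn v ≤ ‖g(u)‖ e^{-M Qf s} ≤ 22^(dK) ε e^{MC₄} + d 22^(dK) (4/(R'-1))^K N* e^{MC₄}` and `22^d · 4/(R'-1) ≤ 1/4`, so the last term is `≤ d 4^{-K} e^{MC₄} N* ≤ N*/2` for `K = C₃M`, `C₃` large. So
`N* ≤ C^M ε + N*/2 + B e^{-MR²}`. -/
theorem small_all (P : Par d) (hd : 2 ≤ d) (q : ℕ) (hq : 1 ≤ q) : ∃ C : ℝ, 1 ≤ C ∧ ∀ (M : ℕ) (R : ℝ), 1 ≤ M → 1 ≤ R →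
    ∃ Sp : Finset (Fin d → ℂ), (Sp.card : ℝ) ≤ C * R ^ (d - 1) * M ^ d ∧ ∀ (G : (Fin d → ℂ) → ℂ) (B : ℝ), Differentiable ℂ G →
      (∀ (n : Fin (d + 1) → ℤ) (v : Fin d → ℂ), Nn P M G (v + gam P (fun l => (q : ℝ) * n l)) = Nn P M G v) →
      (∀ v, Nn P M G v ≤ B * Real.exp (-(M * P2 P v))) → ∀ ε : ℝ, 0 ≤ ε → (∀ p ∈ Sp, Nn P M G p ≤ ε) →
      ∀ v, Nn P M G v ≤ C ^ M * (ε + B * Real.exp (-(M * R ^ 2))) := by
  classical
  obtain ⟨C1, hC1, hcov⟩ := cover P hd q hq
  obtain ⟨Cq, hCq, hQ⟩ := Qf_le P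
  obtain ⟨R', hR'⟩ : ∃ R' : ℝ, R' = 1 + 16 * 22 ^ d := ⟨_, rfl⟩
  have h22 : (1 : ℝ) ≤ 22 ^ d := one_le_pow₀ (by norm_num)
  have hR'3 : 3 ≤ R' := by rw [hR']; linarith
  obtain ⟨C4, hC4⟩ : ∃ C4 : ℝ, C4 = Cq * (C1 * R') ^ 2 := ⟨_, rfl⟩
  have hC40 : 0 ≤ C4 := by rw [hC4]; positivity
  obtain ⟨C3, hC3⟩ := pow_unbounded_of_one_lt (2 * (d : ℝ) * Real.exp C4) (by norm_num : (1:ℝ) < 4)
  have hd2 : (2 : ℝ) ≤ d := by exact_mod_cast hd
  have hexp4 : 1 ≤ Real.exp C4 := Real.one_le_exp hC40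
  have hbig : (4 : ℝ) ≤ 2 * (d : ℝ) * Real.exp C4 := by nlinarith
  have hC31 : 1 ≤ C3 := by
    by_contra h
    have h0 : C3 = 0 := by omega
    rw [h0, pow_zero] at hC3
    linarith
  have hC1p : 0 < C1 := by linarith
  obtain ⟨D1, hD1⟩ : ∃ D1 : ℝ, D1 = 22 ^ (d * C3) * Real.exp C4 := ⟨_, rfl⟩
  have hD11 : 1 ≤ D1 := by
    rw [hD1]
    have h1 : (1 : ℝ) ≤ 22 ^ (d * C3) := one_le_pow₀ (by norm_num)
    calc (1 : ℝ) = 1 * 1 := by norm_num
      _ ≤ _ := by gcongr
  have hCC : 0 ≤ C1 * (C3 : ℝ) ^ d := by positivity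
  refine ⟨C1 * (C3 : ℝ) ^ d + 2 * D1, by linarith, ?_⟩
  intro M R hM hR
  obtain ⟨S, hS, hScov⟩ := hcov R hR
  have hM1 : (1 : ℝ) ≤ M := by exact_mod_cast hM
  obtain ⟨K, hKdef⟩ : ∃ K : ℕ, K = C3 * M := ⟨_, rfl⟩
  have hK : 1 ≤ K := by
    rw [hKdef]
    exact Nat.mul_pos hC31 hM
  refine ⟨(S ×ˢ (Finset.univ : Finset (Fin d → Fin K))).image (fun x => fun j => x.1 j + C1 * (((x.2 j).val : ℂ) / K)), ?_, ?_⟩
  · have h1 : ((((S ×ˢ (Finset.univ : Finset (Fin d → Fin K))).image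
        (fun x => fun j => x.1 j + C1 * (((x.2 j).val : ℂ) / K))).card : ℕ) : ℝ) ≤ (S.card : ℝ) * (K : ℝ) ^ d := by
      have h2 := Finset.card_image_le (s := S ×ˢ (Finset.univ : Finset (Fin d → Fin K)))
        (f := fun x => fun j => x.1 j + C1 * (((x.2 j).val : ℂ) / K))
      rw [Finset.card_product, Finset.card_univ, Fintype.card_fun, Fintype.card_fin, Fintype.card_fin] at h2
      exact_mod_cast h2
    refine h1.trans ?_
    have hRp : 0 ≤ R ^ (d - 1) := by positivity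
    calc (S.card : ℝ) * (K : ℝ) ^ d ≤ (C1 * R ^ (d - 1)) * (K : ℝ) ^ d := by gcongr
      _ = C1 * (C3 : ℝ) ^ d * R ^ (d - 1) * M ^ d := by
          rw [hKdef]
          push_cast
          ring
      _ ≤ _ := by
          gcongr
          linarith
  · intro G B hG hper hB ε hε hSp v
    have hB0 : 0 ≤ B := by
      have h1 := (c3_Nn_nonneg P M G 0).trans (hB 0)
      exact nonneg_of_mul_nonneg_left h1 (Real.exp_pos _)
    have hbdd : ∀ v, Nn P M G v ≤ B := by
      intro v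
      refine (hB v).trans ?_
      have h1 : Real.exp (-(M * P2 P v)) ≤ 1 := by
        rw [Real.exp_le_one_iff]
        have := mul_nonneg (Nat.cast_nonneg (α := ℝ) M) (c3_P2_nonneg P v)
        linarith
      exact mul_le_of_le_one_right hB0 h1
    obtain ⟨N, hNdef⟩ : ∃ N : ℝ, N = ⨆ v, Nn P M G v := ⟨_, rfl⟩
    have hbddA : BddAbove (Set.range fun v => Nn P M G v) := ⟨B, by rintro _ ⟨v, rfl⟩; exact hbdd v⟩
    have hNle : ∀ v, Nn P M G v ≤ N := fun v => by
      rw [hNdef]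
      exact le_ciSup hbddA v
    have hN0 : 0 ≤ N := (c3_Nn_nonneg P M G 0).trans (hNle 0)
    have hmain : ∀ v, Nn P M G v ≤ D1 ^ M * ε + N / 2 + B * Real.exp (-(M * R ^ 2)) := by
      intro v
      have hD1M : 0 ≤ D1 ^ M * ε := by positivity
      have hBe : 0 ≤ B * Real.exp (-(M * R ^ 2)) := by positivity
      rcases le_or_gt (P2 P v) (R ^ 2) with hv | hv
      · obtain ⟨n, s, hs, hn⟩ := hScov v hv
        obtain ⟨u, hu⟩ : ∃ u : Fin d → ℂ, u = fun j => (v j - gam P (fun l => (q : ℝ) * n l) j - s j) / C1 := ⟨_, rfl⟩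
        have hu1 : ∀ j, ‖u j‖ ≤ 1 := by
          intro j
          rw [hu]
          simp only []
          rw [norm_div, Complex.norm_real, Real.norm_eq_abs, abs_of_pos hC1p, div_le_one hC1p]
          exact hn j
        have hC1c : (C1 : ℂ) ≠ 0 := by exact_mod_cast hC1p.ne'
        have hvs : (fun j => s j + C1 * u j) + gam P (fun l => (q : ℝ) * n l) = v := by
          funext j
          rw [Pi.add_apply, hu]
          simp only []
          rw [mul_div_cancel₀ _ hC1c]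
          ring
        have h1 : Nn P M G v = Nn P M G (fun j => s j + C1 * u j) := by
          rw [← hper n (fun j => s j + C1 * u j), hvs]
        rw [h1]
        have h2 := c3_one P M C1 s G hG N ε hN0 hε hNle K hK
          (fun i => hSp _ (Finset.mem_image.mpr ⟨(s, i), by simp [hs], rfl⟩)) R' C4 hR'3
          (fun y hy => by
            refine (hQ _).trans ?_
            rw [hC4]
            have h3 : ‖(fun j => (C1 : ℂ) * y j)‖ ≤ C1 * R' := by
              rw [pi_norm_le_iff_of_nonneg (by positivity)]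
              intro j
              rw [norm_mul, Complex.norm_real, Real.norm_eq_abs, abs_of_pos hC1p]
              exact mul_le_mul_of_nonneg_left (hy j) hC1p.le
            gcongr) u hu1
        have h3 : (22 : ℝ) ^ (d * K) * (ε * Real.exp (M * C4)) = D1 ^ M * ε := by
          rw [hD1, hKdef, mul_pow, ← pow_mul, ← Real.exp_nat_mul]
          rw [show d * (C3 * M) = d * C3 * M by ring]
          ring
        have h4 : (d : ℝ) * 22 ^ (d * K) * (4 / (R' - 1)) ^ K * (N * Real.exp (M * C4)) ≤ N / 2 := by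
          have e1 : (4 : ℝ) / (R' - 1) = 1 / (4 * 22 ^ d) := by
            rw [hR']
            field_simp
            ring
          have e2 : (22 : ℝ) ^ (d * K) * (4 / (R' - 1)) ^ K = 1 / 4 ^ K := by
            rw [e1, pow_mul, ← mul_pow]
            rw [show (22 : ℝ) ^ d * (1 / (4 * 22 ^ d)) = 1 / 4 by field_simp]
            rw [one_div, inv_pow, one_div]
          have e3 : 2 * (d : ℝ) * Real.exp (M * C4) ≤ 4 ^ K := by
            have a1 : (4 : ℝ) ^ K = (4 ^ C3) ^ M := by rw [hKdef, pow_mul]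
            rw [a1]
            calc 2 * (d : ℝ) * Real.exp (M * C4) ≤ (2 * (d : ℝ)) ^ M * Real.exp (M * C4) := by
                  gcongr
                  exact le_self_pow₀ (by linarith) (by omega)
              _ = (2 * (d : ℝ) * Real.exp C4) ^ M := by rw [Real.exp_nat_mul, ← mul_pow]
              _ ≤ _ := by
                  gcongr
          have h4K : (0 : ℝ) < 4 ^ K := by positivity
          calc (d : ℝ) * 22 ^ (d * K) * (4 / (R' - 1)) ^ K * (N * Real.exp (M * C4))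
              = (d * Real.exp (M * C4)) * N * (22 ^ (d * K) * (4 / (R' - 1)) ^ K) := by ring
            _ = (d * Real.exp (M * C4)) * N * (1 / 4 ^ K) := by rw [e2]
            _ = (2 * (d * Real.exp (M * C4)) / 4 ^ K) * (N / 2) := by ring
            _ ≤ 1 * (N / 2) := by
                gcongr
                rw [div_le_one h4K]
                linarith
            _ = N / 2 := one_mul _
        rw [h3] at h2
        linarith
      · refine (hB v).trans ?_
        have h1 : B * Real.exp (-(M * P2 P v)) ≤ B * Real.exp (-(M * R ^ 2)) := by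
          gcongr
        linarith
    have hN2 : N ≤ D1 ^ M * ε + N / 2 + B * Real.exp (-(M * R ^ 2)) := by
      rw [hNdef]
      refine ciSup_le fun v => ?_
      rw [← hNdef]
      exact hmain v
    have hBe : 0 ≤ B * Real.exp (-(M * R ^ 2)) := by positivity
    have hDM : (1 : ℝ) ≤ D1 ^ M := one_le_pow₀ hD11
    have h2M : 2 * D1 ^ M ≤ (C1 * (C3 : ℝ) ^ d + 2 * D1) ^ M := by
      calc 2 * D1 ^ M ≤ 2 ^ M * D1 ^ M := by
            gcongr
            exact le_self_pow₀ (by norm_num) (by omega)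
        _ = (2 * D1) ^ M := by rw [mul_pow]
        _ ≤ _ := by
            gcongr
            linarith
    calc Nn P M G v ≤ N := hNle v
      _ ≤ 2 * (D1 ^ M * ε + B * Real.exp (-(M * R ^ 2))) := by linarith
      _ ≤ 2 * D1 ^ M * (ε + B * Real.exp (-(M * R ^ 2))) := by nlinarith
      _ ≤ _ := by
          gcongr

end Pool.Agent.MSK
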