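import Pool.Agent.Lib.MP_f58a57_nt.K.Defs
import Pool.Agent.Lib.MP_f58a57_nt.K.C2_Geo
import Pool.Agent.Lib.MP_f58a57_nt.P.T4_Shift

/-! # K/C4_Shift: the original curve: periodicity -/

open Complex

noncomputable section

namespace Pool.Agent.MSK

open MSD MSP

variable {d : ℕ}

theorem c4_tele (z : ℂ) (d : ℕ) : ∑ j : Fin d, z ^ (j.val + 1) * ((1 - z) / 2) = (z - z ^ (d + 1)) / 2 := by
  induction d with
  | zero => simp
  | succ d ih =>
    rw [Fin.sum_univ_castSucc]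
    simp only [Fin.val_castSucc, Fin.val_last]
    rw [ih]
    ring

/-- C4a. PROOF. `hP` satisfies `∑ z^l hP_l = 0` (telescoping: `-z/2 + ∑_{1≤l<d} z^l (1-z)/2 + z^d/2 = 0`). -/
theorem tt_p0 (z : ℂ) (hd : 1 ≤ d) (l : Fin (d + 1)) : tt z (p0 z) l = hP z l := by
  refine Fin.cases ?_ (fun j => ?_) l
  · obtain ⟨e, rfl⟩ : ∃ e, d = e + 1 := ⟨d - 1, by omega⟩
    simp only [tt, Fin.cons_zero]
    rw [Fin.sum_univ_castSucc]
    have h1 : ∀ j : Fin e, z ^ ((Fin.castSucc j).val + 1) * p0 (d := e + 1) z (Fin.castSucc j) =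
        z ^ (j.val + 1) * ((1 - z) / 2) := by
      intro j
      have h2 : (Fin.castSucc j).succ ≠ Fin.last (e + 1) := by
        intro h
        have h3 := congrArg Fin.val h
        simp only [Fin.val_succ, Fin.val_castSucc, Fin.val_last] at h3
        have := j.isLt
        omega
      simp only [p0, hP, if_neg (Fin.succ_ne_zero _), if_neg h2, Fin.val_castSucc]
    have h4 : z ^ ((Fin.last e).val + 1) * p0 (d := e + 1) z (Fin.last e) = z ^ (e + 1) * (1 / 2) := by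
      have h5 : (Fin.last e).succ = Fin.last (e + 1) := rfl
      have h6 : Fin.last (e + 1) ≠ 0 := by
        rw [← h5]
        exact Fin.succ_ne_zero _
      simp only [p0, hP, h5, if_neg h6, if_true, Fin.val_last]
    rw [Finset.sum_congr rfl fun j _ => h1 j, h4, c4_tele]
    simp only [hP, if_true]
    ring
  · simp only [tt, Fin.cons_succ, p0]

theorem c4_tt_sub (z : ℂ) (v w : Fin d → ℂ) (l : Fin (d + 1)) :
    tt z (fun j => v j - w j) l = tt z v l - tt z w l := by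
  refine Fin.cases ?_ (fun j => ?_) l
  · simp only [tt, Fin.cons_zero, mul_sub, Finset.sum_sub_distrib]
    ring
  · simp only [tt, Fin.cons_succ]

theorem c4_tt_add (z : ℂ) (v w : Fin d → ℂ) (l : Fin (d + 1)) :
    tt z (v + w) l = tt z v l + tt z w l := by
  refine Fin.cases ?_ (fun j => ?_) l
  · simp only [tt, Fin.cons_zero, Pi.add_apply, mul_add, Finset.sum_add_distrib, neg_add]
  · simp only [tt, Fin.cons_succ, Pi.add_apply]

/-- C4b. `h l + tt (v - p0) l = tt v l` -/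
theorem hP_add (z : ℂ) (hd : 1 ≤ d) (v : Fin d → ℂ) (l : Fin (d + 1)) : hP z l + tt z (fun j => v j - p0 z j) l = tt z v l := by
  rw [c4_tt_sub, tt_p0 z hd]
  ring

/-- the shift of the functions of one variable -/
structure C4Sh (P : Par d) (D : Dt d) (t t' : Fin (d + 1) → ℂ) (a : Fin (d + 1) → ℂ) (N : Fin (d + 1) → ℤ) : Prop where
  n0 : ∀ l, N0 D.τ (D.h l + t' l) = a l * N0 D.τ (D.h l + t l)
  n1 : ∀ l, N1 D.τ (D.h l + t' l) = a l * (N1 D.τ (D.h l + t l) - 2 * Real.pi * I * N l * N0 D.τ (D.h l + t l))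
  n2 : ∀ l, N2 D.τ (sE D.τ) (D.h l + t' l) = a l ^ 2 * N2 D.τ (sE D.τ) (D.h l + t l)

theorem C4Sh.pp_eq {P : Par d} {D : Dt d} {t t' a : Fin (d + 1) → ℂ} {N : Fin (d + 1) → ℤ} (h : C4Sh P D t t' a N) :
    pp D t' = (∏ l, a l) * pp D t := by
  unfold pp
  rw [← Finset.prod_mul_distrib]
  exact Finset.prod_congr rfl fun l _ => h.n0 l

theorem C4Sh.En_eq {P : Par d} {D : Dt d} {t t' a : Fin (d + 1) → ℂ} {N : Fin (d + 1) → ℤ} (h : C4Sh P D t t' a N)
    (l : Fin (d + 1)) : En D t' l = (∏ l, a l) * (En D t l - 2 * Real.pi * I * N l * pp D t) := by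
  have h1 : ∏ m ∈ Finset.univ.erase l, N0 D.τ (D.h m + t' m) =
      (∏ m ∈ Finset.univ.erase l, a m) * ∏ m ∈ Finset.univ.erase l, N0 D.τ (D.h m + t m) := by
    rw [← Finset.prod_mul_distrib]
    exact Finset.prod_congr rfl fun l _ => h.n0 l
  have h2 : a l * ∏ m ∈ Finset.univ.erase l, a m = ∏ m, a m := Finset.mul_prod_erase _ _ (Finset.mem_univ l)
  have h3 : N0 D.τ (D.h l + t l) * ∏ m ∈ Finset.univ.erase l, N0 D.τ (D.h m + t m) = pp D t :=
    Finset.mul_prod_erase Finset.univ (fun m => N0 D.τ (D.h m + t m)) (Finset.mem_univ l)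
  unfold En
  rw [h1, h.n1, h.n0, ← h2, ← h3]
  ring

theorem C4Sh.Zn_eq {P : Par d} {D : Dt d} {t t' a : Fin (d + 1) → ℂ} {N : Fin (d + 1) → ℤ} (h : C4Sh P D t t' a N)
    (hs : D.s = 0) (hom : D.om ^ 2 = Real.pi) {w w' : Fin d → ℂ} (j : Fin d)
    (hw : w' j = w j - (N j.castSucc + P.b j.succ * N (Fin.last d)) + N j.succ * P.z) :
    Zn P D w' t' j = (∏ l, a l) * Zn P D w t j := by
  have hAs : ∀ u : Fin d → ℂ, As P D.s u j = u j := by
    intro u
    unfold As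
    rw [hs, zero_mul, add_zero]
    simp only [tt, Fin.cons_succ]
  have hne := D.ne
  have hpi : (Real.pi : ℂ) / D.om = D.om := by
    rw [← hom]
    field_simp
  unfold Zn
  rw [hAs, hAs, h.En_eq, h.En_eq, h.En_eq, h.pp_eq, hw]
  have hI : (I : ℂ) * I = -1 := Complex.I_mul_I
  have e1 : rh / D.om * (2 * Real.pi * I) = D.om := by
    unfold rh
    have : -I / 2 / D.om * (2 * (Real.pi : ℂ) * I) = -(I * I) * (Real.pi / D.om) := by
      field_simp
    rw [this, hI, hpi]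
    ring
  have e2 : ∀ A x0 y0 E1 E2 E3 n1 n2 n3 b zz pq : ℂ,
      D.om * (x0 - (n1 + b * n2) + n3 * zz) * (A * pq) - rh / D.om *
        (A * (E1 - 2 * Real.pi * I * n1 * pq) + b * (A * (E2 - 2 * Real.pi * I * n2 * pq)) -
          zz * (A * (E3 - 2 * Real.pi * I * n3 * pq))) =
      A * (D.om * x0 * pq - rh / D.om * (E1 + b * E2 - zz * E3)) +
        (rh / D.om * (2 * Real.pi * I) - D.om) * (A * pq * (n1 + b * n2 - zz * n3)) := by
    intro A x0 y0 E1 E2 E3 n1 n2 n3 b zz pq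
    ring
  rw [e2 (∏ l, a l) (w j) 0, e1, sub_self, zero_mul, add_zero]

theorem C4Sh.gmon_eq {P : Par d} {D : Dt d} {t t' a : Fin (d + 1) → ℂ} {N : Fin (d + 1) → ℤ} (h : C4Sh P D t t' a N)
    (hs : D.s = 0) (hom : D.om ^ 2 = Real.pi) {w w' : Fin d → ℂ}
    (hw : ∀ j : Fin d, w' j = w j - (N j.castSucc + P.b j.succ * N (Fin.last d)) + N j.succ * P.z)
    {L : ℕ} (ν : Ix d L) : gmon P D ν w' t' = (∏ l, a l) ^ ((d + 2) * L) * gmon P D ν w t := by
  have h1 : ∏ l, ((N2 D.τ (sE D.τ) (D.h l + t' l) / D.om ^ 2) ^ (ν.1 l).val * N0 D.τ (D.h l + t' l) ^ (2 * (L - (ν.1 l).val))) =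
      (∏ l, a l) ^ (2 * L) *
      ∏ l, ((N2 D.τ (sE D.τ) (D.h l + t l) / D.om ^ 2) ^ (ν.1 l).val * N0 D.τ (D.h l + t l) ^ (2 * (L - (ν.1 l).val))) := by
    rw [← Finset.prod_pow, ← Finset.prod_mul_distrib]
    refine Finset.prod_congr rfl fun l _ => ?_
    rw [h.n0, h.n2, mul_pow, mul_div_assoc, mul_pow, ← pow_mul]
    have e : 2 * L = 2 * (ν.1 l).val + 2 * (L - (ν.1 l).val) := by
      have := (ν.1 l).isLt
      omega
    rw [e, pow_add]
    ring
  have h2 : ∏ j, (Zn P D w' t' j ^ (ν.2 j).val * pp D t' ^ (L - (ν.2 j).val)) =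
      (∏ l, a l) ^ (d * L) * ∏ j, (Zn P D w t j ^ (ν.2 j).val * pp D t ^ (L - (ν.2 j).val)) := by
    have e : (∏ l, a l) ^ (d * L) = ∏ _j : Fin d, (∏ l, a l) ^ L := by
      rw [Finset.prod_const, Finset.card_univ, Fintype.card_fin, ← pow_mul, mul_comm]
    rw [e, ← Finset.prod_mul_distrib]
    refine Finset.prod_congr rfl fun j _ => ?_
    rw [h.Zn_eq hs hom j (hw j), h.pp_eq, mul_pow, mul_pow]
    have e2 : (∏ l, a l) ^ L = (∏ l, a l) ^ (ν.2 j).val * (∏ l, a l) ^ (L - (ν.2 j).val) := by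
      rw [← pow_add]
      congr 1
      have := (ν.2 j).isLt
      omega
    rw [e2]
    ring
  unfold gmon
  rw [h1, h2, add_mul, pow_add]
  ring

/-- C4c. PROOF. Let `N_l = q n_l ∈ ℤ`, `m_l = mm b N l ∈ ℤ`, `t = tt z v`, `t' = tt z (v + gam N) = t_l + m_l + N_l z` (`tt_gam`). By `N0_shift, N1_shift, N2_shift` with `au_l = au z m_l N_l t_l` (`τ = z`): `N0' = au_l N0`,
`N1' = au_l (N1 - 2πi N_l N0)`, `N2' = au_l² N2`. So `pp' = (∏ au) pp`, `En'_l = (∏ au)(En_l - 2πi N_l pp)`; as `kap = sE/om²`, `D.s = 0` and `As P 0 w j = w_j`: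
`Zn'_j = (∏ au) (Zn_j + pp (om γ_j + (rh/om) 2πi (N_{j-1} + b_j N_d - z N_j)))`, `γ_j = m_j + N_j z`, `m_j = -N_{j-1} - b_j N_d`, and `(rh/om) 2πi = π/om = om`: the bracket is `0`. So `gmon' = (∏ au)^((d+2)L) gmon`. Finally
`‖au_l‖ = exp(π N_l² Im z + 2π N_l Im t_l)` (`norm_au`) `= exp(π ((Im t'_l)² - (Im t_l)²)/Im z)` and `P2` is invariant (`ro_add, ro_gam`). -/
theorem Nn_shift (P : Par d) (hd : 2 ≤ d) (D : Dt d) (hD : IsOrig P D) (q : ℕ) (hq : ∀ l, ∃ m : ℤ, (q : ℚ) * P.b l = m) {L : ℕ} (c : Ix d L → ℂ)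
    (n : Fin (d + 1) → ℤ) (v : Fin d → ℂ) :
    Nn P ((d + 2) * L) (Gab P D c) (v + gam P (fun l => (q : ℝ) * n l)) = Nn P ((d + 2) * L) (Gab P D c) v := by
  choose β hβ using hq
  have hβR : ∀ l, (P.b l : ℝ) * q = β l := by
    intro l
    have h := congrArg (fun x : ℚ => (x : ℝ)) (hβ l)
    push_cast at h
    linarith
  -- the integer vectors
  obtain ⟨N, hN⟩ : ∃ N : Fin (d + 1) → ℤ, N = fun l => (q : ℤ) * n l := ⟨_, rfl⟩
  obtain ⟨m, hm⟩ : ∃ m : Fin (d + 1) → ℤ, ∀ l, mm P.b (fun l => (q : ℝ) * n l) l = (m l : ℝ) := by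
    refine ⟨Fin.cons (-β 0 * n (Fin.last d)) (fun j => -(q * n j.castSucc) - β j.succ * n (Fin.last d)), fun l => ?_⟩
    refine Fin.cases ?_ (fun j => ?_) l
    · simp only [mm, Fin.cons_zero]
      push_cast
      rw [← hβR 0]
      ring
    · simp only [mm, Fin.cons_succ]
      push_cast
      rw [← hβR j.succ]
      ring
  obtain ⟨g, hg⟩ : ∃ g : Fin d → ℂ, g = gam P (fun l => (q : ℝ) * n l) := ⟨_, rfl⟩
  have htg : ∀ l, tt P.z g l = m l + N l * P.z := by
    intro l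
    rw [hg, tt_gam, hm l, hN]
    push_cast
    ring
  rw [← hg]
  obtain ⟨t, ht⟩ : ∃ t : Fin (d + 1) → ℂ, t = tt P.z v := ⟨_, rfl⟩
  have ht' : ∀ l, tt P.z (v + g) l = t l + m l + N l * P.z := by
    intro l
    rw [c4_tt_add, htg, ht]
    ring
  have hz : 0 < P.z.im := P.im
  have hd1 : 1 ≤ d := by omega
  have harg : ∀ (u : Fin d → ℂ) (l : Fin (d + 1)), D.h l + tt P.z (fun j => u j - p0 P.z j) l = tt P.z u l := by
    intro u l
    rw [hD.h]
    exact hP_add P.z hd1 u l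
  have hSh : C4Sh P D (tt P.z (fun j => v j - p0 P.z j)) (tt P.z (fun j => (v + g) j - p0 P.z j))
      (fun l => au P.z (m l) (N l) (t l)) N := by
    refine ⟨fun l => ?_, fun l => ?_, fun l => ?_⟩
    · rw [harg, harg, ht', hD.τ, ← ht]
      exact N0_shift P.z hz (m l) (N l) (t l)
    · rw [harg, harg, ht', hD.τ, ← ht]
      exact N1_shift P.z hz (m l) (N l) (t l)
    · rw [harg, harg, ht', hD.τ, ← ht]
      exact N2_shift P.z (sE P.z) hz (m l) (N l) (t l)
  have hs : D.s = 0 := by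
    unfold Dt.s
    rw [hD.kap, hD.om, hD.τ, sub_self, mul_zero]
  have hw : ∀ j : Fin d, (fun j => (v + g) j - p0 P.z j) j = (fun j => v j - p0 P.z j) j -
      (N j.castSucc + P.b j.succ * N (Fin.last d)) + N j.succ * P.z := by
    intro j
    have h1 : g j = m j.succ + N j.succ * P.z := by
      have h2 := htg j.succ
      simp only [tt, Fin.cons_succ] at h2
      exact h2
    have h3 : ((m j.succ : ℤ) : ℂ) = -(N j.castSucc + P.b j.succ * N (Fin.last d)) := by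
      have h4 := hm j.succ
      simp only [mm, Fin.cons_succ] at h4
      have h5 := congrArg (fun x : ℝ => (x : ℂ)) h4
      push_cast at h5
      rw [← h5, hN]
      push_cast
      ring
    simp only [Pi.add_apply]
    rw [h1, h3]
    ring
  have hG : Gab P D c (v + g) = (∏ l, au P.z (m l) (N l) (t l)) ^ ((d + 2) * L) * Gab P D c v := by
    unfold Gab
    rw [Finset.mul_sum]
    refine Finset.sum_congr rfl fun ν _ => ?_
    rw [hSh.gmon_eq hs hD.om hw ν]
    ring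
  -- the exponents
  have hnorm : ‖∏ l, au P.z (m l) (N l) (t l)‖ = Real.exp (∑ l, (Real.pi * (N l : ℝ) ^ 2 * P.z.im + 2 * Real.pi * N l * (t l).im)) := by
    rw [norm_prod, Real.exp_sum]
    exact Finset.prod_congr rfl fun l _ => norm_au P.z (m l) (N l) (t l)
  have hP2 : P2 P (v + g) = P2 P v := by
    unfold P2
    refine Finset.sum_congr rfl fun l _ => ?_
    rw [ro_add, hg, ro_gam, add_zero]
  have hQ : Qf P (v + g) = Qf P v + ∑ l, (Real.pi * (N l : ℝ) ^ 2 * P.z.im + 2 * Real.pi * N l * (t l).im) := by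
    unfold Qf
    rw [hP2]
    have h1 : ∑ l, (tt P.z (v + g) l).im ^ 2 / P.z.im = ∑ l, (tt P.z v l).im ^ 2 / P.z.im +
        ∑ l, ((N l : ℝ) ^ 2 * P.z.im + 2 * N l * (t l).im) := by
      rw [← Finset.sum_add_distrib]
      refine Finset.sum_congr rfl fun l _ => ?_
      have h2 : (tt P.z (v + g) l).im = (t l).im + N l * P.z.im := by
        rw [ht' l]
        simp [Complex.add_im, Complex.mul_im]
      rw [h2, ← ht]
      field_simp
      ring
    rw [h1]
    have h3 : ∑ l, (Real.pi * (N l : ℝ) ^ 2 * P.z.im + 2 * Real.pi * N l * (t l).im) =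
        Real.pi * ∑ l, ((N l : ℝ) ^ 2 * P.z.im + 2 * N l * (t l).im) := by
      rw [Finset.mul_sum]
      refine Finset.sum_congr rfl fun l _ => ?_
      ring
    rw [h3]
    ring
  unfold Nn
  rw [hG, norm_mul, norm_pow, hnorm, hQ, ← Real.exp_nat_mul, mul_comm (Real.exp _) ‖Gab P D c v‖, mul_assoc, ← Real.exp_add]
  congr 2
  ring

end Pool.Agent.MSK
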