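import Pool.Agent.Lib.MP_f58a57_nt.K.Defs
import Pool.Agent.Lib.MP_f58a57_nt.K.C4_Shift
import Pool.Agent.Lib.MP_f58a57_nt.P.T5_Growth

/-! # K/C4b_Bound: the original curve: growth -/

open Complex

noncomputable section

namespace Pool.Agent.MSK

open MSD MSP

variable {d : ℕ}

lemma c4b_P2_nonneg (P : Par d) (v : Fin d → ℂ) : 0 ≤ P2 P v := by
  unfold P2
  refine Finset.sum_nonneg fun l _ => ?_
  split_ifs
  · positivity
  · exact le_rfl

lemma c4b_Gab (P : Par d) (D : Dt d) {L : ℕ} (ν : Ix d L) (v : Fin d → ℂ) :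
    Gab P D (Pi.single ν 1) v = gmon P D ν (fun j => v j - p0 P.z j) (tt P.z (fun j => v j - p0 P.z j)) := by
  unfold Gab
  rw [Finset.sum_eq_single ν]
  · simp
  · intro b _ hb
    simp [hb]
  · intro h
    exact absurd (Finset.mem_univ _) h

lemma c4b_den (P : Par d) : ∃ q : ℕ, 0 < q ∧ ∀ l, ∃ m : ℤ, (q : ℚ) * P.b l = m := by
  refine ⟨∏ l, (P.b l).den, Finset.prod_pos fun l _ => (P.b l).den_pos, fun l => ?_⟩
  obtain ⟨k, hk⟩ : (P.b l).den ∣ ∏ l, (P.b l).den := Finset.dvd_prod_of_mem _ (Finset.mem_univ l)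
  refine ⟨k * (P.b l).num, ?_⟩
  rw [hk]
  push_cast
  have h1 : ((P.b l).den : ℚ) * P.b l = (P.b l).num := Rat.den_mul_eq_num (P.b l)
  calc ((P.b l).den : ℚ) * k * P.b l = k * (((P.b l).den : ℚ) * P.b l) := by ring
    _ = _ := by rw [h1]

/-- reduction to a bounded domain of the coordinates `nn` -/
lemma c4b_red (P : Par d) (hd : 2 ≤ d) (D : Dt d) (hD : IsOrig P D) (q : ℕ) (hq0 : 0 < q)
    (hq : ∀ l, ∃ m : ℤ, (q : ℚ) * P.b l = m) {L : ℕ} (c : Ix d L → ℂ) (v : Fin d → ℂ) :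
    ∃ v' : Fin d → ℂ, (∀ l, 0 ≤ nn P v' l ∧ nn P v' l ≤ q) ∧ P2 P v' = P2 P v ∧
      Nn P ((d + 2) * L) (Gab P D c) v' = Nn P ((d + 2) * L) (Gab P D c) v := by
  set n : Fin (d + 1) → ℤ := fun l => -⌊nn P v l / q⌋ with hn
  refine ⟨v + gam P (fun l => (q : ℝ) * n l), ?_, ?_, Nn_shift P hd D hD q hq c n v⟩
  · intro l
    have hq' : (0 : ℝ) < q := by exact_mod_cast hq0
    have h1 : nn P (v + gam P (fun l => (q : ℝ) * n l)) l = nn P v l + q * n l := by
      rw [nn_add, nn_gam]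
      rfl
    have h2 : (⌊nn P v l / q⌋ : ℝ) ≤ nn P v l / q := Int.floor_le _
    have h3 : nn P v l / q < ⌊nn P v l / q⌋ + 1 := Int.lt_floor_add_one _
    have h4 : (n l : ℝ) = -(⌊nn P v l / q⌋ : ℝ) := by
      rw [hn]
      push_cast
      ring
    rw [h1, h4]
    rw [le_div_iff₀ hq'] at h2
    rw [div_lt_iff₀ hq'] at h3
    constructor <;> nlinarith
  · unfold P2
    rw [ro_add, ro_gam, add_zero]

lemma c4b_s (P : Par d) (D : Dt d) (hD : IsOrig P D) : D.s = 0 := by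
  unfold Dt.s
  rw [hD.kap, hD.τ, hD.om]
  simp

lemma c4b_mm (P : Par d) (q : ℕ) : ∃ C : ℝ, 1 ≤ C ∧ ∀ n : Fin (d + 1) → ℝ, (∀ l, 0 ≤ n l ∧ n l ≤ q) → ∀ l, |mm P.b n l| ≤ C := by
  refine ⟨1 + q + q * ∑ l, |(P.b l : ℝ)|, ?_, ?_⟩
  · have : 0 ≤ ∑ l, |(P.b l : ℝ)| := Finset.sum_nonneg fun l _ => abs_nonneg _
    have hq : (0 : ℝ) ≤ q := Nat.cast_nonneg _
    have := mul_nonneg hq this
    linarith
  · intro n hn l
    have hq : (0 : ℝ) ≤ q := Nat.cast_nonneg _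
    have hb : ∀ l, |(P.b l : ℝ)| ≤ ∑ l, |(P.b l : ℝ)| := fun l =>
      Finset.single_le_sum (f := fun l => |(P.b l : ℝ)|) (fun i _ => abs_nonneg _) (Finset.mem_univ l)
    have ha : ∀ l, |n l| ≤ q := fun l => by
      rw [abs_of_nonneg (hn l).1]
      exact (hn l).2
    have hab : ∀ l m, |(P.b l : ℝ) * n m| ≤ q * ∑ l, |(P.b l : ℝ)| := fun l m => by
      rw [abs_mul, mul_comm]
      exact mul_le_mul (ha m) (hb l) (abs_nonneg _) hq
    refine Fin.cases ?_ (fun j => ?_) l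
    · have h1 : mm P.b n 0 = -((P.b 0 : ℝ) * n (Fin.last d)) := by
        simp [mm]
      rw [h1, abs_neg]
      have := hab 0 (Fin.last d)
      linarith
    · have h1 : mm P.b n j.succ = -n j.castSucc - (P.b j.succ : ℝ) * n (Fin.last d) := by
        simp [mm]
      rw [h1]
      have h2 := hab j.succ (Fin.last d)
      have h3 := ha j.castSucc
      have h4 : |-n j.castSucc - (P.b j.succ : ℝ) * n (Fin.last d)| ≤ |n j.castSucc| + |(P.b j.succ : ℝ) * n (Fin.last d)| := by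
        have := abs_sub (-n j.castSucc) ((P.b j.succ : ℝ) * n (Fin.last d))
        rwa [abs_neg] at this
      linarith

/-- bound of the coordinates in the reduced domain -/
lemma c4b_tt (P : Par d) (hd : 2 ≤ d) (q : ℕ) : ∃ C : ℝ, 1 ≤ C ∧ ∀ v : Fin d → ℂ, (∀ l, 0 ≤ nn P v l ∧ nn P v l ≤ q) →
    ∀ l, ‖tt P.z v l‖ ≤ C * (1 + Real.sqrt (P2 P v)) := by
  obtain ⟨C1, hC1, h1⟩ := c4b_mm P q
  obtain ⟨C2, hC2, h2⟩ := ro_bound P hd
  refine ⟨C1 + q * ‖P.z‖ + C2, ?_, ?_⟩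
  · have : 0 ≤ (q : ℝ) * ‖P.z‖ := by positivity
    linarith
  · intro v hv l
    have hs : 0 ≤ Real.sqrt (P2 P v) := Real.sqrt_nonneg _
    rw [decomp P v l, tt_gam]
    have ha := h1 (nn P v) hv l
    have hb := h2 v l
    have hc : ‖(nn P v l : ℂ) * P.z‖ ≤ q * ‖P.z‖ := by
      rw [norm_mul, Complex.norm_real, Real.norm_eq_abs, abs_of_nonneg (hv l).1]
      exact mul_le_mul_of_nonneg_right (hv l).2 (norm_nonneg _)
    have hd' : ‖((mm P.b (nn P v) l : ℝ) : ℂ)‖ ≤ C1 := by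
      rw [Complex.norm_real, Real.norm_eq_abs]
      exact ha
    have he : ‖((ro P v l : ℝ) : ℂ)‖ ≤ C2 * Real.sqrt (P2 P v) := by
      rw [Complex.norm_real, Real.norm_eq_abs]
      exact hb
    have h3 : ‖((mm P.b (nn P v) l : ℝ) : ℂ) + (nn P v l : ℂ) * P.z + (ro P v l : ℂ)‖ ≤ C1 + q * ‖P.z‖ + C2 * Real.sqrt (P2 P v) :=
      (norm_add_le _ _).trans (add_le_add ((norm_add_le _ _).trans (add_le_add hd' hc)) he)
    refine h3.trans ?_
    have h4 : 0 ≤ (q : ℝ) * ‖P.z‖ := by positivity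
    have h5 : (C1 + q * ‖P.z‖ + C2) * (1 + Real.sqrt (P2 P v)) =
        (C1 + q * ‖P.z‖) * (1 + Real.sqrt (P2 P v)) + C2 * (1 + Real.sqrt (P2 P v)) := add_mul _ _ _
    rw [h5]
    exact add_le_add (le_mul_of_one_le_right (add_nonneg (zero_le_one.trans hC1) h4) (le_add_of_nonneg_right hs))
      (mul_le_mul_of_nonneg_left (le_add_of_nonneg_left zero_le_one) (zero_le_one.trans hC2))

/-- the bounds of the factors of `gmon` -/
lemma c4b_fac (P : Par d) (hd : 2 ≤ d) (D : Dt d) (hD : IsOrig P D) (q : ℕ) : ∃ C : ℝ, 1 ≤ C ∧ ∀ v : Fin d → ℂ,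
    (∀ l, 0 ≤ nn P v l ∧ nn P v l ≤ q) →
    (∀ l, ‖N2 D.τ (sE D.τ) (D.h l + tt P.z (fun j => v j - p0 P.z j) l) / D.om ^ 2‖ ≤ C) ∧
    (∀ l, ‖N0 D.τ (D.h l + tt P.z (fun j => v j - p0 P.z j) l) ^ 2‖ ≤ C) ∧
    ‖pp D (tt P.z (fun j => v j - p0 P.z j))‖ ≤ C ∧
    ∀ j, ‖Zn P D (fun j => v j - p0 P.z j) (tt P.z (fun j => v j - p0 P.z j)) j‖ ≤ C * (1 + Real.sqrt (P2 P v)) := by
  obtain ⟨G, hG, hgr⟩ := growth D.τ (sE D.τ) D.im
  obtain ⟨T, hT, htt⟩ := c4b_tt P hd q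
  set B : ℝ := Real.exp (G * (1 + (q * P.z.im) ^ 2)) with hB
  have hB1 : 1 ≤ B := Real.one_le_exp (by positivity)
  set E : ℝ := (B + (∑ l, ‖ph D.τ (D.h l)‖) * B) * B ^ d with hE
  have hE0 : 0 ≤ E := by positivity
  set S : ℝ := ∑ l, ‖(P.b l : ℂ)‖ with hS
  have hS0 : 0 ≤ S := by positivity
  set p : ℝ := ∑ j : Fin d, ‖p0 P.z j‖ with hp
  have hp0 : 0 ≤ p := by positivity
  set Z : ℝ := ‖D.om‖ * (T + p) * B ^ (d + 1) + ‖rh / D.om‖ * (E + S * E + ‖P.z‖ * E) with hZ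
  have hZ0 : 0 ≤ Z := by positivity
  have hom : 0 < ‖D.om ^ 2‖ := norm_pos_iff.mpr (pow_ne_zero 2 D.ne)
  refine ⟨1 + B / ‖D.om ^ 2‖ + B ^ 2 + B ^ (d + 1) + Z, ?_, ?_⟩
  · have h1 : 0 ≤ B / ‖D.om ^ 2‖ := by positivity
    have h2 : 0 ≤ B ^ 2 := by positivity
    have h3 : 0 ≤ B ^ (d + 1) := by positivity
    linarith
  intro v hv
  have hz : D.τ = P.z := hD.τ
  have him : 0 < P.z.im := by
    rw [← hz]
    exact D.im
  have hpt : ∀ l, D.h l + tt P.z (fun j => v j - p0 P.z j) l = tt P.z v l := by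
    intro l
    rw [hD.h]
    exact hP_add P.z (by omega) v l
  have hI : ∀ l, G * (1 + (tt P.z v l).im ^ 2) ≤ G * (1 + (q * P.z.im) ^ 2) := by
    intro l
    have h1 : (tt P.z v l).im = nn P v l * P.z.im := by
      unfold nn
      field_simp
    have h2 : (tt P.z v l).im ^ 2 ≤ (q * P.z.im) ^ 2 := by
      rw [h1]
      have h3 := (hv l).1
      have h4 := (hv l).2
      exact pow_le_pow_left₀ (by positivity) (mul_le_mul_of_nonneg_right h4 him.le) 2
    exact mul_le_mul_of_nonneg_left (by linarith) hG.le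
  have hN0 : ∀ l, ‖N0 D.τ (D.h l + tt P.z (fun j => v j - p0 P.z j) l)‖ ≤ B := fun l => by
    rw [hpt]
    exact (hgr _).1.trans (Real.exp_le_exp.mpr (hI l))
  have hN1 : ∀ l, ‖N1 D.τ (D.h l + tt P.z (fun j => v j - p0 P.z j) l)‖ ≤ B := fun l => by
    rw [hpt]
    exact (hgr _).2.1.trans (Real.exp_le_exp.mpr (hI l))
  have hN2 : ∀ l, ‖N2 D.τ (sE D.τ) (D.h l + tt P.z (fun j => v j - p0 P.z j) l)‖ ≤ B := fun l => by
    rw [hpt]
    exact (hgr _).2.2.trans (Real.exp_le_exp.mpr (hI l))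
  have hpp : ‖pp D (tt P.z (fun j => v j - p0 P.z j))‖ ≤ B ^ (d + 1) := by
    unfold pp
    rw [norm_prod]
    calc ∏ l, ‖N0 D.τ (D.h l + tt P.z (fun j => v j - p0 P.z j) l)‖ ≤ ∏ _l : Fin (d + 1), B :=
          Finset.prod_le_prod (fun _ _ => norm_nonneg _) fun l _ => hN0 l
      _ = B ^ (d + 1) := by simp
  have hEn : ∀ l, ‖En D (tt P.z (fun j => v j - p0 P.z j)) l‖ ≤ E := by
    intro l
    unfold En
    rw [norm_mul, norm_prod, hE]
    have h1 : ∏ m ∈ Finset.univ.erase l, ‖N0 D.τ (D.h m + tt P.z (fun j => v j - p0 P.z j) m)‖ ≤ B ^ d := by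
      calc ∏ m ∈ Finset.univ.erase l, ‖N0 D.τ (D.h m + tt P.z (fun j => v j - p0 P.z j) m)‖
          ≤ ∏ _m ∈ Finset.univ.erase l, B := Finset.prod_le_prod (fun _ _ => norm_nonneg _) fun m _ => hN0 m
        _ = B ^ d := by simp
    have h2 : ‖ph D.τ (D.h l)‖ ≤ ∑ l, ‖ph D.τ (D.h l)‖ :=
      Finset.single_le_sum (f := fun l => ‖ph D.τ (D.h l)‖) (fun i _ => norm_nonneg _) (Finset.mem_univ l)
    have h3 : ‖N1 D.τ (D.h l + tt P.z (fun j => v j - p0 P.z j) l) - ph D.τ (D.h l) * N0 D.τ (D.h l + tt P.z (fun j => v j - p0 P.z j) l)‖ ≤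
        B + (∑ l, ‖ph D.τ (D.h l)‖) * B := by
      refine (norm_sub_le _ _).trans (add_le_add (hN1 l) ?_)
      rw [norm_mul]
      exact mul_le_mul h2 (hN0 l) (norm_nonneg _) (Finset.sum_nonneg fun _ _ => norm_nonneg _)
    exact mul_le_mul h3 h1 (Finset.prod_nonneg fun _ _ => norm_nonneg _) (by positivity)
  have e1 : 0 ≤ B / ‖D.om ^ 2‖ := by positivity
  have e2 : 0 ≤ B ^ 2 := by positivity
  have e3 : 0 ≤ B ^ (d + 1) := by positivity
  refine ⟨?_, ?_, ?_, ?_⟩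
  · intro l
    rw [norm_div]
    have := div_le_div_of_nonneg_right (hN2 l) hom.le
    linarith
  · intro l
    rw [norm_pow]
    have := pow_le_pow_left₀ (norm_nonneg _) (hN0 l) 2
    linarith
  · linarith
  · intro j
    have hs : 0 ≤ Real.sqrt (P2 P v) := Real.sqrt_nonneg _
    have hbj : ‖(P.b j.succ : ℂ)‖ ≤ S :=
      Finset.single_le_sum (f := fun l => ‖(P.b l : ℂ)‖) (fun i _ => norm_nonneg _) (Finset.mem_univ _)
    have hpj : ‖p0 P.z j‖ ≤ p :=
      Finset.single_le_sum (f := fun l => ‖p0 P.z l‖) (fun i _ => norm_nonneg _) (Finset.mem_univ _)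
    have hvj : ‖v j‖ ≤ T * (1 + Real.sqrt (P2 P v)) := by
      have := htt v hv j.succ
      have h1 : tt P.z v j.succ = v j := by simp [tt]
      rwa [h1] at this
    have hAs : As P D.s (fun j => v j - p0 P.z j) j = v j - p0 P.z j := by
      unfold As
      rw [c4b_s P D hD]
      simp [tt]
    have hA : ‖As P D.s (fun j => v j - p0 P.z j) j‖ ≤ (T + p) * (1 + Real.sqrt (P2 P v)) := by
      rw [hAs]
      refine (norm_sub_le _ _).trans ((add_le_add hvj hpj).trans ?_)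
      rw [add_mul]
      exact add_le_add le_rfl (le_mul_of_one_le_right hp0 (le_add_of_nonneg_right hs))
    unfold Zn
    have h1 : ‖D.om * As P D.s (fun j => v j - p0 P.z j) j * pp D (tt P.z (fun j => v j - p0 P.z j))‖ ≤
        ‖D.om‖ * (T + p) * B ^ (d + 1) * (1 + Real.sqrt (P2 P v)) := by
      rw [norm_mul, norm_mul]
      calc ‖D.om‖ * ‖As P D.s (fun j => v j - p0 P.z j) j‖ * ‖pp D (tt P.z (fun j => v j - p0 P.z j))‖
          ≤ ‖D.om‖ * ((T + p) * (1 + Real.sqrt (P2 P v))) * B ^ (d + 1) := by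
            refine mul_le_mul (mul_le_mul_of_nonneg_left hA (norm_nonneg _)) hpp (norm_nonneg _) ?_
            have : 0 ≤ T + p := by linarith
            positivity
        _ = _ := by ring
    have h2 : ‖rh / D.om * (En D (tt P.z (fun j => v j - p0 P.z j)) j.castSucc + P.b j.succ * En D (tt P.z (fun j => v j - p0 P.z j)) (Fin.last d)
        - P.z * En D (tt P.z (fun j => v j - p0 P.z j)) j.succ)‖ ≤ ‖rh / D.om‖ * (E + S * E + ‖P.z‖ * E) := by
      rw [norm_mul]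
      refine mul_le_mul_of_nonneg_left ?_ (norm_nonneg _)
      refine (norm_sub_le _ _).trans (add_le_add ((norm_add_le _ _).trans (add_le_add (hEn _) ?_)) ?_)
      · rw [norm_mul]
        exact mul_le_mul hbj (hEn _) (norm_nonneg _) hS0
      · rw [norm_mul]
        exact mul_le_mul_of_nonneg_left (hEn _) (norm_nonneg _)
    have h3 : 0 ≤ ‖rh / D.om‖ * (E + S * E + ‖P.z‖ * E) := by positivity
    refine (norm_sub_le _ _).trans ((add_le_add h1 h2).trans ?_)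
    have h4 : Z * (1 + Real.sqrt (P2 P v)) = ‖D.om‖ * (T + p) * B ^ (d + 1) * (1 + Real.sqrt (P2 P v)) +
        ‖rh / D.om‖ * (E + S * E + ‖P.z‖ * E) * (1 + Real.sqrt (P2 P v)) := by
      rw [hZ]
      ring
    have h6 : 0 ≤ (1 + B / ‖D.om ^ 2‖ + B ^ 2 + B ^ (d + 1)) * (1 + Real.sqrt (P2 P v)) := by
      refine mul_nonneg ?_ ?_ <;> linarith
    have h7 : ‖D.om‖ * (T + p) * B ^ (d + 1) * (1 + Real.sqrt (P2 P v)) + ‖rh / D.om‖ * (E + S * E + ‖P.z‖ * E) ≤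
        Z * (1 + Real.sqrt (P2 P v)) := by
      rw [h4]
      exact add_le_add le_rfl (le_mul_of_one_le_right h3 (le_add_of_nonneg_right hs))
    rw [add_mul]
    exact h7.trans (le_add_of_nonneg_left h6)

/-- C4d. PROOF. By C4c (with the `q` of the common denominator) we may assume `0 ≤ nn v l ≤ q`, so `|Im tt_l v| ≤ q Im z`, and `‖v‖ ≤ C (1 + ρ)`, `ρ = √(P2 v)` (`decomp`, `ro_bound`). By `growth` (P/T5) `‖N0‖, ‖N1‖, ‖N2‖ ≤ C` at `tt_l v`, so
`‖gmon ν‖ ≤ C^L (1 + ‖v‖)^(dL) ≤ C^L (1+ρ)^(dL)`, and `Nn ≤ C^L (1+ρ)^(dL) e^{-π(d+2)Lρ²} ≤ C^L e^{-(d+2)Lρ²}` since `log(1+ρ) ≤ ρ ≤ 1 + ρ²`, `(π - 1)(d+2) ≥ d`. -/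
theorem Nn_bound (P : Par d) (hd : 2 ≤ d) (D : Dt d) (hD : IsOrig P D) : ∃ C : ℝ, 1 ≤ C ∧ ∀ (L : ℕ), 1 ≤ L → ∀ (ν : Ix d L) (v : Fin d → ℂ),
    Nn P ((d + 2) * L) (Gab P D (Pi.single ν 1)) v ≤ C ^ L * Real.exp (-(((d + 2) * L : ℕ) * P2 P v)) := by
  obtain ⟨q, hq0, hq⟩ := c4b_den P
  obtain ⟨A, hA, hfac⟩ := c4b_fac P hd D hD q
  refine ⟨A ^ (2 * d + 1) * Real.exp d, ?_, ?_⟩
  · have h1 : 1 ≤ A ^ (2 * d + 1) := one_le_pow₀ hA
    have h2 : 1 ≤ Real.exp (d : ℝ) := Real.one_le_exp (Nat.cast_nonneg _)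
    exact one_le_mul_of_one_le_of_one_le h1 h2
  intro L hL ν v
  obtain ⟨v', hv', hP2, hNn⟩ := c4b_red P hd D hD q hq0 hq (Pi.single ν 1) v
  rw [← hNn, ← hP2]
  obtain ⟨f2, f0, fp, fZ⟩ := hfac v' hv'
  set r : ℝ := Real.sqrt (P2 P v') with hr
  have hr0 : 0 ≤ r := Real.sqrt_nonneg _
  have hr2 : r ^ 2 = P2 P v' := Real.sq_sqrt (c4b_P2_nonneg P v')
  have hA0 : 0 ≤ A := zero_le_one.trans hA
  have hAr : A ≤ A * (1 + r) := le_mul_of_one_le_right hA0 (le_add_of_nonneg_right hr0)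
  have g : ‖gmon P D ν (fun j => v' j - p0 P.z j) (tt P.z (fun j => v' j - p0 P.z j))‖ ≤ A ^ (L * (d + 1)) * (A * (1 + r)) ^ (L * d) := by
    unfold gmon
    rw [norm_mul, norm_prod, norm_prod]
    have h1 : ∏ l, ‖(N2 D.τ (sE D.τ) (D.h l + tt P.z (fun j => v' j - p0 P.z j) l) / D.om ^ 2) ^ (ν.1 l).val *
        N0 D.τ (D.h l + tt P.z (fun j => v' j - p0 P.z j) l) ^ (2 * (L - (ν.1 l).val))‖ ≤ A ^ (L * (d + 1)) := by
      calc _ ≤ ∏ _l : Fin (d + 1), A ^ L := by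
            refine Finset.prod_le_prod (fun _ _ => norm_nonneg _) fun l _ => ?_
            rw [norm_mul, norm_pow, pow_mul, norm_pow]
            calc _ ≤ A ^ (ν.1 l).val * A ^ (L - (ν.1 l).val) :=
                  mul_le_mul (pow_le_pow_left₀ (norm_nonneg _) (f2 l) _) (pow_le_pow_left₀ (norm_nonneg _) (f0 l) _)
                    (by positivity) (by positivity)
              _ = A ^ L := by
                rw [← pow_add]
                congr 1
                have := (ν.1 l).isLt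
                omega
        _ = A ^ (L * (d + 1)) := by
            rw [Finset.prod_const, Finset.card_univ, Fintype.card_fin, ← pow_mul]
    have h2 : ∏ j, ‖Zn P D (fun j => v' j - p0 P.z j) (tt P.z (fun j => v' j - p0 P.z j)) j ^ (ν.2 j).val *
        pp D (tt P.z (fun j => v' j - p0 P.z j)) ^ (L - (ν.2 j).val)‖ ≤ (A * (1 + r)) ^ (L * d) := by
      calc _ ≤ ∏ _j : Fin d, (A * (1 + r)) ^ L := by
            refine Finset.prod_le_prod (fun _ _ => norm_nonneg _) fun j _ => ?_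
            rw [norm_mul, norm_pow, norm_pow]
            calc _ ≤ (A * (1 + r)) ^ (ν.2 j).val * (A * (1 + r)) ^ (L - (ν.2 j).val) := by
                  refine mul_le_mul (pow_le_pow_left₀ (norm_nonneg _) (fZ j) _)
                    (pow_le_pow_left₀ (norm_nonneg _) (fp.trans hAr) _) (by positivity) (by positivity)
              _ = (A * (1 + r)) ^ L := by
                rw [← pow_add]
                congr 1
                have := (ν.2 j).isLt
                omega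
        _ = (A * (1 + r)) ^ (L * d) := by
            rw [Finset.prod_const, Finset.card_univ, Fintype.card_fin, ← pow_mul]
    exact mul_le_mul h1 h2 (Finset.prod_nonneg fun _ _ => norm_nonneg _) (by positivity)
  have hQ : Real.pi * r ^ 2 ≤ Qf P v' := by
    unfold Qf
    rw [hr2]
    have h1 : 0 ≤ ∑ l, (tt P.z v' l).im ^ 2 / P.z.im := by
      refine Finset.sum_nonneg fun l _ => ?_
      have := P.im
      have h2 : 0 < P.z.im := this
      positivity
    exact mul_le_mul_of_nonneg_left (le_add_of_nonneg_left h1) Real.pi_pos.le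
  have hexp : (1 + r) ^ (L * d) ≤ Real.exp ((L * d : ℕ) * (1 + r ^ 2)) := by
    have h1 : 1 + r ≤ Real.exp (1 + r ^ 2) := by
      have h2 : r + 1 ≤ Real.exp r := Real.add_one_le_exp r
      have h3 : Real.exp r ≤ Real.exp (1 + r ^ 2) := Real.exp_le_exp.mpr (by nlinarith [sq_nonneg (r - 1)])
      linarith
    calc (1 + r) ^ (L * d) ≤ (Real.exp (1 + r ^ 2)) ^ (L * d) := pow_le_pow_left₀ (by linarith) h1 _
      _ = _ := by rw [← Real.exp_nat_mul]
  unfold Nn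
  rw [c4b_Gab, ← hr2]
  calc ‖gmon P D ν (fun j => v' j - p0 P.z j) (tt P.z (fun j => v' j - p0 P.z j))‖ * Real.exp (-(((d + 2) * L : ℕ) * Qf P v'))
      ≤ (A ^ (L * (d + 1)) * (A * (1 + r)) ^ (L * d)) * Real.exp (-(((d + 2) * L : ℕ) * (Real.pi * r ^ 2))) := by
        refine mul_le_mul g (Real.exp_le_exp.mpr ?_) (Real.exp_pos _).le (by positivity)
        have : (0 : ℝ) ≤ ((d + 2) * L : ℕ) := Nat.cast_nonneg _
        exact neg_le_neg (mul_le_mul_of_nonneg_left hQ this)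
    _ = A ^ (L * (d + 1)) * A ^ (L * d) * ((1 + r) ^ (L * d) * Real.exp (-(((d + 2) * L : ℕ) * (Real.pi * r ^ 2)))) := by
        rw [mul_pow]
        ring
    _ ≤ A ^ (L * (d + 1)) * A ^ (L * d) * (Real.exp ((L * d : ℕ) * (1 + r ^ 2)) * Real.exp (-(((d + 2) * L : ℕ) * (Real.pi * r ^ 2)))) := by
        refine mul_le_mul_of_nonneg_left (mul_le_mul_of_nonneg_right hexp (Real.exp_pos _).le) (by positivity)
    _ ≤ A ^ (L * (d + 1)) * A ^ (L * d) * (Real.exp ((L * d : ℕ)) * Real.exp (-(((d + 2) * L : ℕ) * r ^ 2))) := by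
        refine mul_le_mul_of_nonneg_left ?_ (by positivity)
        rw [← Real.exp_add, ← Real.exp_add]
        refine Real.exp_le_exp.mpr ?_
        push_cast
        have hpi : 3 < Real.pi := Real.pi_gt_three
        have hL0 : (0 : ℝ) ≤ L := Nat.cast_nonneg _
        have hd0 : (0 : ℝ) ≤ d := Nat.cast_nonneg _
        have h1 : 0 ≤ ((d : ℝ) + 2) * L * r ^ 2 := by positivity
        have h2 : 3 * (((d : ℝ) + 2) * L * r ^ 2) ≤ Real.pi * (((d : ℝ) + 2) * L * r ^ 2) :=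
          mul_le_mul_of_nonneg_right hpi.le h1
        have h3 : 0 ≤ (L : ℝ) * r ^ 2 := by positivity
        linarith [h1, h2, h3]
    _ = (A ^ (2 * d + 1) * Real.exp d) ^ L * Real.exp (-(((d + 2) * L : ℕ) * r ^ 2)) := by
        have h1 : A ^ (L * (d + 1)) * A ^ (L * d) = (A ^ (2 * d + 1)) ^ L := by
          rw [← pow_add, ← pow_mul]
          congr 1
          ring
        have h2 : Real.exp ((L * d : ℕ)) = Real.exp d ^ L := by
          rw [← Real.exp_nat_mul]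
          push_cast
          rfl
        rw [h1, h2, mul_pow]
        ring

end Pool.Agent.MSK
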