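import Pool.Agent.Lib.MP_f58a57_nt.K.Defs
import Pool.Agent.Lib.MP_f58a57_nt.K.C4_Shift
import Pool.Agent.Lib.MP_f58a57_nt.K.A4_Gmon
import Pool.Agent.Lib.MP_f58a57_nt.K.C2c_Qf

/-! # K/C4c_Deriv: small derivatives at the base point -/

open Complex

noncomputable section

namespace Pool.Agent.MSK

open MSD MSP

variable {d : ℕ}

theorem c4c_tt_zero (z : ℂ) : tt z (0 : Fin d → ℂ) = 0 := by
  funext l
  refine Fin.cases ?_ (fun j => ?_) l
  · simp [tt]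
  · simp [tt]

theorem c4c_Gab (P : Par d) (D : Dt d) {L : ℕ} (c : Ix d L → ℂ) (v : Fin d → ℂ) :
    Gab P D c (fun j => p0 P.z j + v j) = ∑ ν, c ν * gmon P D ν v (tt P.z v) := by
  unfold Gab
  have e : (fun j => p0 P.z j + v j - p0 P.z j) = v := by
    funext j
    ring
  simp only [e]

theorem c4c_FF (P : Par d) (D : Dt d) {L : ℕ} (c : Ix d L → ℂ) (v : Fin d → ℂ) (h : pp D (tt P.z v) ≠ 0) :
    FF P D c v = Gab P D c (fun j => p0 P.z j + v j) / pp D (tt P.z v) ^ ((d + 2) * L) := by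
  rw [c4c_Gab, eq_div_iff (pow_ne_zero _ h)]
  unfold FF Fh
  rw [Finset.sum_mul]
  refine Finset.sum_congr rfl fun ν _ => ?_
  rw [mul_assoc, gmon_eq P D ν v (tt P.z v) h]

theorem c4c_num_diff (P : Par d) (D : Dt d) {L : ℕ} (c : Ix d L → ℂ) :
    Differentiable ℂ (fun v : Fin d → ℂ => Gab P D c (fun j => p0 P.z j + v j)) := by
  have e : (fun v : Fin d → ℂ => Gab P D c (fun j => p0 P.z j + v j)) =
      fun v : Fin d → ℂ => ∑ ν, c ν * gmon P D ν v (tt P.z v) := by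
    funext v
    exact c4c_Gab P D c v
  rw [e]
  refine Differentiable.fun_sum fun ν _ => ?_
  exact (gmon_differentiable P D ν).const_mul (c ν)

/-- lower bound for the denominators near the base point -/
theorem c4c_low (P : Par d) (D : Dt d) : ∃ r₀ c₀ : ℝ, 0 < r₀ ∧ r₀ ≤ 1 ∧ 0 < c₀ ∧ c₀ ≤ 1 ∧
    ∀ v : Fin d → ℂ, ‖v‖ ≤ r₀ → c₀ ≤ ‖pp D (tt P.z v)‖ := by
  have hc : Continuous fun v : Fin d → ℂ => ‖pp D (tt P.z v)‖ := (pp_differentiable P D).continuous.norm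
  set a : ℝ := ‖pp D (tt P.z (0 : Fin d → ℂ))‖ with ha
  have ha0 : 0 < a := by
    rw [ha, c4c_tt_zero]
    exact norm_pos_iff.2 (pp_zero_ne D)
  have h1 : ∀ᶠ v in nhds (0 : Fin d → ℂ), a / 2 < ‖pp D (tt P.z v)‖ :=
    hc.continuousAt.eventually (lt_mem_nhds (by change a / 2 < a; linarith))
  obtain ⟨r, hr, hr'⟩ := Metric.eventually_nhds_iff.1 h1
  refine ⟨min (r / 2) 1, min (a / 2) 1, lt_min (by linarith) one_pos, min_le_right _ _, lt_min (by linarith) one_pos,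
    min_le_right _ _, fun v hv => ?_⟩
  have h2 : dist v 0 < r := by
    rw [dist_zero_right]
    have := hv.trans (min_le_left _ _)
    linarith
  exact (min_le_left _ _).trans (hr' h2).le

/-- C4e. PROOF. `FF P D c (v) = Gab(p0 + v)/pp(tt v)^((d+2)L)` where `pp ≠ 0` (`gmon_eq`). For `‖v‖ ≤ r₀`: `‖pp(tt v)‖ ≥ c > 0`, `‖Gab(p0 + v)‖ ≤ η e^{(d+2)L Qf} ≤ η C^L`, so `‖FF‖ ≤ η C^L` there. For the line `ζ ↦ ζ a`, `a_j ≤ T`, Cauchy's estimate on `‖ζ‖ = r₀/T`: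
`‖iteratedDeriv k‖ ≤ k! (T/r₀)^k η C^L ≤ (C T²)^T C^L η`. -/
theorem small_deriv (P : Par d) (hd : 2 ≤ d) (D : Dt d) (hD : IsOrig P D) : ∃ C : ℝ, 1 ≤ C ∧ ∀ (L : ℕ), 1 ≤ L → ∀ (c : Ix d L → ℂ) (η : ℝ), 0 ≤ η →
    (∀ v, Nn P ((d + 2) * L) (Gab P D c) v ≤ η) → ∀ T : ℕ, 1 ≤ T → ∀ a : Fin d → ℕ, (∀ j, a j ≤ T) → ∀ k ≤ T,
      ‖iteratedDeriv k (fun ζ : ℂ => FF P D c (fun j => ζ * a j)) 0‖ ≤ (C * T ^ 2) ^ T * C ^ L * η := by
  obtain ⟨r₀, c₀, hr0, hr1, hc0, hc1, hlow⟩ := c4c_low P D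
  obtain ⟨C₁, hC1, hQ⟩ := Qf_le P
  set Q₀ : ℝ := C₁ * (‖p0 P.z (d := d)‖ + 1) ^ 2 with hQ0
  have hQ0' : 0 ≤ Q₀ := by positivity
  set C₂ : ℝ := Real.exp ((d + 2) * Q₀) / c₀ ^ (d + 2) with hC2
  have hC2' : 1 ≤ C₂ := by
    rw [hC2, one_le_div (by positivity)]
    have h1 : c₀ ^ (d + 2) ≤ 1 := pow_le_one₀ hc0.le hc1
    have h2 : (1 : ℝ) ≤ Real.exp ((d + 2) * Q₀) := Real.one_le_exp (by positivity)
    linarith
  refine ⟨max (1 / r₀) C₂, le_max_of_le_right hC2', ?_⟩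
  intro L hL c η hη hN T hT a ha k hk
  set C := max (1 / r₀) C₂ with hC
  have hTpos : (0 : ℝ) < T := by exact_mod_cast hT
  have hT1 : (1 : ℝ) ≤ T := by exact_mod_cast hT
  -- the bound on the ball
  have hball : ∀ v : Fin d → ℂ, ‖v‖ ≤ r₀ → ‖FF P D c v‖ ≤ C₂ ^ L * η := by
    intro v hv
    have hl := hlow v hv
    have hne : pp D (tt P.z v) ≠ 0 := norm_pos_iff.1 (hc0.trans_le hl)
    rw [c4c_FF P D c v hne, norm_div, norm_pow]
    have h1 := hN (fun j => p0 P.z j + v j)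
    unfold Nn at h1
    rw [Real.exp_neg, ← div_eq_mul_inv, div_le_iff₀ (Real.exp_pos _)] at h1
    have h2 : Qf P (fun j => p0 P.z j + v j) ≤ Q₀ := by
      refine (hQ _).trans ?_
      rw [hQ0]
      have h3 : ‖(fun j => p0 P.z j + v j)‖ ≤ ‖p0 P.z (d := d)‖ + 1 := by
        have h4 : (fun j => p0 P.z j + v j) = p0 P.z + v := rfl
        rw [h4]
        exact (norm_add_le _ _).trans (by linarith)
      have h5 : ‖(fun j => p0 P.z j + v j)‖ ^ 2 ≤ (‖p0 P.z (d := d)‖ + 1) ^ 2 :=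
        pow_le_pow_left₀ (norm_nonneg _) h3 2
      exact mul_le_mul_of_nonneg_left h5 (by linarith)
    have h6 : Real.exp (((d + 2) * L : ℕ) * Qf P (fun j => p0 P.z j + v j)) ≤ Real.exp ((d + 2) * Q₀) ^ L := by
      rw [← Real.exp_nat_mul]
      refine Real.exp_le_exp.2 ?_
      push_cast
      have h7 : 0 ≤ ((d : ℝ) + 2) * L := by positivity
      nlinarith [mul_le_mul_of_nonneg_left h2 h7]
    have h8 : ‖Gab P D c (fun j => p0 P.z j + v j)‖ ≤ η * Real.exp ((d + 2) * Q₀) ^ L :=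
      h1.trans (mul_le_mul_of_nonneg_left h6 hη)
    have h9 : (c₀ ^ (d + 2)) ^ L ≤ ‖pp D (tt P.z v)‖ ^ ((d + 2) * L) := by
      rw [← pow_mul]
      exact pow_le_pow_left₀ hc0.le hl _
    have h10 : 0 < (c₀ ^ (d + 2)) ^ L := by positivity
    calc ‖Gab P D c (fun j => p0 P.z j + v j)‖ / ‖pp D (tt P.z v)‖ ^ ((d + 2) * L)
        ≤ (η * Real.exp ((d + 2) * Q₀) ^ L) / (c₀ ^ (d + 2)) ^ L :=
          div_le_div₀ (by positivity) h8 h10 h9
      _ = C₂ ^ L * η := by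
          rw [hC2, div_pow]
          ring
  -- Cauchy
  set f : ℂ → ℂ := fun ζ : ℂ => FF P D c (fun j => ζ * a j) with hf
  set R : ℝ := r₀ / T with hR
  have hRpos : 0 < R := by positivity
  have hin : ∀ ζ : ℂ, ‖ζ‖ ≤ R → ‖(fun j => ζ * a j : Fin d → ℂ)‖ ≤ r₀ := by
    intro ζ hζ
    rw [pi_norm_le_iff_of_nonneg hr0.le]
    intro j
    rw [norm_mul, Complex.norm_natCast]
    have h1 : (a j : ℝ) ≤ T := by exact_mod_cast ha j
    calc ‖ζ‖ * (a j : ℝ) ≤ R * T := mul_le_mul hζ h1 (Nat.cast_nonneg _) hRpos.le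
      _ = r₀ := by rw [hR]; field_simp
  have hline : Differentiable ℂ (fun ζ : ℂ => (fun j => ζ * a j : Fin d → ℂ)) := by
    rw [differentiable_pi]
    intro j
    fun_prop
  have hdiff : DifferentiableOn ℂ f (Metric.closedBall 0 R) := by
    have h1 : DifferentiableOn ℂ (fun ζ : ℂ => Gab P D c (fun j => p0 P.z j + (fun j => ζ * a j : Fin d → ℂ) j) /
        pp D (tt P.z (fun j => ζ * a j)) ^ ((d + 2) * L)) (Metric.closedBall 0 R) := by
      refine DifferentiableOn.fun_div ?_ ?_ ?_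
      · exact ((c4c_num_diff P D c).comp hline).differentiableOn
      · exact (((pp_differentiable P D).comp hline).pow _).differentiableOn
      · intro ζ hζ
        have hζ' : ‖ζ‖ ≤ R := by simpa using hζ
        exact pow_ne_zero _ (norm_pos_iff.1 (hc0.trans_le (hlow _ (hin ζ hζ'))))
    refine h1.congr fun ζ hζ => ?_
    have hζ' : ‖ζ‖ ≤ R := by simpa using hζ
    exact c4c_FF P D c _ (norm_pos_iff.1 (hc0.trans_le (hlow _ (hin ζ hζ'))))
  have hcl : DiffContOnCl ℂ f (Metric.ball 0 R) :=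
    (hdiff.mono Metric.closure_ball_subset_closedBall).diffContOnCl
  have hcauchy := Complex.norm_iteratedDeriv_le_of_forall_mem_sphere_norm_le k hRpos hcl (C := C₂ ^ L * η) (by
    intro ζ hζ
    have hζ' : ‖ζ‖ ≤ R := by
      have : ‖ζ‖ = R := by simpa using hζ
      exact this.le
    exact hball _ (hin ζ hζ'))
  refine hcauchy.trans ?_
  have hCr : 1 / r₀ ≤ C := le_max_left _ _
  have hCC : C₂ ≤ C := le_max_right _ _
  have hC1' : 1 ≤ C := hC2'.trans hCC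
  have e1 : (k.factorial : ℝ) ≤ (T : ℝ) ^ k := by
    have h1 : k.factorial ≤ k ^ k := Nat.factorial_le_pow k
    have h2 : k ^ k ≤ T ^ k := Nat.pow_le_pow_left hk k
    exact_mod_cast h1.trans h2
  have e2 : (k.factorial : ℝ) / R ^ k ≤ (C * T ^ 2) ^ T := by
    have h1 : (k.factorial : ℝ) / R ^ k = k.factorial * (T * (1 / r₀)) ^ k := by
      rw [hR]
      have : (T : ℝ) * (1 / r₀) = (r₀ / T)⁻¹ := by
        rw [inv_div]
        ring
      rw [this, inv_pow, div_eq_mul_inv]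
    rw [h1]
    have h2 : (T * (1 / r₀)) ^ k ≤ ((T : ℝ) * C) ^ k :=
      pow_le_pow_left₀ (by positivity) (mul_le_mul_of_nonneg_left hCr hTpos.le) k
    calc (k.factorial : ℝ) * (T * (1 / r₀)) ^ k ≤ (T : ℝ) ^ k * ((T : ℝ) * C) ^ k :=
          mul_le_mul e1 h2 (by positivity) (by positivity)
      _ = (C * T ^ 2) ^ k := by rw [← mul_pow]; ring
      _ ≤ (C * T ^ 2) ^ T := pow_le_pow_right₀ (by nlinarith [mul_le_mul hC1' (one_le_pow₀ hT1 (n := 2)) zero_le_one (by linarith)]) hk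
  have e3 : C₂ ^ L ≤ C ^ L := pow_le_pow_left₀ (by linarith) hCC L
  calc (k.factorial : ℝ) * (C₂ ^ L * η) / R ^ k = ((k.factorial : ℝ) / R ^ k) * (C₂ ^ L * η) := by ring
    _ ≤ (C * T ^ 2) ^ T * (C ^ L * η) :=
      mul_le_mul e2 (mul_le_mul_of_nonneg_right e3 hη) (by positivity) (by positivity)
    _ = (C * T ^ 2) ^ T * C ^ L * η := by ring

end Pool.Agent.MSK
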