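import Pool.Agent.Lib.MP_f58a57_nt.K.Defs
import Pool.Agent.Lib.MP_f58a57_nt.K.A1_Deriv

/-! # K/D1_As: inversion of the linear part -/

open Complex

noncomputable section

namespace Pool.Agent.MSK

open MSD MSP

variable {d : ℕ}

/-- the multiplication by the generator in the coordinates -/
def d1_S (b : Fin (d + 1) → ℚ) (t : Fin (d + 1) → ℂ) : Fin (d + 1) → ℂ :=
  Fin.cons ((b 0 : ℂ) * t (Fin.last d)) (fun j => t j.castSucc + (b j.succ : ℂ) * t (Fin.last d))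

lemma d1_S_eval (b : Fin (d + 1) → ℚ) (t : Fin (d + 1) → ℂ) (x : ℂ)
    (hx : x ^ (d + 1) = ∑ l : Fin (d + 1), (b l : ℂ) * x ^ l.val) :
    ∑ l : Fin (d + 1), x ^ l.val * d1_S b t l = x * ∑ l : Fin (d + 1), x ^ l.val * t l := by
  have h1 : ∑ l : Fin (d + 1), x ^ l.val * d1_S b t l =
      (∑ l : Fin (d + 1), (b l : ℂ) * x ^ l.val) * t (Fin.last d) + x * ∑ j : Fin d, x ^ j.val * t j.castSucc := by
    rw [Fin.sum_univ_succ, Fin.sum_univ_succ, add_mul, Finset.sum_mul, Finset.mul_sum, add_assoc,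
      ← Finset.sum_add_distrib]
    congr 1
    · simp [d1_S]
    · refine Finset.sum_congr rfl fun j _ => ?_
      simp only [d1_S, Fin.cons_succ, Fin.val_succ]
      ring
  have h2 : ∑ l : Fin (d + 1), x ^ l.val * t l =
      ∑ j : Fin d, x ^ j.val * t j.castSucc + x ^ d * t (Fin.last d) := by
    rw [Fin.sum_univ_castSucc]
    simp
  rw [h1, h2, ← hx]
  ring

lemma d1_cons {z : ℂ} {t : Fin (d + 1) → ℂ} (h : ∑ l : Fin (d + 1), z ^ l.val * t l = 0) :
    tt z (fun j => t j.succ) = t := by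
  funext l
  refine Fin.cases ?_ (fun j => ?_) l
  · rw [Fin.sum_univ_succ] at h
    simp only [tt, Fin.cons_zero, Fin.val_zero, pow_zero, one_mul, Fin.val_succ] at h ⊢
    linear_combination -h
  · simp [tt]

lemma d1_tt (P : Par d) (s : ℂ) (w : Fin d → ℂ) :
    tt P.z (As P s w) = fun l => tt P.z w l + s * (d1_S P.b (tt P.z w) l - P.z * tt P.z w l) := by
  have hz : ∑ l : Fin (d + 1), P.z ^ l.val * (tt P.z w l + s * (d1_S P.b (tt P.z w) l - P.z * tt P.z w l)) = 0 := by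
    have h1 := tt_rel P.z w
    have h2 := d1_S_eval P.b (tt P.z w) P.z (P.rel 0)
    have h3 : ∑ l : Fin (d + 1), P.z ^ l.val * (tt P.z w l + s * (d1_S P.b (tt P.z w) l - P.z * tt P.z w l)) =
        ∑ l : Fin (d + 1), P.z ^ l.val * tt P.z w l + s * (∑ l : Fin (d + 1), P.z ^ l.val * d1_S P.b (tt P.z w) l
          - P.z * ∑ l : Fin (d + 1), P.z ^ l.val * tt P.z w l) := by
      rw [Finset.mul_sum, ← Finset.sum_sub_distrib, Finset.mul_sum, ← Finset.sum_add_distrib]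
      refine Finset.sum_congr rfl fun l _ => ?_
      ring
    rw [h3, h2, h1]
    ring
  have h4 := d1_cons hz
  rw [← h4]
  congr 1

/-- D1a. The functional `ℓ_i(t) = ∑ (rt i)^l t_l`. For `t = tt z w` and the vector `A = (A_0, A_1, ..., A_d)` with `A_j = As P s w j` (`j ≥ 1`) and
`A_0 = - ∑ z^(j+1) A_{j+1}` (so `A = tt z (As P s w)`): `ℓ_i(A) = (1 + s (rt i - z)) ℓ_i(t)`. PROOF. Let `S(t)_l = t_{l-1} + b_l t_d` (`t_{-1} = 0`), then
`ℓ_i(S t) = rt i · ℓ_i(t)` (`P.rel`): `∑_{l≥1} x^l t_{l-1} + t_d ∑ b_l x^l = x (ℓ_i(t) - x^d t_d) + x^(d+1) t_d`. In particular for `i = 0` `S` maps `V` to `V`, so `t + s (S t - z t)` is the vector in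
`V` with the coordinates `As P s w j`, i.e. `A`; and `ℓ_i(A) = ℓ_i(t) + s (rt i - z) ℓ_i(t)`. -/
theorem As_eig (P : Par d) (s : ℂ) (w : Fin d → ℂ) (i : Fin (d + 1)) :
    ∑ l : Fin (d + 1), P.rt i ^ l.val * tt P.z (As P s w) l = (1 + s * (P.rt i - P.z)) * ∑ l : Fin (d + 1), P.rt i ^ l.val * tt P.z w l := by
  have h2 := d1_S_eval P.b (tt P.z w) (P.rt i) (P.rel i)
  rw [d1_tt]
  have h3 : ∑ l : Fin (d + 1), P.rt i ^ l.val * (tt P.z w l + s * (d1_S P.b (tt P.z w) l - P.z * tt P.z w l)) =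
      ∑ l : Fin (d + 1), P.rt i ^ l.val * tt P.z w l + s * (∑ l : Fin (d + 1), P.rt i ^ l.val * d1_S P.b (tt P.z w) l
        - P.z * ∑ l : Fin (d + 1), P.rt i ^ l.val * tt P.z w l) := by
    rw [Finset.mul_sum, ← Finset.sum_sub_distrib, Finset.mul_sum, ← Finset.sum_add_distrib]
    refine Finset.sum_congr rfl fun l _ => ?_
    ring
  rw [h3, h2]
  ring

/-- D1b. PROOF. Let `r̃ = tt z r ∈ V`, `y_0 = 0`, `y_i = ℓ_i(r̃)/(1 + s (rt i - z))` for `i ≠ 0`. The Vandermonde matrix `(rt i ^ l)` is invertible (`P.inj`,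
`Matrix.det_vandermonde_ne_zero_iff`), so there is `t` with `ℓ_i(t) = y_i` for all `i` and `‖t‖ ≤ C max ‖y_i‖`, `C` depends only on `P`. As `ℓ_0(t) = 0`, `t = tt z w`, `w_j = t_{j+1}`. By D1a
the vectors `tt z (As P s w)` and `r̃` have the same values under all `ℓ_i` (`i = 0`: both in `V`), so they are equal. `‖ℓ_i(r̃)‖ ≤ C ‖r‖`, and `C/min(δ,1)`; assume `δ ≤ 1`. -/
theorem As_inv (P : Par d) : ∃ C : ℝ, 1 ≤ C ∧ ∀ (s : ℂ) (δ : ℝ), 0 < δ → δ ≤ 1 → (∀ i, i ≠ 0 → δ ≤ ‖1 + s * (P.rt i - P.z)‖) →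
    ∀ r : Fin d → ℂ, ∃ w : Fin d → ℂ, (∀ j, As P s w j = r j) ∧ ‖w‖ ≤ C * ‖r‖ / δ := by
  classical
  let M : Matrix (Fin (d + 1)) (Fin (d + 1)) ℂ := Matrix.vandermonde P.rt
  have hM : IsUnit M.det := isUnit_iff_ne_zero.2 (Matrix.det_vandermonde_ne_zero_iff.2 P.inj)
  have hMv : ∀ (t : Fin (d + 1) → ℂ) i, M.mulVec t i = ∑ l : Fin (d + 1), P.rt i ^ l.val * t l := by
    intro t i
    simp [M, Matrix.mulVec, dotProduct, Matrix.vandermonde_apply]
  set C₁ : ℝ := 1 + ∑ i, ∑ j, ‖M⁻¹ i j‖ with hC₁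
  set C₂ : ℝ := 1 + ∑ i, ∑ l : Fin (d + 1), ‖P.rt i‖ ^ l.val * (1 + ∑ j : Fin d, ‖P.z‖ ^ (j.val + 1)) with hC₂
  have hC₁1 : 1 ≤ C₁ := by
    have : 0 ≤ ∑ i, ∑ j, ‖M⁻¹ i j‖ := by positivity
    linarith
  have hC₂1 : 1 ≤ C₂ := by
    have : 0 ≤ ∑ i, ∑ l : Fin (d + 1), ‖P.rt i‖ ^ l.val * (1 + ∑ j : Fin d, ‖P.z‖ ^ (j.val + 1)) := by positivity
    linarith
  refine ⟨C₁ * C₂, one_le_mul_of_one_le_of_one_le hC₁1 hC₂1, ?_⟩
  intro s δ hδ hδ1 hs r
  let y : Fin (d + 1) → ℂ := fun i => if i = 0 then 0 else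
    (∑ l : Fin (d + 1), P.rt i ^ l.val * tt P.z r l) / (1 + s * (P.rt i - P.z))
  have hy0 : ‖y‖ ≤ C₂ * ‖r‖ / δ := by
    have hr0 : 0 ≤ C₂ * ‖r‖ / δ := by positivity
    rw [pi_norm_le_iff_of_nonneg hr0]
    intro i
    by_cases hi : i = 0
    · simp only [y, hi, if_true, norm_zero]
      exact hr0
    · simp only [y, hi, if_false, norm_div]
      have h1 : ‖∑ l : Fin (d + 1), P.rt i ^ l.val * tt P.z r l‖ ≤ C₂ * ‖r‖ := by
        have h2 : ∀ l, ‖tt P.z r l‖ ≤ (1 + ∑ j : Fin d, ‖P.z‖ ^ (j.val + 1)) * ‖r‖ := by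
          intro l
          refine Fin.cases ?_ (fun j => ?_) l
          · simp only [tt, Fin.cons_zero, norm_neg]
            refine (norm_sum_le _ _).trans ?_
            have h3 : ∑ j : Fin d, ‖P.z ^ (j.val + 1) * r j‖ ≤ (∑ j : Fin d, ‖P.z‖ ^ (j.val + 1)) * ‖r‖ := by
              rw [Finset.sum_mul]
              refine Finset.sum_le_sum fun j _ => ?_
              rw [norm_mul, norm_pow]
              exact mul_le_mul_of_nonneg_left (norm_le_pi_norm r j) (by positivity)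
            have h4 : 0 ≤ ‖r‖ := norm_nonneg r
            linarith
          · simp only [tt, Fin.cons_succ]
            have h3 := norm_le_pi_norm r j
            have h4 : 0 ≤ (∑ j : Fin d, ‖P.z‖ ^ (j.val + 1)) * ‖r‖ := by positivity
            linarith
        refine (norm_sum_le _ _).trans ?_
        have h5 : ∑ l : Fin (d + 1), ‖P.rt i ^ l.val * tt P.z r l‖ ≤
            (∑ l : Fin (d + 1), ‖P.rt i‖ ^ l.val * (1 + ∑ j : Fin d, ‖P.z‖ ^ (j.val + 1))) * ‖r‖ := by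
          rw [Finset.sum_mul]
          refine Finset.sum_le_sum fun l _ => ?_
          rw [norm_mul, norm_pow, mul_assoc]
          exact mul_le_mul_of_nonneg_left (h2 l) (by positivity)
        refine h5.trans (mul_le_mul_of_nonneg_right ?_ (norm_nonneg _))
        have h6 : ∑ l : Fin (d + 1), ‖P.rt i‖ ^ l.val * (1 + ∑ j : Fin d, ‖P.z‖ ^ (j.val + 1)) ≤
            ∑ i, ∑ l : Fin (d + 1), ‖P.rt i‖ ^ l.val * (1 + ∑ j : Fin d, ‖P.z‖ ^ (j.val + 1)) :=
          Finset.single_le_sum (f := fun i => ∑ l : Fin (d + 1), ‖P.rt i‖ ^ l.val * (1 + ∑ j : Fin d, ‖P.z‖ ^ (j.val + 1)))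
            (fun i _ => by positivity) (Finset.mem_univ i)
        linarith
      exact div_le_div₀ (by positivity) h1 hδ (hs i hi)
  set t : Fin (d + 1) → ℂ := M⁻¹.mulVec y with ht
  have hMt : M.mulVec t = y := by
    rw [ht, Matrix.mulVec_mulVec, Matrix.mul_nonsing_inv _ hM, Matrix.one_mulVec]
  have htn : ‖t‖ ≤ C₁ * ‖y‖ := by
    rw [pi_norm_le_iff_of_nonneg (by positivity)]
    intro i
    have h1 : t i = ∑ j, M⁻¹ i j * y j := rfl
    rw [h1]
    refine (norm_sum_le _ _).trans ?_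
    have h2 : ∑ j, ‖M⁻¹ i j * y j‖ ≤ (∑ j, ‖M⁻¹ i j‖) * ‖y‖ := by
      rw [Finset.sum_mul]
      refine Finset.sum_le_sum fun j _ => ?_
      rw [norm_mul]
      exact mul_le_mul_of_nonneg_left (norm_le_pi_norm y j) (norm_nonneg _)
    refine h2.trans (mul_le_mul_of_nonneg_right ?_ (norm_nonneg _))
    have h3 : ∑ j, ‖M⁻¹ i j‖ ≤ ∑ i, ∑ j, ‖M⁻¹ i j‖ :=
      Finset.single_le_sum (f := fun i => ∑ j, ‖M⁻¹ i j‖) (fun i _ => by positivity) (Finset.mem_univ i)
    linarith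
  have ht0 : ∑ l : Fin (d + 1), P.z ^ l.val * t l = 0 := by
    have h1 := congrFun hMt 0
    rw [hMv] at h1
    simpa [y, Par.z] using h1
  have htt : tt P.z (fun j => t j.succ) = t := d1_cons ht0
  refine ⟨fun j => t j.succ, ?_, ?_⟩
  · have hkey : M.mulVec (tt P.z (As P s fun j => t j.succ)) = M.mulVec (tt P.z r) := by
      funext i
      rw [hMv, hMv, As_eig, htt]
      have h1 := congrFun hMt i
      rw [hMv] at h1
      rw [h1]
      by_cases hi : i = 0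
      · subst hi
        have h2 := tt_rel P.z r
        simp only [y, if_true, mul_zero]
        exact h2.symm
      · simp only [y, hi, if_false]
        have hne : 1 + s * (P.rt i - P.z) ≠ 0 := by
          intro h0
          have := hs i hi
          rw [h0, norm_zero] at this
          linarith
        rw [mul_div_cancel₀ _ hne]
    have hinj : tt P.z (As P s fun j => t j.succ) = tt P.z r := by
      have h1 := congrArg (fun v => M⁻¹.mulVec v) hkey
      simpa [Matrix.mulVec_mulVec, Matrix.nonsing_inv_mul _ hM] using h1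
    intro j
    have := congrFun hinj j.succ
    simpa [tt] using this
  · have h1 : ‖fun j : Fin d => t j.succ‖ ≤ ‖t‖ := by
      rw [pi_norm_le_iff_of_nonneg (norm_nonneg _)]
      exact fun j => norm_le_pi_norm t j.succ
    calc ‖fun j : Fin d => t j.succ‖ ≤ C₁ * ‖y‖ := h1.trans htn
      _ ≤ C₁ * (C₂ * ‖r‖ / δ) := mul_le_mul_of_nonneg_left hy0 (by positivity)
      _ = C₁ * C₂ * ‖r‖ / δ := by ring

end Pool.Agent.MSK
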