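import Pool.Agent.Lib.MP_f58a57_nt.K.Defs

/-! # K/D2_Prod: products of truncated expansions -/

open Complex

noncomputable section

namespace Pool.Agent.MSK

open MSD MSP

variable {d : ℕ}

theorem d2_prod_sub {ι : Type*} [DecidableEq ι] (s : Finset ι) (a b : ι → ℂ) (B ε : ℝ) (hB : 1 ≤ B) (hε : 0 ≤ ε) (hεB : ε ≤ B)
    (h1 : ∀ i, ‖a i‖ ≤ B) (h2 : ∀ i, ‖a i - b i‖ ≤ ε) :
    ‖∏ i ∈ s, b i‖ ≤ (2 * B) ^ s.card ∧ ‖(∏ i ∈ s, a i) - ∏ i ∈ s, b i‖ ≤ s.card * (2 * B) ^ s.card * ε := by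
  induction s using Finset.induction_on with
  | empty => simp
  | insert x s hx ih =>
    obtain ⟨ih1, ih2⟩ := ih
    rw [Finset.prod_insert hx, Finset.prod_insert hx, Finset.card_insert_of_notMem hx]
    have hb : ‖b x‖ ≤ 2 * B := by
      have e : b x = a x - (a x - b x) := by ring
      rw [e]
      refine (norm_sub_le _ _).trans ?_
      linarith [h1 x, h2 x]
    have hp : (0 : ℝ) ≤ (2 * B) ^ s.card := by positivity
    constructor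
    · rw [norm_mul, pow_succ, mul_comm]
      exact mul_le_mul ih1 hb (norm_nonneg _) hp
    · have e : a x * ∏ i ∈ s, a i - b x * ∏ i ∈ s, b i = a x * ((∏ i ∈ s, a i) - ∏ i ∈ s, b i) + (a x - b x) * ∏ i ∈ s, b i := by ring
      rw [e]
      refine (norm_add_le _ _).trans ?_
      rw [norm_mul, norm_mul]
      have hc : (0 : ℝ) ≤ (s.card : ℝ) := Nat.cast_nonneg _
      have q1 : ‖a x‖ * ‖(∏ i ∈ s, a i) - ∏ i ∈ s, b i‖ ≤ B * (s.card * (2 * B) ^ s.card * ε) :=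
        mul_le_mul (h1 x) ih2 (norm_nonneg _) (by linarith)
      have q2 : ‖a x - b x‖ * ‖∏ i ∈ s, b i‖ ≤ ε * (2 * B) ^ s.card :=
        mul_le_mul (h2 x) ih1 (norm_nonneg _) hε
      have q3 : ((s.card + 1 : ℕ) : ℝ) * (2 * B) ^ (s.card + 1) * ε =
          (s.card : ℝ) * (2 * B) ^ s.card * ε * (2 * B) + (2 * B) ^ s.card * ε * (2 * B) := by
        push_cast
        ring
      have q4 : 0 ≤ (s.card : ℝ) * (2 * B) ^ s.card * ε := by positivity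
      have q5 : 0 ≤ (2 * B) ^ s.card * ε := by positivity
      rw [q3]
      nlinarith

/-- D2. PROOF. `‖∏ a_l - ∏ b_l‖ ≤ n ε (B + ε)^(n-1)` if `‖a_l‖ ≤ B`, `‖a_l - b_l‖ ≤ ε ≤ B`; and
`∏_l ∑_i f l i ee(fr i t_l) = ∑_ω (∏_l f l (ω l)) ee(∑ fr(ω l) t_l)` (`Finset.prod_univ_sum` / `Fintype.piFinset`, `ee` of a sum). -/
theorem prod_trunc {n W : ℕ} (g : Fin n → ℂ → ℂ) (f : Fin n → Fin (2 * W + 1) → ℂ) (B ε : ℝ) (hB : 1 ≤ B) (hε : 0 ≤ ε) (hεB : ε ≤ B)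
    (h1 : ∀ l (t : ℂ), |t.im| ≤ 1 → ‖g l t‖ ≤ B) (h2 : ∀ l (t : ℂ), |t.im| ≤ 1 → ‖g l t - ∑ i, f l i * ee (fr i * t)‖ ≤ ε)
    (t : Fin n → ℂ) (ht : ∀ l, |(t l).im| ≤ 1) :
    ‖(∏ l, g l (t l)) - ∑ ω : Fin n → Fin (2 * W + 1), (∏ l, f l (ω l)) * ee (∑ l, (fr (ω l) : ℂ) * t l)‖ ≤ n * (2 * B) ^ n * ε := by
  have hee : ∀ (s : Finset (Fin n)) (x : Fin n → ℂ), ee (∑ l ∈ s, x l) = ∏ l ∈ s, ee (x l) := by
    intro s x
    unfold ee
    rw [Finset.mul_sum, Complex.exp_sum]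
  have key : ∑ ω : Fin n → Fin (2 * W + 1), (∏ l, f l (ω l)) * ee (∑ l, (fr (ω l) : ℂ) * t l) =
      ∏ l, ∑ i, f l i * ee (fr i * t l) := by
    rw [Fintype.prod_sum]
    refine Finset.sum_congr rfl fun ω _ => ?_
    rw [hee, Finset.prod_mul_distrib]
  rw [key]
  have h3 := (d2_prod_sub Finset.univ (fun l => g l (t l)) (fun l => ∑ i, f l i * ee (fr i * t l)) B ε hB hε hεB
    (fun l => h1 l (t l) (ht l)) (fun l => h2 l (t l) (ht l))).2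
  simpa using h3

end Pool.Agent.MSK
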