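import Pool.Agent.Lib.MP_f58a57_nt.K.Defs
import Pool.Agent.Lib.MP_f58a57_nt.P.T6_Lim

/-! # K/T1_Grow: growth of the theta function for `τ = iy`, uniformly in `y ≥ 1` -/

open Complex

noncomputable section

namespace Pool.Agent.MSK

open MSD MSP

variable {d : ℕ}

theorem t1g_tau_im (y : ℝ) : (I * (y : ℂ)).im = y := by simp

theorem t1g_norm_sin (z : ℂ) : ‖Complex.sin z‖ ≤ Real.exp |z.im| := by
  have h0 : Complex.sin z = (cexp (-z * I) - cexp (z * I)) * I / 2 := rfl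
  have h1 : ‖cexp (-z * I)‖ ≤ Real.exp |z.im| := by
    rw [Complex.norm_exp]
    apply Real.exp_le_exp.2
    have : (-z * I).re = z.im := by simp
    rw [this]
    exact le_abs_self _
  have h2 : ‖cexp (z * I)‖ ≤ Real.exp |z.im| := by
    rw [Complex.norm_exp]
    apply Real.exp_le_exp.2
    have : (z * I).re = -z.im := by simp
    rw [this]
    exact neg_le_abs _
  rw [h0, norm_div, norm_mul, Complex.norm_I, mul_one]
  have h3 : ‖(2 : ℂ)‖ = 2 := by simp
  rw [h3, div_le_iff₀ two_pos]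
  refine (norm_sub_le _ _).trans ?_
  linarith

/-- the infinite product is bounded by the exponential of the sum -/
theorem t1g_tprod {u : ℕ → ℂ} {g : ℕ → ℝ} {B : ℝ} (hg : HasSum g B) (hu : ∀ n, ‖u n‖ ≤ g n)
    (hm : Multipliable fun n => 1 + u n) : ‖∏' n, (1 + u n)‖ ≤ Real.exp B := by
  have h1 := (hm.hasProd).norm
  refine le_of_tendsto' h1 fun s => ?_
  have h2 : ∀ n ∈ s, ‖1 + u n‖ ≤ Real.exp (g n) := by
    intro n _
    calc ‖1 + u n‖ ≤ ‖(1 : ℂ)‖ + ‖u n‖ := norm_add_le _ _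
      _ ≤ g n + 1 := by rw [norm_one]; linarith [hu n]
      _ ≤ Real.exp (g n) := Real.add_one_le_exp _
  calc ∏ n ∈ s, ‖1 + u n‖ ≤ ∏ n ∈ s, Real.exp (g n) :=
        Finset.prod_le_prod (fun _ _ => norm_nonneg _) h2
    _ = Real.exp (∑ n ∈ s, g n) := (Real.exp_sum _ _).symm
    _ ≤ Real.exp B := Real.exp_le_exp.2
        (sum_le_hasSum s (fun n _ => (norm_nonneg _).trans (hu n)) hg)

theorem t1g_q : Real.exp (-(2 * Real.pi)) ≤ 1 / 2 := by
  have h1 : (1 : ℝ) + 1 ≤ Real.exp 1 := Real.add_one_le_exp 1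
  have h2 : Real.exp 1 ≤ Real.exp (2 * Real.pi) := by
    apply Real.exp_le_exp.2
    linarith [Real.pi_gt_three]
  rw [Real.exp_neg, ← one_div]
  apply one_div_le_one_div_of_le two_pos
  linarith

theorem t1g_thp {y : ℝ} (hy : 1 ≤ y) {t : ℂ} (ht : |t.im| ≤ y / 2) :
    ‖thp (I * y) t‖ ≤ Real.exp 6 := by
  have hy0 : 0 < y := by linarith
  have him : 0 < (I * (y : ℂ)).im := by rw [t1g_tau_im]; exact hy0
  have hpi := Real.pi_pos
  have hq := t1g_q
  have hq0 := Real.exp_pos (-(2 * Real.pi))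
  unfold thp
  simp_rw [t1_fact]
  have hsum : HasSum (fun n : ℕ => (3 : ℝ) * (1 / 2) ^ n) (3 * 2) := by
    have := hasSum_geometric_two
    exact this.mul_left 3
  have h6 : (3 : ℝ) * 2 = 6 := by norm_num
  rw [← h6]
  refine t1g_tprod hsum (fun n => ?_) ?_
  · refine (t1_bound him ht n).trans ?_
    rw [t1g_tau_im]
    have e1 : Real.exp (2 * (2 * Real.pi * (y / 2))) * Real.exp (-(2 * Real.pi * y)) ^ (n + 1) =
        Real.exp (-(2 * Real.pi * y)) ^ n := by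
      rw [pow_succ, mul_comm, mul_assoc, ← Real.exp_add]
      have : -(2 * Real.pi * y) + 2 * (2 * Real.pi * (y / 2)) = 0 := by ring
      rw [this, Real.exp_zero, mul_one]
    rw [mul_assoc, e1]
    have e2 : Real.exp (-(2 * Real.pi * y)) ≤ 1 / 2 := by
      refine le_trans (Real.exp_le_exp.2 ?_) hq
      nlinarith
    have e3 : Real.exp (-(2 * Real.pi * y)) ^ n ≤ (1 / 2) ^ n :=
      pow_le_pow_left₀ (Real.exp_pos _).le e2 n
    linarith
  · have := thp_multipliable (I * y) him t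
    simp_rw [t1_fact] at this
    exact this

theorem t1g_strip {y : ℝ} (hy : 1 ≤ y) {t : ℂ} (ht : |t.im| ≤ y / 2) :
    ‖th (I * y) t‖ ≤ Real.exp (Real.pi * y / 2 + 6) := by
  unfold th
  rw [norm_mul, Real.exp_add]
  refine mul_le_mul ?_ (t1g_thp hy ht) (norm_nonneg _) (Real.exp_pos _).le
  refine (t1g_norm_sin _).trans ?_
  apply Real.exp_le_exp.2
  have e : ((Real.pi : ℂ) * t).im = Real.pi * t.im := by simp
  rw [e, abs_mul, abs_of_pos Real.pi_pos]
  nlinarith [Real.pi_pos]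

theorem t1g_th {y : ℝ} (hy : 1 ≤ y) (t : ℂ) :
    ‖th (I * y) t‖ ≤ Real.exp ((4 * Real.pi + 6) * (y + t.im ^ 2 / y)) := by
  have hy0 : 0 < y := by linarith
  have him : 0 < (I * (y : ℂ)).im := by rw [t1g_tau_im]; exact hy0
  have hpi := Real.pi_pos
  set n : ℤ := round (t.im / y) with hn
  have h1 : |t.im / y - n| ≤ 1 / 2 := abs_sub_round _
  set t₀ : ℂ := t - n * (I * y) with ht₀
  have him0 : t₀.im = t.im - n * y := by simp [ht₀]
  have h2 : |t₀.im| ≤ y / 2 := by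
    have e : t₀.im = (t.im / y - n) * y := by
      rw [him0]
      field_simp
    rw [e, abs_mul, abs_of_pos hy0]
    nlinarith
  have h3 := N0_shift (I * y) him 0 n t₀
  have e3 : t₀ + ((0 : ℤ) : ℂ) + n * (I * y) = t := by rw [ht₀]; push_cast; ring
  rw [e3] at h3
  unfold N0 at h3
  rw [h3, norm_mul, norm_au, t1g_tau_im]
  have h4 := t1g_strip hy h2
  have hnn : |(n : ℝ)| ≤ (n : ℝ) ^ 2 := by
    have : |n| ≤ n ^ 2 := by
      rw [← sq_abs n]
      rcases eq_or_ne n 0 with h | h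
      · simp [h]
      · have : 1 ≤ |n| := Int.one_le_abs h
        nlinarith
    exact_mod_cast this
  have hx : (n : ℝ) ^ 2 ≤ 2 * (t.im / y) ^ 2 + 1 / 2 := by
    have h5 : |(n : ℝ)| ≤ |t.im / y| + 1 / 2 := by
      have := abs_sub_abs_le_abs_sub (n : ℝ) (t.im / y)
      rw [abs_sub_comm] at this
      linarith
    have h6 : (n : ℝ) ^ 2 ≤ (|t.im / y| + 1 / 2) ^ 2 := by
      rw [← sq_abs (n : ℝ)]
      exact pow_le_pow_left₀ (abs_nonneg _) h5 2
    have h7 : |t.im / y| ^ 2 = (t.im / y) ^ 2 := sq_abs _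
    nlinarith [sq_nonneg (|t.im / y| - 1 / 2)]
  have hA : Real.pi * (n : ℝ) ^ 2 * y + 2 * Real.pi * n * t₀.im ≤
      2 * Real.pi * y * (n : ℝ) ^ 2 := by
    have a1 : (n : ℝ) * t₀.im ≤ (n : ℝ) ^ 2 * (y / 2) := by
      calc (n : ℝ) * t₀.im ≤ |(n : ℝ) * t₀.im| := le_abs_self _
        _ = |(n : ℝ)| * |t₀.im| := abs_mul _ _
        _ ≤ |(n : ℝ)| * (y / 2) := mul_le_mul_of_nonneg_left h2 (abs_nonneg _)
        _ ≤ (n : ℝ) ^ 2 * (y / 2) := mul_le_mul_of_nonneg_right hnn (by positivity)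
    nlinarith [mul_le_mul_of_nonneg_left a1 (by positivity : (0 : ℝ) ≤ 2 * Real.pi)]
  have hB : 2 * Real.pi * y * (n : ℝ) ^ 2 ≤ 4 * Real.pi * (t.im ^ 2 / y) + Real.pi * y := by
    have b1 := mul_le_mul_of_nonneg_left hx (by positivity : (0 : ℝ) ≤ 2 * Real.pi * y)
    have b2 : 2 * Real.pi * y * (2 * (t.im / y) ^ 2 + 1 / 2) =
        4 * Real.pi * (t.im ^ 2 / y) + Real.pi * y := by
      field_simp
      ring
    linarith
  calc Real.exp (Real.pi * (n : ℝ) ^ 2 * y + 2 * Real.pi * n * t₀.im) * ‖th (I * y) t₀‖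
      ≤ Real.exp (Real.pi * (n : ℝ) ^ 2 * y + 2 * Real.pi * n * t₀.im) *
        Real.exp (Real.pi * y / 2 + 6) := mul_le_mul_of_nonneg_left h4 (Real.exp_pos _).le
    _ = Real.exp (Real.pi * (n : ℝ) ^ 2 * y + 2 * Real.pi * n * t₀.im + (Real.pi * y / 2 + 6)) :=
        (Real.exp_add _ _).symm
    _ ≤ Real.exp ((4 * Real.pi + 6) * (y + t.im ^ 2 / y)) := by
        apply Real.exp_le_exp.2
        have c1 : 0 ≤ t.im ^ 2 / y := by positivity
        have c2 : 0 ≤ Real.pi * y := by positivity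
        nlinarith

/-- Cauchy's estimate -/
theorem t1g_deriv {y C : ℝ} (hy : 1 ≤ y) (hC : 0 ≤ C) {g : ℂ → ℂ} (hg : Differentiable ℂ g)
    (hb : ∀ t, ‖g t‖ ≤ Real.exp (C * (y + t.im ^ 2 / y))) (t : ℂ) :
    ‖deriv g t‖ ≤ Real.exp ((3 * C) * (y + t.im ^ 2 / y)) := by
  have hy0 : 0 < y := by linarith
  have h1 := Complex.norm_deriv_le_of_forall_mem_sphere_norm_le (c := t) (R := 1)
    (C := Real.exp ((3 * C) * (y + t.im ^ 2 / y))) (f := g) one_pos hg.diffContOnCl (by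
      intro z hz
      refine (hb z).trans (Real.exp_le_exp.2 ?_)
      have h2 : |z.im - t.im| ≤ 1 := by
        have h3 : ‖z - t‖ = 1 := by
          rw [← dist_eq_norm]
          exact Metric.mem_sphere.1 hz
        have h4 := Complex.abs_im_le_norm (z - t)
        rw [h3, Complex.sub_im] at h4
        exact h4
      have h3 : z.im ^ 2 ≤ 2 * t.im ^ 2 + 2 := by
        have h5 := abs_le.1 h2
        have h6 : (z.im - t.im) ^ 2 ≤ 1 := by
          rw [← sq_abs]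
          have := abs_nonneg (z.im - t.im)
          nlinarith
        nlinarith [sq_nonneg (z.im - t.im - t.im)]
      have h4 : z.im ^ 2 / y ≤ (2 * t.im ^ 2 + 2) / y := by
        exact div_le_div_of_nonneg_right h3 hy0.le
      have h5 : (2 * t.im ^ 2 + 2) / y ≤ 2 * (t.im ^ 2 / y) + 2 * y := by
        have e : (2 * t.im ^ 2 + 2) / y = 2 * (t.im ^ 2 / y) + 2 / y := by
          field_simp
        rw [e]
        have : 2 / y ≤ 2 * y := by
          rw [div_le_iff₀ hy0]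
          nlinarith
        linarith
      have h6 : 0 ≤ t.im ^ 2 / y := by positivity
      nlinarith)
  rw [div_one] at h1
  exact h1

theorem t1g_sE : ∃ C : ℝ, 0 ≤ C ∧ ∀ y : ℝ, 1 ≤ y → ‖sE (I * y)‖ ≤ C := by
  have hpi := Real.pi_pos
  have hq := t1g_q
  refine ⟨Real.pi ^ 2 / 3 + 8 * Real.pi ^ 2 * (4 * 2), by positivity, fun y hy => ?_⟩
  have hy0 : 0 < y := by linarith
  have him : 0 < (I * (y : ℂ)).im := by rw [t1g_tau_im]; exact hy0
  rw [sE_eq _ him]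
  have hsum : HasSum (fun n : ℕ => (4 : ℝ) * (1 / 2) ^ n) (4 * 2) := hasSum_geometric_two.mul_left 4
  have hterm : ∀ n : ℕ, ‖ee ((n + 1) * (I * y)) / (1 - ee ((n + 1) * (I * y))) ^ 2‖ ≤
      4 * (1 / 2) ^ n := by
    intro n
    have e1 : ‖ee ((n + 1) * (I * y))‖ ≤ (1 / 2) ^ (n + 1) := by
      rw [t1_norm_ee]
      have e2 : (((n : ℂ) + 1) * (I * y)).im = (n + 1) * y := by simp
      rw [e2]
      have e3 : Real.exp (-(2 * Real.pi * ((n + 1) * y))) =
          Real.exp (-(2 * Real.pi * y)) ^ (n + 1) := by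
        rw [← Real.exp_nat_mul]
        congr 1
        push_cast
        ring
      rw [e3]
      refine pow_le_pow_left₀ (Real.exp_pos _).le ?_ _
      refine le_trans (Real.exp_le_exp.2 ?_) hq
      nlinarith
    have e4 : ‖ee ((n + 1) * (I * y))‖ ≤ 1 / 2 := by
      refine e1.trans ?_
      calc ((1 : ℝ) / 2) ^ (n + 1) ≤ (1 / 2) ^ 1 :=
            pow_le_pow_of_le_one (by norm_num) (by norm_num) (by omega)
        _ = 1 / 2 := pow_one _
    have e5 : 1 / 2 ≤ ‖1 - ee ((n + 1) * (I * y))‖ := by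
      have := norm_sub_norm_le (1 : ℂ) (ee ((n + 1) * (I * y)))
      rw [norm_one] at this
      linarith
    rw [norm_div, norm_pow, div_le_iff₀ (by positivity)]
    have e6 : (1 / 4 : ℝ) ≤ ‖1 - ee ((n + 1) * (I * y))‖ ^ 2 := by nlinarith
    have e7 : (0 : ℝ) < (1 / 2) ^ n := by positivity
    rw [pow_succ] at e1
    nlinarith
  have hts : ‖∑' n : ℕ, ee ((n + 1) * (I * y)) / (1 - ee ((n + 1) * (I * y))) ^ 2‖ ≤ 4 * 2 :=
    tsum_of_norm_bounded hsum hterm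
  refine (norm_sub_le _ _).trans ?_
  have e1 : ‖(Real.pi : ℂ) ^ 2 / 3‖ = Real.pi ^ 2 / 3 := by
    rw [norm_div, norm_pow, Complex.norm_real, Real.norm_eq_abs, abs_of_pos hpi]
    simp
  have e2 : ‖(8 : ℂ) * (Real.pi : ℂ) ^ 2‖ = 8 * Real.pi ^ 2 := by
    rw [norm_mul, norm_pow, Complex.norm_real, Real.norm_eq_abs, abs_of_pos hpi]
    simp
  rw [e1, norm_mul, e2]
  have := mul_le_mul_of_nonneg_left hts (by positivity : (0 : ℝ) ≤ 8 * Real.pi ^ 2)
  linarith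

/-- T1. PROOF. Let `τ = iy`, `y ≥ 1`. (1) For `0 ≤ Im t ≤ y` (and `-1 ≤ Im t ≤ y + 1`): `‖sin πt‖ ≤ e^{π |Im t|}` and with `p = e^{-2πy}` the factors of `thp` are
`≤ 1 + p^n e^{2π|Im t|}`, so `∏ ≤ exp(2 e^{2π|Im t|} ∑_{n≥1} p^n) ≤ exp(2 e^{2π(|Im t| - y)} / (1 - e^{-2π}))`, bounded by a constant for `|Im t| ≤ y + 1`; so
`‖th t‖ ≤ e^{Cy}`. (2) Every `t` is `t₀ + nτ` with `0 ≤ Im t₀ ≤ y`, `|n| ≤ |Im t|/y + 1`, and `‖th t‖ = ‖au τ 0 n t₀‖ ‖th t₀‖` (`N0_shift`, `norm_au`: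
`‖au‖ = exp(π n² y + 2π n Im t₀)`), which is `≤ exp(C (y + (Im t)²/y))`. (3) `N1 = th'`, and `th''`, by Cauchy's estimate on the circle of radius `1` around `t`
(`(Im t + 1)² ≤ 2 (Im t)² + 2`). (4) `‖sE (iy)‖ ≤ C` for `y ≥ 1` (`sE_eq`), `N2 = th'² - th th'' - s th²`. -/
theorem grow_unif : ∃ C : ℝ, 1 ≤ C ∧ ∀ y : ℝ, 1 ≤ y → ∀ t : ℂ, ‖N0 (I * y) t‖ ≤ Real.exp (C * (y + t.im ^ 2 / y)) ∧
    ‖N1 (I * y) t‖ ≤ Real.exp (C * (y + t.im ^ 2 / y)) ∧ ‖N2 (I * y) (sE (I * y)) t‖ ≤ Real.exp (C * (y + t.im ^ 2 / y)) ∧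
    ‖sE (I * y)‖ ≤ C := by
  obtain ⟨C₁, hC₁, hsE⟩ := t1g_sE
  have hpi := Real.pi_pos
  set C₀ : ℝ := 4 * Real.pi + 6 with hC₀
  have hC₀1 : 1 ≤ C₀ := by rw [hC₀]; linarith
  refine ⟨10 * C₀ + C₁ + 2, by linarith, fun y hy t => ?_⟩
  have hy0 : 0 < y := by linarith
  have him : 0 < (I * (y : ℂ)).im := by rw [t1g_tau_im]; exact hy0
  have hd0 : Differentiable ℂ (th (I * y)) := th_differentiable _ him
  have hd1 : Differentiable ℂ (deriv (th (I * y))) := t5_cont_deriv _ him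
  have hb0 : ∀ t, ‖th (I * y) t‖ ≤ Real.exp (C₀ * (y + t.im ^ 2 / y)) := fun t => t1g_th hy t
  have hb1 : ∀ t, ‖deriv (th (I * y)) t‖ ≤ Real.exp ((3 * C₀) * (y + t.im ^ 2 / y)) :=
    fun t => t1g_deriv hy (by linarith) hd0 hb0 t
  have hb2 : ∀ t, ‖deriv (deriv (th (I * y))) t‖ ≤
      Real.exp ((3 * (3 * C₀)) * (y + t.im ^ 2 / y)) :=
    fun t => t1g_deriv hy (by linarith) hd1 hb1 t
  set W : ℝ := y + t.im ^ 2 / y with hW
  have hW1 : 1 ≤ W := by
    have : 0 ≤ t.im ^ 2 / y := by positivity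
    rw [hW]
    linarith
  have h0 := hb0 t
  have h1 := hb1 t
  have h2 := hb2 t
  rw [← hW] at h0 h1 h2
  have hs := hsE y hy
  have mono : ∀ a b : ℝ, a ≤ b → Real.exp (a * W) ≤ Real.exp (b * W) := fun a b hab =>
    Real.exp_le_exp.2 (mul_le_mul_of_nonneg_right hab (by linarith))
  refine ⟨h0.trans (mono _ _ (by linarith)), h1.trans (mono _ _ (by linarith)), ?_,
    hs.trans (by linarith)⟩
  unfold N2
  set E : ℝ := Real.exp ((10 * C₀) * W) with hE
  have hE0 : 0 < E := Real.exp_pos _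
  have a1 : ‖deriv (th (I * y)) t ^ 2‖ ≤ E := by
    rw [norm_pow]
    calc ‖deriv (th (I * y)) t‖ ^ 2 ≤ Real.exp ((3 * C₀) * W) ^ 2 :=
          pow_le_pow_left₀ (norm_nonneg _) h1 2
      _ = Real.exp ((6 * C₀) * W) := by
          rw [← Real.exp_nat_mul]
          congr 1
          push_cast
          ring
      _ ≤ E := mono _ _ (by linarith)
  have a2 : ‖th (I * y) t * deriv (deriv (th (I * y))) t‖ ≤ E := by
    rw [norm_mul]
    calc ‖th (I * y) t‖ * ‖deriv (deriv (th (I * y))) t‖ ≤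
          Real.exp (C₀ * W) * Real.exp ((3 * (3 * C₀)) * W) :=
          mul_le_mul h0 h2 (norm_nonneg _) (Real.exp_pos _).le
      _ = E := by
          rw [← Real.exp_add, hE]
          congr 1
          ring
  have a3 : ‖sE (I * y) * th (I * y) t ^ 2‖ ≤ C₁ * E := by
    rw [norm_mul, norm_pow]
    refine mul_le_mul hs ?_ (by positivity) hC₁
    calc ‖th (I * y) t‖ ^ 2 ≤ Real.exp (C₀ * W) ^ 2 := pow_le_pow_left₀ (norm_nonneg _) h0 2
      _ = Real.exp ((2 * C₀) * W) := by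
          rw [← Real.exp_nat_mul]
          congr 1
          push_cast
          ring
      _ ≤ E := mono _ _ (by linarith)
  have a4 : 2 + C₁ ≤ Real.exp ((C₁ + 2) * W) := by
    calc 2 + C₁ ≤ (C₁ + 2) * W + 1 := by nlinarith
      _ ≤ Real.exp ((C₁ + 2) * W) := Real.add_one_le_exp _
  calc ‖deriv (th (I * y)) t ^ 2 - th (I * y) t * deriv (deriv (th (I * y))) t -
        sE (I * y) * th (I * y) t ^ 2‖ ≤ E + E + C₁ * E := by
        refine (norm_sub_le _ _).trans ?_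
        have := norm_sub_le (deriv (th (I * y)) t ^ 2) (th (I * y) t * deriv (deriv (th (I * y))) t)
        linarith
    _ = (2 + C₁) * E := by ring
    _ ≤ Real.exp ((C₁ + 2) * W) * E := mul_le_mul_of_nonneg_right a4 hE0.le
    _ = Real.exp ((10 * C₀ + C₁ + 2) * W) := by
        rw [hE, ← Real.exp_add]
        congr 1
        ring

end Pool.Agent.MSK
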