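import Pool.Agent.Lib.MP_f58a57_nt.K.Defs
import Pool.Agent.Lib.MP_f58a57_nt.K.T1_Grow
import Pool.Agent.Lib.MP_f58a57_nt.K.A1_Deriv

/-! # K/D3_Lin: the linear forms -/

open Complex

noncomputable section

namespace Pool.Agent.MSK

open MSD MSP

variable {d : ℕ}

theorem d3_cl_eq {σ : Type*} (p : MvPolynomial σ ℂ) (s : Finset (σ →₀ ℕ)) (h : p.support ⊆ s) :
    cl p = ∑ m ∈ s, ‖p.coeff m‖ := by
  unfold cl
  refine Finset.sum_subset h fun i _ hi => ?_
  rw [MvPolynomial.notMem_support_iff.1 hi]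
  simp

theorem d3_cl_nonneg {σ : Type*} (p : MvPolynomial σ ℂ) : 0 ≤ cl p :=
  Finset.sum_nonneg fun _ _ => norm_nonneg _

theorem d3_cl_zero {σ : Type*} : cl (0 : MvPolynomial σ ℂ) = 0 := by
  simp [cl]

theorem cl_add {σ : Type*} (p q : MvPolynomial σ ℂ) : cl (p + q) ≤ cl p + cl q := by
  classical
  rw [d3_cl_eq (p + q) (p.support ∪ q.support) MvPolynomial.support_add,
    d3_cl_eq p (p.support ∪ q.support) Finset.subset_union_left,
    d3_cl_eq q (p.support ∪ q.support) Finset.subset_union_right, ← Finset.sum_add_distrib]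
  refine Finset.sum_le_sum fun i _ => ?_
  rw [MvPolynomial.coeff_add]
  exact norm_add_le _ _

theorem cl_monomial {σ : Type*} (m : σ →₀ ℕ) (a : ℂ) : cl (MvPolynomial.monomial m a) = ‖a‖ := by
  classical
  rw [d3_cl_eq _ {m} MvPolynomial.support_monomial_subset, Finset.sum_singleton, MvPolynomial.coeff_monomial,
    if_pos rfl]

theorem d3_cl_sum {σ ι : Type*} (s : Finset ι) (p : ι → MvPolynomial σ ℂ) :
    cl (∑ i ∈ s, p i) ≤ ∑ i ∈ s, cl (p i) := by
  classical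
  induction s using Finset.induction_on with
  | empty => simp [d3_cl_zero]
  | insert a s ha ih =>
    rw [Finset.sum_insert ha, Finset.sum_insert ha]
    exact (cl_add _ _).trans (by linarith)

/-- D3a. PROOF. as for `mlen` (P/A1_Len): `cl (p q) ≤ cl p · cl q`, `cl (p + q) ≤ cl p + cl q`, `cl 1 ≤ 1`. -/
theorem cl_mul {σ : Type*} (p q : MvPolynomial σ ℂ) : cl (p * q) ≤ cl p * cl q := by
  have e : p * q = ∑ m ∈ p.support, ∑ n ∈ q.support, MvPolynomial.monomial (m + n) (p.coeff m * q.coeff n) := by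
    conv_lhs => rw [p.as_sum, q.as_sum, Finset.sum_mul_sum]
    refine Finset.sum_congr rfl fun m _ => Finset.sum_congr rfl fun n _ => ?_
    rw [MvPolynomial.monomial_mul]
  rw [e]
  refine (d3_cl_sum _ _).trans ?_
  have h : cl p * cl q = ∑ i ∈ p.support, ∑ j ∈ q.support, ‖p.coeff i‖ * ‖q.coeff j‖ := by
    unfold cl
    rw [Finset.sum_mul_sum]
  rw [h]
  refine Finset.sum_le_sum fun i _ => ?_
  refine (d3_cl_sum _ _).trans ?_
  refine Finset.sum_le_sum fun j _ => ?_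
  rw [cl_monomial, norm_mul]

/-- `tt` is linear. -/
theorem d3_tt (z : ℂ) (w : Fin d → ℂ) (l : Fin (d + 1)) : ∑ i : Fin d, tt z (Pi.single i 1) l * w i = tt z w l := by
  unfold tt
  refine Fin.cases ?_ (fun j => ?_) l
  · simp only [Fin.cons_zero]
    rw [← Finset.sum_neg_distrib]
    refine Finset.sum_congr rfl fun i _ => ?_
    have h1 : ∑ j : Fin d, z ^ (j.val + 1) * (Pi.single i (1 : ℂ) : Fin d → ℂ) j = z ^ (i.val + 1) := by
      rw [Finset.sum_eq_single i]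
      · rw [Pi.single_eq_same, mul_one]
      · intro j _ hj
        rw [Pi.single_eq_of_ne hj, mul_zero]
      · intro hi
        exact absurd (Finset.mem_univ i) hi
    rw [h1, neg_mul]
  · simp only [Fin.cons_succ]
    rw [Finset.sum_eq_single j]
    · rw [Pi.single_eq_same, one_mul]
    · intro i _ hi
      rw [Pi.single_eq_of_ne hi.symm, zero_mul]
    · intro hi
      exact absurd (Finset.mem_univ j) hi

/-- `As` is linear. -/
theorem d3_As (P : Par d) (s : ℂ) (w : Fin d → ℂ) (j : Fin d) :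
    ∑ i : Fin d, As P s (Pi.single i 1) j * w i = As P s w j := by
  unfold As
  rw [← d3_tt P.z w j.succ, ← d3_tt P.z w j.castSucc, ← d3_tt P.z w (Fin.last d)]
  simp only [Finset.mul_sum, ← Finset.sum_add_distrib, ← Finset.sum_sub_distrib]
  refine Finset.sum_congr rfl fun i _ => ?_
  ring

/-- D3b. PROOF. `As` is linear in `w`. -/
theorem lin_eval (P : Par d) (D : Dt d) (w : Fin d → ℂ) (t : Fin (d + 1) → ℂ) (j : Fin d) :
    MvPolynomial.eval (Sum.elim w (fun l => D.ps l (t l))) (lin P D j) = Xi P D w t j := by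
  unfold lin Xi
  simp only [map_sub, map_add, map_mul, map_sum, MvPolynomial.eval_C, MvPolynomial.eval_X, Sum.elim_inl, Sum.elim_inr]
  rw [← d3_As P D.s w j, Finset.mul_sum]
  congr 1
  refine Finset.sum_congr rfl fun i _ => ?_
  ring

/-- degree and length -/
def d3_B {σ : Type*} (e : ℕ) (H : ℝ) (p : MvPolynomial σ ℂ) : Prop := p.totalDegree ≤ e ∧ cl p ≤ H

theorem d3_mono {σ : Type*} {e e' : ℕ} {H H' : ℝ} {p : MvPolynomial σ ℂ} (h : d3_B e H p) (he : e ≤ e')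
    (hH : H ≤ H') : d3_B e' H' p := ⟨h.1.trans he, h.2.trans hH⟩

theorem d3_C {σ : Type*} (c : ℂ) : d3_B 0 ‖c‖ (MvPolynomial.C c : MvPolynomial σ ℂ) := by
  refine ⟨(MvPolynomial.totalDegree_C c).le, ?_⟩
  rw [← MvPolynomial.monomial_zero', cl_monomial]

theorem d3_var {σ : Type*} (v : σ) : d3_B 1 1 (MvPolynomial.X v : MvPolynomial σ ℂ) := by
  refine ⟨(MvPolynomial.totalDegree_X v).le, ?_⟩
  change cl (MvPolynomial.monomial (Finsupp.single v 1) (1 : ℂ)) ≤ 1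
  rw [cl_monomial]
  simp

theorem d3_add {σ : Type*} {e : ℕ} {H H' : ℝ} {p q : MvPolynomial σ ℂ} (h : d3_B e H p) (h' : d3_B e H' q) :
    d3_B e (H + H') (p + q) := by
  refine ⟨(MvPolynomial.totalDegree_add _ _).trans (max_le h.1 h'.1), ?_⟩
  exact (cl_add _ _).trans (add_le_add h.2 h'.2)

theorem d3_mul {σ : Type*} {e e' : ℕ} {H H' : ℝ} {p q : MvPolynomial σ ℂ} (h : d3_B e H p) (h' : d3_B e' H' q) :
    d3_B (e + e') (H * H') (p * q) := by
  refine ⟨(MvPolynomial.totalDegree_mul _ _).trans (add_le_add h.1 h'.1), ?_⟩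
  exact (cl_mul _ _).trans (mul_le_mul h.2 h'.2 (d3_cl_nonneg _) ((d3_cl_nonneg _).trans h.2))

theorem d3_sub {σ : Type*} {e : ℕ} {H H' : ℝ} {p q : MvPolynomial σ ℂ} (h : d3_B e H p) (h' : d3_B e H' q) :
    d3_B e (H + H') (p - q) := by
  have h1 := d3_mul (d3_C (σ := σ) (-1)) h'
  have e1 : MvPolynomial.C (-1 : ℂ) * q = -q := by
    rw [map_neg, map_one, neg_one_mul]
  rw [e1] at h1
  rw [sub_eq_add_neg]
  exact d3_add h (d3_mono h1 (by omega) (by simp))

theorem d3_sum {σ ι : Type*} (s : Finset ι) (p : ι → MvPolynomial σ ℂ) (e : ℕ) (H : ι → ℝ)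
    (h : ∀ i ∈ s, d3_B e (H i) (p i)) : d3_B e (∑ i ∈ s, H i) (∑ i ∈ s, p i) := by
  refine ⟨MvPolynomial.totalDegree_finsetSum_le fun i hi => (h i hi).1, ?_⟩
  exact (d3_cl_sum _ _).trans (Finset.sum_le_sum fun i hi => (h i hi).2)

/-- the entries of `tt` at the unit vectors. -/
theorem d3_tt_bd (z : ℂ) (i : Fin d) (l : Fin (d + 1)) : ‖tt z (Pi.single i 1) l‖ ≤ (1 + ‖z‖) ^ d := by
  have h1 : (1 : ℝ) ≤ 1 + ‖z‖ := by linarith [norm_nonneg z]
  unfold tt
  refine Fin.cases ?_ (fun j => ?_) l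
  · simp only [Fin.cons_zero]
    have h2 : ∑ j : Fin d, z ^ (j.val + 1) * (Pi.single i (1 : ℂ) : Fin d → ℂ) j = z ^ (i.val + 1) := by
      rw [Finset.sum_eq_single i]
      · rw [Pi.single_eq_same, mul_one]
      · intro j _ hj
        rw [Pi.single_eq_of_ne hj, mul_zero]
      · intro hi
        exact absurd (Finset.mem_univ i) hi
    rw [h2, norm_neg, norm_pow]
    calc ‖z‖ ^ (i.val + 1) ≤ (1 + ‖z‖) ^ (i.val + 1) := pow_le_pow_left₀ (norm_nonneg _) (by linarith) _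
      _ ≤ (1 + ‖z‖) ^ d := pow_le_pow_right₀ h1 i.isLt
  · simp only [Fin.cons_succ]
    by_cases h : j = i
    · subst h
      rw [Pi.single_eq_same, norm_one]
      exact one_le_pow₀ h1
    · rw [Pi.single_eq_of_ne h, norm_zero]
      exact pow_nonneg (zero_le_one.trans h1) _

/-- D3c. PROOF. `‖om‖^{±1} ≤ e^{C₀y}`, `‖s‖ ≤ ‖kap‖ + C ‖om‖⁻²` (`grow_unif`: `‖sE‖ ≤ C`), for `y ≥ Y` all constants are absorbed. -/
theorem lin_bd (P : Par d) (C₀ : ℝ) : ∃ C Y : ℝ, 1 ≤ C ∧ 1 ≤ Y ∧ ∀ y : ℝ, Y ≤ y → ∀ D : Dt d, Adm C₀ y P D → ∀ j,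
    cl (lin P D j) ≤ Real.exp (C * y) ∧ (lin P D j).totalDegree ≤ 1 := by
  obtain ⟨C1, hC1, hg⟩ := grow_unif
  -- the constants
  obtain ⟨T, hT⟩ : ∃ T : ℝ, T = (1 + ‖P.z‖) ^ d := ⟨_, rfl⟩
  have hz0 : 0 ≤ ‖P.z‖ := norm_nonneg _
  have hT1 : 1 ≤ T := by rw [hT]; exact one_le_pow₀ (by linarith)
  obtain ⟨B, hB⟩ : ∃ B : ℝ, B = ∑ l, ‖(P.b l : ℂ)‖ := ⟨_, rfl⟩
  have hBb : ∀ l, ‖(P.b l : ℂ)‖ ≤ B := by
    intro l
    rw [hB]
    exact Finset.single_le_sum (f := fun l => ‖(P.b l : ℂ)‖) (fun _ _ => norm_nonneg _) (Finset.mem_univ l)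
  have hB0 : 0 ≤ B := (norm_nonneg _).trans (hBb 0)
  have hd : (0 : ℝ) ≤ d := Nat.cast_nonneg _
  obtain ⟨S, hS⟩ : ∃ S : ℝ, S = 1 + B + ‖P.z‖ := ⟨_, rfl⟩
  have hS1 : 1 ≤ S := by rw [hS]; linarith
  obtain ⟨K, hK⟩ : ∃ K : ℝ, K = d * (T + C1 * (S * T)) + S := ⟨_, rfl⟩
  have hST : 0 ≤ S * T := by positivity
  have hCST : 0 ≤ C1 * (S * T) := by positivity
  have hK1 : 1 ≤ K := by
    rw [hK]
    have : 0 ≤ (d : ℝ) * (T + C1 * (S * T)) := by positivity
    linarith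
  refine ⟨3 * |C₀| + K, 1, by linarith [abs_nonneg C₀], le_rfl, fun y hy D hD j => ?_⟩
  obtain ⟨E, hE⟩ : ∃ E : ℝ, E = Real.exp (|C₀| * y) := ⟨_, rfl⟩
  have hy0 : 0 ≤ y := zero_le_one.trans hy
  have hE1 : 1 ≤ E := by
    rw [hE]
    exact Real.one_le_exp (by positivity)
  have hE0 : 0 ≤ E := zero_le_one.trans hE1
  have hCy : C₀ * y ≤ |C₀| * y := mul_le_mul_of_nonneg_right (le_abs_self _) hy0
  have hEC : Real.exp (C₀ * y) ≤ E := by
    rw [hE]
    exact Real.exp_le_exp.2 hCy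
  have hom1 : ‖D.om‖ ≤ E := hD.om₁.trans hEC
  have hom0 : 0 < ‖D.om‖ := norm_pos_iff.2 D.ne
  have hom2 : ‖D.om‖⁻¹ ≤ E := by
    have h1 := hD.om₂
    have h2 : ‖D.om‖⁻¹ ≤ (Real.exp (-(C₀ * y)))⁻¹ := inv_anti₀ (Real.exp_pos _) h1
    rw [← Real.exp_neg, neg_neg] at h2
    exact h2.trans hEC
  have hkap : ‖D.kap‖ ≤ E := hD.kap.trans hEC
  have hsE : ‖sE D.τ‖ ≤ C1 := by
    rw [hD.τ]
    exact (hg y hy 0).2.2.2
  have hrh : ‖rh‖ ≤ 1 := by
    unfold rh
    rw [norm_div, norm_neg, Complex.norm_I]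
    norm_num
  have hEE : E ≤ E ^ 2 := by nlinarith
  have hs : ‖D.s‖ ≤ C1 * E ^ 2 := by
    have h1 : ‖rh‖ ≤ 1 / 2 := by
      unfold rh
      rw [norm_div, norm_neg, Complex.norm_I]
      norm_num
    have h2 : ‖D.kap - sE D.τ / D.om ^ 2‖ ≤ E + C1 * E ^ 2 := by
      refine (norm_sub_le _ _).trans (add_le_add hkap ?_)
      rw [norm_div, norm_pow, div_eq_mul_inv]
      refine mul_le_mul hsE ?_ (by positivity) (by linarith)
      rw [← inv_pow]
      exact pow_le_pow_left₀ (by positivity) hom2 2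
    unfold Dt.s
    rw [norm_mul]
    calc ‖rh‖ * ‖D.kap - sE D.τ / D.om ^ 2‖ ≤ 1 / 2 * (E + C1 * E ^ 2) :=
          mul_le_mul h1 h2 (norm_nonneg _) (by norm_num)
      _ ≤ C1 * E ^ 2 := by nlinarith
  have hAs : ∀ i : Fin d, ‖As P D.s (Pi.single i 1) j‖ ≤ (T + C1 * (S * T)) * E ^ 2 := by
    intro i
    have ht := d3_tt_bd P.z i
    rw [← hT] at ht
    unfold As
    have h3 : ‖tt P.z (Pi.single i 1) j.castSucc + (P.b j.succ : ℂ) * tt P.z (Pi.single i 1) (Fin.last d)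
        - P.z * tt P.z (Pi.single i 1) j.succ‖ ≤ S * T := by
      refine (norm_sub_le _ _).trans ?_
      have h4 : ‖tt P.z (Pi.single i 1) j.castSucc + (P.b j.succ : ℂ) * tt P.z (Pi.single i 1) (Fin.last d)‖
          ≤ T + B * T := by
        refine (norm_add_le _ _).trans (add_le_add (ht _) ?_)
        rw [norm_mul]
        exact mul_le_mul (hBb _) (ht _) (norm_nonneg _) hB0
      have h5 : ‖P.z * tt P.z (Pi.single i 1) j.succ‖ ≤ ‖P.z‖ * T := by
        rw [norm_mul]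
        exact mul_le_mul_of_nonneg_left (ht _) hz0
      rw [hS]
      linarith
    refine (norm_add_le _ _).trans ?_
    rw [norm_mul]
    have h6 : ‖D.s‖ * ‖tt P.z (Pi.single i 1) j.castSucc + (P.b j.succ : ℂ) * tt P.z (Pi.single i 1) (Fin.last d)
        - P.z * tt P.z (Pi.single i 1) j.succ‖ ≤ C1 * E ^ 2 * (S * T) :=
      mul_le_mul hs h3 (norm_nonneg _) (by positivity)
    have h7 := ht j.succ
    have h8 : T ≤ T * E ^ 2 := le_mul_of_one_le_right (by linarith) (by nlinarith)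
    nlinarith
  have hlin : d3_B 1 ((∑ _i : Fin d, E * ((T + C1 * (S * T)) * E ^ 2) * 1) + E * (S * 1)) (lin P D j) := by
    unfold lin
    refine d3_sub ?_ ?_
    · refine d3_sum _ _ _ _ fun i _ => ?_
      refine d3_mono (d3_mul (d3_C _) (d3_var _)) (by omega) ?_
      refine mul_le_mul_of_nonneg_right ?_ zero_le_one
      rw [norm_mul]
      exact mul_le_mul hom1 (hAs i) (norm_nonneg _) hE0
    · have h1 : d3_B 1 (1 + ‖(P.b j.succ : ℂ)‖ * 1 + ‖P.z‖ * 1)
          ((MvPolynomial.X (Sum.inr j.castSucc) : MvPolynomial (Fin d ⊕ Fin (d + 1)) ℂ)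
            + MvPolynomial.C (P.b j.succ : ℂ) * MvPolynomial.X (Sum.inr (Fin.last d))
            - MvPolynomial.C P.z * MvPolynomial.X (Sum.inr j.succ)) := by
        refine d3_sub (d3_add (d3_var _) ?_) ?_
        · exact d3_mono (d3_mul (d3_C _) (d3_var _)) (by omega) le_rfl
        · exact d3_mono (d3_mul (d3_C _) (d3_var _)) (by omega) le_rfl
      refine d3_mono (d3_mul (d3_C _) h1) (by omega) ?_
      refine mul_le_mul ?_ ?_ ?_ hE0
      · rw [norm_div, div_eq_mul_inv]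
        calc ‖rh‖ * ‖D.om‖⁻¹ ≤ 1 * E := mul_le_mul hrh hom2 (by positivity) zero_le_one
          _ = E := one_mul _
      · have := hBb j.succ
        rw [hS]
        linarith
      · positivity
  refine ⟨hlin.2.trans ?_, hlin.1⟩
  rw [Finset.sum_const, Finset.card_univ, Fintype.card_fin, nsmul_eq_mul]
  have hE3 : E ≤ E ^ 3 := by nlinarith
  have h9 : (d : ℝ) * (E * ((T + C1 * (S * T)) * E ^ 2) * 1) + E * (S * 1) ≤ K * E ^ 3 := by
    rw [hK]
    have h10 : E * S ≤ S * E ^ 3 := by nlinarith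
    nlinarith
  refine h9.trans ?_
  have h11 : Real.exp ((3 * |C₀| + K) * y) = Real.exp (K * y) * E ^ 3 := by
    rw [hE, ← Real.exp_nat_mul, ← Real.exp_add]
    congr 1
    push_cast
    ring
  rw [h11]
  refine mul_le_mul_of_nonneg_right ?_ (by positivity)
  have h12 : K ≤ K * y := le_mul_of_one_le_right (by linarith) hy
  have h13 := Real.add_one_le_exp (K * y)
  linarith

end Pool.Agent.MSK
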