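import Pool.Agent.Lib.MP_f58a57_nt.K.Defs
import Pool.Agent.Lib.MP_f58a57_nt.P.T6_Lim

/-! # K/T2_Low: lower bounds for the theta function -/

open Complex

noncomputable section

namespace Pool.Agent.MSK

open MSD MSP

variable {d : ℕ}

theorem t2_one_sub {u : ℂ} (hu : ‖u‖ ≤ 1 / 2) : Real.exp (-(2 * ‖u‖)) ≤ ‖1 - u‖ := by
  have h0 := norm_nonneg u
  have h1 : 1 - ‖u‖ ≤ ‖1 - u‖ := by
    have := norm_sub_norm_le (1 : ℂ) u
    simpa using this
  refine le_trans ?_ h1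
  have h2 : 1 + 2 * ‖u‖ ≤ Real.exp (2 * ‖u‖) := by
    have := Real.add_one_le_exp (2 * ‖u‖)
    linarith
  rw [Real.exp_neg]
  rw [inv_le_comm₀ (Real.exp_pos _) (by linarith)]
  refine le_trans ?_ h2
  rw [inv_le_comm₀ (by linarith) (by linarith), inv_eq_one_div, div_le_iff₀ (by linarith)]
  nlinarith

theorem t2_exp_pi (n : ℕ) : Real.exp (-(Real.pi * (n + 1))) ≤ (1 / 2 : ℝ) ^ (n + 1) := by
  have h1 : Real.exp (-(Real.pi * (n + 1))) = Real.exp (-Real.pi) ^ (n + 1) := by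
    rw [← Real.exp_nat_mul]
    congr 1
    push_cast
    ring
  rw [h1]
  apply pow_le_pow_left₀ (Real.exp_pos _).le
  rw [Real.exp_neg, inv_eq_one_div]
  apply one_div_le_one_div_of_le (by norm_num)
  have := Real.add_one_le_exp Real.pi
  have := Real.pi_gt_three
  linarith

theorem t2_ee_bd {y : ℝ} (hy : 1 ≤ y) {t : ℂ} (ht : |t.im| ≤ y / 2) (n : ℕ) :
    ‖ee ((n + 1) * (I * y) + t)‖ ≤ (1 / 2 : ℝ) ^ (n + 1) := by
  rw [t6_norm_ee]
  refine le_trans ?_ (t2_exp_pi n)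
  apply Real.exp_le_exp.2
  have h1 : (((n : ℂ) + 1) * (I * y) + t).im = (n + 1) * y + t.im := by
    simp
  rw [h1]
  have h2 := neg_abs_le t.im
  have hpi := Real.pi_pos
  have hn : (0 : ℝ) ≤ n := Nat.cast_nonneg n
  have h3 : ((n : ℝ) + 1) / 2 ≤ (n + 1) * y + t.im := by nlinarith
  nlinarith

theorem t2_thp_low {y : ℝ} (hy : 1 ≤ y) {t : ℂ} (ht : |t.im| ≤ y / 2) :
    Real.exp (-4) ≤ ‖thp (I * y) t‖ := by
  have him : 0 < (I * (y : ℂ)).im := by simp; linarith
  have hm := (thp_multipliable (I * y) him t).hasProd.tendsto_prod_nat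
  have hn := hm.norm
  refine ge_of_tendsto' hn (fun N => ?_)
  rw [norm_prod]
  have key : ∀ n : ℕ, Real.exp (-(4 * (1 / 2 : ℝ) ^ (n + 1))) ≤
      ‖(1 - ee ((n + 1) * (I * y) + t)) * (1 - ee ((n + 1) * (I * y) - t))‖ := by
    intro n
    have h1 := t2_ee_bd hy ht n
    have h2 : ‖ee ((n + 1) * (I * y) - t)‖ ≤ (1 / 2 : ℝ) ^ (n + 1) := by
      rw [sub_eq_add_neg]
      exact t2_ee_bd hy (by simpa using ht) n
    have h3 : (1 / 2 : ℝ) ^ (n + 1) ≤ 1 / 2 := by
      rw [pow_succ]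
      have : (1 / 2 : ℝ) ^ n ≤ 1 := pow_le_one₀ (by norm_num) (by norm_num)
      linarith
    rw [norm_mul]
    have h4 : Real.exp (-(4 * (1 / 2 : ℝ) ^ (n + 1))) = Real.exp (-(2 * (1 / 2 : ℝ) ^ (n + 1))) *
        Real.exp (-(2 * (1 / 2 : ℝ) ^ (n + 1))) := by
      rw [← Real.exp_add]; congr 1; ring
    rw [h4]
    refine mul_le_mul ?_ ?_ (Real.exp_pos _).le (norm_nonneg _)
    · refine le_trans (Real.exp_le_exp.2 ?_) (t2_one_sub (h1.trans h3))
      linarith
    · refine le_trans (Real.exp_le_exp.2 ?_) (t2_one_sub (h2.trans h3))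
      linarith
  refine le_trans ?_ (Finset.prod_le_prod (fun i _ => (Real.exp_pos _).le) (fun i _ => key i))
  rw [← Real.exp_sum]
  apply Real.exp_le_exp.2
  rw [Finset.sum_neg_distrib, ← Finset.mul_sum]
  have hs : ∑ i ∈ Finset.range N, (1 / 2 : ℝ) ^ (i + 1) ≤ 1 := by
    have h5 : ∑ i ∈ Finset.range N, (1 / 2 : ℝ) ^ (i + 1) = 1 - (1 / 2 : ℝ) ^ N := by
      induction N with
      | zero => simp
      | succ N ih => rw [Finset.sum_range_succ, ih]; ring
    rw [h5]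
    have : (0 : ℝ) ≤ (1 / 2 : ℝ) ^ N := by positivity
    linarith
  linarith

theorem t2_sin_low (a b : ℝ) : Real.sinh b ≤ ‖Complex.sin (a + b * I)‖ := by
  have h1 : Complex.sin (a + b * I) = (cexp (-(a + b * I) * I) - cexp ((a + b * I) * I)) * I / 2 := rfl
  rw [h1, norm_div, norm_mul, Complex.norm_I, mul_one]
  have h2 : ‖cexp (-(a + b * I) * I)‖ = Real.exp b := by
    rw [Complex.norm_exp]; congr 1; simp
  have h3 : ‖cexp ((a + b * I) * I)‖ = Real.exp (-b) := by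
    rw [Complex.norm_exp]; congr 1; simp
  have h4 := norm_sub_norm_le (cexp (-(a + b * I) * I)) (cexp ((a + b * I) * I))
  rw [h2, h3] at h4
  rw [Real.sinh_eq]
  have h5 : ‖(2 : ℂ)‖ = 2 := by simp
  rw [h5]
  linarith

/-- T2a. PROOF. `p = e^{-2πy}`, `x` real. `h = 1/2`: `‖sin π(h+x)‖ = cos πx ≥ 1/2`, `‖1 ± p^n e^{±2πix}‖ ≥ 1 - p^n`. `Im h = y/2`: `‖sin π(h + x)‖ ≥ sinh(πy/2) ≥ 1`,
the factors are `≥ 1 - p^(n-1/2)`. In all cases the infinite product is `≥ ∏ (1 - e^{-πn})² ≥ c > 0` (or `≥ e^{-C}`), e.g. from `‖1 - u‖ ≥ e^{-2‖u‖}` for `‖u‖ ≤ 1/2`. -/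
theorem th_low : ∃ C : ℝ, 1 ≤ C ∧ ∀ y : ℝ, 1 ≤ y → ∀ h : ℂ, (h = 1 / 2 ∨ h = I * y / 2 ∨ h = (1 + I * y) / 2) → ∀ x : ℝ, 0 ≤ x → x ≤ 1 / 8 →
    Real.exp (-(C * y)) ≤ ‖th (I * y) (h + x)‖ := by
  refine ⟨5, by norm_num, fun y hy h hh x hx0 hx1 => ?_⟩
  have hpi := Real.pi_pos
  have hpi3 := Real.pi_gt_three
  have hhalf : Real.exp (-1) ≤ 1 / 2 := by
    rw [Real.exp_neg, inv_eq_one_div]
    apply one_div_le_one_div_of_le (by norm_num)
    have := Real.add_one_le_exp (1 : ℝ)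
    linarith
  have hsinh : 1 ≤ Real.sinh (Real.pi * (y / 2)) := by
    have : Real.pi * (y / 2) ≤ Real.sinh (Real.pi * (y / 2)) := Real.self_le_sinh_iff.2 (by positivity)
    nlinarith
  have hle : Real.exp (-(5 * y)) ≤ Real.exp (-1) * Real.exp (-4) := by
    rw [← Real.exp_add]
    apply Real.exp_le_exp.2
    linarith
  refine hle.trans ?_
  rw [th, norm_mul]
  have hs : 1 / 2 ≤ ‖Complex.sin (Real.pi * (h + x))‖ ∧ |(h + x).im| ≤ y / 2 := by
    rcases hh with rfl | rfl | rfl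
    · constructor
      · have e : (Real.pi : ℂ) * (1 / 2 + x) = ((Real.pi / 2 - -(Real.pi * x) : ℝ) : ℂ) := by
          push_cast; ring
        rw [e, ← Complex.ofReal_sin, Complex.norm_real, Real.sin_pi_div_two_sub, Real.cos_neg]
        have h1 : Real.cos (Real.pi / 3) ≤ Real.cos (Real.pi * x) := by
          apply Real.cos_le_cos_of_nonneg_of_le_pi
          · positivity
          · linarith
          · nlinarith
        rw [Real.cos_pi_div_three] at h1
        exact h1.trans (le_abs_self _)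
      · simp
        linarith
    · constructor
      · have e : (Real.pi : ℂ) * (I * y / 2 + x) = ((Real.pi * x : ℝ) : ℂ) + ((Real.pi * (y / 2) : ℝ) : ℂ) * I := by
          push_cast; ring
        rw [e]
        have := t2_sin_low (Real.pi * x) (Real.pi * (y / 2))
        linarith
      · have e : (I * (y : ℂ) / 2 + x).im = y / 2 := by
          simp
        rw [e, abs_of_nonneg (by linarith)]
    · constructor
      · have e : (Real.pi : ℂ) * ((1 + I * y) / 2 + x) = ((Real.pi * (1 / 2 + x) : ℝ) : ℂ) + ((Real.pi * (y / 2) : ℝ) : ℂ) * I := by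
          push_cast; ring
        rw [e]
        have := t2_sin_low (Real.pi * (1 / 2 + x)) (Real.pi * (y / 2))
        linarith
      · have e : ((1 + I * (y : ℂ)) / 2 + x).im = y / 2 := by
          simp
        rw [e, abs_of_nonneg (by linarith)]
  exact mul_le_mul (hhalf.trans hs.1) (t2_thp_low hy hs.2) (Real.exp_pos _).le (norm_nonneg _)

/-- T2b. PROOF. `‖th (I y) x‖ ≥ |sin πx| ∏ (1 - p^n)² ≥ c |sin π x| ≥ c |x|` for real `|x| ≤ 1/4`, and `‖th'(0)‖ = π ∏ (1 - p^n)² ≥ c` (limit of `th x / x`). -/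
theorem th_low_real : ∃ c : ℝ, 0 < c ∧ ∀ y : ℝ, 1 ≤ y → (∀ x : ℝ, |x| ≤ 1 / 4 → c * |x| ≤ ‖th (I * y) x‖) ∧ c ≤ ‖deriv (th (I * y)) 0‖ := by
  refine ⟨Real.exp (-4), Real.exp_pos _, fun y hy => ⟨fun x hx => ?_, ?_⟩⟩
  · have hpi := Real.pi_pos
    rw [th, norm_mul, mul_comm]
    have e : (Real.pi : ℂ) * (x : ℂ) = ((Real.pi * x : ℝ) : ℂ) := by push_cast; ring
    have h1 : |x| ≤ ‖Complex.sin (Real.pi * (x : ℂ))‖ := by
      rw [e, ← Complex.ofReal_sin, Complex.norm_real, Real.norm_eq_abs]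
      have h2 : |Real.pi * x| ≤ Real.pi / 2 := by
        rw [abs_mul, abs_of_pos hpi]
        nlinarith [abs_nonneg x]
      have h3 := Real.mul_abs_le_abs_sin h2
      rw [abs_mul, abs_of_pos hpi] at h3
      have h4 : 2 / Real.pi * (Real.pi * |x|) = 2 * |x| := by field_simp
      rw [h4] at h3
      linarith [abs_nonneg x]
    exact mul_le_mul h1 (t2_thp_low hy (by simp; linarith)) (Real.exp_pos _).le (norm_nonneg _)
  · have him : 0 < (I * (y : ℂ)).im := by simp; linarith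
    have hd : HasDerivAt (th (I * y)) ((Real.pi : ℂ) * thp (I * y) 0) 0 := by
      have h1 : HasDerivAt (fun t : ℂ => Complex.sin (Real.pi * t)) (Real.pi : ℂ) 0 := by
        have h3 : HasDerivAt (fun t : ℂ => Complex.sin (Real.pi * t))
            (Complex.cos (Real.pi * 0) * (Real.pi * 1)) 0 :=
          (Complex.hasDerivAt_sin _).comp (0 : ℂ) ((hasDerivAt_id (0 : ℂ)).const_mul (Real.pi : ℂ))
        simpa using h3
      have h4 := (thp_differentiable (I * y) him 0).hasDerivAt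
      have h5 := h1.mul h4
      have h6 : th (I * y) = (fun t : ℂ => Complex.sin (Real.pi * t)) * thp (I * y) := by
        funext t; rfl
      rw [h6]
      simpa using h5
    rw [hd.deriv, norm_mul]
    have h7 := t2_thp_low (t := 0) hy (by simp; linarith)
    have h8 : (1 : ℝ) ≤ ‖(Real.pi : ℂ)‖ := by
      rw [Complex.norm_real, Real.norm_eq_abs, abs_of_pos Real.pi_pos]
      linarith [Real.pi_gt_three]
    nlinarith [Real.exp_pos (-4 : ℝ)]

end Pool.Agent.MSK
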