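import Pool.Agent.Lib.MP_f58a57_nt.K.Defs
import Mathlib.Analysis.Fourier.AddCircle
import Mathlib.Analysis.Complex.CauchyIntegral

/-! # K/T5_Four: truncated Fourier expansion of entire periodic functions -/

open Complex

noncomputable section

namespace Pool.Agent.MSK

open MSD MSP

variable {d : ℕ}

lemma t5_shift (G : ℂ → ℂ) (hG : Differentiable ℂ G) (hp : ∀ t, G (t + 1) = G t) (s : ℝ) :
    ∫ x : ℝ in (0:ℝ)..1, G (x + s * I) = ∫ x : ℝ in (0:ℝ)..1, G x := by
  have h := Complex.integral_boundary_rect_eq_zero_of_differentiableOn G 0 (1 + s * I) hG.differentiableOn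
  have e1 : (0 : ℂ).re = 0 := rfl
  have e2 : (0 : ℂ).im = 0 := rfl
  have e3 : (1 + s * I : ℂ).re = 1 := by simp
  have e4 : (1 + s * I : ℂ).im = s := by simp
  rw [e1, e2, e3, e4] at h
  have e5 : (∫ y : ℝ in (0:ℝ)..s, G ((1:ℝ) + y * I)) = ∫ y : ℝ in (0:ℝ)..s, G ((0:ℝ) + y * I) := by
    apply intervalIntegral.integral_congr
    intro y _
    show G (((1:ℝ) : ℂ) + y * I) = G (((0:ℝ) : ℂ) + y * I)
    have := hp (((0:ℝ) : ℂ) + y * I)
    rw [← this]
    congr 1
    push_cast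
    ring
  rw [e5] at h
  have e6 : (∫ x : ℝ in (0:ℝ)..1, G (x + (0:ℝ) * I)) = ∫ x : ℝ in (0:ℝ)..1, G x := by
    apply intervalIntegral.integral_congr
    intro x _
    show G ((x:ℂ) + ((0:ℝ):ℂ) * I) = G x
    simp
  rw [e6] at h
  linear_combination -h

/-- the Fourier coefficients -/
def t5_F (g : ℂ → ℂ) (w : ℤ) : ℂ := ∫ x : ℝ in (0:ℝ)..1, g x * ee (-(w * x))

lemma t5_ee_norm (x : ℂ) : ‖ee x‖ = Real.exp (-(2 * Real.pi * x.im)) := by
  unfold ee
  rw [Complex.norm_exp]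
  congr 1
  simp [Complex.mul_re, Complex.mul_im]

lemma t5_ee_add (x y : ℂ) : ee (x + y) = ee x * ee y := by
  unfold ee
  rw [← Complex.exp_add]
  congr 1
  ring

lemma t5_ee_int (w : ℤ) : ee (w : ℂ) = 1 := by
  unfold ee
  rw [show 2 * (Real.pi : ℂ) * I * w = w * (2 * Real.pi * I) by ring]
  exact Complex.exp_int_mul_two_pi_mul_I w

lemma t5_F_shift (g : ℂ → ℂ) (hg : Differentiable ℂ g) (hp : ∀ t, g (t + 1) = g t) (w : ℤ) (s : ℝ) :
    ∫ x : ℝ in (0:ℝ)..1, g (x + s * I) * ee (-(w * (x + s * I))) = t5_F g w := by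
  have h := t5_shift (fun t => g t * ee (-(w * t))) (by
    unfold ee
    fun_prop) (by
    intro t
    show g (t + 1) * ee (-(w * (t + 1))) = g t * ee (-(w * t))
    rw [hp t, show -((w:ℂ) * (t + 1)) = -(w * t) + ((-w : ℤ) : ℂ) by push_cast; ring, t5_ee_add, t5_ee_int, mul_one]) s
  exact h

lemma t5_F_bound (g : ℂ → ℂ) (hg : Differentiable ℂ g) (hp : ∀ t, g (t + 1) = g t) (w : ℤ) (s K : ℝ)
    (hK : ∀ x : ℝ, ‖g (x + s * I)‖ ≤ K) : ‖t5_F g w‖ ≤ K * Real.exp (2 * Real.pi * w * s) := by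
  rw [← t5_F_shift g hg hp w s]
  have h := intervalIntegral.norm_integral_le_of_norm_le_const (a := (0:ℝ)) (b := 1)
    (f := fun x : ℝ => g (x + s * I) * ee (-(w * (x + s * I)))) (C := K * Real.exp (2 * Real.pi * w * s)) (by
      intro x _
      show ‖g (x + s * I) * ee (-(w * (x + s * I)))‖ ≤ _
      rw [norm_mul, t5_ee_norm]
      have e : (-((w:ℂ) * (x + s * I))).im = -(w * s) := by
        simp [Complex.mul_im]
      rw [e]
      have e' : -(2 * Real.pi * -(w * s)) = 2 * Real.pi * w * s := by ring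
      rw [e']
      exact mul_le_mul_of_nonneg_right (hK x) (Real.exp_pos _).le)
  simpa using h

lemma t5_series (g : ℂ → ℂ) (hg : Differentiable ℂ g) (hp : ∀ t, g (t + 1) = g t) (t : ℂ)
    (hs : Summable fun w : ℤ => t5_F g w * ee (w * t)) : HasSum (fun w : ℤ => t5_F g w * ee (w * t)) (g t) := by
  have : Fact ((0:ℝ) < 1) := ⟨one_pos⟩
  set s : ℝ := t.im with hsdef
  have hper : Function.Periodic (fun x : ℝ => g (x + s * I)) 1 := by
    intro x
    show g (((x + 1 : ℝ) : ℂ) + s * I) = g (x + s * I)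
    rw [← hp (x + s * I)]
    congr 1
    push_cast
    ring
  have hcont : Continuous (fun x : ℝ => g (x + s * I)) := by
    apply hg.continuous.comp
    fun_prop
  let h : C(AddCircle (1:ℝ), ℂ) := ⟨hper.lift, continuous_coinduced_dom.mpr hcont⟩
  have hh : ∀ x : ℝ, h (x : AddCircle (1:ℝ)) = g (x + s * I) := fun x => hper.lift_coe x
  have hcoef : ∀ w : ℤ, fourierCoeff (h : AddCircle (1:ℝ) → ℂ) w = t5_F g w * ee (w * (s * I)) := by
    intro w
    rw [fourierCoeff_eq_intervalIntegral _ _ 0, ← t5_F_shift g hg hp w s]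
    rw [← intervalIntegral.integral_mul_const]
    simp only [zero_add, div_one, one_smul]
    apply intervalIntegral.integral_congr
    intro x _
    show (fourier (-w)) (x : AddCircle (1:ℝ)) • h (x : AddCircle (1:ℝ)) = g (x + s * I) * ee (-(w * (x + s * I))) * ee (w * (s * I))
    rw [hh, fourier_coe_apply, smul_eq_mul, mul_comm, mul_assoc (g _), ← t5_ee_add]
    congr 1
    unfold ee
    congr 1
    push_cast
    ring
  have hterm : ∀ w : ℤ, fourierCoeff (h : AddCircle (1:ℝ) → ℂ) w • fourier w ((t.re : ℝ) : AddCircle (1:ℝ)) = t5_F g w * ee (w * t) := by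
    intro w
    rw [hcoef, fourier_coe_apply, smul_eq_mul, mul_assoc]
    congr 1
    have : (w : ℂ) * t = w * (s * I) + w * t.re := by
      conv_lhs => rw [← Complex.re_add_im t]
      rw [hsdef]
      ring
    rw [this, t5_ee_add]
    congr 1
    unfold ee
    congr 1
    push_cast
    ring
  have hsum : Summable (fourierCoeff (h : AddCircle (1:ℝ) → ℂ)) := by
    rw [← summable_norm_iff]
    rw [← summable_norm_iff] at hs
    refine hs.congr ?_
    intro w
    rw [hcoef, norm_mul, norm_mul, t5_ee_norm, t5_ee_norm]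
    congr 3
    simp [hsdef, Complex.mul_im]
  have hfin := has_pointwise_sum_fourier_series_of_summable hsum ((t.re : ℝ) : AddCircle (1:ℝ))
  rw [hh] at hfin
  have et : (t.re : ℂ) + s * I = t := by rw [hsdef]; exact Complex.re_add_im t
  rw [et] at hfin
  simp only [hterm] at hfin
  exact hfin

lemma t5_pow_bound (n : ℕ) (hn : 1 ≤ n) : Real.exp (-(3 * n)) ≤ 1 / 2 * (1 / 4) ^ n := by
  have h1 : Real.exp (-3) ≤ 1 / 8 := by
    have h : (8:ℝ) ≤ Real.exp 3 := by
      have h2 : (2:ℝ) ≤ Real.exp 1 := by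
        have := Real.add_one_le_exp (1:ℝ)
        linarith
      have h3 : Real.exp 3 = Real.exp 1 ^ 3 := by rw [← Real.exp_nat_mul]; norm_num
      rw [h3]
      calc (8:ℝ) = 2 ^ 3 := by norm_num
        _ ≤ _ := by gcongr
    rw [Real.exp_neg, one_div]
    exact inv_anti₀ (by norm_num) h
  have h2 : Real.exp (-(3 * n)) = Real.exp (-3) ^ n := by rw [← Real.exp_nat_mul]; congr 1; ring
  rw [h2]
  calc Real.exp (-3) ^ n ≤ (1 / 8) ^ n := by gcongr
    _ = (1 / 2) ^ n * (1 / 4) ^ n := by rw [← mul_pow]; norm_num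
    _ ≤ 1 / 2 * (1 / 4) ^ n := by
      gcongr
      calc ((1:ℝ) / 2) ^ n ≤ (1 / 2) ^ 1 := pow_le_pow_of_le_one (by norm_num) (by norm_num) hn
        _ = 1 / 2 := by norm_num

lemma t5_hasSum : HasSum (fun w : ℤ => (1 / 2 : ℝ) * (1 / 4) ^ w.natAbs) (5 / 6) := by
  have h0 : HasSum (fun n : ℕ => ((1:ℝ) / 4) ^ n) (4 / 3) := by
    have := hasSum_geometric_of_lt_one (r := (1:ℝ) / 4) (by norm_num) (by norm_num)
    have e : (1 - (1:ℝ) / 4)⁻¹ = 4 / 3 := by norm_num
    rw [e] at this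
    exact this
  have h1 : HasSum (fun n : ℕ => (fun w : ℤ => (1 / 2 : ℝ) * (1 / 4) ^ w.natAbs) (n : ℤ)) (2 / 3) := by
    have := h0.mul_left (1 / 2 : ℝ)
    have e : (1 / 2 : ℝ) * (4 / 3) = 2 / 3 := by norm_num
    rw [e] at this
    exact this
  have h2 : HasSum (fun n : ℕ => (fun w : ℤ => (1 / 2 : ℝ) * (1 / 4) ^ w.natAbs) (-((n : ℤ) + 1))) (1 / 6) := by
    have := h0.mul_left (1 / 8 : ℝ)
    have e : (fun n : ℕ => (fun w : ℤ => (1 / 2 : ℝ) * (1 / 4) ^ w.natAbs) (-((n : ℤ) + 1))) = fun n : ℕ => (1 / 8 : ℝ) * (1 / 4) ^ n := by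
      funext n
      have : (-((n : ℤ) + 1)).natAbs = n + 1 := by omega
      show (1 / 2 : ℝ) * (1 / 4) ^ (-((n : ℤ) + 1)).natAbs = _
      rw [this, pow_succ]
      ring
    rw [e]
    have e : (1 / 8 : ℝ) * (4 / 3) = 1 / 6 := by norm_num
    rw [e] at this
    exact this
  have h3 := HasSum.of_nat_of_neg_add_one (f := fun w : ℤ => (1 / 2 : ℝ) * (1 / 4) ^ w.natAbs) h1 h2
  have e : (2 / 3 : ℝ) + 1 / 6 = 5 / 6 := by norm_num
  rw [e] at h3
  exact h3

lemma t5_term (C c₄ y : ℝ) (c₃ M : ℕ) (hC : 1 ≤ C) (hc : C * (C + |c₄| + 10) ≤ c₃) (hy : 1 ≤ y) (hM : 1 ≤ M) (w : ℤ)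
    (hw : (c₃ : ℝ) * M ≤ |(w:ℝ)|) :
    C * M * y - Real.pi ^ 2 * w ^ 2 * y / (C * M) + 2 * Real.pi * |(w:ℝ)| ≤ -(c₄ * M * y) - 3 * |(w:ℝ)| := by
  have hM' : (1:ℝ) ≤ M := by exact_mod_cast hM
  set W : ℝ := |(w:ℝ)| with hW
  have hc0 : (1:ℝ) ≤ c₃ := by
    have : 1 ≤ C * (C + |c₄| + 10) := by nlinarith [abs_nonneg c₄]
    linarith
  have hMW : (M:ℝ) ≤ W := by nlinarith
  have hW0 : 0 ≤ W := abs_nonneg _
  have hw2 : (w:ℝ) ^ 2 = W ^ 2 := by rw [hW, sq_abs]
  have hpi : (3:ℝ) < Real.pi := Real.pi_gt_three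
  have hpi' : Real.pi < 3.15 := Real.pi_lt_d2
  have hCM : 0 < C * M := by positivity
  -- main lower bound
  have h1 : (C + |c₄| + 10) * W * y ≤ Real.pi ^ 2 * w ^ 2 * y / (C * M) := by
    rw [le_div_iff₀ hCM, hw2]
    have a1 : C * (C + |c₄| + 10) * M ≤ W := by
      calc C * (C + |c₄| + 10) * M ≤ c₃ * M := by gcongr
        _ ≤ W := hw
    have a2 : (C + |c₄| + 10) * W * y * (C * M) = (C * (C + |c₄| + 10) * M) * (W * y) := by ring
    rw [a2]
    calc (C * (C + |c₄| + 10) * M) * (W * y) ≤ W * (W * y) := by gcongr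
      _ = 1 * W ^ 2 * y := by ring
      _ ≤ Real.pi ^ 2 * W ^ 2 * y := by
        gcongr
        nlinarith
  have h2 : C * M * y ≤ C * W * y := by gcongr
  have h3 : c₄ * M * y ≤ |c₄| * W * y := by
    calc c₄ * M * y ≤ |c₄| * M * y := by gcongr; exact le_abs_self _
      _ ≤ |c₄| * W * y := by gcongr
  have h4 : 2 * Real.pi * W + 3 * W ≤ 10 * W * y := by
    calc 2 * Real.pi * W + 3 * W = (2 * Real.pi + 3) * W := by ring
      _ ≤ 10 * W := by gcongr; linarith
      _ = 10 * W * 1 := by ring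
      _ ≤ 10 * W * y := by gcongr
  nlinarith

/-- T5. PROOF. Let `f(ω) = ∫_0^1 g(x + is) e^{-2πiω(x + is)} dx`; it does not depend on `s` (Cauchy's theorem for the rectangle, `Complex.integral_boundary_rect_eq_zero_of_differentiableOn`,
the vertical sides cancel by periodicity). So `‖f(ω)‖ ≤ B exp(CM(y + s²/y) + 2πωs)` for all real `s`; `s = -πωy/(CM)` gives
`‖f(ω)‖ ≤ B exp(CMy - π²ω²y/(CM))`. In particular the Fourier series of `x ↦ g(x + is)` converges absolutely, to this function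
(`has_pointwise_sum_fourier_series_of_summable`), i.e. `g(t) = ∑_ω f(ω) e^{2πiωt}`. For `|Im t| ≤ 1` and `|ω| > c₃M` the term is `≤ B exp(CMy - π² c₃ |ω| y/C + 2π|ω|)`; for
`c₃ ≥ C c₄ + C² + 4C` (say) and `y ≥ Y` the sum over `|ω| > c₃ M` is `≤ B exp(-c₄ M y)`. (Take `f(ω) = 0` for `|ω| > c₃M`.) -/
theorem fourier_trunc (C c₄ : ℝ) (hC : 1 ≤ C) : ∃ (c₃ : ℕ) (Y : ℝ), 1 ≤ c₃ ∧ 1 ≤ Y ∧ ∀ y : ℝ, Y ≤ y → ∀ M : ℕ, 1 ≤ M →
    ∀ (g : ℂ → ℂ) (B : ℝ), Differentiable ℂ g → (∀ t, g (t + 1) = g t) → (∀ t : ℂ, ‖g t‖ ≤ B * Real.exp (C * M * (y + t.im ^ 2 / y))) →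
    ∃ f : Fin (2 * (c₃ * M) + 1) → ℂ, ∀ t : ℂ, |t.im| ≤ 1 → ‖g t - ∑ i, f i * ee (fr i * t)‖ ≤ B * Real.exp (-(c₄ * M * y)) := by
  obtain ⟨c₃, hc⟩ := exists_nat_ge (C * (C + |c₄| + 10))
  have hc1 : 1 ≤ c₃ := by
    have : (1:ℝ) ≤ C * (C + |c₄| + 10) := by nlinarith [abs_nonneg c₄]
    exact_mod_cast this.trans hc
  refine ⟨c₃, 1, hc1, le_rfl, ?_⟩
  intro y hy M hM g B hg hp hb
  have hM' : (1:ℝ) ≤ M := by exact_mod_cast hM
  have hB : 0 ≤ B := by
    have h0 := (norm_nonneg _).trans (hb 0)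
    exact nonneg_of_mul_nonneg_left h0 (Real.exp_pos _)
  refine ⟨fun i => t5_F g (fr i), ?_⟩
  intro t ht
  set N : ℕ := c₃ * M with hN
  set S : Finset ℤ := Finset.Icc (-(N:ℤ)) N with hS
  set K : ℝ := B * Real.exp (-(c₄ * M * y)) with hK
  have hK0 : 0 ≤ K := by positivity
  -- bound of the terms outside S
  have hterm : ∀ w : ℤ, w ∉ S → ‖t5_F g w * ee (w * t)‖ ≤ K * (1 / 2 * (1 / 4) ^ w.natAbs) := by
    intro w hw
    have hwN : (N:ℤ) < |w| := by
      rw [hS, Finset.mem_Icc] at hw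
      by_contra hcon
      exact hw (abs_le.mp (not_lt.mp hcon))
    have hwN' : (c₃:ℝ) * M ≤ |(w:ℝ)| := by
      have : ((N:ℤ):ℝ) ≤ ((|w| : ℤ) : ℝ) := by exact_mod_cast hwN.le
      rw [hN] at this
      push_cast at this
      exact this
    have hn1 : 1 ≤ w.natAbs := by
      have h0 : (0:ℤ) ≤ N := Int.natCast_nonneg N
      have h1 : (0:ℤ) < |w| := lt_of_le_of_lt h0 hwN
      have h2 : w ≠ 0 := abs_pos.mp h1
      exact Nat.one_le_iff_ne_zero.mpr (Int.natAbs_ne_zero.mpr h2)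
    have habs : |(w:ℝ)| = (w.natAbs : ℝ) := by
      rw [Nat.cast_natAbs]
      push_cast
      rfl
    have hF := t5_F_bound g hg hp w (-(Real.pi * w * y / (C * M)))
      (B * Real.exp (C * M * (y + (-(Real.pi * w * y / (C * M))) ^ 2 / y))) (by
        intro x
        have := hb (x + ((-(Real.pi * w * y / (C * M)) : ℝ) : ℂ) * I)
        have e : ((x:ℂ) + ((-(Real.pi * w * y / (C * M)) : ℝ) : ℂ) * I).im = -(Real.pi * w * y / (C * M)) := by
          generalize (-(Real.pi * w * y / (C * M)) : ℝ) = q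
          simp
        rw [e] at this
        exact this)
    rw [norm_mul, t5_ee_norm]
    have e1 : ((w:ℂ) * t).im = w * t.im := by simp [Complex.mul_im]
    rw [e1]
    have hexp : Real.exp (-(2 * Real.pi * (w * t.im))) ≤ Real.exp (2 * Real.pi * |(w:ℝ)|) := by
      apply Real.exp_le_exp.mpr
      have h1 : |(w:ℝ) * t.im| ≤ |(w:ℝ)| := by
        rw [abs_mul]
        exact mul_le_of_le_one_right (abs_nonneg _) ht
      have h2 := neg_le_abs ((w:ℝ) * t.im)
      nlinarith [Real.pi_pos]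
    have hkey := t5_term C c₄ y c₃ M hC hc hy hM w hwN'
    have hCM : C * M ≠ 0 := by positivity
    have hy0 : y ≠ 0 := by positivity
    calc ‖t5_F g w‖ * Real.exp (-(2 * Real.pi * (w * t.im)))
        ≤ (B * Real.exp (C * M * (y + (-(Real.pi * w * y / (C * M))) ^ 2 / y)) * Real.exp (2 * Real.pi * w * (-(Real.pi * w * y / (C * M))))) *
          Real.exp (2 * Real.pi * |(w:ℝ)|) := by gcongr
      _ = B * Real.exp (C * M * y - Real.pi ^ 2 * w ^ 2 * y / (C * M) + 2 * Real.pi * |(w:ℝ)|) := by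
        rw [mul_assoc B, mul_assoc B, ← Real.exp_add, ← Real.exp_add]
        congr 2
        field_simp
        ring
      _ ≤ B * Real.exp (-(c₄ * M * y) - 3 * |(w:ℝ)|) := by gcongr
      _ = K * Real.exp (-(3 * w.natAbs)) := by
        have e : -(c₄ * M * y) - 3 * |(w:ℝ)| = -(c₄ * M * y) + -(3 * w.natAbs) := by rw [habs]; ring
        rw [hK, e, Real.exp_add, ← mul_assoc]
      _ ≤ K * (1 / 2 * (1 / 4) ^ w.natAbs) := by
        gcongr
        exact t5_pow_bound _ hn1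
  have hmaj : Summable fun w : ℤ => K * ((1 / 2 : ℝ) * (1 / 4) ^ w.natAbs) := (t5_hasSum.mul_left K).summable
  have hsum : Summable fun w : ℤ => t5_F g w * ee (w * t) := by
    apply Summable.of_norm_bounded_eventually hmaj
    have : ∀ᶠ w : ℤ in Filter.cofinite, w ∉ S := S.finite_toSet.compl_mem_cofinite
    exact this.mono hterm
  have hser := t5_series g hg hp t hsum
  -- the finite sum
  have hfin : ∑ i : Fin (2 * N + 1), t5_F g (fr i) * ee (fr i * t) = ∑ w ∈ S, t5_F g w * ee (w * t) := by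
    apply Finset.sum_bij (fun (i : Fin (2 * N + 1)) _ => (fr i : ℤ))
    · intro i _
      rw [hS, Finset.mem_Icc]
      unfold fr
      have := i.isLt
      constructor <;> omega
    · intro i _ j _ hij
      unfold fr at hij
      ext
      omega
    · intro w hw
      rw [hS, Finset.mem_Icc] at hw
      refine ⟨⟨(w + N).toNat, by omega⟩, Finset.mem_univ _, ?_⟩
      unfold fr
      show (((w + N).toNat : ℕ) : ℤ) - N = w
      omega
    · intro i _
      rfl
  have hsub : HasSum (fun w : ℤ => if w ∈ S then (0:ℂ) else t5_F g w * ee (w * t)) (g t - ∑ w ∈ S, t5_F g w * ee (w * t)) := by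
    have h2 : HasSum (fun w : ℤ => if w ∈ S then t5_F g w * ee (w * t) else 0) (∑ w ∈ S, t5_F g w * ee (w * t)) := by
      have h := hasSum_sum_of_ne_finset_zero (L := SummationFilter.unconditional ℤ)
        (f := fun w : ℤ => if w ∈ S then t5_F g w * ee (w * t) else 0) (s := S) (by
        intro w hw
        simp [hw])
      have e : ∑ w ∈ S, (fun w : ℤ => if w ∈ S then t5_F g w * ee (w * t) else 0) w = ∑ w ∈ S, t5_F g w * ee (w * t) := by
        apply Finset.sum_congr rfl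
        intro w hw
        simp [hw]
      rw [e] at h
      exact h
    have h3 := hser.sub h2
    have e : (fun w : ℤ => if w ∈ S then (0:ℂ) else t5_F g w * ee (w * t)) =
        fun w : ℤ => t5_F g w * ee (w * t) - (if w ∈ S then t5_F g w * ee (w * t) else 0) := by
      funext w
      by_cases hw : w ∈ S <;> simp [hw]
    rw [e]
    exact h3
  have hle : ∀ w : ℤ, ‖(if w ∈ S then (0:ℂ) else t5_F g w * ee (w * t))‖ ≤ K * ((1 / 2 : ℝ) * (1 / 4) ^ w.natAbs) := by
    intro w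
    by_cases hw : w ∈ S
    · rw [if_pos hw, norm_zero]
      positivity
    · rw [if_neg hw]
      exact hterm w hw
  have hfinal := tsum_of_norm_bounded (t5_hasSum.mul_left K) hle
  rw [hsub.tsum_eq, ← hfin] at hfinal
  refine hfinal.trans ?_
  nlinarith

end Pool.Agent.MSK
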