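import Pool.Agent.Lib.MP_f58a57_nt.K.Defs
import Pool.Agent.Lib.MP_f58a57_nt.K.T1_Grow
import Pool.Agent.Lib.MP_f58a57_nt.K.T2_Low
import Pool.Agent.Lib.MP_f58a57_nt.K.T5_Four

/-! # K/D3b_One: the one variable functions -/

open Complex

noncomputable section

namespace Pool.Agent.MSK

open MSD MSP

variable {d : ℕ}

theorem d3b_au (τ t : ℂ) : au τ 1 0 t = -1 := by
  unfold au
  simp

theorem d3b_N0 (τ : ℂ) (hτ : 0 < τ.im) (t : ℂ) : N0 τ (t + 1) = -N0 τ t := by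
  have h := N0_shift τ hτ 1 0 t
  rw [d3b_au] at h
  simpa using h

theorem d3b_N1 (τ : ℂ) (hτ : 0 < τ.im) (t : ℂ) : N1 τ (t + 1) = -N1 τ t := by
  have h := N1_shift τ hτ 1 0 t
  rw [d3b_au] at h
  simpa using h

theorem d3b_N2 (τ s : ℂ) (hτ : 0 < τ.im) (t : ℂ) : N2 τ s (t + 1) = N2 τ s t := by
  have h := N2_shift τ s hτ 1 0 t
  rw [d3b_au] at h
  simpa using h

/-- the one variable function -/
def d3b_g (τ s h p : ℂ) (a b c : ℕ) (t : ℂ) : ℂ := N2 τ s (h + t) ^ a * (N1 τ (h + t) - p * N0 τ (h + t)) ^ b * N0 τ (h + t) ^ c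

theorem d3b_per (τ s h p : ℂ) (hτ : 0 < τ.im) (a b c : ℕ) (hbc : Even (b + c)) (t : ℂ) :
    d3b_g τ s h p a b c (t + 1) = d3b_g τ s h p a b c t := by
  unfold d3b_g
  rw [← add_assoc, d3b_N0 τ hτ, d3b_N1 τ hτ, d3b_N2 τ s hτ]
  have e1 : -N1 τ (h + t) - p * -N0 τ (h + t) = (-1) * (N1 τ (h + t) - p * N0 τ (h + t)) := by ring
  have e2 : -N0 τ (h + t) = (-1) * N0 τ (h + t) := by ring
  rw [e1, e2, mul_pow (-1 : ℂ) _ b, mul_pow (-1 : ℂ) _ c]
  have e3 : ((-1 : ℂ) ^ b) * (-1) ^ c = 1 := by rw [← pow_add]; exact hbc.neg_one_pow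
  linear_combination (N2 τ s (h + t) ^ a * (N1 τ (h + t) - p * N0 τ (h + t)) ^ b * N0 τ (h + t) ^ c) * e3

theorem d3b_diff (τ s h p : ℂ) (hτ : 0 < τ.im) (a b c : ℕ) : Differentiable ℂ (d3b_g τ s h p a b c) := by
  have h0 : Differentiable ℂ (th τ) := th_differentiable τ hτ
  have h1 : Differentiable ℂ (deriv (th τ)) := h0.deriv
  have h2 : Differentiable ℂ (deriv (deriv (th τ))) := h1.deriv
  have hs : Differentiable ℂ (fun t : ℂ => h + t) := by fun_prop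
  have a0 : Differentiable ℂ (fun t : ℂ => th τ (h + t)) := h0.comp hs
  have a1 : Differentiable ℂ (fun t : ℂ => deriv (th τ) (h + t)) := h1.comp hs
  have a2 : Differentiable ℂ (fun t : ℂ => deriv (deriv (th τ)) (h + t)) := h2.comp hs
  unfold d3b_g N2 N1 N0
  exact ((((a1.pow 2).sub (a0.mul a2)).sub ((a0.pow 2).const_mul s)).pow a).mul ((a1.sub (a0.const_mul p)).pow b) |>.mul (a0.pow c)

theorem d3b_bd (τ s h p : ℂ) (a b c M : ℕ) (hM : a + b + c ≤ M) (E F : ℝ) (hE : 0 ≤ E) (hF : 0 ≤ F) (t : ℂ)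
    (h0 : ‖N0 τ (h + t)‖ ≤ Real.exp E) (h1 : ‖N1 τ (h + t)‖ ≤ Real.exp E) (h2 : ‖N2 τ s (h + t)‖ ≤ Real.exp E)
    (hp : 1 + ‖p‖ ≤ Real.exp F) : ‖d3b_g τ s h p a b c t‖ ≤ Real.exp (M * (E + F)) := by
  unfold d3b_g
  rw [norm_mul, norm_mul, norm_pow, norm_pow, norm_pow]
  have k1 : ‖N1 τ (h + t) - p * N0 τ (h + t)‖ ≤ Real.exp (E + F) := by
    calc ‖N1 τ (h + t) - p * N0 τ (h + t)‖ ≤ ‖N1 τ (h + t)‖ + ‖p * N0 τ (h + t)‖ := norm_sub_le _ _
      _ ≤ Real.exp E + ‖p‖ * Real.exp E := by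
        rw [norm_mul]
        exact add_le_add h1 (mul_le_mul_of_nonneg_left h0 (norm_nonneg _))
      _ = (1 + ‖p‖) * Real.exp E := by ring
      _ ≤ Real.exp F * Real.exp E := mul_le_mul_of_nonneg_right hp (Real.exp_pos _).le
      _ = Real.exp (E + F) := by rw [← Real.exp_add, add_comm]
  have hEF : Real.exp E ≤ Real.exp (E + F) := Real.exp_le_exp.2 (by linarith)
  have hone : 1 ≤ Real.exp (E + F) := Real.one_le_exp (by linarith)
  calc ‖N2 τ s (h + t)‖ ^ a * ‖N1 τ (h + t) - p * N0 τ (h + t)‖ ^ b * ‖N0 τ (h + t)‖ ^ c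
      ≤ Real.exp (E + F) ^ a * Real.exp (E + F) ^ b * Real.exp (E + F) ^ c := by
        refine mul_le_mul (mul_le_mul ?_ ?_ (by positivity) (by positivity)) ?_ (by positivity) (by positivity)
        · exact pow_le_pow_left₀ (norm_nonneg _) (h2.trans hEF) a
        · exact pow_le_pow_left₀ (norm_nonneg _) k1 b
        · exact pow_le_pow_left₀ (norm_nonneg _) (h0.trans hEF) c
    _ = Real.exp (E + F) ^ (a + b + c) := by rw [← pow_add, ← pow_add]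
    _ ≤ Real.exp (E + F) ^ M := pow_le_pow_right₀ hone hM
    _ = Real.exp (M * (E + F)) := by rw [← Real.exp_nat_mul]

/-- D3d, one variable. PROOF. `g(t) = N2^a N1'^b N0^(M'-2a-b)` at `h + t`, where `M' = 2(d+2)L`, `a ≤ L`, `b ≤ dL` and `N1' = N1 - ph(h) N0`; `g(t + 1) = (-1)^(M'-2a) g(t) = g(t)` (`N0_shift` etc. with `m = 1, n = 0`),
entire, `‖g(t)‖ ≤ exp(C L (y + (Im t)²/y))` by `grow_unif` (`‖ph(h)‖ ≤ e^{Cy}`: `ph(h) = 0` or `-πi n`-type values for half periods: `ph(1/2) = 0`, `ph(h) = -πi` if `h = τ/2, (1+τ)/2`; or by `th_low`). Then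
`fourier_trunc` with `M = 2(d+2)L`. -/
theorem one_var (P : Par d) (C₀ c₄ : ℝ) : ∃ (c₃ : ℕ) (C Y : ℝ), 1 ≤ c₃ ∧ 1 ≤ C ∧ 1 ≤ Y ∧ ∀ y : ℝ, Y ≤ y → ∀ D : Dt d, Adm C₀ y P D → ∀ L : ℕ, 1 ≤ L →
    ∀ (l : Fin (d + 1)) (a b : ℕ), a < L → b ≤ d * L →
    (∀ t : ℂ, |t.im| ≤ 1 → ‖N2 D.τ (sE D.τ) (D.h l + t) ^ a * (N1 D.τ (D.h l + t) - ph D.τ (D.h l) * N0 D.τ (D.h l + t)) ^ b *
        N0 D.τ (D.h l + t) ^ (2 * (d + 2) * L - 2 * a - b)‖ ≤ Real.exp (C * L * y)) ∧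
    ∃ f : Fin (2 * (c₃ * L) + 1) → ℂ, ∀ t : ℂ, |t.im| ≤ 1 →
      ‖N2 D.τ (sE D.τ) (D.h l + t) ^ a * (N1 D.τ (D.h l + t) - ph D.τ (D.h l) * N0 D.τ (D.h l + t)) ^ b *
        N0 D.τ (D.h l + t) ^ (2 * (d + 2) * L - 2 * a - b) - ∑ i, f i * ee (fr i * t)‖ ≤ Real.exp (-(c₄ * L * y)) := by
  obtain ⟨C₁, hC₁, hG⟩ := grow_unif
  obtain ⟨C₂, hC₂, hL₂⟩ := th_low
  set C' : ℝ := 2 * (C₁ + (2 * C₁ + C₂ + 1)) with hC'
  have hC'1 : 1 ≤ C' := by rw [hC']; linarith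
  obtain ⟨c₃', Y, hc₃', hY, hF⟩ := fourier_trunc C' |c₄| hC'1
  refine ⟨c₃' * (2 * (d + 2)), 4 * (d + 2) * C', Y, ?_, ?_, hY, ?_⟩
  · have : 0 < c₃' * (2 * (d + 2)) := by positivity
    omega
  · have : (0 : ℝ) ≤ d := Nat.cast_nonneg d
    nlinarith
  intro y hy D hD L hL l a b ha hb
  have hy1 : 1 ≤ y := hY.trans hy
  have hy0 : 0 < y := by linarith
  have hLR : (1 : ℝ) ≤ L := by exact_mod_cast hL
  have hτ : 0 < D.τ.im := D.im
  set M : ℕ := 2 * (d + 2) * L with hM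
  have hdL : 2 * a + b ≤ M := by
    have : M = 2 * (d * L) + 4 * L := by rw [hM]; ring
    omega
  have hh := hD.h l
  have him : (D.h l).im = 0 ∨ (D.h l).im = y / 2 := by
    rcases hh with h1 | h1 | h1
    · left; rw [h1]; simp
    · right; rw [h1, hD.τ]; simp
    · right; rw [h1, hD.τ]; simp
  -- the bound for ph
  have hhl : D.h l = 1 / 2 ∨ D.h l = I * y / 2 ∨ D.h l = (1 + I * y) / 2 := by
    rcases hh with h1 | h1 | h1
    · exact Or.inl h1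
    · exact Or.inr (Or.inl (by rw [h1, hD.τ]))
    · exact Or.inr (Or.inr (by rw [h1, hD.τ]))
  have hth := hL₂ y hy1 (D.h l) hhl 0 le_rfl (by norm_num)
  rw [Complex.ofReal_zero, add_zero, ← hD.τ] at hth
  have hgr : ∀ t : ℂ, ‖N0 D.τ (D.h l + t)‖ ≤ Real.exp (2 * C₁ * (y + t.im ^ 2 / y)) ∧
      ‖N1 D.τ (D.h l + t)‖ ≤ Real.exp (2 * C₁ * (y + t.im ^ 2 / y)) ∧
      ‖N2 D.τ (sE D.τ) (D.h l + t)‖ ≤ Real.exp (2 * C₁ * (y + t.im ^ 2 / y)) := by
    intro t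
    obtain ⟨g0, g1, g2, -⟩ := hG y hy1 (D.h l + t)
    rw [← hD.τ] at g0 g1 g2
    have key : C₁ * (y + (D.h l + t).im ^ 2 / y) ≤ 2 * C₁ * (y + t.im ^ 2 / y) := by
      have h1 : (D.h l + t).im ^ 2 ≤ y ^ 2 / 2 + 2 * t.im ^ 2 := by
        rw [Complex.add_im]
        rcases him with h | h
        · rw [h]; nlinarith [sq_nonneg t.im, sq_nonneg y]
        · rw [h]; nlinarith [sq_nonneg (y / 2 - t.im)]
      have h2 : (D.h l + t).im ^ 2 / y ≤ y / 2 + 2 * (t.im ^ 2 / y) := by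
        rw [div_le_iff₀ hy0]
        have : (y / 2 + 2 * (t.im ^ 2 / y)) * y = y ^ 2 / 2 + 2 * t.im ^ 2 := by
          field_simp
        rw [this]
        exact h1
      nlinarith
    exact ⟨g0.trans (Real.exp_le_exp.2 key), g1.trans (Real.exp_le_exp.2 key), g2.trans (Real.exp_le_exp.2 key)⟩
  have hph : 1 + ‖ph D.τ (D.h l)‖ ≤ Real.exp ((2 * C₁ + C₂ + 1) * y) := by
    have h1 : ‖ph D.τ (D.h l)‖ ≤ Real.exp ((2 * C₁ + C₂) * y) := by
      unfold ph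
      have hN0 : Real.exp (-(C₂ * y)) ≤ ‖N0 D.τ (D.h l)‖ := hth
      have hN1 := (hgr 0).2.1
      rw [add_zero] at hN1
      simp only [Complex.zero_im, ne_eq, OfNat.ofNat_ne_zero, not_false_eq_true, zero_pow, zero_div, add_zero] at hN1
      rw [norm_div, div_le_iff₀ (lt_of_lt_of_le (Real.exp_pos _) hN0)]
      calc ‖N1 D.τ (D.h l)‖ ≤ Real.exp (2 * C₁ * y) := hN1
        _ = Real.exp ((2 * C₁ + C₂) * y) * Real.exp (-(C₂ * y)) := by
          rw [← Real.exp_add]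
          congr 1
          ring
        _ ≤ _ := mul_le_mul_of_nonneg_left hN0 (Real.exp_pos _).le
    have h2 : (1 : ℝ) ≤ Real.exp ((2 * C₁ + C₂) * y) := Real.one_le_exp (by positivity)
    have h3 : (2 : ℝ) ≤ Real.exp y := by
      have := Real.add_one_le_exp y
      linarith
    calc 1 + ‖ph D.τ (D.h l)‖ ≤ 2 * Real.exp ((2 * C₁ + C₂) * y) := by linarith
      _ ≤ Real.exp y * Real.exp ((2 * C₁ + C₂) * y) := mul_le_mul_of_nonneg_right h3 (Real.exp_pos _).le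
      _ = _ := by
        rw [← Real.exp_add]
        congr 1
        ring
  have hbd : ∀ t : ℂ, ‖d3b_g D.τ (sE D.τ) (D.h l) (ph D.τ (D.h l)) a b (M - 2 * a - b) t‖ ≤
      Real.exp (C' * M * (y + t.im ^ 2 / y)) := by
    intro t
    obtain ⟨g0, g1, g2⟩ := hgr t
    have hEt : 0 ≤ t.im ^ 2 / y := by positivity
    have h1 := d3b_bd D.τ (sE D.τ) (D.h l) (ph D.τ (D.h l)) a b (M - 2 * a - b) M (by omega)
      (2 * C₁ * (y + t.im ^ 2 / y)) ((2 * C₁ + C₂ + 1) * y) (by positivity) (by positivity) t g0 g1 g2 hph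
    refine h1.trans (Real.exp_le_exp.2 ?_)
    have hMR : (0 : ℝ) ≤ M := Nat.cast_nonneg M
    have h2 : 2 * C₁ * (y + t.im ^ 2 / y) + (2 * C₁ + C₂ + 1) * y ≤ C' * (y + t.im ^ 2 / y) := by
      rw [hC']
      nlinarith
    calc (M : ℝ) * (2 * C₁ * (y + t.im ^ 2 / y) + (2 * C₁ + C₂ + 1) * y) ≤ M * (C' * (y + t.im ^ 2 / y)) :=
          mul_le_mul_of_nonneg_left h2 hMR
      _ = _ := by ring
  have hMR : (M : ℝ) = 2 * (d + 2) * L := by rw [hM]; push_cast; ring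
  have hM1 : 1 ≤ M := by
    have h3 : 0 < M := by rw [hM]; positivity
    omega
  refine ⟨fun t ht => ?_, ?_⟩
  · refine (hbd t).trans (Real.exp_le_exp.2 ?_)
    have h1 : t.im ^ 2 ≤ 1 := by
      rw [← sq_abs]
      nlinarith [abs_nonneg t.im]
    have h2 : t.im ^ 2 / y ≤ y := by
      rw [div_le_iff₀ hy0]
      nlinarith
    rw [hMR]
    have hd0 : (0 : ℝ) ≤ d := Nat.cast_nonneg d
    calc C' * (2 * (d + 2) * L) * (y + t.im ^ 2 / y) ≤ C' * (2 * (d + 2) * L) * (y + y) :=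
          mul_le_mul_of_nonneg_left (by linarith) (by positivity)
      _ = 4 * (d + 2) * C' * L * y := by ring
  · obtain ⟨f, hf⟩ := hF y hy M hM1 (d3b_g D.τ (sE D.τ) (D.h l) (ph D.τ (D.h l)) a b (M - 2 * a - b)) 1
      (d3b_diff _ _ _ _ hτ _ _ _) (d3b_per _ _ _ _ hτ _ _ _ (by
        have h4 : b + (M - 2 * a - b) = 2 * ((d + 2) * L - a) := by
          have h5 : M = 2 * ((d + 2) * L) := by rw [hM]; ring
          omega
        rw [h4]
        exact even_two_mul _))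
      (fun t => by rw [one_mul]; exact hbd t)
    have hf2 : ∃ f : Fin (2 * (c₃' * M) + 1) → ℂ, ∀ t : ℂ, |t.im| ≤ 1 →
        ‖d3b_g D.τ (sE D.τ) (D.h l) (ph D.τ (D.h l)) a b (M - 2 * a - b) t - ∑ i, f i * ee (fr i * t)‖ ≤ Real.exp (-(c₄ * L * y)) := by
      refine ⟨f, fun t ht => (hf t ht).trans ?_⟩
      rw [one_mul]
      apply Real.exp_le_exp.2
      have h6 : c₄ * L * y ≤ |c₄| * M * y := by
        refine mul_le_mul_of_nonneg_right ?_ hy0.le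
        have h7 : (L : ℝ) ≤ M := by
          rw [hMR]
          have hd0 : (0 : ℝ) ≤ d := Nat.cast_nonneg d
          nlinarith
        exact mul_le_mul (le_abs_self _) h7 (by positivity) (abs_nonneg _)
      linarith
    have hcM : c₃' * M = c₃' * (2 * (d + 2)) * L := by rw [hM]; ring
    rw [hcM] at hf2
    exact hf2

end Pool.Agent.MSK
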