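import Pool.Agent.Lib.MP_f58a57_nt.K.Defs
import Pool.Agent.Lib.MP_f58a57_nt.K.D2_Prod
import Pool.Agent.Lib.MP_f58a57_nt.K.D3_Lin
import Pool.Agent.Lib.MP_f58a57_nt.K.D3b_One

/-! # K/D3c_App: approximation of the auxiliary function by exponential polynomials -/

open Complex

noncomputable section

namespace Pool.Agent.MSK

open MSD MSP

variable {d : ℕ}

theorem d3c_cl_nonneg {σ : Type*} (p : MvPolynomial σ ℂ) : 0 ≤ cl p := by
  unfold cl; exact Finset.sum_nonneg fun _ _ => norm_nonneg _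

theorem d3_cl_one {σ : Type*} : cl (1 : MvPolynomial σ ℂ) ≤ 1 := by
  have h := cl_monomial (σ := σ) 0 1
  have h1 : (MvPolynomial.monomial (0 : σ →₀ ℕ)) (1 : ℂ) = 1 := rfl
  rw [h1] at h
  rw [h]; simp

theorem d3_cl_pow {σ : Type*} (p : MvPolynomial σ ℂ) (n : ℕ) : cl (p ^ n) ≤ cl p ^ n := by
  induction n with
  | zero => simpa using d3_cl_one
  | succ n ih =>
    rw [pow_succ, pow_succ]
    exact (cl_mul _ _).trans (mul_le_mul_of_nonneg_right ih (d3c_cl_nonneg p))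

theorem d3_cl_prod {σ ι : Type*} (s : Finset ι) (p : ι → MvPolynomial σ ℂ) : cl (∏ i ∈ s, p i) ≤ ∏ i ∈ s, cl (p i) := by
  classical
  induction s using Finset.induction_on with
  | empty => simpa using d3_cl_one
  | insert a s ha ih =>
    rw [Finset.prod_insert ha, Finset.prod_insert ha]
    exact (cl_mul _ _).trans (mul_le_mul_of_nonneg_left ih (d3c_cl_nonneg _))

theorem d3_EP_sum {K W : ℕ} {ι : Type*} (s : Finset ι) (H : ι → Jx d K W → ℂ) (w : Fin d → ℂ) (t : Fin (d + 1) → ℂ) :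
    EP (fun x => ∑ i ∈ s, H i x) w t = ∑ i ∈ s, EP (H i) w t := by
  unfold EP
  rw [Finset.sum_comm]
  refine Finset.sum_congr rfl fun x _ => ?_
  rw [Finset.sum_mul, Finset.sum_mul]

theorem d3_EP_smul {K W : ℕ} (a : ℂ) (H : Jx d K W → ℂ) (w : Fin d → ℂ) (t : Fin (d + 1) → ℂ) :
    EP (fun x => a * H x) w t = a * EP H w t := by
  unfold EP
  rw [Finset.mul_sum]
  refine Finset.sum_congr rfl fun x _ => ?_
  ring

theorem d3_EP_mono {K W : ℕ} (κ : Fin d → Fin (K + 1)) (f : Fin (d + 1) → Fin (2 * W + 1) → ℂ) (w : Fin d → ℂ) (t : Fin (d + 1) → ℂ) :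
    EP (fun x : Jx d K W => if x.1 = κ then ∏ l, f l (x.2 l) else 0) w t =
      (∏ j, w j ^ (κ j).val) * ∑ ω : Fin (d + 1) → Fin (2 * W + 1), (∏ l, f l (ω l)) * ee (∑ l, (fr (ω l) : ℂ) * t l) := by
  unfold EP
  rw [Fintype.sum_prod_type, Finset.sum_eq_single κ]
  · rw [Finset.mul_sum]
    refine Finset.sum_congr rfl fun ω _ => ?_
    simp only [if_true]
    ring
  · intro κ' _ hne
    refine Finset.sum_eq_zero fun ω _ => ?_
    simp only [if_neg hne, zero_mul]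
  · intro h; exact absurd (Finset.mem_univ _) h

theorem d3_loc (D : Dt d) (l : Fin (d + 1)) (t : ℂ) (a b M : ℕ) (h : 2 * a + b < M) :
    D.X l t ^ a * D.ps l t ^ b * N0 D.τ (D.h l + t) ^ M =
      ((D.om ^ 2)⁻¹) ^ a * (N2 D.τ (sE D.τ) (D.h l + t) ^ a * (N1 D.τ (D.h l + t) - ph D.τ (D.h l) * N0 D.τ (D.h l + t)) ^ b *
        N0 D.τ (D.h l + t) ^ (M - 2 * a - b)) := by
  by_cases h0 : N0 D.τ (D.h l + t) = 0
  · rw [h0, zero_pow (by omega : M ≠ 0), zero_pow (by omega : M - 2 * a - b ≠ 0)]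
    ring
  · have hM : M = 2 * a + b + (M - 2 * a - b) := by omega
    have hX : D.X l t * N0 D.τ (D.h l + t) ^ 2 = (D.om ^ 2)⁻¹ * N2 D.τ (sE D.τ) (D.h l + t) := by
      unfold Dt.X wp
      have := D.ne
      field_simp
    have hps : D.ps l t * N0 D.τ (D.h l + t) = N1 D.τ (D.h l + t) - ph D.τ (D.h l) * N0 D.τ (D.h l + t) := by
      unfold Dt.ps
      have h1 : ph D.τ (D.h l + t) * N0 D.τ (D.h l + t) = N1 D.τ (D.h l + t) := by
        unfold ph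
        field_simp
      rw [sub_mul, h1]
    calc D.X l t ^ a * D.ps l t ^ b * N0 D.τ (D.h l + t) ^ M
        = D.X l t ^ a * D.ps l t ^ b * N0 D.τ (D.h l + t) ^ (2 * a + b + (M - 2 * a - b)) := by rw [← hM]
      _ = (D.X l t * N0 D.τ (D.h l + t) ^ 2) ^ a * (D.ps l t * N0 D.τ (D.h l + t)) ^ b * N0 D.τ (D.h l + t) ^ (M - 2 * a - b) := by
          rw [pow_add, pow_add, pow_mul, mul_pow, mul_pow]; ring
      _ = _ := by rw [hX, hps, mul_pow]; ring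

/-- the polynomial in the linear parts -/
theorem d3_expand (P : Par d) (D : Dt d) {L M : ℕ} (hM : 2 * L + d * L ≤ M) (hL : 1 ≤ L) (ν : Ix d L) (w : Fin d → ℂ) (t : Fin (d + 1) → ℂ)
    (Q : MvPolynomial (Fin d ⊕ Fin (d + 1)) ℂ) (hQ : Q = ∏ j, lin P D j ^ (ν.2 j).val) (hdeg : Q.totalDegree ≤ d * L) :
    mon P D ν w t * pp D t ^ M = ∑ m ∈ Q.support, (((D.om ^ 2)⁻¹) ^ (∑ l, (ν.1 l).val) * Q.coeff m) *
      ((∏ j, w j ^ m (Sum.inl j)) * ∏ l, (N2 D.τ (sE D.τ) (D.h l + t l) ^ (ν.1 l).val *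
        (N1 D.τ (D.h l + t l) - ph D.τ (D.h l) * N0 D.τ (D.h l + t l)) ^ m (Sum.inr l) *
        N0 D.τ (D.h l + t l) ^ (M - 2 * (ν.1 l).val - m (Sum.inr l)))) := by
  have h1 : ∏ j, Xi P D w t j ^ (ν.2 j).val = MvPolynomial.eval (Sum.elim w (fun l => D.ps l (t l))) Q := by
    rw [hQ, map_prod]
    refine Finset.prod_congr rfl fun j _ => ?_
    rw [map_pow, lin_eval]
  unfold mon
  rw [h1, MvPolynomial.eval_eq', Finset.mul_sum, Finset.sum_mul]
  refine Finset.sum_congr rfl fun m hm => ?_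
  rw [Fintype.prod_sum_type]
  simp only [Sum.elim_inl, Sum.elim_inr]
  have hmb : ∀ l, m (Sum.inr l) ≤ d * L := by
    intro l
    refine le_trans ?_ hdeg
    refine le_trans ?_ (MvPolynomial.le_totalDegree hm)
    rw [Finsupp.sum_fintype _ _ (by simp)]
    exact Finset.single_le_sum (f := fun i => m i) (fun _ _ => Nat.zero_le _) (Finset.mem_univ _)
  have h2 : (∏ l, (N2 D.τ (sE D.τ) (D.h l + t l) ^ (ν.1 l).val *
        (N1 D.τ (D.h l + t l) - ph D.τ (D.h l) * N0 D.τ (D.h l + t l)) ^ m (Sum.inr l) *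
        N0 D.τ (D.h l + t l) ^ (M - 2 * (ν.1 l).val - m (Sum.inr l)))) * ((D.om ^ 2)⁻¹) ^ (∑ l, (ν.1 l).val) =
      (∏ l, D.X l (t l) ^ (ν.1 l).val) * (∏ l, D.ps l (t l) ^ m (Sum.inr l)) * pp D t ^ M := by
    unfold pp
    rw [← Finset.prod_pow_eq_pow_sum, ← Finset.prod_pow, ← Finset.prod_mul_distrib, ← Finset.prod_mul_distrib, ← Finset.prod_mul_distrib]
    refine Finset.prod_congr rfl fun l _ => ?_
    rw [d3_loc D l (t l) (ν.1 l).val (m (Sum.inr l)) M (by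
      have h3 := (ν.1 l).2
      have h4 := hmb l
      omega)]
    ring
  calc (∏ l, D.X l (t l) ^ (ν.1 l).val) * (MvPolynomial.coeff m Q * ((∏ j, w j ^ m (Sum.inl j)) * ∏ l, D.ps l (t l) ^ m (Sum.inr l))) *
        pp D t ^ M
      = MvPolynomial.coeff m Q * (∏ j, w j ^ m (Sum.inl j)) * ((∏ l, D.X l (t l) ^ (ν.1 l).val) * (∏ l, D.ps l (t l) ^ m (Sum.inr l)) * pp D t ^ M) := by ring
    _ = _ := by rw [← h2]; ring

/-- D3e. PROOF. Fix `ν`. `mon ν · pp^(2(d+2)L) = ∏_l om^(-2a_l) N2^a_l N0^(M'-2a_l) · ∏_j Xi_j^(i_j)` (if some `N0(h_l + t_l) = 0` both sides are zero since the exponents of `N0` are positive).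
Write `𝓠 = ∏_j (lin j)^(i_j)`: total degree `≤ dL`, `cl 𝓠 ≤ e^{C d L y}`. Expand `𝓠` into monomials: `coeff · ∏ w_j^(m_j) ∏_l ps_l^(m_l)`, `ps_l = (N1 - ph(h) N0)/N0`, so each term is
`coeff · om^(-2∑a_l) · ∏ w_j^(m_j) · ∏_l g_l(t_l)` with `g_l` as in D3d, `a = a_l`, `b = m_l ≤ dL`, and exponents `m_j ≤ dL` of `w_j`. Replace `∏_l g_l(t_l)` by D2 (`B = e^{CLy}`, `ε = e^{-c₄' L y}` with `c₄'` large) and sum over
the monomials, over `ν` (`L^(2d+1)` values, absorbed for `y ≥ Y(L)`). The error of each term is `≤ ‖coeff‖ ‖om‖^(-2∑a_l) (1+‖w‖)^(dL) · (d+1)(2B)^(d+1) ε`. (`(1+‖w‖)^{dL} ≤ (1+‖w‖)^{d(dL)}`; `d ≥ 1`, or use that the total degree in `w` is `≤ dL ≤ d·(dL)`.) -/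
theorem approx (P : Par d) (hd : 1 ≤ d) (C₀ c₄ : ℝ) : ∃ c₃ : ℕ, 1 ≤ c₃ ∧ ∀ L : ℕ, 1 ≤ L → ∃ Y : ℝ, 1 ≤ Y ∧ ∀ y : ℝ, Y ≤ y → ∀ D : Dt d, Adm C₀ y P D →
    ∀ c : Ix d L → ℂ, (∀ ν, ‖c ν‖ ≤ 1) → ∃ H : Jx d (d * L) (c₃ * L) → ℂ, ∀ (w : Fin d → ℂ) (t : Fin (d + 1) → ℂ), (∀ l, |(t l).im| ≤ 1) →
      ‖Fh P D c w t * pp D t ^ (2 * (d + 2) * L) - EP H w t‖ ≤ Real.exp (-(c₄ * L * y)) * (1 + ‖w‖) ^ (d * (d * L)) := by
  obtain ⟨c₃₀, C₁, Y₁, -, hC₁, hY₁, h₁⟩ := one_var P C₀ 0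
  obtain ⟨C₂, Y₂, hC₂, hY₂, h₂⟩ := lin_bd P C₀
  set c₄' : ℝ := |c₄| + C₂ * d + 2 * (d + 1) * |C₀| + C₁ * (d + 1) + 1 with hc₄'
  have hc₄'0 : 0 ≤ c₄' := by rw [hc₄']; positivity
  obtain ⟨c₃, C₃, Y₃, hc₃, -, hY₃, h₃⟩ := one_var P C₀ c₄'
  refine ⟨c₃, hc₃, ?_⟩
  intro L hL
  set N : ℕ := Fintype.card (Ix d L) with hN
  refine ⟨Y₁ + Y₂ + Y₃ + N * ((d + 1 : ℕ) * 2 ^ (d + 1)), by
    have : (0 : ℝ) ≤ N * ((d + 1 : ℕ) * 2 ^ (d + 1)) := by positivity
    linarith, ?_⟩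
  intro y hy D hD c hc
  have hNN : (0 : ℝ) ≤ N * ((d + 1 : ℕ) * 2 ^ (d + 1)) := by positivity
  have hy1 : Y₁ ≤ y := by linarith
  have hy2 : Y₂ ≤ y := by linarith
  have hy3 : Y₃ ≤ y := by linarith
  have hyN : (N : ℝ) * ((d + 1 : ℕ) * 2 ^ (d + 1)) ≤ y := by linarith
  have hy0 : 1 ≤ y := by linarith
  have hLR : (1 : ℝ) ≤ L := by exact_mod_cast hL
  have hLy : 1 ≤ (L : ℝ) * y := by nlinarith
  set B : ℝ := Real.exp (C₁ * L * y) with hB
  have hB1 : 1 ≤ B := Real.one_le_exp (by positivity)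
  set ε : ℝ := Real.exp (-(c₄' * L * y)) with hε
  have hεB : ε ≤ B := by
    rw [hε, hB]
    apply Real.exp_le_exp.mpr
    have h4 : 0 ≤ c₄' * L * y := by positivity
    have h5 : 0 ≤ C₁ * L * y := by positivity
    linarith
  -- the one variable functions
  let g : Fin (d + 1) → ℕ → ℕ → ℂ → ℂ := fun l a b t => N2 D.τ (sE D.τ) (D.h l + t) ^ a *
    (N1 D.τ (D.h l + t) - ph D.τ (D.h l) * N0 D.τ (D.h l + t)) ^ b * N0 D.τ (D.h l + t) ^ (2 * (d + 2) * L - 2 * a - b)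
  have hg1 : ∀ l a b, a < L → b ≤ d * L → ∀ t : ℂ, |t.im| ≤ 1 → ‖g l a b t‖ ≤ B := fun l a b ha hb =>
    (h₁ y hy1 D hD L hL l a b ha hb).1
  have hf0 : ∀ l a b, ∃ f : Fin (2 * (c₃ * L) + 1) → ℂ, a < L → b ≤ d * L → ∀ t : ℂ, |t.im| ≤ 1 →
      ‖g l a b t - ∑ i, f i * ee (fr i * t)‖ ≤ ε := by
    intro l a b
    by_cases h : a < L ∧ b ≤ d * L
    · obtain ⟨f, hf⟩ := (h₃ y hy3 D hD L hL l a b h.1 h.2).2
      exact ⟨f, fun _ _ => hf⟩
    · exact ⟨0, fun ha hb => absurd ⟨ha, hb⟩ h⟩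
  choose f hf using hf0
  let Q : Ix d L → MvPolynomial (Fin d ⊕ Fin (d + 1)) ℂ := fun ν => ∏ j, lin P D j ^ (ν.2 j).val
  have hQdeg : ∀ ν, (Q ν).totalDegree ≤ d * L := by
    intro ν
    calc (Q ν).totalDegree ≤ ∑ j, (lin P D j ^ (ν.2 j).val).totalDegree := MvPolynomial.totalDegree_finsetProd _ _
      _ ≤ ∑ _j : Fin d, L := by
          refine Finset.sum_le_sum fun j _ => ?_
          calc (lin P D j ^ (ν.2 j).val).totalDegree ≤ (ν.2 j).val * (lin P D j).totalDegree := MvPolynomial.totalDegree_pow _ _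
            _ ≤ L * 1 := Nat.mul_le_mul (ν.2 j).2.le (h₂ y hy2 D hD j).2
            _ = L := by ring
      _ = d * L := by simp
  have hQcl : ∀ ν, cl (Q ν) ≤ Real.exp (C₂ * d * L * y) := by
    intro ν
    calc cl (Q ν) ≤ ∏ j, cl (lin P D j ^ (ν.2 j).val) := d3_cl_prod _ _
      _ ≤ ∏ _j : Fin d, Real.exp (C₂ * y) ^ L := by
          refine Finset.prod_le_prod (fun j _ => d3c_cl_nonneg _) fun j _ => ?_
          calc cl (lin P D j ^ (ν.2 j).val) ≤ cl (lin P D j) ^ (ν.2 j).val := d3_cl_pow _ _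
            _ ≤ Real.exp (C₂ * y) ^ (ν.2 j).val := pow_le_pow_left₀ (d3c_cl_nonneg _) (h₂ y hy2 D hD j).1 _
            _ ≤ Real.exp (C₂ * y) ^ L := pow_le_pow_right₀ (Real.one_le_exp (by positivity)) (ν.2 j).2.le
      _ = Real.exp (C₂ * d * L * y) := by
          rw [Finset.prod_const, Finset.card_univ, Fintype.card_fin, ← pow_mul, ← Real.exp_nat_mul]
          congr 1
          push_cast
          ring
  have hom : ∀ ν : Ix d L, ‖((D.om ^ 2)⁻¹) ^ (∑ l, (ν.1 l).val)‖ ≤ Real.exp (2 * (d + 1) * |C₀| * L * y) := by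
    intro ν
    have h4 : ‖(D.om ^ 2)⁻¹‖ ≤ Real.exp (2 * (|C₀| * y)) := by
      rw [norm_inv, norm_pow]
      have h5 : Real.exp (-(|C₀| * y)) ≤ ‖D.om‖ := by
        refine le_trans ?_ hD.om₂
        apply Real.exp_le_exp.mpr
        have := le_abs_self C₀
        nlinarith
      have h6 : 0 < Real.exp (-(|C₀| * y)) := Real.exp_pos _
      calc (‖D.om‖ ^ 2)⁻¹ ≤ (Real.exp (-(|C₀| * y)) ^ 2)⁻¹ := by
            apply inv_anti₀ (by positivity)
            exact pow_le_pow_left₀ h6.le h5 2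
        _ = Real.exp (2 * (|C₀| * y)) := by
            rw [← Real.exp_nat_mul, ← Real.exp_neg]
            congr 1
            push_cast
            ring
    rw [norm_pow]
    have h7 : ∑ l, (ν.1 l).val ≤ (d + 1) * L := by
      calc ∑ l, (ν.1 l).val ≤ ∑ _l : Fin (d + 1), L := Finset.sum_le_sum fun l _ => (ν.1 l).2.le
        _ = (d + 1) * L := by simp
    calc ‖(D.om ^ 2)⁻¹‖ ^ (∑ l, (ν.1 l).val) ≤ Real.exp (2 * (|C₀| * y)) ^ (∑ l, (ν.1 l).val) :=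
          pow_le_pow_left₀ (norm_nonneg _) h4 _
      _ ≤ Real.exp (2 * (|C₀| * y)) ^ ((d + 1) * L) := pow_le_pow_right₀ (Real.one_le_exp (by positivity)) h7
      _ = Real.exp (2 * (d + 1) * |C₀| * L * y) := by
          rw [← Real.exp_nat_mul]
          congr 1
          push_cast
          ring
  let κ : (Fin d ⊕ Fin (d + 1) →₀ ℕ) → Fin d → Fin (d * L + 1) := fun m j => ⟨min (m (Sum.inl j)) (d * L), by omega⟩
  have hmsum : ∀ ν, ∀ m ∈ (Q ν).support, ∑ i, m i ≤ d * L := by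
    intro ν m hm
    refine le_trans ?_ (hQdeg ν)
    refine le_trans (le_of_eq ?_) (MvPolynomial.le_totalDegree hm)
    rw [Finsupp.sum_fintype _ _ (by simp)]
  refine ⟨fun x => ∑ ν, ∑ m ∈ (Q ν).support, (c ν * (((D.om ^ 2)⁻¹) ^ (∑ l, (ν.1 l).val) * (Q ν).coeff m)) *
    (if x.1 = κ m then ∏ l, f l (ν.1 l).val (m (Sum.inr l)) (x.2 l) else 0), ?_⟩
  intro w t ht
  have hEP : EP (fun x : Jx d (d * L) (c₃ * L) => ∑ ν, ∑ m ∈ (Q ν).support, (c ν * (((D.om ^ 2)⁻¹) ^ (∑ l, (ν.1 l).val) * (Q ν).coeff m)) *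
      (if x.1 = κ m then ∏ l, f l (ν.1 l).val (m (Sum.inr l)) (x.2 l) else 0)) w t =
      ∑ ν, ∑ m ∈ (Q ν).support, (c ν * (((D.om ^ 2)⁻¹) ^ (∑ l, (ν.1 l).val) * (Q ν).coeff m)) *
        ((∏ j, w j ^ m (Sum.inl j)) * ∑ ω : Fin (d + 1) → Fin (2 * (c₃ * L) + 1), (∏ l, f l (ν.1 l).val (m (Sum.inr l)) (ω l)) *
          ee (∑ l, (fr (ω l) : ℂ) * t l)) := by
    rw [d3_EP_sum]
    refine Finset.sum_congr rfl fun ν _ => ?_
    rw [d3_EP_sum]
    refine Finset.sum_congr rfl fun m hm => ?_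
    rw [d3_EP_smul, d3_EP_mono]
    congr 2
    refine Finset.prod_congr rfl fun j _ => ?_
    congr 1
    have h4 : m (Sum.inl j) ≤ d * L := le_trans
      (Finset.single_le_sum (f := fun i => m i) (fun _ _ => Nat.zero_le _) (Finset.mem_univ (Sum.inl j))) (hmsum ν m hm)
    exact min_eq_left h4
  have hFh : Fh P D c w t * pp D t ^ (2 * (d + 2) * L) = ∑ ν, ∑ m ∈ (Q ν).support,
      (c ν * (((D.om ^ 2)⁻¹) ^ (∑ l, (ν.1 l).val) * (Q ν).coeff m)) *
        ((∏ j, w j ^ m (Sum.inl j)) * ∏ l, g l (ν.1 l).val (m (Sum.inr l)) (t l)) := by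
    unfold Fh
    rw [Finset.sum_mul]
    refine Finset.sum_congr rfl fun ν _ => ?_
    rw [mul_assoc, d3_expand P D (by nlinarith) hL ν w t (Q ν) rfl (hQdeg ν), Finset.mul_sum]
    refine Finset.sum_congr rfl fun m _ => ?_
    ring
  rw [hEP, hFh, ← Finset.sum_sub_distrib]
  set E : ℝ := ((d + 1 : ℕ) : ℝ) * (2 * B) ^ (d + 1) * ε with hE
  have hE0 : 0 ≤ E := by rw [hE]; positivity
  have hw1 : 1 ≤ 1 + ‖w‖ := by linarith [norm_nonneg w]
  have hterm : ∀ ν, ‖∑ m ∈ (Q ν).support, (c ν * (((D.om ^ 2)⁻¹) ^ (∑ l, (ν.1 l).val) * (Q ν).coeff m)) *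
        ((∏ j, w j ^ m (Sum.inl j)) * ∏ l, g l (ν.1 l).val (m (Sum.inr l)) (t l)) -
      ∑ m ∈ (Q ν).support, (c ν * (((D.om ^ 2)⁻¹) ^ (∑ l, (ν.1 l).val) * (Q ν).coeff m)) *
        ((∏ j, w j ^ m (Sum.inl j)) * ∑ ω : Fin (d + 1) → Fin (2 * (c₃ * L) + 1), (∏ l, f l (ν.1 l).val (m (Sum.inr l)) (ω l)) *
          ee (∑ l, (fr (ω l) : ℂ) * t l))‖ ≤
      Real.exp (2 * (d + 1) * |C₀| * L * y) * Real.exp (C₂ * d * L * y) * ((1 + ‖w‖) ^ (d * (d * L)) * E) := by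
    intro ν
    rw [← Finset.sum_sub_distrib]
    calc _ ≤ ∑ m ∈ (Q ν).support, Real.exp (2 * (d + 1) * |C₀| * L * y) * ‖(Q ν).coeff m‖ * ((1 + ‖w‖) ^ (d * (d * L)) * E) := by
          refine norm_sum_le_of_le _ fun m hm => ?_
          rw [← mul_sub, ← mul_sub, norm_mul, norm_mul, norm_mul, norm_mul]
          have h4 : ‖∏ j, w j ^ m (Sum.inl j)‖ ≤ (1 + ‖w‖) ^ (d * (d * L)) := by
            rw [norm_prod]
            calc ∏ j, ‖w j ^ m (Sum.inl j)‖ ≤ ∏ j, (1 + ‖w‖) ^ m (Sum.inl j) := by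
                  refine Finset.prod_le_prod (fun _ _ => norm_nonneg _) fun j _ => ?_
                  rw [norm_pow]
                  exact pow_le_pow_left₀ (norm_nonneg _) (by linarith [norm_le_pi_norm w j]) _
              _ = (1 + ‖w‖) ^ (∑ j, m (Sum.inl j)) := by rw [Finset.prod_pow_eq_pow_sum]
              _ ≤ (1 + ‖w‖) ^ (d * (d * L)) := by
                  apply pow_le_pow_right₀ hw1
                  have h5 := hmsum ν m hm
                  rw [Fintype.sum_sum_type] at h5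
                  have h55 : d * L ≤ d * (d * L) := Nat.le_mul_of_pos_left _ (by omega)
                  omega
          have h6 : ‖(∏ l, g l (ν.1 l).val (m (Sum.inr l)) (t l)) - ∑ ω : Fin (d + 1) → Fin (2 * (c₃ * L) + 1),
              (∏ l, f l (ν.1 l).val (m (Sum.inr l)) (ω l)) * ee (∑ l, (fr (ω l) : ℂ) * t l)‖ ≤ E := by
            have hb : ∀ l, m (Sum.inr l) ≤ d * L := fun l => le_trans
              (Finset.single_le_sum (f := fun i => m i) (fun _ _ => Nat.zero_le _) (Finset.mem_univ (Sum.inr l))) (hmsum ν m hm)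
            exact prod_trunc (fun l => g l (ν.1 l).val (m (Sum.inr l))) (fun l => f l (ν.1 l).val (m (Sum.inr l))) B ε hB1
              (Real.exp_pos _).le hεB (fun l => hg1 l _ _ (ν.1 l).2 (hb l)) (fun l => hf l _ _ (ν.1 l).2 (hb l)) t ht
          have h7 : ‖c ν‖ * (‖((D.om ^ 2)⁻¹) ^ (∑ l, (ν.1 l).val)‖ * ‖MvPolynomial.coeff m (Q ν)‖) ≤
              Real.exp (2 * (d + 1) * |C₀| * L * y) * ‖(Q ν).coeff m‖ := by
            calc ‖c ν‖ * (‖((D.om ^ 2)⁻¹) ^ (∑ l, (ν.1 l).val)‖ * ‖MvPolynomial.coeff m (Q ν)‖)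
                ≤ 1 * (Real.exp (2 * (d + 1) * |C₀| * L * y) * ‖MvPolynomial.coeff m (Q ν)‖) := by
                  apply mul_le_mul (hc ν) _ (by positivity) (by norm_num)
                  exact mul_le_mul_of_nonneg_right (hom ν) (norm_nonneg _)
              _ = _ := by ring
          exact mul_le_mul h7 (mul_le_mul h4 h6 (norm_nonneg _) (by positivity)) (by positivity) (by positivity)
      _ = Real.exp (2 * (d + 1) * |C₀| * L * y) * cl (Q ν) * ((1 + ‖w‖) ^ (d * (d * L)) * E) := by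
          unfold cl
          rw [← Finset.sum_mul, ← Finset.mul_sum]
      _ ≤ _ := by
          apply mul_le_mul_of_nonneg_right _ (by positivity)
          exact mul_le_mul_of_nonneg_left (hQcl ν) (Real.exp_pos _).le
  calc _ ≤ ∑ _ν : Ix d L, Real.exp (2 * (d + 1) * |C₀| * L * y) * Real.exp (C₂ * d * L * y) * ((1 + ‖w‖) ^ (d * (d * L)) * E) :=
        norm_sum_le_of_le _ fun ν _ => hterm ν
    _ = (N : ℝ) * ((d + 1 : ℕ) * 2 ^ (d + 1)) * (Real.exp (2 * (d + 1) * |C₀| * L * y) * Real.exp (C₂ * d * L * y) * (B ^ (d + 1) * ε)) *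
          (1 + ‖w‖) ^ (d * (d * L)) := by
        rw [Finset.sum_const, Finset.card_univ, nsmul_eq_mul, hE, mul_pow]
        ring
    _ ≤ Real.exp (L * y) * (Real.exp (2 * (d + 1) * |C₀| * L * y) * Real.exp (C₂ * d * L * y) * (B ^ (d + 1) * ε)) *
          (1 + ‖w‖) ^ (d * (d * L)) := by
        apply mul_le_mul_of_nonneg_right _ (by positivity)
        apply mul_le_mul_of_nonneg_right _ (by positivity)
        have h8 := Real.add_one_le_exp (L * y)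
        nlinarith
    _ ≤ Real.exp (-(c₄ * L * y)) * (1 + ‖w‖) ^ (d * (d * L)) := by
        apply mul_le_mul_of_nonneg_right _ (by positivity)
        rw [hB, hε, ← Real.exp_nat_mul, ← Real.exp_add, ← Real.exp_add, ← Real.exp_add, ← Real.exp_add]
        apply Real.exp_le_exp.mpr
        rw [hc₄']
        have h9 : c₄ ≤ |c₄| := le_abs_self _
        push_cast
        have h10 : (0:ℝ) ≤ L * y := by positivity
        nlinarith [mul_le_mul_of_nonneg_right h9 h10]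

end Pool.Agent.MSK
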