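import Pool.Agent.Lib.MP_f58a57_nt.K.Defs

/-! # K/E1_Lag: coefficients from values -/

open Complex

noncomputable section

namespace Pool.Agent.MSK

open MSD MSP

variable {d : ℕ}

theorem lag_prod_coeff {ι : Type*} [DecidableEq ι] (x : ι → ℂ) (A : ℝ) (hA : 0 ≤ A) (hx : ∀ i, ‖x i‖ ≤ A)
    (s : Finset ι) : ∀ m, ‖(∏ j ∈ s, (Polynomial.X - Polynomial.C (x j))).coeff m‖ ≤ (1 + A) ^ s.card := by
  induction s using Finset.induction_on with
  | empty =>
    intro m
    rw [Finset.prod_empty, Polynomial.coeff_one]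
    split_ifs <;> simp
  | insert a s ha ih =>
    intro m
    rw [Finset.prod_insert ha, Finset.card_insert_of_notMem ha, sub_mul, Polynomial.coeff_sub,
      Polynomial.coeff_C_mul]
    have h1 : ‖(Polynomial.X * ∏ j ∈ s, (Polynomial.X - Polynomial.C (x j))).coeff m‖ ≤ (1 + A) ^ s.card := by
      cases m with
      | zero =>
        rw [Polynomial.mul_coeff_zero, Polynomial.coeff_X_zero, zero_mul, norm_zero]
        positivity
      | succ m =>
        rw [Polynomial.coeff_X_mul]
        exact ih m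
    refine (norm_sub_le _ _).trans ?_
    rw [norm_mul, pow_succ']
    refine (add_le_add h1 (mul_le_mul (hx a) (ih m) (norm_nonneg _) hA)).trans (le_of_eq ?_)
    ring

/-- E1a. PROOF. Lagrange interpolation: `p(X) = ∑ c_m X^m = ∑_i p(x_i) ∏_{j≠i} (X - x_j)/(x_i - x_j)`; the coefficients of `∏_{j≠i} (X - x_j)` are `≤ (1+A)^(n-1)` in absolute value. -/
theorem lag_coeff (n : ℕ) (x : Fin n → ℂ) (δ A ε : ℝ) (hδ : 0 < δ) (hδ1 : δ ≤ 1) (hA : 1 ≤ A) (hx : ∀ i, ‖x i‖ ≤ A)
    (hsep : ∀ i j, i ≠ j → δ ≤ ‖x i - x j‖) (c : Fin n → ℂ) (h : ∀ i, ‖∑ m, c m * x i ^ m.val‖ ≤ ε) :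
    ∀ m, ‖c m‖ ≤ ε * (n * (1 + A) ^ n / δ ^ n) := by
  classical
  intro m
  have hn : 0 < n := by
    have := m.2
    omega
  have hε : 0 ≤ ε := (norm_nonneg _).trans (h ⟨0, hn⟩)
  let P : Polynomial ℂ := ∑ m : Fin n, Polynomial.C (c m) * Polynomial.X ^ m.val
  have hPcoeff : P.coeff m.val = c m := by
    simp only [P]
    rw [Polynomial.finsetSum_coeff]
    rw [Finset.sum_eq_single m]
    · rw [Polynomial.coeff_C_mul_X_pow, if_pos rfl]
    · intro b _ hb
      rw [Polynomial.coeff_C_mul_X_pow, if_neg]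
      intro h0
      exact hb (Fin.ext h0.symm)
    · intro h0
      exact absurd (Finset.mem_univ m) h0
  have hPdeg : P.degree < (Finset.univ : Finset (Fin n)).card := by
    rw [Finset.card_univ, Fintype.card_fin]
    refine lt_of_le_of_lt (Polynomial.degree_sum_le _ _) ?_
    rw [Finset.sup_lt_iff (by exact WithBot.bot_lt_coe n)]
    intro b _
    refine lt_of_le_of_lt (Polynomial.degree_C_mul_X_pow_le _ _) ?_
    exact_mod_cast b.2
  have hinj : Set.InjOn x ((Finset.univ : Finset (Fin n)) : Set (Fin n)) := by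
    intro i _ j _ hij
    by_contra h0
    have := hsep i j h0
    rw [hij, sub_self, norm_zero] at this
    linarith
  have hP := Lagrange.eq_interpolate (s := (Finset.univ : Finset (Fin n))) (v := x) hinj hPdeg
  rw [Lagrange.interpolate_apply] at hP
  rw [← hPcoeff, hP, Polynomial.finsetSum_coeff]
  have hterm : ∀ i : Fin n, ‖(Polynomial.C (Polynomial.eval (x i) P) *
      Lagrange.basis Finset.univ x i).coeff m.val‖ ≤ ε * ((1 + A) ^ n / δ ^ n) := by
    intro i
    rw [Polynomial.coeff_C_mul, norm_mul]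
    have he : ‖Polynomial.eval (x i) P‖ ≤ ε := by
      have : Polynomial.eval (x i) P = ∑ m, c m * x i ^ m.val := by
        simp only [P]
        rw [Polynomial.eval_finsetSum]
        refine Finset.sum_congr rfl fun b _ => ?_
        simp
      rw [this]
      exact h i
    refine mul_le_mul he ?_ (norm_nonneg _) hε
    have hb : Lagrange.basis Finset.univ x i =
        Polynomial.C (∏ j ∈ Finset.univ.erase i, (x i - x j)⁻¹) *
          ∏ j ∈ Finset.univ.erase i, (Polynomial.X - Polynomial.C (x j)) := by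
      unfold Lagrange.basis Lagrange.basisDivisor
      rw [Finset.prod_mul_distrib, map_prod]
    have hcard : (Finset.univ.erase i : Finset (Fin n)).card = n - 1 := by
      rw [Finset.card_erase_of_mem (Finset.mem_univ i), Finset.card_univ, Fintype.card_fin]
    rw [hb, Polynomial.coeff_C_mul, norm_mul, norm_prod]
    have h1 : ∏ j ∈ Finset.univ.erase i, ‖(x i - x j)⁻¹‖ ≤ (1 / δ) ^ (n - 1) := by
      rw [← hcard, ← Finset.prod_const]
      refine Finset.prod_le_prod (fun _ _ => norm_nonneg _) fun j hj => ?_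
      rw [norm_inv, one_div]
      exact inv_anti₀ hδ (hsep i j (Finset.ne_of_mem_erase hj).symm)
    have h2 := lag_prod_coeff x A (by linarith) hx (Finset.univ.erase i) m.val
    rw [hcard] at h2
    calc (∏ j ∈ Finset.univ.erase i, ‖(x i - x j)⁻¹‖) *
          ‖(∏ j ∈ Finset.univ.erase i, (Polynomial.X - Polynomial.C (x j))).coeff m.val‖
        ≤ (1 / δ) ^ (n - 1) * (1 + A) ^ (n - 1) := mul_le_mul h1 h2 (norm_nonneg _) (by positivity)
      _ ≤ (1 / δ) ^ n * (1 + A) ^ n := by
          refine mul_le_mul (pow_le_pow_right₀ ?_ (by omega)) (pow_le_pow_right₀ (by linarith) (by omega))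
            (by positivity) (by positivity)
          rw [le_div_iff₀ hδ]
          linarith
      _ = (1 + A) ^ n / δ ^ n := by
          rw [one_div, inv_pow]
          field_simp
  refine (norm_sum_le _ _).trans ((Finset.sum_le_sum fun i _ => hterm i).trans (le_of_eq ?_))
  rw [Finset.sum_const, Finset.card_univ, Fintype.card_fin, nsmul_eq_mul]
  ring

/-- E1b. PROOF. Induction on `n` (split off one variable, `Fin.consEquiv`, `Fin.prod_univ_succ`): for fixed values of the other variables apply E1a. -/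
theorem prod_interp {n L : ℕ} (x : Fin n → Fin L → ℂ) (δ A ε : ℝ) (hδ : 0 < δ) (hδ1 : δ ≤ 1) (hA : 1 ≤ A) (hx : ∀ l i, ‖x l i‖ ≤ A)
    (hsep : ∀ l i j, i ≠ j → δ ≤ ‖x l i - x l j‖) (c : (Fin n → Fin L) → ℂ)
    (h : ∀ i : Fin n → Fin L, ‖∑ m : Fin n → Fin L, c m * ∏ l, x l (i l) ^ (m l).val‖ ≤ ε) :
    ∀ m, ‖c m‖ ≤ ε * (L * (1 + A) ^ L / δ ^ L) ^ n := by
  induction n generalizing ε with
  | zero =>
    intro m
    have h1 := h m
    rw [Fintype.sum_unique] at h1
    simp only [Finset.univ_eq_empty, Finset.prod_empty, mul_one] at h1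
    rw [pow_zero, mul_one]
    have : m = default := Subsingleton.elim _ _
    rw [this]
    exact h1
  | succ n ih =>
    intro m
    have hsplit : ∀ (i0 : Fin L) (i' : Fin n → Fin L),
        ∑ m : Fin (n + 1) → Fin L, c m * ∏ l, x l ((Fin.cons i0 i' : Fin (n + 1) → Fin L) l) ^ (m l).val =
        ∑ m0 : Fin L, (∑ m' : Fin n → Fin L, c (Fin.cons m0 m') *
          ∏ l : Fin n, x l.succ (i' l) ^ (m' l).val) * x 0 i0 ^ m0.val := by
      intro i0 i'
      rw [← (Fin.consEquiv fun _ : Fin (n + 1) => Fin L).sum_comp, Fintype.sum_prod_type]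
      refine Finset.sum_congr rfl fun m0 _ => ?_
      rw [Finset.sum_mul]
      refine Finset.sum_congr rfl fun m' _ => ?_
      have e : (Fin.consEquiv fun _ : Fin (n + 1) => Fin L) (m0, m') = Fin.cons m0 m' := rfl
      rw [e, Fin.prod_univ_succ]
      simp only [Fin.cons_zero, Fin.cons_succ]
      ring
    have key : ∀ (m0 : Fin L) (i' : Fin n → Fin L),
        ‖∑ m' : Fin n → Fin L, c (Fin.cons m0 m') * ∏ l : Fin n, x l.succ (i' l) ^ (m' l).val‖ ≤
          ε * (L * (1 + A) ^ L / δ ^ L) := by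
      intro m0 i'
      refine lag_coeff L (x 0) δ A ε hδ hδ1 hA (hx 0) (hsep 0)
        (fun m0 => ∑ m' : Fin n → Fin L, c (Fin.cons m0 m') * ∏ l : Fin n, x l.succ (i' l) ^ (m' l).val) ?_ m0
      intro i0
      have := h (Fin.cons i0 i')
      rw [hsplit i0 i'] at this
      exact this
    have h2 := ih (fun l => x l.succ) (ε * (L * (1 + A) ^ L / δ ^ L)) (fun l => hx l.succ)
      (fun l => hsep l.succ) (fun m' => c (Fin.cons (m 0) m')) (fun i' => key (m 0) i') (Fin.tail m)
    rw [Fin.cons_self_tail] at h2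
    refine h2.trans (le_of_eq ?_)
    ring

end Pool.Agent.MSK
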