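import Pool.Agent.Lib.MP_f58a57_nt.K.Defs
import Pool.Agent.Lib.MP_f58a57_nt.K.T1_Grow
import Pool.Agent.Lib.MP_f58a57_nt.K.T2_Low
import Pool.Agent.Lib.MP_f58a57_nt.K.T3_Diff

/-! # K/T2b_Sep: separation of the values of `wp` -/

open Complex

noncomputable section

namespace Pool.Agent.MSK

open MSD MSP

variable {d : ℕ}

theorem t2b_im (y : ℝ) : (I * y : ℂ).im = y := by simp

/-- the theta function at `2h + u` for real `u`. -/
theorem t2b_shift (y : ℝ) (hy : 1 ≤ y) (h : ℂ) (hh : h = 1 / 2 ∨ h = I * y / 2 ∨ h = (1 + I * y) / 2) (u : ℝ) :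
    ‖th (I * y) u‖ ≤ ‖th (I * y) (2 * h + u)‖ := by
  have hτ : 0 < (I * y : ℂ).im := by rw [t2b_im]; linarith
  have key : ∀ m n : ℤ, (n = 0 ∨ n = 1) → 2 * h = m + n * (I * y) → ‖th (I * y) u‖ ≤ ‖th (I * y) (2 * h + u)‖ := by
    intro m n hn h2
    have h1 := N0_shift (I * y) hτ m n u
    unfold N0 at h1
    have e : (2 * h + u : ℂ) = u + m + n * (I * y) := by rw [h2]; ring
    rw [e, h1, norm_mul, norm_au, t2b_im, Complex.ofReal_im]
    have h3 : 1 ≤ Real.exp (Real.pi * (n : ℝ) ^ 2 * y + 2 * Real.pi * n * 0) := by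
      apply Real.one_le_exp
      have h4 := Real.pi_pos
      have h5 : 0 < y := by linarith
      rw [mul_zero, add_zero]
      exact mul_nonneg (mul_nonneg h4.le (sq_nonneg _)) h5.le
    calc ‖th (I * y) u‖ = 1 * ‖th (I * y) u‖ := (one_mul _).symm
      _ ≤ _ := mul_le_mul_of_nonneg_right h3 (norm_nonneg _)
  rcases hh with h1 | h1 | h1
  · exact key 1 0 (Or.inl rfl) (by rw [h1]; push_cast; ring)
  · exact key 0 1 (Or.inr rfl) (by rw [h1]; push_cast; ring)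
  · exact key 1 1 (Or.inr rfl) (by rw [h1]; push_cast; ring)

theorem t2b_him (y : ℝ) (hy : 1 ≤ y) (h : ℂ) (hh : h = 1 / 2 ∨ h = I * y / 2 ∨ h = (1 + I * y) / 2) (x : ℝ) :
    (h + x).im ^ 2 / y ≤ y := by
  have h0 : (h + x).im = 0 ∨ (h + x).im = y / 2 := by
    rcases hh with h1 | h1 | h1
    · left; rw [h1]; simp
    · right; rw [h1]; simp
    · right; rw [h1]; simp
  rw [div_le_iff₀ (by linarith)]
  rcases h0 with h1 | h1
  · rw [h1]; nlinarith
  · rw [h1]; nlinarith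

/-- T2c. PROOF. `wp_diff` (T3) with `a = h + x`, `b = h + x'`: `a - b = x - x'`, `a + b = 2h + (x + x')`, where `2h` is a period (`1`, `τ` or `1 + τ`), so
`‖th (a + b)‖ = ‖au τ m n (x+x')‖ ‖th (x+x')‖`, `‖au‖ ≥ 1` (`norm_au`, `n ∈ {0,1}`, real argument). Lower bounds T2b, upper bounds for `‖th a‖, ‖th b‖` by `grow_unif`
(`Im a ≤ y`). -/
theorem wp_sep : ∃ C : ℝ, 1 ≤ C ∧ ∀ y : ℝ, 1 ≤ y → ∀ h : ℂ, (h = 1 / 2 ∨ h = I * y / 2 ∨ h = (1 + I * y) / 2) → ∀ x x' : ℝ,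
    0 ≤ x → x ≤ 1 / 8 → 0 ≤ x' → x' ≤ 1 / 8 →
    Real.exp (-(C * y)) * |x - x'| * (x + x') ≤ ‖wp (I * y) (sE (I * y)) (h + x) - wp (I * y) (sE (I * y)) (h + x')‖ := by
  obtain ⟨C₁, hC₁, hG⟩ := grow_unif
  obtain ⟨C₂, hC₂, hL⟩ := th_low
  obtain ⟨c, hc, hR⟩ := th_low_real
  refine ⟨8 * C₁ + 4 * |Real.log c| + 1, by have := abs_nonneg (Real.log c); linarith, ?_⟩
  intro y hy h hh x x' hx0 hx1 hx0' hx1'
  have hτ : 0 < (I * y : ℂ).im := by rw [t2b_im]; linarith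
  have hypos : (0 : ℝ) < y := by linarith
  have ha : 0 < ‖th (I * y) (h + x)‖ := lt_of_lt_of_le (Real.exp_pos _) (hL y hy h hh x hx0 hx1)
  have hb : 0 < ‖th (I * y) (h + x')‖ := lt_of_lt_of_le (Real.exp_pos _) (hL y hy h hh x' hx0' hx1')
  rw [wp_diff (I * y) hτ (sE (I * y)) (h + x) (h + x') (norm_pos_iff.1 ha) (norm_pos_iff.1 hb)]
  obtain ⟨hR1, hR2⟩ := hR y hy
  have e1 : (h + x + (h + x') : ℂ) = 2 * h + ((x + x' : ℝ) : ℂ) := by push_cast; ring
  have e2 : (h + x - (h + x') : ℂ) = ((x - x' : ℝ) : ℂ) := by push_cast; ring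
  rw [e1, e2, norm_div, norm_mul, norm_mul, norm_mul, norm_neg, norm_pow, norm_pow, norm_pow]
  have k1 : c * (x + x') ≤ ‖th (I * y) (2 * h + ((x + x' : ℝ) : ℂ))‖ := by
    refine le_trans ?_ (t2b_shift y hy h hh (x + x'))
    have := hR1 (x + x') (by rw [abs_of_nonneg (by linarith)]; linarith)
    rwa [abs_of_nonneg (by linarith)] at this
  have k2 : c * |x - x'| ≤ ‖th (I * y) ((x - x' : ℝ) : ℂ)‖ :=
    hR1 (x - x') (by rw [abs_le]; constructor <;> linarith)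
  have k3 : ∀ u : ℝ, ‖th (I * y) (h + u)‖ ≤ Real.exp (2 * C₁ * y) := by
    intro u
    have := (hG y hy (h + u)).1
    unfold N0 at this
    refine this.trans (Real.exp_le_exp.2 ?_)
    have h5 := t2b_him y hy h hh u
    nlinarith
  have k4 : ‖th (I * y) (h + x)‖ ^ 2 * ‖th (I * y) (h + x')‖ ^ 2 ≤ Real.exp (8 * C₁ * y) := by
    have h1 : ‖th (I * y) (h + x)‖ ^ 2 ≤ Real.exp (2 * C₁ * y) ^ 2 := pow_le_pow_left₀ (norm_nonneg _) (k3 x) 2
    have h2 : ‖th (I * y) (h + x')‖ ^ 2 ≤ Real.exp (2 * C₁ * y) ^ 2 := pow_le_pow_left₀ (norm_nonneg _) (k3 x') 2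
    calc _ ≤ Real.exp (2 * C₁ * y) ^ 2 * Real.exp (2 * C₁ * y) ^ 2 := mul_le_mul h1 h2 (by positivity) (by positivity)
      _ = Real.exp (8 * C₁ * y) := by
        rw [← Real.exp_nat_mul, ← Real.exp_add]
        congr 1
        push_cast
        ring
  rw [le_div_iff₀ (by positivity)]
  have hlog : Real.exp (-(4 * |Real.log c| * y)) ≤ c ^ 4 := by
    have h1 : c ^ 4 = Real.exp (4 * Real.log c) := by
      rw [show (4 : ℝ) * Real.log c = ((4 : ℕ) : ℝ) * Real.log c by norm_num, Real.exp_nat_mul, Real.exp_log hc]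
    rw [h1]
    apply Real.exp_le_exp.2
    have h2 := neg_abs_le (Real.log c)
    have h3 := abs_nonneg (Real.log c)
    nlinarith
  have hx : 0 ≤ |x - x'| * (x + x') := mul_nonneg (abs_nonneg _) (by linarith)
  calc Real.exp (-((8 * C₁ + 4 * |Real.log c| + 1) * y)) * |x - x'| * (x + x') *
        (‖th (I * y) (h + x)‖ ^ 2 * ‖th (I * y) (h + x')‖ ^ 2)
      ≤ Real.exp (-((8 * C₁ + 4 * |Real.log c| + 1) * y)) * |x - x'| * (x + x') * Real.exp (8 * C₁ * y) :=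
        mul_le_mul_of_nonneg_left k4 (by rw [mul_assoc]; exact mul_nonneg (Real.exp_pos _).le hx)
    _ = (Real.exp (-(4 * |Real.log c| * y)) * Real.exp (-y)) * (|x - x'| * (x + x')) := by
        have : Real.exp (-((8 * C₁ + 4 * |Real.log c| + 1) * y)) * Real.exp (8 * C₁ * y) =
            Real.exp (-(4 * |Real.log c| * y)) * Real.exp (-y) := by
          rw [← Real.exp_add, ← Real.exp_add]
          congr 1
          ring
        rw [← this]
        ring
    _ ≤ (c ^ 4 * 1) * (|x - x'| * (x + x')) := by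
        refine mul_le_mul_of_nonneg_right ?_ hx
        exact mul_le_mul hlog (Real.exp_le_one_iff.2 (by linarith)) (Real.exp_pos _).le (by positivity)
    _ = c ^ 2 * (c * (x + x')) * (c * |x - x'|) := by ring
    _ ≤ _ := by
        refine mul_le_mul (mul_le_mul (pow_le_pow_left₀ hc.le hR2 2) k1 (mul_nonneg hc.le (by linarith)) (by positivity))
          k2 (by positivity) (by positivity)

end Pool.Agent.MSK
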