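import Pool.Agent.Lib.MP_f58a57_nt.K.Defs
import Pool.Agent.Lib.MP_f58a57_nt.K.D1_As
import Pool.Agent.Lib.MP_f58a57_nt.K.E1_Lag
import Pool.Agent.Lib.MP_f58a57_nt.K.T2b_Sep

/-! # K/D4_Low: the coefficients are bounded by the values of the auxiliary function -/

open Complex

noncomputable section

namespace Pool.Agent.MSK

open MSD MSP

variable {d : ℕ}

theorem d4_im (y : ℝ) (hy : 1 ≤ y) (h : ℂ) (hh : h = 1 / 2 ∨ h = I * y / 2 ∨ h = (1 + I * y) / 2) (x : ℝ) :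
    (h + x).im ^ 2 / y ≤ y := by
  have h0 : 0 < y := by linarith
  rw [div_le_iff₀ h0]
  have key : (h + x).im = 0 ∨ (h + x).im = y / 2 := by
    rcases hh with rfl | rfl | rfl
    · left; simp
    · right; simp
    · right; simp
  rcases key with e | e <;> rw [e] <;> nlinarith

/-- local bounds at the nodes -/
theorem d4_loc : ∃ C : ℝ, 1 ≤ C ∧ ∀ y : ℝ, 1 ≤ y → ∀ h : ℂ, (h = 1 / 2 ∨ h = I * y / 2 ∨ h = (1 + I * y) / 2) →
    ∀ x : ℝ, 0 ≤ x → x ≤ 1 / 8 →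
    Real.exp (-(C * y)) ≤ ‖N0 (I * y) (h + x)‖ ∧ ‖ph (I * y) (h + x)‖ ≤ Real.exp (C * y) ∧
      ‖wp (I * y) (sE (I * y)) (h + x)‖ ≤ Real.exp (C * y) := by
  obtain ⟨C₁, h1, hg⟩ := grow_unif
  obtain ⟨C₂, h2, hl⟩ := th_low
  refine ⟨2 * C₁ + 2 * C₂, by linarith, ?_⟩
  intro y hy h hh x hx0 hx1
  have hi := d4_im y hy h hh x
  obtain ⟨g0, g1, g2, -⟩ := hg y hy (h + x)
  have hle : C₁ * (y + (h + x).im ^ 2 / y) ≤ 2 * C₁ * y := by nlinarith
  have hE := Real.exp_le_exp.2 hle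
  have lo : Real.exp (-(C₂ * y)) ≤ ‖N0 (I * y) (h + x)‖ := hl y hy h hh x hx0 hx1
  have pos : 0 < ‖N0 (I * y) (h + x)‖ := lt_of_lt_of_le (Real.exp_pos _) lo
  have inv : ‖N0 (I * y) (h + x)‖⁻¹ ≤ Real.exp (C₂ * y) := by
    rw [← inv_inv (Real.exp (C₂ * y)), ← Real.exp_neg]
    exact inv_anti₀ (Real.exp_pos _) lo
  refine ⟨le_trans (Real.exp_le_exp.2 (by nlinarith)) lo, ?_, ?_⟩
  · unfold ph
    rw [norm_div, div_eq_mul_inv]
    calc ‖N1 (I * y) (h + x)‖ * ‖N0 (I * y) (h + x)‖⁻¹ ≤ Real.exp (2 * C₁ * y) * Real.exp (C₂ * y) :=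
          mul_le_mul (g1.trans hE) inv (by positivity) (Real.exp_pos _).le
      _ = Real.exp (2 * C₁ * y + C₂ * y) := (Real.exp_add _ _).symm
      _ ≤ _ := Real.exp_le_exp.2 (by nlinarith)
  · unfold wp
    rw [norm_div, norm_pow, div_eq_mul_inv, ← inv_pow]
    calc ‖N2 (I * y) (sE (I * y)) (h + x)‖ * ‖N0 (I * y) (h + x)‖⁻¹ ^ 2 ≤ Real.exp (2 * C₁ * y) * Real.exp (C₂ * y) ^ 2 :=
          mul_le_mul (g2.trans hE) (pow_le_pow_left₀ (by positivity) inv 2) (by positivity) (Real.exp_pos _).le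
      _ = Real.exp (2 * C₁ * y + 2 * (C₂ * y)) := by
          rw [← Real.exp_nat_mul, ← Real.exp_add]; norm_num
      _ ≤ _ := Real.exp_le_exp.2 (by nlinarith)

/-- numbers are below exponentials -/
theorem d4_exp {a y : ℝ} (ha : 0 ≤ a) (hy : 1 ≤ y) : a ≤ Real.exp (a * y) := by
  have := Real.add_one_le_exp (a * y)
  nlinarith

/-- the point `w` for given values of the additive functions -/
theorem d4_w (P : Par d) (C₀ : ℝ) (hC : 0 ≤ C₀) : ∃ C : ℝ, 1 ≤ C ∧ ∀ y : ℝ, 1 ≤ y → ∀ D : Dt d, Adm C₀ y P D →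
    ∀ t : Fin (d + 1) → ℝ, (∀ l, 0 ≤ t l) → (∀ l, t l ≤ 1 / 8) → ∀ ξ : Fin d → ℂ, (∀ j, ‖ξ j‖ ≤ Real.exp y) →
    ∃ w : Fin d → ℂ, (∀ j, Xi P D w (fun l => (t l : ℂ)) j = ξ j) ∧ ‖w‖ ≤ Real.exp (C * y) := by
  obtain ⟨Cl, hl1, hloc⟩ := d4_loc
  obtain ⟨CA, hA1, hA⟩ := As_inv P
  set β : ℝ := 1 + ∑ l, ‖(P.b l : ℂ)‖ + ‖P.z‖ with hβ
  have hβ1 : 1 ≤ β := by
    have : 0 ≤ ∑ l, ‖(P.b l : ℂ)‖ := Finset.sum_nonneg (fun _ _ => norm_nonneg _)
    have := norm_nonneg P.z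
    linarith
  refine ⟨CA + (1 + 2 * β) + (C₀ + Cl + 1) + 2 * C₀, by linarith, ?_⟩
  intro y hy D hD t ht0 ht1 ξ hξ
  have hh : ∀ l, D.h l = 1 / 2 ∨ D.h l = I * y / 2 ∨ D.h l = (1 + I * y) / 2 := by
    intro l
    have := hD.h l
    rwa [hD.τ] at this
  have hps : ∀ l, ‖D.ps l (t l)‖ ≤ 2 * Real.exp (Cl * y) := by
    intro l
    unfold Dt.ps
    rw [hD.τ]
    have a1 := (hloc y hy (D.h l) (hh l) (t l) (ht0 l) (ht1 l)).2.1
    have a2 := (hloc y hy (D.h l) (hh l) 0 le_rfl (by norm_num)).2.1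
    simp only [ofReal_zero, add_zero] at a2
    exact (norm_sub_le _ _).trans (by linarith)
  have hδ : Real.exp (-(C₀ * y)) ≤ 1 := Real.exp_le_one_iff.2 (by nlinarith)
  set B : Fin d → ℂ := fun j => D.ps j.castSucc (t j.castSucc) + P.b j.succ * D.ps (Fin.last d) (t (Fin.last d))
    - P.z * D.ps j.succ (t j.succ) with hB
  obtain ⟨w, hw1, hw2⟩ := hA D.s (Real.exp (-(C₀ * y))) (Real.exp_pos _) hδ hD.det (fun j => (ξ j + rh / D.om * B j) / D.om)
  refine ⟨w, ?_, ?_⟩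
  · intro j
    have hne := D.ne
    unfold Xi
    rw [hw1 j]
    simp only [hB]
    field_simp
    ring
  have ominv : ‖D.om‖⁻¹ ≤ Real.exp (C₀ * y) := by
    rw [← inv_inv (Real.exp (C₀ * y)), ← Real.exp_neg]
    exact inv_anti₀ (Real.exp_pos _) hD.om₂
  have hBn : ∀ j, ‖B j‖ ≤ β * (2 * Real.exp (Cl * y)) := by
    intro j
    have e0 : 0 ≤ 2 * Real.exp (Cl * y) := by positivity
    have b1 : ‖(P.b j.succ : ℂ)‖ ≤ ∑ l, ‖(P.b l : ℂ)‖ :=
      Finset.single_le_sum (f := fun l => ‖(P.b l : ℂ)‖) (fun _ _ => norm_nonneg _) (Finset.mem_univ _)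
    have n1 := hps j.castSucc
    have n2 := hps (Fin.last d)
    have n3 := hps j.succ
    calc ‖B j‖ ≤ ‖D.ps j.castSucc (t j.castSucc)‖ + ‖(P.b j.succ : ℂ)‖ * ‖D.ps (Fin.last d) (t (Fin.last d))‖
          + ‖P.z‖ * ‖D.ps j.succ (t j.succ)‖ := by
          have m1 := norm_sub_le (D.ps j.castSucc (t j.castSucc) + P.b j.succ * D.ps (Fin.last d) (t (Fin.last d)))
            (P.z * D.ps j.succ (t j.succ))
          have m2 := norm_add_le (D.ps j.castSucc (t j.castSucc)) (P.b j.succ * D.ps (Fin.last d) (t (Fin.last d)))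
          rw [norm_mul] at m1 m2
          simp only [hB]
          linarith
      _ ≤ 2 * Real.exp (Cl * y) + (∑ l, ‖(P.b l : ℂ)‖) * (2 * Real.exp (Cl * y)) + ‖P.z‖ * (2 * Real.exp (Cl * y)) := by
          gcongr
      _ = β * (2 * Real.exp (Cl * y)) := by rw [hβ]; ring
  have hrh : ‖rh‖ ≤ 1 := by
    unfold rh
    rw [norm_div, norm_neg, Complex.norm_I]
    norm_num
  set E : ℝ := Real.exp ((C₀ + Cl + 1) * y) with hE
  have hE1 : Real.exp y ≤ E := Real.exp_le_exp.2 (by nlinarith)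
  have hE2 : Real.exp (C₀ * y) * Real.exp (Cl * y) ≤ E := by
    rw [← Real.exp_add]
    exact Real.exp_le_exp.2 (by nlinarith)
  have hE0 : 0 < E := Real.exp_pos _
  have hr : ‖(fun j => (ξ j + rh / D.om * B j) / D.om : Fin d → ℂ)‖ ≤ (1 + 2 * β) * E * Real.exp (C₀ * y) := by
    rw [pi_norm_le_iff_of_nonneg (by positivity)]
    intro j
    rw [norm_div, div_eq_mul_inv]
    refine mul_le_mul ?_ ominv (by positivity) (by positivity)
    calc ‖ξ j + rh / D.om * B j‖ ≤ ‖ξ j‖ + ‖rh‖ * ‖D.om‖⁻¹ * ‖B j‖ := by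
          refine (norm_add_le _ _).trans ?_
          rw [norm_mul, norm_div, div_eq_mul_inv]
      _ ≤ E + 1 * Real.exp (C₀ * y) * (β * (2 * Real.exp (Cl * y))) := by
          gcongr
          · exact (hξ j).trans hE1
          · exact hBn j
      _ = E + 2 * β * (Real.exp (C₀ * y) * Real.exp (Cl * y)) := by ring
      _ ≤ E + 2 * β * E := by gcongr
      _ = (1 + 2 * β) * E := by ring
  have hCA : CA ≤ Real.exp (CA * y) := d4_exp (by linarith) hy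
  have hb : 1 + 2 * β ≤ Real.exp ((1 + 2 * β) * y) := d4_exp (by linarith) hy
  calc ‖w‖ ≤ CA * ‖(fun j => (ξ j + rh / D.om * B j) / D.om : Fin d → ℂ)‖ / Real.exp (-(C₀ * y)) := hw2
    _ = CA * ‖(fun j => (ξ j + rh / D.om * B j) / D.om : Fin d → ℂ)‖ * Real.exp (C₀ * y) := by
        rw [Real.exp_neg, div_inv_eq_mul]
    _ ≤ Real.exp (CA * y) * (Real.exp ((1 + 2 * β) * y) * E * Real.exp (C₀ * y)) * Real.exp (C₀ * y) := by
        gcongr
        exact hr.trans (by gcongr)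
    _ = Real.exp (CA * y + (1 + 2 * β) * y + (C₀ + Cl + 1) * y + C₀ * y + C₀ * y) := by
        rw [hE]; simp only [Real.exp_add]; ring
    _ = Real.exp ((CA + (1 + 2 * β) + (C₀ + Cl + 1) + 2 * C₀) * y) := by congr 1; ring

theorem d4_div {a p u ε : ℝ} {n : ℕ} (ha : 0 ≤ a) (hp : Real.exp (-u) ≤ p) (h : a * p ^ n ≤ ε) : a ≤ ε * Real.exp (n * u) := by
  have h1 : Real.exp (-u) ^ n ≤ p ^ n := pow_le_pow_left₀ (Real.exp_pos _).le hp n
  have h2 : Real.exp (-u) ^ n * Real.exp (n * u) = 1 := by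
    rw [← Real.exp_nat_mul, ← Real.exp_add]; simp
  calc a = a * Real.exp (-u) ^ n * Real.exp (n * u) := by rw [mul_assoc, h2, mul_one]
    _ ≤ a * p ^ n * Real.exp (n * u) := by gcongr
    _ ≤ ε * Real.exp (n * u) := by gcongr

/-- D4. PROOF. Nodes `x_i = (i+1)/(8L) ∈ (0, 1/8]`, `i < L`, for all the `t_l`; nodes `ξ ∈ {0, ..., L-1}` for the values of `Xi_j`. Given `t ∈ nodes^(d+1)` and `ξ ∈ nodes^d` choose by `As_inv` (`δ = e^{-C₀y}`) `w` with
`As P s w j = (ξ_j + (rh/om)(ps..))/om`, so `Xi P D w t j = ξ_j`; `‖ps_l(x_i)‖ ≤ e^{Cy}` (`ph = N1/N0`, `grow_unif`, `th_low`), so `‖w‖ ≤ e^{C₆ y}` for `y ≥ Y(L)`. Then `Fh w t = ∑ c ν ∏ X_l(t_l)^(a_l) ∏ ξ_j^(i_j)` and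
`‖Fh w t‖ ≤ ε/‖pp t‖^(2(d+2)L) ≤ ε e^{C L y}` (`th_low`). Interpolate: the nodes `X_l(x_i) = wp(h_l + x_i)/om²` are bounded by `e^{Cy}` and separated by `e^{-Cy} · 1/(64 L²)` (`wp_sep`), the nodes `ξ` by `1`; put all the nodes
together in a family indexed by `Fin (d+1+d)` (or apply `prod_interp` twice), `prod_interp` gives `‖c ν‖ ≤ ε e^{CLy} · (L (1+A)^L/δ^L)^(2d+1) ≤ e^{C₆ L y} ε` for `y ≥ Y(L)`. -/
theorem lower (P : Par d) (C₀ : ℝ) (hC : 0 ≤ C₀) : ∃ C₆ : ℝ, 1 ≤ C₆ ∧ ∀ L : ℕ, 1 ≤ L → ∃ Y : ℝ, 1 ≤ Y ∧ ∀ y : ℝ, Y ≤ y → ∀ D : Dt d, Adm C₀ y P D →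
    ∀ (c : Ix d L → ℂ) (ε : ℝ), (∀ (w : Fin d → ℂ) (t : Fin (d + 1) → ℂ), (∀ l, (t l).im = 0) → ‖w‖ ≤ Real.exp (C₆ * y) →
      ‖Fh P D c w t * pp D t ^ (2 * (d + 2) * L)‖ ≤ ε) → ∀ ν, ‖c ν‖ ≤ Real.exp (C₆ * L * y) * ε := by
  obtain ⟨Cl, hl1, hloc⟩ := d4_loc
  obtain ⟨Cw, hw1, hw⟩ := d4_w P C₀ hC
  obtain ⟨C₃, h31, hsep⟩ := wp_sep
  refine ⟨Cw + 2 * (d + 1) * (d + 2) * Cl + (Cl + C₃ + 4 * C₀ + 3) * (d + 1) + 2 * d, ?_, ?_⟩
  · have : 0 ≤ 2 * ((d : ℝ) + 1) * (d + 2) * Cl + (Cl + C₃ + 4 * C₀ + 3) * (d + 1) + 2 * d := by positivity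
    linarith
  intro L hL
  have hLr : (1 : ℝ) ≤ L := by exact_mod_cast hL
  refine ⟨64 * (L : ℝ) ^ 2, by nlinarith, ?_⟩
  intro y hy D hD c ε hF ν
  have hy1 : 1 ≤ y := by nlinarith
  have hyL : (L : ℝ) + 1 ≤ y := by nlinarith
  have hey : y ≤ Real.exp y := by linarith [Real.add_one_le_exp y]
  have hh : ∀ l, D.h l = 1 / 2 ∨ D.h l = I * y / 2 ∨ D.h l = (1 + I * y) / 2 := by
    intro l
    have := hD.h l
    rwa [hD.τ] at this
  have ominv : ‖D.om‖⁻¹ ≤ Real.exp (C₀ * y) := by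
    rw [← inv_inv (Real.exp (C₀ * y)), ← Real.exp_neg]
    exact inv_anti₀ (Real.exp_pos _) hD.om₂
  have ompos : 0 < ‖D.om‖ := norm_pos_iff.2 D.ne
  -- nodes
  set x : Fin L → ℝ := fun i => ((i.val : ℝ) + 1) / (8 * L) with hx
  have hx0 : ∀ i, 1 / (8 * (L : ℝ)) ≤ x i := by
    intro i
    simp only [hx]
    gcongr
    have : (0 : ℝ) ≤ i.val := by positivity
    linarith
  have hxp : ∀ i, 0 ≤ x i := fun i => le_trans (by positivity) (hx0 i)
  have hx1 : ∀ i, x i ≤ 1 / 8 := by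
    intro i
    simp only [hx]
    rw [div_le_div_iff₀ (by positivity) (by norm_num)]
    have : ((i.val : ℝ) + 1) ≤ L := by exact_mod_cast i.isLt
    linarith
  have hxs : ∀ i j, i ≠ j → 1 / (8 * (L : ℝ)) ≤ |x i - x j| := by
    intro i j hij
    simp only [hx]
    rw [← sub_div, abs_div, abs_of_pos (by positivity : (0 : ℝ) < 8 * L)]
    gcongr
    have h1 : (i.val : ℤ) - j.val ≠ 0 := by
      intro h0
      apply hij
      ext
      omega
    have h2 : (1 : ℤ) ≤ |(i.val : ℤ) - j.val| := Int.one_le_abs h1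
    have h3 : (1 : ℝ) ≤ |((i.val : ℤ) : ℝ) - ((j.val : ℤ) : ℝ)| := by exact_mod_cast h2
    simpa using h3
  -- values of X at the nodes
  have hXb : ∀ l (i : Fin L), ‖D.X l (x i)‖ ≤ Real.exp ((Cl + 2 * C₀) * y) := by
    intro l i
    unfold Dt.X
    rw [hD.τ, norm_div, norm_pow, div_eq_mul_inv, ← inv_pow]
    calc ‖wp (I * y) (sE (I * y)) (D.h l + x i)‖ * ‖D.om‖⁻¹ ^ 2 ≤ Real.exp (Cl * y) * Real.exp (C₀ * y) ^ 2 :=
          mul_le_mul (hloc y hy1 (D.h l) (hh l) (x i) (hxp i) (hx1 i)).2.2 (pow_le_pow_left₀ (by positivity) ominv 2)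
            (by positivity) (Real.exp_pos _).le
      _ = Real.exp ((Cl + 2 * C₀) * y) := by
          rw [← Real.exp_nat_mul, ← Real.exp_add]; congr 1; push_cast; ring
  set δ : ℝ := Real.exp (-((C₃ + 2 * C₀ + 1) * y)) with hδ
  have hXs : ∀ l (i j : Fin L), i ≠ j → δ ≤ ‖D.X l (x i) - D.X l (x j)‖ := by
    intro l i j hij
    unfold Dt.X
    rw [hD.τ, ← sub_div, norm_div, norm_pow]
    have q1 := hsep y hy1 (D.h l) (hh l) (x i) (x j) (hxp i) (hx1 i) (hxp j) (hx1 j)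
    have q2 : 1 / (8 * (L : ℝ)) * (1 / (8 * (L : ℝ))) ≤ |x i - x j| * (x i + x j) := by
      refine mul_le_mul (hxs i j hij) ?_ (by positivity) (abs_nonneg _)
      have := hx0 i
      have := hxp j
      linarith
    have q3 : Real.exp (-y) ≤ 1 / (8 * (L : ℝ)) * (1 / (8 * (L : ℝ))) := by
      rw [Real.exp_neg, inv_le_comm₀ (Real.exp_pos _) (by positivity)]
      calc (1 / (8 * (L : ℝ)) * (1 / (8 * (L : ℝ))))⁻¹ = 64 * (L : ℝ) ^ 2 := by
            field_simp; norm_num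
        _ ≤ Real.exp y := hy.trans hey
    rw [le_div_iff₀ (by positivity)]
    calc δ * ‖D.om‖ ^ 2 ≤ δ * Real.exp (C₀ * y) ^ 2 := by
          gcongr
          exact hD.om₁
      _ = Real.exp (-(C₃ * y)) * Real.exp (-y) := by
          rw [hδ, ← Real.exp_nat_mul, ← Real.exp_add, ← Real.exp_add]; congr 1; push_cast; ring
      _ ≤ Real.exp (-(C₃ * y)) * (|x i - x j| * (x i + x j)) := by
          gcongr
          exact q3.trans q2
      _ ≤ _ := by rw [← mul_assoc]; exact q1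
  have hδ1 : δ ≤ 1 := Real.exp_le_one_iff.2 (by
    have : 0 ≤ (C₃ + 2 * C₀ + 1) * y := by positivity
    linarith)
  -- values of the polynomial at the nodes
  set U : ℝ := 2 * (d + 1) * (d + 2) * Cl * L * y with hU
  have key : ∀ (i : Fin (d + 1) → Fin L) (ξ : Fin d → Fin L),
      ‖∑ a : Fin (d + 1) → Fin L, (∑ b : Fin d → Fin L, c (a, b) * ∏ j, ((ξ j).val : ℂ) ^ (b j).val) *
        ∏ l, D.X l (x (i l)) ^ (a l).val‖ ≤ ε * Real.exp U := by
    intro i ξ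
    obtain ⟨w, e1, e2⟩ := hw y hy1 D hD (fun l => x (i l)) (fun l => hxp _) (fun l => hx1 _) (fun j => ((ξ j).val : ℂ)) (by
      intro j
      rw [Complex.norm_natCast]
      have : ((ξ j).val : ℝ) ≤ L := by exact_mod_cast (ξ j).isLt.le
      linarith)
    have e3 : ‖w‖ ≤ Real.exp ((Cw + 2 * (d + 1) * (d + 2) * Cl + (Cl + C₃ + 4 * C₀ + 3) * (d + 1) + 2 * d) * y) := by
      refine e2.trans (Real.exp_le_exp.2 ?_)
      have : 0 ≤ (2 * ((d : ℝ) + 1) * (d + 2) * Cl + (Cl + C₃ + 4 * C₀ + 3) * (d + 1) + 2 * d) * y := by positivity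
      nlinarith
    have e4 := hF w (fun l => ((x (i l) : ℝ) : ℂ)) (fun l => Complex.ofReal_im _) e3
    rw [norm_mul, norm_pow] at e4
    have e5 : Real.exp (-((d + 1) * (Cl * y))) ≤ ‖pp D (fun l => ((x (i l) : ℝ) : ℂ))‖ := by
      unfold pp
      rw [norm_prod]
      calc Real.exp (-((d + 1) * (Cl * y))) = ∏ l : Fin (d + 1), Real.exp (-(Cl * y)) := by
            rw [Finset.prod_const, Finset.card_univ, Fintype.card_fin, ← Real.exp_nat_mul]
            congr 1; push_cast; ring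
        _ ≤ _ := by
            refine Finset.prod_le_prod (fun _ _ => (Real.exp_pos _).le) ?_
            intro l _
            rw [hD.τ]
            exact (hloc y hy1 (D.h l) (hh l) (x (i l)) (hxp _) (hx1 _)).1
    have e6 := d4_div (norm_nonneg _) e5 e4
    have e7 : Fh P D c w (fun l => ((x (i l) : ℝ) : ℂ)) = ∑ a : Fin (d + 1) → Fin L,
        (∑ b : Fin d → Fin L, c (a, b) * ∏ j, ((ξ j).val : ℂ) ^ (b j).val) * ∏ l, D.X l (x (i l)) ^ (a l).val := by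
      unfold Fh
      rw [Fintype.sum_prod_type]
      refine Finset.sum_congr rfl (fun a _ => ?_)
      rw [Finset.sum_mul]
      refine Finset.sum_congr rfl (fun b _ => ?_)
      unfold mon
      simp only [e1]
      ring
    rw [← e7]
    refine e6.trans (le_of_eq ?_)
    congr 2
    rw [hU]; push_cast; ring
  -- first interpolation
  have hA1 : (1 : ℝ) ≤ Real.exp ((Cl + 2 * C₀) * y) := Real.one_le_exp (by positivity)
  have s1 : ∀ (ξ : Fin d → Fin L) (a : Fin (d + 1) → Fin L),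
      ‖∑ b : Fin d → Fin L, c (a, b) * ∏ j, ((ξ j).val : ℂ) ^ (b j).val‖ ≤
        ε * Real.exp U * (L * (1 + Real.exp ((Cl + 2 * C₀) * y)) ^ L / δ ^ L) ^ (d + 1) := by
    intro ξ
    exact prod_interp (fun l i => D.X l (x i)) δ (Real.exp ((Cl + 2 * C₀) * y)) (ε * Real.exp U) (Real.exp_pos _) hδ1 hA1
      (fun l i => hXb l i) (fun l i j hij => hXs l i j hij)
      (fun a => ∑ b : Fin d → Fin L, c (a, b) * ∏ j, ((ξ j).val : ℂ) ^ (b j).val) (fun i => key i ξ)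
  have s2 := prod_interp (n := d) (L := L) (fun _ i => ((i.val : ℕ) : ℂ)) 1 L
      (ε * Real.exp U * (L * (1 + Real.exp ((Cl + 2 * C₀) * y)) ^ L / δ ^ L) ^ (d + 1)) one_pos le_rfl hLr
      (fun _ i => by
        rw [Complex.norm_natCast]
        exact_mod_cast i.isLt.le)
      (fun _ i j hij => by
        have h1 : (i.val : ℤ) - j.val ≠ 0 := by
          intro h0
          apply hij
          ext
          omega
        have h2 : (1 : ℤ) ≤ |(i.val : ℤ) - j.val| := Int.one_le_abs h1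
        have h3 : (1 : ℝ) ≤ |((i.val : ℤ) : ℝ) - ((j.val : ℤ) : ℝ)| := by exact_mod_cast h2
        have h4 : ((i.val : ℂ) - (j.val : ℂ)) = (((i.val : ℝ) - (j.val : ℝ) : ℝ) : ℂ) := by push_cast; ring
        rw [h4, Complex.norm_real, Real.norm_eq_abs]
        simpa using h3)
      (fun b => c (ν.1, b)) (fun ξ => s1 ξ ν.1) ν.2
  have hε : 0 ≤ ε := by
    have := (norm_nonneg _).trans (hF 0 0 (fun l => by simp) (by rw [norm_zero]; exact (Real.exp_pos _).le))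
    exact this
  have hLe : (L : ℝ) ≤ Real.exp (L * y) := by
    have := d4_exp (a := (L : ℝ)) (by positivity) hy1
    exact this
  have f1 : L * (1 + Real.exp ((Cl + 2 * C₀) * y)) ^ L / δ ^ L ≤ Real.exp ((Cl + C₃ + 4 * C₀ + 3) * L * y) := by
    have g1 : 1 + Real.exp ((Cl + 2 * C₀) * y) ≤ Real.exp ((Cl + 2 * C₀ + 1) * y) := by
      have : Real.exp ((Cl + 2 * C₀ + 1) * y) = Real.exp ((Cl + 2 * C₀) * y) * Real.exp y := by
        rw [← Real.exp_add]; congr 1; ring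
      rw [this]
      have h2 : (2 : ℝ) ≤ Real.exp y := by linarith [Real.add_one_le_exp y]
      nlinarith
    have g2 : (δ ^ L)⁻¹ = Real.exp ((C₃ + 2 * C₀ + 1) * y) ^ L := by
      rw [hδ, Real.exp_neg, inv_pow, inv_inv]
    rw [div_eq_mul_inv, g2]
    calc L * (1 + Real.exp ((Cl + 2 * C₀) * y)) ^ L * Real.exp ((C₃ + 2 * C₀ + 1) * y) ^ L
        ≤ Real.exp (L * y) * Real.exp ((Cl + 2 * C₀ + 1) * y) ^ L * Real.exp ((C₃ + 2 * C₀ + 1) * y) ^ L := by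
          gcongr
      _ = Real.exp ((Cl + C₃ + 4 * C₀ + 3) * L * y) := by
          rw [← Real.exp_nat_mul, ← Real.exp_nat_mul, ← Real.exp_add, ← Real.exp_add]; congr 1; ring
  have f2 : (L : ℝ) * (1 + (L : ℝ)) ^ L / 1 ^ L ≤ Real.exp (2 * L * y) := by
    rw [one_pow, div_one]
    have g1 : 1 + (L : ℝ) ≤ Real.exp y := by linarith
    calc (L : ℝ) * (1 + (L : ℝ)) ^ L ≤ Real.exp (L * y) * Real.exp y ^ L := by gcongr
      _ = Real.exp (2 * L * y) := by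
          rw [← Real.exp_nat_mul, ← Real.exp_add]; congr 1; ring
  have fin1 : ‖c ν‖ ≤ ε * Real.exp U * (L * (1 + Real.exp ((Cl + 2 * C₀) * y)) ^ L / δ ^ L) ^ (d + 1) *
      ((L : ℝ) * (1 + (L : ℝ)) ^ L / 1 ^ L) ^ d := s2
  have hδ0 : 0 < δ := Real.exp_pos _
  calc ‖c ν‖ ≤ _ := fin1
    _ ≤ ε * Real.exp U * Real.exp ((Cl + C₃ + 4 * C₀ + 3) * L * y) ^ (d + 1) * Real.exp (2 * L * y) ^ d := by
        gcongr
    _ = Real.exp (U + (d + 1) * ((Cl + C₃ + 4 * C₀ + 3) * L * y) + d * (2 * L * y)) * ε := by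
        rw [← Real.exp_nat_mul, ← Real.exp_nat_mul, Real.exp_add, Real.exp_add]
        push_cast
        ring
    _ ≤ _ := by
        gcongr
        rw [hU]
        have : 0 ≤ Cw * L * y := by positivity
        nlinarith

end Pool.Agent.MSK
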