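import Pool.Agent.Lib.MP_f58a57_nt.K.Defs

/-! # K/E2_Small: an exponential sum with a zero of high order is small -/

open Complex

noncomputable section

namespace Pool.Agent.MSK

open MSD MSP

variable {d : ℕ}

/-- the frequencies are bounded -/
theorem e2s_fr {W : ℕ} (i : Fin (2 * W + 1)) : ‖((fr i : ℤ) : ℂ)‖ ≤ W := by
  unfold fr
  have h1 : ‖(((i.val : ℤ) - (W : ℤ) : ℤ) : ℂ)‖ = |((i.val : ℝ) - W)| := by
    rw [Complex.norm_intCast]
    push_cast
    rfl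
  rw [h1, abs_le]
  have h2 : (i.val : ℝ) ≤ 2 * W := by
    have : i.val ≤ 2 * W := by omega
    exact_mod_cast this
  have h3 : (0 : ℝ) ≤ i.val := Nat.cast_nonneg _
  constructor <;> linarith

/-- bound for the frequency vector -/
theorem e2s_mu (z : ℂ) {W : ℕ} (ω : Fin (d + 1) → Fin (2 * W + 1)) (j : Fin d) :
    ‖mu z ω j‖ ≤ 2 * Real.pi * ((1 + max 1 ‖z‖ ^ d) * W) := by
  unfold mu
  rw [norm_mul, norm_mul, norm_mul, Complex.norm_I, mul_one, Complex.norm_real, Complex.norm_two,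
    Real.norm_of_nonneg Real.pi_pos.le]
  refine mul_le_mul_of_nonneg_left ?_ (by positivity)
  refine (norm_sub_le _ _).trans ?_
  rw [norm_mul, norm_pow, add_mul, one_mul]
  refine add_le_add (e2s_fr _) ?_
  refine mul_le_mul ?_ (e2s_fr _) (norm_nonneg _) (by positivity)
  calc ‖z‖ ^ (j.val + 1) ≤ max 1 ‖z‖ ^ (j.val + 1) := pow_le_pow_left₀ (norm_nonneg _) (le_max_right _ _) _
    _ ≤ max 1 ‖z‖ ^ d := pow_le_pow_right₀ (le_max_left _ _) (by omega)

/-- bound for the exponents -/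
theorem e2s_x (z : ℂ) {W : ℕ} (ω : Fin (d + 1) → Fin (2 * W + 1)) (v : Fin d → ℂ) :
    ‖∑ j, mu z ω j * v j‖ ≤ 2 * Real.pi * (d * (1 + max 1 ‖z‖ ^ d) * W * ‖v‖) := by
  calc ‖∑ j, mu z ω j * v j‖ ≤ ∑ j : Fin d, ‖mu z ω j * v j‖ := norm_sum_le _ _
    _ ≤ ∑ _j : Fin d, 2 * Real.pi * ((1 + max 1 ‖z‖ ^ d) * W) * ‖v‖ := by
      refine Finset.sum_le_sum fun j _ => ?_
      rw [norm_mul]
      exact mul_le_mul (e2s_mu z ω j) (norm_le_pi_norm v j) (norm_nonneg _) (by positivity)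
    _ = _ := by
      rw [Finset.sum_const, Finset.card_univ, Fintype.card_fin, nsmul_eq_mul]
      ring

/-- the tail of the exponential series -/
theorem e2s_tail (x : ℂ) (T : ℕ) (hx : 15 * ‖x‖ ≤ T) :
    ‖cexp x - ∑ m ∈ Finset.range (T + 1), x ^ m / (m.factorial : ℂ)‖ ≤ Real.exp (-T) := by
  have hx0 := norm_nonneg x
  have h1 : ‖x‖ / ((T + 1).succ : ℕ) ≤ 1 / 2 := by
    rw [div_le_iff₀ (by positivity)]
    push_cast
    linarith
  refine (Complex.exp_bound' h1).trans ?_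
  have h2 := Real.pow_div_factorial_le_exp (x := Real.exp 2 * ‖x‖) (by positivity) (T + 1)
  rw [mul_pow, mul_div_assoc] at h2
  have he : Real.exp 2 ≤ 8 := by
    have h3 := Real.exp_one_lt_d9
    have h4 := Real.exp_pos 1
    have h5 : Real.exp 2 = Real.exp 1 * Real.exp 1 := by rw [← Real.exp_add]; norm_num
    rw [h5]
    nlinarith
  have he2 : 2 ≤ Real.exp 2 := by
    have := Real.add_one_le_exp (2 : ℝ)
    linarith
  have h3 : Real.exp (Real.exp 2 * ‖x‖) ≤ Real.exp T := by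
    refine Real.exp_le_exp.2 ?_
    nlinarith
  have h4 : Real.exp 2 ^ (T + 1) = Real.exp 2 * (Real.exp T * Real.exp T) := by
    rw [← Real.exp_nat_mul, ← Real.exp_add, ← Real.exp_add]
    congr 1
    push_cast
    ring
  have h5 : Real.exp (-T) = 1 / Real.exp T := by
    rw [Real.exp_neg, one_div]
  have hT := Real.exp_pos (T : ℝ)
  have h6 := h2.trans h3
  rw [h4] at h6
  set A := ‖x‖ ^ (T + 1) / ((T + 1).factorial : ℝ) with hA
  have hA0 : 0 ≤ A := by positivity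
  rw [h5, le_div_iff₀ hT]
  have h7 : Real.exp 2 * Real.exp T * A ≤ 1 := by
    have : Real.exp T * (Real.exp 2 * Real.exp T * A) ≤ Real.exp T * 1 := by
      calc Real.exp T * (Real.exp 2 * Real.exp T * A) = Real.exp 2 * (Real.exp T * Real.exp T) * A := by ring
        _ ≤ _ := by rw [mul_one]; exact h6
    exact le_of_mul_le_mul_left this hT
  have h8 : 2 * (Real.exp T * A) ≤ Real.exp 2 * (Real.exp T * A) := mul_le_mul_of_nonneg_right he2 (by positivity)
  nlinarith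

/-- the truncated exponential as a polynomial in the frequency -/
def e2sQ (v : Fin d → ℂ) (T : ℕ) : MvPolynomial (Fin d) ℂ :=
  ∑ m ∈ Finset.range (T + 1), MvPolynomial.C (1 / (m.factorial : ℂ)) * (∑ j, MvPolynomial.C (v j) * MvPolynomial.X j) ^ m

theorem e2sQ_deg (v : Fin d → ℂ) (T : ℕ) : (e2sQ v T).totalDegree ≤ T := by
  unfold e2sQ
  refine MvPolynomial.totalDegree_finsetSum_le fun m hm => ?_
  refine (MvPolynomial.totalDegree_mul _ _).trans ?_
  rw [MvPolynomial.totalDegree_C, zero_add]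
  refine (MvPolynomial.totalDegree_pow _ _).trans ?_
  have h1 : (∑ j, MvPolynomial.C (v j) * MvPolynomial.X j : MvPolynomial (Fin d) ℂ).totalDegree ≤ 1 := by
    refine MvPolynomial.totalDegree_finsetSum_le fun j _ => ?_
    refine (MvPolynomial.totalDegree_mul _ _).trans ?_
    rw [MvPolynomial.totalDegree_C, zero_add, MvPolynomial.totalDegree_X]
  have h2 := Finset.mem_range.1 hm
  calc m * _ ≤ m * 1 := Nat.mul_le_mul_left _ h1
    _ ≤ T := by omega

theorem e2sQ_eval (v : Fin d → ℂ) (T : ℕ) (u : Fin d → ℂ) :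
    MvPolynomial.eval u (e2sQ v T) = ∑ m ∈ Finset.range (T + 1), (∑ j, u j * v j) ^ m / (m.factorial : ℂ) := by
  unfold e2sQ
  rw [map_sum]
  refine Finset.sum_congr rfl fun m _ => ?_
  rw [map_mul, map_pow, map_sum, MvPolynomial.eval_C]
  have : ∀ j, MvPolynomial.eval u (MvPolynomial.C (v j) * MvPolynomial.X j) = u j * v j := by
    intro j
    rw [map_mul, MvPolynomial.eval_C, MvPolynomial.eval_X, mul_comm]
  simp only [this]
  ring

/-- E2a. PROOF. For fixed `v` expand in the exponential series: `ES v = ∑_k (1/k!) ∑_ω c ω (μ_ω · v)^k`; the inner sum is `∑ c ω eval (mu ω) Q` with `Q = (∑ v_j X_j)^k`, zero for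
`k ≤ T`. The rest is `≤ (∑ ‖c ω‖) ∑_{k > T} R^k/k!`, `R = max ‖μ_ω · v‖`; for `T ≥ e² R`: `R^k/k! ≤ (eR/k)^k ≤ e^{-k}`, so the sum is `≤ e^{-T}`. Here
`‖μ_ω · v‖ ≤ 2π d (1 + max(1,‖z‖)^d) W ‖v‖`. -/
theorem ES_small (z : ℂ) {W : ℕ} (c : (Fin (d + 1) → Fin (2 * W + 1)) → ℂ) (T : ℕ)
    (h : ∀ Q : MvPolynomial (Fin d) ℂ, Q.totalDegree ≤ T → ∑ ω, c ω * MvPolynomial.eval (mu z ω) Q = 0) (v : Fin d → ℂ)
    (hT : 100 * d * (1 + max 1 ‖z‖ ^ d) * W * ‖v‖ ≤ T) : ‖ES z c v‖ ≤ (∑ ω, ‖c ω‖) * Real.exp (-T) := by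
  have h1 := h (e2sQ v T) (e2sQ_deg v T)
  have h2 : ES z c v = ∑ ω, c ω * (cexp (∑ j, mu z ω j * v j) -
      ∑ m ∈ Finset.range (T + 1), (∑ j, mu z ω j * v j) ^ m / (m.factorial : ℂ)) := by
    unfold ES
    simp only [e2sQ_eval] at h1
    simp only [mul_sub]
    rw [Finset.sum_sub_distrib, h1, sub_zero]
  rw [h2, Finset.sum_mul]
  refine (norm_sum_le _ _).trans (Finset.sum_le_sum fun ω _ => ?_)
  rw [norm_mul]
  refine mul_le_mul_of_nonneg_left ?_ (norm_nonneg _)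
  refine e2s_tail _ T ?_
  have h3 := e2s_x z ω v
  have h4 : Real.pi ≤ 3.15 := Real.pi_lt_d2.le
  have h5 : 0 ≤ (d : ℝ) * (1 + max 1 ‖z‖ ^ d) * W * ‖v‖ := by positivity
  nlinarith

end Pool.Agent.MSK
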