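import Pool.Agent.Lib.MP_f58a57_nt.K.Defs
import Pool.Agent.Lib.MP_f58a57_nt.K.A3b_Liou
import Pool.Agent.Lib.MP_f58a57_nt.K.E1_Lag

/-! # K/E2b_Layer: separation of the layers -/

open Complex

noncomputable section

namespace Pool.Agent.MSK

open MSD MSP

variable {d : ℕ}

private theorem e2b_q1 {E s t : ℝ} (h : s ^ 2 + t ^ 2 = 1) (ht : t = 1 - 2 * E) {e : ℝ} :
    (e * t - 1) * (e * t - 1) + (e * s - 0) * (e * s - 0) = (e - 1) ^ 2 + 4 * e * E := by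
  have h1 : s ^ 2 = 1 - t ^ 2 := by rw [← h]; ring
  have h2 : (e * t - 1) * (e * t - 1) + (e * s - 0) * (e * s - 0) = e ^ 2 * t ^ 2 + e ^ 2 * s ^ 2 - 2 * e * t + 1 := by ring
  rw [h2, h1, ht]; ring

private theorem e2b_q2 {x e f : ℝ} (h : x ≤ 0) (he : 0 < e) (hlow : 1 / 3 ≤ e) (h3 : -x + 1 ≤ f) (h4 : e * f = 1) :
    |x| ≤ 3 * |e - 1| := by
  have h5 : e * (-x + 1) ≤ 1 := (mul_le_mul_of_nonneg_left h3 he.le).trans_eq h4
  have h6 : 0 ≤ -x := neg_nonneg.mpr h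
  have h7 : 1 / 3 * -x ≤ e * -x := mul_le_mul_of_nonneg_right hlow h6
  have h8 : e * (-x + 1) = e * -x + e := by ring
  have h9 : 0 ≤ e * -x := mul_nonneg he.le h6
  rw [h8] at h5
  rw [abs_of_nonpos h, abs_of_nonpos (by linarith only [h5, h9])]
  linarith only [h5, h7]

private theorem e2b_q3 {y s p : ℝ} (hp : 0 < p) (hp2 : p < 3.15) (h3 : 2 / p * |y / 2| ≤ |s|) {e : ℝ} (hlow : 1 / 3 ≤ e) :
    y ^ 2 ≤ 9 * (4 * e * s ^ 2) := by
  have h5 : 2 / p * |y / 2| = |y| / p := by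
    rw [abs_div, abs_of_pos (zero_lt_two : (0 : ℝ) < 2), div_mul_div_comm, mul_comm p 2, mul_div_mul_left _ _ (two_ne_zero)]
  rw [h5, div_le_iff₀ hp] at h3
  have h6 : y ^ 2 ≤ (|s| * p) ^ 2 := by
    rw [← sq_abs y]
    exact pow_le_pow_left₀ (abs_nonneg y) h3 2
  rw [mul_pow, sq_abs] at h6
  have h7 : p ^ 2 ≤ 12 := by
    have := pow_le_pow_left₀ hp.le hp2.le 2
    norm_num at this
    linarith only [this]
  have h8 : 0 ≤ s ^ 2 := sq_nonneg s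
  have h9 : s ^ 2 * p ^ 2 ≤ s ^ 2 * 12 := mul_le_mul_of_nonneg_left h7 h8
  have h10 : 1 / 3 * s ^ 2 ≤ e * s ^ 2 := mul_le_mul_of_nonneg_right hlow h8
  linarith only [h6, h9, h10]

private theorem e2b_e1 : Real.exp (-1) ≤ 1 / 2 := by
  rw [Real.exp_neg, ← one_div]
  apply one_div_le_one_div_of_le zero_lt_two
  have := Real.add_one_le_exp (1 : ℝ)
  linarith only [this]

theorem e2b_exp_lower (w : ℂ) (h1 : |w.re| ≤ 1) (h2 : |w.im| ≤ Real.pi) : ‖w‖ ≤ 3 * ‖cexp w - 1‖ := by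
  have hE : ‖cexp w - 1‖ ^ 2 = (Real.exp w.re - 1) ^ 2 + 4 * Real.exp w.re * Real.sin (w.im / 2) ^ 2 := by
    rw [Complex.sq_norm, Complex.normSq_apply, Complex.sub_re, Complex.sub_im, Complex.exp_re, Complex.exp_im,
      Complex.one_re, Complex.one_im]
    refine e2b_q1 (Real.sin_sq_add_cos_sq w.im) ?_
    have h4 := Real.cos_two_mul (w.im / 2)
    have h5 := Real.sin_sq_add_cos_sq (w.im / 2)
    rw [mul_div_cancel₀ w.im (two_ne_zero)] at h4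
    rw [h4]
    linarith only [h5]
  have hlow : 1 / 3 ≤ Real.exp w.re := by
    have h3 : Real.exp (-1) ≤ Real.exp w.re := Real.exp_le_exp.mpr (abs_le.mp h1).1
    have h4 : 1 / 3 ≤ Real.exp (-1) := by
      rw [Real.exp_neg, ← one_div]
      exact one_div_le_one_div_of_le (Real.exp_pos 1) (by have := Real.exp_one_lt_d9; linarith only [this])
    exact h4.trans h3
  have ha : w.re ^ 2 ≤ 9 * (Real.exp w.re - 1) ^ 2 := by
    have h6 : |w.re| ≤ 3 * |Real.exp w.re - 1| := by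
      rcases le_total 0 w.re with h | h
      · have h3 : w.re + 1 ≤ Real.exp w.re := Real.add_one_le_exp _
        have h4 : w.re ≤ Real.exp w.re - 1 := le_sub_iff_add_le.mpr h3
        rw [abs_of_nonneg h, abs_of_nonneg (h.trans h4)]
        linarith only [h4, h]
      · exact e2b_q2 h (Real.exp_pos _) hlow (Real.add_one_le_exp _) (by rw [← Real.exp_add, add_neg_cancel, Real.exp_zero])
    have h7 := pow_le_pow_left₀ (abs_nonneg _) h6 2
    rw [sq_abs, mul_pow, sq_abs] at h7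
    linarith only [h7]
  have hb : w.im ^ 2 ≤ 9 * (4 * Real.exp w.re * Real.sin (w.im / 2) ^ 2) := by
    refine e2b_q3 Real.pi_pos Real.pi_lt_d2 ?_ hlow
    apply Real.mul_abs_le_abs_sin
    rw [abs_div, abs_of_pos (zero_lt_two : (0 : ℝ) < 2)]
    linarith only [h2]
  have h9 : ‖w‖ ^ 2 ≤ (3 * ‖cexp w - 1‖) ^ 2 := by
    rw [mul_pow, hE, Complex.sq_norm, Complex.normSq_apply]
    linarith only [ha, hb]
  exact le_of_sq_le_sq h9 (mul_nonneg zero_le_three (norm_nonneg _))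

private theorem e2b_s1 {p x : ℝ} (hp : 3 < p) (h : |x| ≤ 1 / 2) : |-(2 * p * x)| ≤ p := by
  have hp0 : 0 < p := lt_trans zero_lt_three hp
  rw [abs_neg, abs_mul, abs_of_pos (mul_pos zero_lt_two hp0)]
  have := mul_le_mul_of_nonneg_left h (mul_pos zero_lt_two hp0).le
  linarith only [this]

private theorem e2b_s2 {p x n η : ℝ} (hp : 3 < p) (h9 : 0 ≤ x) (h8 : 2 * p * x ≤ 3 * n) (h4 : η ≤ x) : η ≤ n := by
  have := mul_le_mul_of_nonneg_right hp.le h9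
  linarith only [this, h8, h4, h9]

private theorem e2b_s3 {x : ℝ} (h6 : 1 < |x|) : 1 / 2 ≤ |Real.exp x - 1| := by
  rcases lt_or_ge 0 x with h9 | h9
  · rw [abs_of_pos h9] at h6
    have h10 : x + 1 ≤ Real.exp x := Real.add_one_le_exp _
    have h11 : 1 ≤ Real.exp x - 1 := by linarith only [h10, h6]
    exact le_trans (by norm_num) (h11.trans (le_abs_self _))
  · rw [abs_of_nonpos h9] at h6
    have h10 : Real.exp x ≤ Real.exp (-1) := Real.exp_le_exp.mpr (by linarith only [h6])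
    have h12 := e2b_e1
    have h13 : 1 / 2 ≤ -(Real.exp x - 1) := by linarith only [h10, h12]
    exact h13.trans (neg_le_abs _)

theorem e2b_sep (β : ℂ) (η : ℝ) (hη : η ≤ 1 / 2) (h : ∀ m : ℤ, |(m : ℝ)| ≤ |β.re| + 1 → η ≤ ‖β - m‖) :
    η ≤ ‖ee (-β) - 1‖ := by
  obtain ⟨m, hm⟩ : ∃ m : ℤ, |β.re - m| ≤ 1 / 2 := ⟨round β.re, abs_sub_round β.re⟩
  have h4 := h m (by
    have h3 := abs_sub_abs_le_abs_sub (m : ℝ) β.re
    rw [abs_sub_comm] at h3
    linarith only [h3, hm])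
  obtain ⟨w, hw⟩ : ∃ w : ℂ, w = 2 * Real.pi * I * (-(β - m)) := ⟨_, rfl⟩
  have h5 : ee (-β) = cexp w := by
    unfold ee
    rw [hw]
    have : 2 * (Real.pi : ℂ) * I * -(β - m) = 2 * Real.pi * I * -β + m * (2 * Real.pi * I) := by ring
    rw [this, Complex.exp_add, Complex.exp_int_mul_two_pi_mul_I, mul_one]
  have him : w.im = -(2 * Real.pi * (β.re - m)) := by
    rw [hw]
    simp
    ring
  have hnw : ‖w‖ = 2 * Real.pi * ‖β - m‖ := by
    rw [hw, norm_mul, norm_neg]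
    simp [abs_of_pos Real.pi_pos]
  have hpi := Real.pi_gt_three
  rw [h5]
  rcases le_or_gt |w.re| 1 with h6 | h6
  · have h7 : |w.im| ≤ Real.pi := by
      rw [him]; exact e2b_s1 hpi hm
    have h8 := e2b_exp_lower w h6 h7
    rw [hnw] at h8
    exact e2b_s2 hpi (norm_nonneg _) h8 h4
  · have h7 : |Real.exp w.re - 1| ≤ ‖cexp w - 1‖ := by
      have := abs_norm_sub_norm_le (cexp w) 1
      rwa [Complex.norm_exp, norm_one] at this
    exact hη.trans ((e2b_s3 h6).trans h7)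

theorem e2b_alg (P : Par d) : IsAlgebraic ℚ P.z := by
  refine ⟨Polynomial.X ^ (d + 1) - ∑ l : Fin (d + 1), Polynomial.C (P.b l) * Polynomial.X ^ l.val, ?_, ?_⟩
  · intro h0
    have h1 := congrArg (fun p => Polynomial.coeff p (d + 1)) h0
    simp only [Polynomial.coeff_sub, Polynomial.coeff_X_pow, Polynomial.finsetSum_coeff, Polynomial.coeff_C_mul,
      Polynomial.coeff_zero, if_true] at h1
    rw [Finset.sum_eq_zero] at h1
    · norm_num at h1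
    · intro l _
      rw [if_neg (by have := l.2; omega), mul_zero]
  · have h := P.rel 0
    simp only [map_sub, map_pow, Polynomial.aeval_X, map_sum, map_mul, Polynomial.aeval_C]
    rw [sub_eq_zero]
    unfold Par.z
    rw [h]
    rfl

/-- value of the exponential sum at an integer translate of a real point -/
theorem e2b_val (z : ℂ) {W X₀ : ℕ} (c : (Fin (d + 1) → Fin (2 * W + 1)) → ℂ) (x : Fin d → ℝ) (k : Fin d → Fin (X₀ + 1)) :
    ES z c (fun j => (x j : ℂ) + (k j).val) * ee (-(∑ j : Fin d, z ^ (j.val + 1) * (k j).val)) ^ W =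
      ∑ i : Fin (2 * W + 1), (ee (-((fr i : ℂ) * ∑ j : Fin d, z ^ (j.val + 1) * x j)) *
        ∑ ω : Fin d → Fin (2 * W + 1), c (Fin.cons i ω) * ee (∑ j, (fr (ω j) : ℂ) * x j)) *
        ee (-(∑ j : Fin d, z ^ (j.val + 1) * (k j).val)) ^ i.val := by
  unfold ES
  rw [← (Fin.consEquiv (fun _ : Fin (d + 1) => Fin (2 * W + 1))).sum_comp, Fintype.sum_prod_type, Finset.sum_mul]
  refine Finset.sum_congr rfl fun i _ => ?_
  rw [Finset.sum_mul, Finset.mul_sum, Finset.sum_mul]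
  refine Finset.sum_congr rfl fun ω _ => ?_
  have h1 : (Fin.consEquiv (fun _ : Fin (d + 1) => Fin (2 * W + 1))) (i, ω) = Fin.cons i ω := rfl
  rw [h1]
  set α : ℂ := ∑ j : Fin d, z ^ (j.val + 1) * (k j).val with hα
  set ξ : ℂ := ∑ j : Fin d, z ^ (j.val + 1) * x j with hξ
  have h2 : ∑ j : Fin d, mu z (Fin.cons i ω) j * ((x j : ℂ) + (k j).val) =
      2 * Real.pi * I * (∑ j, (fr (ω j) : ℂ) * x j) + 2 * Real.pi * I * (-((fr i : ℂ) * ξ)) +
        2 * Real.pi * I * (-((fr i : ℂ) * α)) + ((∑ j, fr (ω j) * ((k j).val : ℤ) : ℤ) : ℂ) * (2 * Real.pi * I) := by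
    rw [hα, hξ]
    push_cast
    simp only [Finset.mul_sum, Finset.sum_mul, ← Finset.sum_neg_distrib, ← Finset.sum_add_distrib]
    refine Finset.sum_congr rfl fun j _ => ?_
    unfold mu
    simp only [Fin.cons_succ, Fin.cons_zero]
    ring
  rw [h2, Complex.exp_add, Complex.exp_int_mul_two_pi_mul_I, mul_one, Complex.exp_add, Complex.exp_add]
  unfold ee
  rw [← Complex.exp_nat_mul, ← Complex.exp_nat_mul]
  have h3 : cexp (2 * Real.pi * I * (-((fr i : ℂ) * α))) * cexp (W * (2 * Real.pi * I * -α)) =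
      cexp (i.val * (2 * Real.pi * I * -α)) := by
    rw [← Complex.exp_add]
    congr 1
    unfold fr
    push_cast
    ring
  rw [← h3]
  ring

private theorem e2b_p1 {p x n B : ℝ} (hp : 3 < p) (hp4 : p < 4) (h2 : x ≤ n) (h3 : 0 ≤ n) (hB : n ≤ B) :
    2 * p * x ≤ 8 * B := by
  have h4 : p * x ≤ p * n := mul_le_mul_of_nonneg_left h2 (lt_trans zero_lt_three hp).le
  have h5 : p * n ≤ 4 * n := mul_le_mul_of_nonneg_right hp4.le h3
  linarith only [h4, h5, hB]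

private theorem e2b_hsum (z : ℂ) (B : ℝ) (u : Fin d → ℂ) (hu : ∀ j, ‖u j‖ ≤ B) :
    ‖∑ j : Fin d, z ^ (j.val + 1) * u j‖ ≤ (∑ j : Fin d, ‖z‖ ^ (j.val + 1)) * B := by
  rw [Finset.sum_mul]
  refine (norm_sum_le _ _).trans (Finset.sum_le_sum fun j _ => ?_)
  rw [norm_mul, norm_pow]
  exact mul_le_mul_of_nonneg_left (hu j) (pow_nonneg (norm_nonneg _) _)

private theorem e2b_nee (β : ℂ) : ‖ee (-β)‖ = Real.exp (2 * Real.pi * β.im) := by
  unfold ee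
  rw [Complex.norm_exp]
  congr 1
  simp

private theorem e2b_hee (β : ℂ) (B : ℝ) (hβ : ‖β‖ ≤ B) : ‖ee (-β)‖ ≤ Real.exp (8 * B) := by
  rw [e2b_nee]
  exact Real.exp_le_exp.mpr (e2b_p1 Real.pi_gt_three Real.pi_lt_four
    (le_trans (le_abs_self _) (Complex.abs_im_le_norm β)) (norm_nonneg β) hβ)

private theorem e2b_hee' (β : ℂ) (B : ℝ) (hβ : ‖β‖ ≤ B) : Real.exp (-(8 * B)) ≤ ‖ee (-β)‖ := by
  rw [e2b_nee]
  refine Real.exp_le_exp.mpr ?_
  have h := e2b_p1 (x := -β.im) Real.pi_gt_three Real.pi_lt_four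
    (le_trans (neg_le_abs _) (Complex.abs_im_le_norm β)) (norm_nonneg β) hβ
  linarith only [h]

private theorem e2b_p2 {CL S X : ℝ} (hCL : 1 ≤ CL) (hS : 0 ≤ S) (hX : 1 ≤ X) : 1 ≤ CL * (2 * S + 4) * X := by
  have h1 : 1 ≤ 2 * S + 4 := by linarith only [hS]
  exact one_le_mul_of_one_le_of_one_le (one_le_mul_of_one_le_of_one_le hCL h1) hX

private theorem e2b_p3 {S X : ℝ} (hS : 0 ≤ S) (hX : 1 ≤ X) : 1 ≤ (2 * S + 3) * X := by
  have h1 : 1 ≤ 2 * S + 3 := by linarith only [hS]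
  exact one_le_mul_of_one_le_of_one_le h1 hX

private theorem e2b_p4 {S X u v : ℝ} (hS : 0 ≤ S) (hX : 0 ≤ X) (hu : 0 ≤ u) (hv : 0 ≤ v) (hu1 : u ≤ X) (hv1 : v ≤ X) :
    |u - v| ≤ (2 * S + 3) * X := by
  have h1 : 0 ≤ S * X := mul_nonneg hS hX
  rw [abs_le]
  constructor <;> linarith only [h1, hX, hu, hv, hu1, hv1]

private theorem e2b_p5 {S X m b : ℝ} (hX : 1 ≤ X) (hm : m ≤ b + 1) (hb : b ≤ 2 * S * X) : m ≤ (2 * S + 3) * X := by
  linarith only [hm, hb, hX]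

private theorem e2b_p6 {CL S X L : ℝ} (hCL : 1 ≤ CL) (hX : 1 ≤ X) (hL : L ≤ (2 * S + 3) * X - 1) :
    -(CL * (2 * S + 4) * X) ≤ -(CL * (1 + L)) := by
  have h0 : 0 ≤ CL := zero_le_one.trans hCL
  have h1 : CL * (1 + L) ≤ CL * ((2 * S + 3) * X) := mul_le_mul_of_nonneg_left (by linarith only [hL]) h0
  have h2 : 0 ≤ CL * X := mul_nonneg h0 (zero_le_one.trans hX)
  linarith only [h1, h2]

private theorem e2b_hsep (P : Par d) (CL S X : ℝ) (hCL : 1 ≤ CL) (hS0 : 0 ≤ S) (hX : 1 ≤ X)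
    (hL : ∀ (B : ℝ) (x : Fin (d + 1) → ℤ), 1 ≤ B → (∀ l, |(x l : ℝ)| ≤ B) →
      ∑ l : Fin (d + 1), (x l : ℂ) * P.z ^ l.val ≠ 0 →
      Real.exp (-(CL * (1 + Real.log B))) ≤ ‖∑ l : Fin (d + 1), (x l : ℂ) * P.z ^ l.val‖)
    (a b : Fin d → ℕ) (hab : a ≠ b) (ha : ∀ j, (a j : ℝ) ≤ X) (hb : ∀ j, (b j : ℝ) ≤ X)
    (hna : ‖∑ j : Fin d, P.z ^ (j.val + 1) * (a j : ℂ)‖ ≤ S * X)
    (hnb : ‖∑ j : Fin d, P.z ^ (j.val + 1) * (b j : ℂ)‖ ≤ S * X) :
    Real.exp (-((8 * S + CL * (2 * S + 4)) * X)) ≤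
      ‖ee (-(∑ j : Fin d, P.z ^ (j.val + 1) * (a j : ℂ))) - ee (-(∑ j : Fin d, P.z ^ (j.val + 1) * (b j : ℂ)))‖ := by
  obtain ⟨α, hα⟩ : ∃ α : ℂ, α = ∑ j : Fin d, P.z ^ (j.val + 1) * (a j : ℂ) := ⟨_, rfl⟩
  obtain ⟨γ, hγ⟩ : ∃ γ : ℂ, γ = ∑ j : Fin d, P.z ^ (j.val + 1) * (b j : ℂ) := ⟨_, rfl⟩
  rw [← hα] at hna ⊢
  rw [← hγ] at hnb ⊢
  have h1 : ee (-α) - ee (-γ) = ee (-γ) * (ee (-(α - γ)) - 1) := by
    have h : ee (-α) = ee (-γ) * ee (-(α - γ)) := by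
      unfold ee
      rw [← Complex.exp_add]
      congr 1
      ring
    rw [h, mul_sub, mul_one]
  rw [h1, norm_mul]
  have h2 : Real.exp (-(CL * (2 * S + 4) * X)) ≤ ‖ee (-(α - γ)) - 1‖ := by
    apply e2b_sep
    · exact (Real.exp_le_exp.mpr (neg_le_neg (e2b_p2 hCL hS0 hX))).trans e2b_e1
    · intro m hm
      obtain ⟨y, hy0, hyj⟩ : ∃ y : Fin (d + 1) → ℤ, y 0 = -m ∧ ∀ j : Fin d, y j.succ = (a j : ℤ) - (b j : ℤ) :=
        ⟨Fin.cons (-m) (fun j => (a j : ℤ) - (b j : ℤ)), rfl, fun j => rfl⟩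
      have h5 : ∑ l : Fin (d + 1), (y l : ℂ) * P.z ^ l.val = α - γ - m := by
        rw [Fin.sum_univ_succ, hα, hγ, hy0, Fin.val_zero, pow_zero, mul_one, Int.cast_neg, ← Finset.sum_sub_distrib,
          neg_add_eq_sub]
        congr 1
        refine Finset.sum_congr rfl fun j _ => ?_
        rw [hyj, Fin.val_succ, Int.cast_sub, Int.cast_natCast, Int.cast_natCast]
        ring
      have h6 : ∑ l : Fin (d + 1), (y l : ℂ) * P.z ^ l.val ≠ 0 := by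
        intro h0
        have h7 := P.li (fun l => (y l : ℚ)) (by
          rw [← h0]
          refine Finset.sum_congr rfl fun l _ => ?_
          rw [Rat.cast_intCast]
          rfl)
        apply hab
        funext j
        have h8 : ((y j.succ : ℤ) : ℚ) = 0 := congrFun h7 j.succ
        have h9 : y j.succ = 0 := Int.cast_eq_zero.mp h8
        rw [hyj, sub_eq_zero] at h9
        exact Int.ofNat.inj h9
      have h10 := hL ((2 * S + 3) * X) y (e2b_p3 hS0 hX) (by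
        intro l
        refine Fin.cases ?_ (fun j => ?_) l
        · rw [hy0, Int.cast_neg, abs_neg]
          have h11 : |(α - γ).re| ≤ 2 * S * X := by
            refine (Complex.abs_re_le_norm _).trans ((norm_sub_le _ _).trans ?_)
            linarith only [hna, hnb]
          exact e2b_p5 hX hm h11
        · rw [hyj, Int.cast_sub, Int.cast_natCast, Int.cast_natCast]
          exact e2b_p4 hS0 (zero_le_one.trans hX) (Nat.cast_nonneg _) (Nat.cast_nonneg _) (ha j) (hb j)) h6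
      rw [h5] at h10
      refine le_trans (Real.exp_le_exp.mpr ?_) h10
      exact e2b_p6 hCL hX (Real.log_le_sub_one_of_pos (zero_lt_one.trans_le (e2b_p3 hS0 hX)))
  have h3 : -((8 * S + CL * (2 * S + 4)) * X) = -(8 * (S * X)) + -(CL * (2 * S + 4) * X) := by ring
  rw [h3, Real.exp_add]
  exact mul_le_mul (e2b_hee' _ _ hnb) h2 (Real.exp_pos _).le (norm_nonneg _)

private theorem e2b_f1 {S X W N : ℝ} (hS : 0 ≤ S) (hX : 1 ≤ X) (hW : 1 ≤ W) (hN : N = 2 * W + 1) {C : ℝ} (hC : 0 ≤ C) :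
    8 * (W * S) + (W * (8 * (S * X))) + (N + (N * (1 + 8 * (S * X))) + N * (C * X)) ≤
      (24 * S + 24 * S + 3 * C + 24 * S + 10) * W * X := by
  have hX0 : 0 ≤ X := zero_le_one.trans hX
  have hW0 : 0 ≤ W := zero_le_one.trans hW
  have hWX : W ≤ W * X := le_mul_of_one_le_right hW0 hX
  have hN1 : N ≤ 3 * W := by linarith only [hN, hW]
  have h1 : W * S ≤ W * X * S := mul_le_mul_of_nonneg_right hWX hS
  have h2 : N * (1 + 8 * (S * X)) ≤ 3 * W * (1 + 8 * (S * X)) :=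
    mul_le_mul_of_nonneg_right hN1 (add_nonneg zero_le_one (mul_nonneg (by norm_num) (mul_nonneg hS hX0)))
  have h3 : N * (C * X) ≤ 3 * W * (C * X) := mul_le_mul_of_nonneg_right hN1 (mul_nonneg hC hX0)
  have h4 : 0 ≤ W * X * S := mul_nonneg (mul_nonneg hW0 hX0) hS
  linarith only [h1, h2, h3, h4, hN1, hWX, hW0]

private theorem e2b_f2 {S X W T ε C : ℝ} {w N : ℕ} (hS : 0 ≤ S) (hX : 1 ≤ X) (hW : 1 ≤ W) (hw : (w : ℝ) = W)
    (hN : (N : ℝ) = 2 * W + 1) (hC : 0 ≤ C) (hε : 0 ≤ ε)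
    (h : Real.exp (-(8 * (W * S))) * T ≤ ε * Real.exp (8 * (S * X)) ^ w *
      ((N : ℝ) * (1 + Real.exp (8 * (S * X))) ^ N / Real.exp (-(C * X)) ^ N)) :
    T ≤ ε * Real.exp ((24 * S + 24 * S + 3 * C + 24 * S + 10) * W * X) := by
  have h21 : T = Real.exp (8 * (W * S)) * (Real.exp (-(8 * (W * S))) * T) := by
    rw [← mul_assoc, ← Real.exp_add, add_neg_cancel, Real.exp_zero, one_mul]
  have h22 : (N : ℝ) ≤ Real.exp N := by
    have := Real.add_one_le_exp (N : ℝ)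
    linarith only [this]
  have hE : 1 ≤ Real.exp (8 * (S * X)) := Real.one_le_exp (mul_nonneg (by norm_num) (mul_nonneg hS (zero_le_one.trans hX)))
  have h23 : (1 + Real.exp (8 * (S * X))) ^ N ≤ Real.exp (N * (1 + 8 * (S * X))) := by
    rw [Real.exp_nat_mul]
    refine pow_le_pow_left₀ (add_nonneg zero_le_one (Real.exp_pos _).le) ?_ _
    rw [Real.exp_add]
    have h1 := Real.add_one_le_exp (1 : ℝ)
    have h2 := mul_le_mul_of_nonneg_right h1 (Real.exp_pos (8 * (S * X))).le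
    linarith only [h2, hE]
  have h24 : (N : ℝ) * (1 + Real.exp (8 * (S * X))) ^ N / Real.exp (-(C * X)) ^ N ≤
      Real.exp (N + N * (1 + 8 * (S * X)) + N * (C * X)) := by
    rw [Real.exp_add, Real.exp_add, ← Real.exp_nat_mul, div_eq_mul_inv, ← Real.exp_neg, mul_neg, neg_neg]
    exact mul_le_mul_of_nonneg_right (mul_le_mul h22 h23
      (pow_nonneg (add_nonneg zero_le_one (Real.exp_pos _).le) _) (Real.exp_pos _).le) (Real.exp_pos _).le
  rw [h21]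
  refine (mul_le_mul_of_nonneg_left (h.trans (mul_le_mul_of_nonneg_left h24
    (mul_nonneg hε (pow_nonneg (Real.exp_pos _).le _)))) (Real.exp_pos _).le).trans ?_
  rw [← Real.exp_nat_mul, hw, mul_assoc ε, ← Real.exp_add, mul_left_comm, ← Real.exp_add]
  refine mul_le_mul_of_nonneg_left (Real.exp_le_exp.mpr ?_) hε
  rw [← add_assoc]
  exact e2b_f1 hS hX hW hN hC

/-- E2b. PROOF. At `v = x + k`, `x ∈ ℝ^d`, `k ∈ ℤ^d`: `exp(∑ μ_j v_j) = ee(∑_j fr(ω_j) x_j) · ee(-fr(ω_0) ∑ z^(j+1) x_j) · ee(-fr(ω_0) α_k)`, `α_k = ∑ z^(j+1) k_j`. So for fixed `x`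
`ES(x + k) = ∑_{i} A_i(x) Y_k^(i - W)`, `Y_k = ee(-α_k)`, `A_i(x) = ee(-fr(i) ∑ z^(j+1) x_j) ∑_{ω : ω_0 = i} c ω ee(∑ fr(ω_j) x_j)`. Choose `2W + 1` different `k ∈ {0..X₀}^d`
(possible by `2W + 1 ≤ (X₀+1)^d`). `‖Y_k^{±1}‖ ≤ e^{C X₀}`, and `‖Y_k - Y_k'‖ ≥ e^{-C X₀}`: with `β = α_k - α_k'`, `‖Y_k - Y_k'‖ = ‖Y_k'‖ ‖ee(-β) - 1‖`; if `|Im β| ≥ 1` the last factor is `≥ 1/2`, else
`‖ee(-β) - 1‖ ≥ c ‖β - m‖`, `m` the integer nearest to `Re β` (e.g. `‖e^{w} - 1‖ ≥ c‖w‖` for `|Im w| ≤ π`, `|Re w| ≤ 2π`), and `β - m = -m + ∑ z^(j+1)(k_j - k'_j)` is not zero (`P.li`) so `≥ e^{-C(1 + log X₀)}` by `liouville`. So if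
`‖ES(x + k)‖ ≤ ε` for all these `k` then by `lag_coeff` (multiply by `Y_k^W`) `‖A_i(x)‖ ≤ ε e^{C W X₀}` for all `i` and all `x ∈ [0,1]^d`. -/
theorem ES_layer (P : Par d) : ∃ C : ℝ, 1 ≤ C ∧ ∀ W X₀ : ℕ, 1 ≤ W → 1 ≤ X₀ → 2 * W + 1 ≤ (X₀ + 1) ^ d →
    ∀ (c : (Fin (d + 1) → Fin (2 * W + 1)) → ℂ) (ε : ℝ), (∀ v : Fin d → ℂ, ‖v‖ ≤ X₀ + 1 → ‖ES P.z c v‖ ≤ ε) →
    ∀ (x : Fin d → ℝ), (∀ j, 0 ≤ x j ∧ x j ≤ 1) → ∀ i : Fin (2 * W + 1),
      ‖∑ ω : Fin d → Fin (2 * W + 1), c (Fin.cons i ω) * ee (∑ j, (fr (ω j) : ℂ) * x j)‖ ≤ ε * Real.exp (C * W * X₀) := by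
  obtain ⟨CL, hCL, hL⟩ := liouville P.z (e2b_alg P) d
  obtain ⟨S, hS⟩ : ∃ S : ℝ, S = ∑ j : Fin d, ‖P.z‖ ^ (j.val + 1) := ⟨_, rfl⟩
  have hS0 : 0 ≤ S := hS ▸ Finset.sum_nonneg fun j _ => pow_nonneg (norm_nonneg _) _
  -- size of the two linear forms
  have hsum : ∀ (B : ℝ) (u : Fin d → ℂ), (∀ j, ‖u j‖ ≤ B) → ‖∑ j : Fin d, P.z ^ (j.val + 1) * u j‖ ≤ S * B := by
    intro B u hu
    rw [hS]
    exact e2b_hsum P.z B u hu
  clear hS
  obtain ⟨C₁, hC₁⟩ : ∃ C₁ : ℝ, C₁ = 8 * S + CL * (2 * S + 4) := ⟨_, rfl⟩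
  have hC₁0 : 0 ≤ C₁ := by
    rw [hC₁]
    have h1 : 0 ≤ 2 * S + 4 := by linarith only [hS0]
    have h2 := mul_nonneg (zero_le_one.trans hCL) h1
    linarith only [h2, hS0]
  refine ⟨24 * S + 24 * S + 3 * C₁ + 24 * S + 10, by linarith only [hS0, hC₁0], ?_⟩
  intro W X₀ hW hX₀ hWX c ε hε x hx i
  have hXR : (1 : ℝ) ≤ X₀ := Nat.one_le_cast.mpr hX₀
  have hWR : (1 : ℝ) ≤ W := Nat.one_le_cast.mpr hW
  have hX0 : (0 : ℝ) ≤ X₀ := Nat.cast_nonneg _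
  have hX1 : (0 : ℝ) ≤ (X₀ : ℝ) + 1 := add_nonneg hX0 zero_le_one
  have hε0 : 0 ≤ ε := le_trans (norm_nonneg _) (hε 0 (by rw [norm_zero]; exact hX1))
  obtain ⟨kk⟩ : Nonempty (Fin (2 * W + 1) ↪ (Fin d → Fin (X₀ + 1))) := by
    apply Function.Embedding.nonempty_of_card_le
    rw [Fintype.card_pi_const, Fintype.card_fin, Fintype.card_fin]
    exact hWX
  have hkb : ∀ a j, (((kk a j).val : ℕ) : ℝ) ≤ X₀ := fun a j => Nat.cast_le.mpr (Nat.lt_succ_iff.mp (kk a j).2)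
  have hal_bd : ∀ a, ‖∑ j : Fin d, P.z ^ (j.val + 1) * ((kk a j).val : ℂ)‖ ≤ S * X₀ := by
    intro a
    apply hsum
    intro j
    rw [Complex.norm_natCast]
    exact hkb a j
  -- separation
  have hsep : ∀ a b, a ≠ b → Real.exp (-(C₁ * X₀)) ≤ ‖ee (-(∑ j : Fin d, P.z ^ (j.val + 1) * ((kk a j).val : ℂ))) -
      ee (-(∑ j : Fin d, P.z ^ (j.val + 1) * ((kk b j).val : ℂ)))‖ := by
    intro a b hab
    rw [hC₁]
    refine e2b_hsep P CL S X₀ hCL hS0 hXR hL (fun j => (kk a j).val) (fun j => (kk b j).val) ?_ (hkb a) (hkb b)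
      (hal_bd a) (hal_bd b)
    intro h
    exact hab (kk.injective (funext fun j => Fin.ext (congrFun h j)))
  -- interpolation
  have hcoef := lag_coeff (2 * W + 1) (fun a => ee (-(∑ j : Fin d, P.z ^ (j.val + 1) * ((kk a j).val : ℂ))))
    (Real.exp (-(C₁ * X₀))) (Real.exp (8 * (S * X₀)))
    (ε * Real.exp (8 * (S * X₀)) ^ W) (Real.exp_pos _)
    (Real.exp_le_one_iff.mpr (neg_nonpos.mpr (mul_nonneg hC₁0 hX0)))
    (Real.one_le_exp (mul_nonneg (by norm_num) (mul_nonneg hS0 hX0)))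
    (fun a => e2b_hee _ _ (hal_bd a)) hsep
    (fun i => ee (-((fr i : ℂ) * ∑ j : Fin d, P.z ^ (j.val + 1) * x j)) *
        ∑ ω : Fin d → Fin (2 * W + 1), c (Fin.cons i ω) * ee (∑ j, (fr (ω j) : ℂ) * x j)) (by
      intro a
      have h1 := e2b_val P.z c x (kk a)
      rw [← h1, norm_mul, norm_pow]
      refine mul_le_mul (hε _ ?_) (pow_le_pow_left₀ (norm_nonneg _) (e2b_hee _ _ (hal_bd a)) _)
        (pow_nonneg (norm_nonneg _) _) hε0
      rw [pi_norm_le_iff_of_nonneg hX1]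
      intro j
      refine (norm_add_le _ _).trans ?_
      rw [Complex.norm_natCast, Complex.norm_real, Real.norm_eq_abs, abs_of_nonneg (hx j).1, add_comm]
      exact add_le_add (hkb a j) (hx j).2) i
  -- remove the factor
  have hxi : ‖∑ j : Fin d, P.z ^ (j.val + 1) * (x j : ℂ)‖ ≤ S * 1 := by
    apply hsum
    intro j
    rw [Complex.norm_real, Real.norm_eq_abs, abs_of_nonneg (hx j).1]
    exact (hx j).2
  have hfr : ‖(fr i : ℂ)‖ ≤ W := by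
    have h1 : |fr i| ≤ (W : ℤ) := by
      unfold fr
      have := i.2
      rw [abs_le]
      constructor <;> omega
    rw [Complex.norm_intCast]
    exact_mod_cast h1
  have hfac : Real.exp (-(8 * (W * S))) ≤ ‖ee (-((fr i : ℂ) * ∑ j : Fin d, P.z ^ (j.val + 1) * x j))‖ := by
    apply e2b_hee'
    rw [norm_mul]
    rw [mul_one] at hxi
    exact mul_le_mul hfr hxi (norm_nonneg _) (Nat.cast_nonneg _)
  rw [norm_mul] at hcoef
  exact e2b_f2 hS0 hXR hWR rfl (by rw [Nat.cast_add, Nat.cast_mul, Nat.cast_ofNat, Nat.cast_one]) hC₁0 hε0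
    (le_trans (mul_le_mul_of_nonneg_right hfac (norm_nonneg _)) hcoef)

end Pool.Agent.MSK
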