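import Pool.Agent.Lib.MP_f58a57_nt.K.Defs

/-! # K/E2c_Torus: orthogonality -/

open Complex

noncomputable section

namespace Pool.Agent.MSK

open MSD MSP

variable {d : ℕ}

lemma e2c_ee_add (x y : ℂ) : ee (x + y) = ee x * ee y := by
  unfold ee; rw [mul_add, Complex.exp_add]

lemma e2c_ee_sum {ι : Type*} (s : Finset ι) (f : ι → ℂ) : ee (∑ i ∈ s, f i) = ∏ i ∈ s, ee (f i) := by
  unfold ee; rw [Finset.mul_sum, Complex.exp_sum]

lemma e2c_ee_real (x : ℝ) : ‖ee (x : ℂ)‖ = 1 := by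
  unfold ee
  rw [Complex.norm_exp]
  simp

lemma e2c_geom (N : ℕ) (hN : 0 < N) (k : ℤ) (hk : k ≠ 0) (hk1 : |k| < N) :
    ∑ b : Fin N, ee ((k : ℂ) * ((b.val : ℂ) / N)) = 0 := by
  have hNC : (N : ℂ) ≠ 0 := by exact_mod_cast hN.ne'
  set r : ℂ := ee ((k : ℂ) / N) with hr
  have h1 : ∀ b : Fin N, ee ((k : ℂ) * ((b.val : ℂ) / N)) = r ^ b.val := by
    intro b
    rw [hr]
    unfold ee
    rw [← Complex.exp_nat_mul]
    congr 1
    ring
  rw [Finset.sum_congr rfl fun b _ => h1 b, Fin.sum_univ_eq_sum_range (fun b => r ^ b) N]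
  have hrN : r ^ N = 1 := by
    rw [hr]
    unfold ee
    rw [← Complex.exp_nat_mul, Complex.exp_eq_one_iff]
    refine ⟨k, ?_⟩
    field_simp
  have hr1 : r ≠ 1 := by
    intro h
    rw [hr] at h
    unfold ee at h
    rw [Complex.exp_eq_one_iff] at h
    obtain ⟨n, hn⟩ := h
    have h2 : (k : ℂ) = n * N := by
      have hpi : (2 * Real.pi * I : ℂ) ≠ 0 := by
        simp [Real.pi_ne_zero, I_ne_zero]
      have h3 : (2 * Real.pi * I : ℂ) * ((k : ℂ) / N) = (2 * Real.pi * I : ℂ) * n := by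
        rw [hn]; ring
      have h4 := mul_left_cancel₀ hpi h3
      rw [div_eq_iff hNC] at h4
      exact h4
    have h3 : k = n * N := by exact_mod_cast h2
    rcases eq_or_ne n 0 with h0 | h0
    · rw [h0, zero_mul] at h3
      exact hk h3
    · have h4 : (1 : ℤ) ≤ |n| := Int.one_le_abs h0
      rw [h3, abs_mul, Nat.abs_cast] at hk1
      have h5 : (1 : ℤ) * N ≤ |n| * N := mul_le_mul_of_nonneg_right h4 (by positivity)
      linarith
  have h2 := geom_sum_mul r N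
  rw [hrN, sub_self] at h2
  exact (mul_eq_zero.1 h2).resolve_right (sub_ne_zero.2 hr1)

/-- E2c. PROOF. Orthogonality: average over the points `x = (a_j/(2W+1))_j`, `0 ≤ a_j ≤ 2W`, of the sum times `ee(-∑ fr(ω⁰_j) x_j)`. -/
theorem coeff_torus {W : ℕ} (c : (Fin d → Fin (2 * W + 1)) → ℂ) (ε : ℝ)
    (h : ∀ x : Fin d → ℝ, (∀ j, 0 ≤ x j ∧ x j ≤ 1) → ‖∑ ω : Fin d → Fin (2 * W + 1), c ω * ee (∑ j, (fr (ω j) : ℂ) * x j)‖ ≤ ε) :
    ∀ ω, ‖c ω‖ ≤ ε := by
  intro ω₀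
  have hNpos : 0 < 2 * W + 1 := by omega
  have hNR : (0 : ℝ) < ((2 * W + 1 : ℕ) : ℝ) := by exact_mod_cast hNpos
  let g : (Fin d → Fin (2 * W + 1)) → ℂ := fun a => ∑ ω : Fin d → Fin (2 * W + 1), c ω * ee (∑ j, (fr (ω j) : ℂ) * (((a j).val : ℝ) / ((2 * W + 1 : ℕ) : ℝ) : ℝ))
  have hg : ∀ a, ‖g a‖ ≤ ε := by
    intro a
    refine h (fun j => ((a j).val : ℝ) / ((2 * W + 1 : ℕ) : ℝ)) fun j => ⟨by positivity, ?_⟩
    rw [div_le_one hNR]
    exact_mod_cast (a j).isLt.le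
  have hsum : ∑ a : Fin d → Fin (2 * W + 1), g a * ee (-∑ j, (fr (ω₀ j) : ℂ) * (((a j).val : ℝ) / ((2 * W + 1 : ℕ) : ℝ) : ℝ)) = ((2 * W + 1 : ℕ) : ℂ) ^ d * c ω₀ := by
    have h1 : ∀ a : Fin d → Fin (2 * W + 1), g a * ee (-∑ j, (fr (ω₀ j) : ℂ) * (((a j).val : ℝ) / ((2 * W + 1 : ℕ) : ℝ) : ℝ)) =
        ∑ ω : Fin d → Fin (2 * W + 1), c ω * ∏ j, ee (((fr (ω j) - fr (ω₀ j) : ℤ) : ℂ) * (((a j).val : ℂ) / ((2 * W + 1 : ℕ) : _))) := by
      intro a
      rw [Finset.sum_mul]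
      refine Finset.sum_congr rfl fun ω _ => ?_
      rw [mul_assoc, ← e2c_ee_add, ← e2c_ee_sum]
      congr 2
      rw [← sub_eq_add_neg, ← Finset.sum_sub_distrib]
      refine Finset.sum_congr rfl fun j _ => ?_
      push_cast
      ring
    rw [Finset.sum_congr rfl fun a _ => h1 a, Finset.sum_comm]
    have h2 : ∀ ω : Fin d → Fin (2 * W + 1), ∑ a : Fin d → Fin (2 * W + 1),
        c ω * ∏ j, ee (((fr (ω j) - fr (ω₀ j) : ℤ) : ℂ) * (((a j).val : ℂ) / ((2 * W + 1 : ℕ) : _))) =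
        if ω = ω₀ then ((2 * W + 1 : ℕ) : ℂ) ^ d * c ω₀ else 0 := by
      intro ω
      rw [← Finset.mul_sum]
      have h3 := (Finset.prod_univ_sum (fun _ : Fin d => (Finset.univ : Finset (Fin (2 * W + 1))))
        (fun j b => ee (((fr (ω j) - fr (ω₀ j) : ℤ) : ℂ) * ((b.val : ℂ) / ((2 * W + 1 : ℕ) : _))))).symm
      rw [Fintype.piFinset_univ] at h3
      rw [h3]
      split_ifs with hω
      · subst hω
        simp only [sub_self, Int.cast_zero, zero_mul]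
        have : ee 0 = 1 := by unfold ee; simp
        simp only [this, Finset.sum_const, Finset.card_univ, Fintype.card_fin, Finset.prod_const, nsmul_eq_mul, mul_one]
        ring
      · obtain ⟨j, hj⟩ := Function.ne_iff.1 hω
        rw [Finset.prod_eq_zero (Finset.mem_univ j), mul_zero]
        refine e2c_geom (2 * W + 1) hNpos _ ?_ ?_
        · unfold fr
          intro h0
          apply hj
          apply Fin.ext
          have : ((ω j).val : ℤ) = (ω₀ j).val := by linarith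
          exact_mod_cast this
        · unfold fr
          have h4 := (ω j).isLt
          have h5 := (ω₀ j).isLt
          rw [abs_lt]
          constructor <;> omega
    rw [Finset.sum_congr rfl fun ω _ => h2 ω, Finset.sum_ite_eq' Finset.univ ω₀]
    simp
  have h6 : ‖((2 * W + 1 : ℕ) : ℂ) ^ d * c ω₀‖ ≤ ((2 * W + 1 : ℕ) : ℝ) ^ d * ε := by
    rw [← hsum]
    calc ‖∑ a : Fin d → Fin (2 * W + 1), g a * ee (-∑ j, (fr (ω₀ j) : ℂ) * (((a j).val : ℝ) / ((2 * W + 1 : ℕ) : ℝ) : ℝ))‖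
        ≤ ∑ a : Fin d → Fin (2 * W + 1), ‖g a * ee (-∑ j, (fr (ω₀ j) : ℂ) * (((a j).val : ℝ) / ((2 * W + 1 : ℕ) : ℝ) : ℝ))‖ := norm_sum_le _ _
      _ ≤ ∑ _a : Fin d → Fin (2 * W + 1), ε := by
          refine Finset.sum_le_sum fun a _ => ?_
          rw [norm_mul]
          have h7 : (-∑ j, (fr (ω₀ j) : ℂ) * (((a j).val : ℝ) / ((2 * W + 1 : ℕ) : ℝ) : ℝ) : ℂ) =
              ((-∑ j, (fr (ω₀ j) : ℝ) * (((a j).val : ℝ) / ((2 * W + 1 : ℕ) : _)) : ℝ) : ℂ) := by push_cast; rfl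
          rw [h7, e2c_ee_real, mul_one]
          exact hg a
      _ = ((2 * W + 1 : ℕ) : ℝ) ^ d * ε := by
          rw [Finset.sum_const, Finset.card_univ, Fintype.card_fun, Fintype.card_fin, Fintype.card_fin, nsmul_eq_mul]
          push_cast
          ring
  rw [norm_mul, norm_pow, Complex.norm_natCast] at h6
  exact le_of_mul_le_mul_left h6 (by positivity)

end Pool.Agent.MSK
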