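import Pool.Agent.Lib.MP_f58a57_nt.K.Defs
import Pool.Agent.Lib.MP_f58a57_nt.K.E2_Small
import Pool.Agent.Lib.MP_f58a57_nt.K.E2b_Layer
import Pool.Agent.Lib.MP_f58a57_nt.K.E2c_Torus

/-! # K/E2d_Exp: zeros of exponential sums -/

open Complex

noncomputable section

namespace Pool.Agent.MSK

open MSD MSP

variable {d : ℕ}

/-- E2d. PROOF. If `c ≠ 0` let `m = max ‖c ω‖ > 0`. By E2a with `T = C W X₀` (`‖v‖ ≤ X₀ + 1 ≤ 2X₀`), E2b, E2c:
`m ≤ (2W+1)^(d+1) m e^{-C W X₀} e^{C' W X₀} < m` for `C` large (`(2W+1)^(d+1) ≤ e^{3(d+1)W}`). -/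
theorem expsum (P : Par d) : ∃ C : ℕ, 1 ≤ C ∧ ∀ W X₀ : ℕ, 1 ≤ W → 1 ≤ X₀ → 2 * W + 1 ≤ (X₀ + 1) ^ d →
    ∀ c : (Fin (d + 1) → Fin (2 * W + 1)) → ℂ,
    (∀ Q : MvPolynomial (Fin d) ℂ, Q.totalDegree ≤ C * W * X₀ → ∑ ω, c ω * MvPolynomial.eval (mu P.z ω) Q = 0) → c = 0 := by
  obtain ⟨C', hC', hlay⟩ := ES_layer P
  set B : ℝ := 100 * d * (1 + max 1 ‖P.z‖ ^ d) with hB
  have hB0 : 0 ≤ B := by positivity
  obtain ⟨C, hC⟩ := exists_nat_ge (2 * B + C' + 2 * (d + 1) + 1)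
  have hd0 : (0 : ℝ) ≤ d := Nat.cast_nonneg d
  refine ⟨C, ?_, ?_⟩
  · have : (1 : ℝ) ≤ C := by linarith
    exact_mod_cast this
  intro W X₀ hW hX hWX c h
  have hWr : (1 : ℝ) ≤ W := by exact_mod_cast hW
  have hXr : (1 : ℝ) ≤ X₀ := by exact_mod_cast hX
  have hWXr : (1 : ℝ) ≤ W * X₀ := by nlinarith
  set S : ℝ := ∑ ω, ‖c ω‖ with hS
  have hS0 : 0 ≤ S := Finset.sum_nonneg fun _ _ => norm_nonneg _
  have h1 : ∀ v : Fin d → ℂ, ‖v‖ ≤ X₀ + 1 → ‖ES P.z c v‖ ≤ S * Real.exp (-((C * W * X₀ : ℕ) : ℝ)) := by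
    intro v hv
    refine ES_small P.z c (C * W * X₀) h v ?_
    have h2 : ‖v‖ ≤ 2 * X₀ := by linarith
    have h3 : B * W * ‖v‖ ≤ B * W * (2 * X₀) := mul_le_mul_of_nonneg_left h2 (by positivity)
    have h4 : B * W * (2 * X₀) = 2 * B * (W * X₀) := by ring
    have h5 : 2 * B * (W * X₀) ≤ C * (W * X₀) := by
      apply mul_le_mul_of_nonneg_right _ (by linarith)
      linarith
    push_cast
    calc 100 * (d : ℝ) * (1 + max 1 ‖P.z‖ ^ d) * W * ‖v‖ = B * W * ‖v‖ := by rw [hB]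
      _ ≤ 2 * B * (W * X₀) := by rw [← h4]; exact h3
      _ ≤ C * (W * X₀) := h5
      _ = C * W * X₀ := by ring
  have h2 := hlay W X₀ hW hX hWX c _ h1
  have h3 : ∀ ω : Fin (d + 1) → Fin (2 * W + 1), ‖c ω‖ ≤ S * Real.exp (-((C * W * X₀ : ℕ) : ℝ)) * Real.exp (C' * W * X₀) := by
    intro ω
    have h4 := coeff_torus (fun ω' : Fin d → Fin (2 * W + 1) => c (Fin.cons (ω 0) ω'))
      (S * Real.exp (-((C * W * X₀ : ℕ) : ℝ)) * Real.exp (C' * W * X₀))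
      (fun x hx => h2 x hx (ω 0)) (Fin.tail ω)
    simpa [Fin.cons_self_tail] using h4
  have h4 : S ≤ (2 * W + 1 : ℝ) ^ (d + 1) * (S * Real.exp (-((C * W * X₀ : ℕ) : ℝ)) * Real.exp (C' * W * X₀)) := by
    have h5 := Finset.sum_le_card_nsmul Finset.univ (fun ω => ‖c ω‖) _ (fun ω _ => h3 ω)
    rw [nsmul_eq_mul] at h5
    have h6 : ((Finset.univ : Finset (Fin (d + 1) → Fin (2 * W + 1))).card : ℝ) = (2 * W + 1 : ℝ) ^ (d + 1) := by
      simp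
    rw [h6] at h5
    exact h5
  have h5 : (2 * W + 1 : ℝ) ^ (d + 1) ≤ Real.exp (2 * (d + 1) * W) := by
    have h6 : (2 * W + 1 : ℝ) ≤ Real.exp (2 * W) := Real.add_one_le_exp _
    calc (2 * W + 1 : ℝ) ^ (d + 1) ≤ Real.exp (2 * W) ^ (d + 1) := pow_le_pow_left₀ (by positivity) h6 _
      _ = Real.exp (2 * (d + 1) * W) := by
        rw [← Real.exp_nat_mul]
        congr 1
        push_cast
        ring
  have h6 : (2 * W + 1 : ℝ) ^ (d + 1) * (Real.exp (-((C * W * X₀ : ℕ) : ℝ)) * Real.exp (C' * W * X₀)) ≤ Real.exp (-1) := by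
    have h7 : Real.exp (2 * (d + 1) * W) * (Real.exp (-((C * W * X₀ : ℕ) : ℝ)) * Real.exp (C' * W * X₀))
        = Real.exp (2 * (d + 1) * W + (-((C * W * X₀ : ℕ) : ℝ) + C' * W * X₀)) := by
      rw [Real.exp_add, Real.exp_add]
    calc _ ≤ Real.exp (2 * (d + 1) * W) * (Real.exp (-((C * W * X₀ : ℕ) : ℝ)) * Real.exp (C' * W * X₀)) :=
          mul_le_mul_of_nonneg_right h5 (by positivity)
      _ = _ := h7
      _ ≤ Real.exp (-1) := by
        apply Real.exp_le_exp.mpr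
        push_cast
        have h8 : (2 : ℝ) * (d + 1) * W ≤ 2 * (d + 1) * (W * X₀) := by
          apply mul_le_mul_of_nonneg_left _ (by positivity)
          nlinarith
        have h9 : (2 * (d + 1) + C' + 1) * ((W : ℝ) * X₀) ≤ C * (W * X₀) := by
          apply mul_le_mul_of_nonneg_right _ (by linarith)
          linarith
        nlinarith
  have h7 : S ≤ Real.exp (-1) * S := by
    calc S ≤ (2 * W + 1 : ℝ) ^ (d + 1) * (S * Real.exp (-((C * W * X₀ : ℕ) : ℝ)) * Real.exp (C' * W * X₀)) := h4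
      _ = ((2 * W + 1 : ℝ) ^ (d + 1) * (Real.exp (-((C * W * X₀ : ℕ) : ℝ)) * Real.exp (C' * W * X₀))) * S := by ring
      _ ≤ Real.exp (-1) * S := mul_le_mul_of_nonneg_right h6 hS0
  have h8 : Real.exp (-1) < 1 := by rw [Real.exp_lt_one_iff]; norm_num
  have h9 : S = 0 := by nlinarith
  funext ω
  have h10 := (Finset.sum_eq_zero_iff_of_nonneg (fun ω _ => norm_nonneg (c ω))).mp h9 ω (Finset.mem_univ _)
  simpa using h10

end Pool.Agent.MSK
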