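import Pool.Agent.Lib.MP_f58a57_nt.K.Defs

/-! # K/E3_Dual: interpolation polynomials -/

open Complex

noncomputable section

namespace Pool.Agent.MSK

open MSD MSP

variable {d : ℕ}

/-- E3a. PROOF. Linear algebra: the evaluation map `Q ↦ (eval (mu ω) Q)_ω` on the (finite dimensional) space of polynomials of total degree `≤ T` is surjective, otherwise a
nonzero linear functional `(y_ω) ↦ ∑ c ω y_ω` vanishes on its range (`Submodule.exists_le_ker_of_lt_top` or `Submodule.exists_dual_map_eq_bot`), against the hypothesis. -/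
theorem dual_basis (z : ℂ) (W T : ℕ) (h : ∀ c : (Fin (d + 1) → Fin (2 * W + 1)) → ℂ,
      (∀ Q : MvPolynomial (Fin d) ℂ, Q.totalDegree ≤ T → ∑ ω, c ω * MvPolynomial.eval (mu z ω) Q = 0) → c = 0)
    (ω₀ : Fin (d + 1) → Fin (2 * W + 1)) : ∃ R : MvPolynomial (Fin d) ℂ, R.totalDegree ≤ T ∧ MvPolynomial.eval (mu z ω₀) R = 1 ∧
      ∀ ω, ω ≠ ω₀ → MvPolynomial.eval (mu z ω) R = 0 := by
  classical
  let E : MvPolynomial (Fin d) ℂ →ₗ[ℂ] ((Fin (d + 1) → Fin (2 * W + 1)) → ℂ) :=
    LinearMap.pi (fun ω => (MvPolynomial.aeval (mu z ω) : MvPolynomial (Fin d) ℂ →ₐ[ℂ] ℂ).toLinearMap)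
  have hE : ∀ Q ω, E Q ω = MvPolynomial.eval (mu z ω) Q := by
    intro Q ω
    simp only [E, LinearMap.pi_apply, AlgHom.toLinearMap_apply]
    rw [MvPolynomial.aeval_eq_eval]
  have htop : Submodule.map E (MvPolynomial.restrictTotalDegree (Fin d) ℂ T) = ⊤ := by
    by_contra hne
    obtain ⟨f, hf0, hf⟩ := Submodule.exists_le_ker_of_lt_top _ (lt_top_iff_ne_top.2 hne)
    apply hf0
    have hfs : ∀ y, f y = ∑ ω, f (Pi.single ω 1) * y ω := by
      intro y
      conv_lhs => rw [LinearMap.pi_apply_eq_sum_univ f y]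
      refine Finset.sum_congr rfl fun ω _ => ?_
      rw [smul_eq_mul, mul_comm]
      congr 2
      funext ω'
      rw [Pi.single_apply]
      simp only [eq_comm]
    have hc := h (fun ω => f (Pi.single ω 1)) (by
      intro Q hQ
      have h1 : E Q ∈ LinearMap.ker f := hf (Submodule.mem_map_of_mem ((MvPolynomial.mem_restrictTotalDegree _ _ _).2 hQ))
      rw [LinearMap.mem_ker, hfs] at h1
      rw [← h1]
      exact Finset.sum_congr rfl fun ω _ => by rw [hE])
    refine LinearMap.ext fun y => ?_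
    rw [hfs y]
    refine Finset.sum_eq_zero fun ω _ => ?_
    have h2 := congrFun hc ω
    simp only [Pi.zero_apply] at h2
    rw [h2, zero_mul]
  have hmem : (Pi.single ω₀ 1 : (Fin (d + 1) → Fin (2 * W + 1)) → ℂ) ∈
      Submodule.map E (MvPolynomial.restrictTotalDegree (Fin d) ℂ T) := by
    rw [htop]
    exact Submodule.mem_top
  obtain ⟨R, hR, hER⟩ := Submodule.mem_map.1 hmem
  refine ⟨R, (MvPolynomial.mem_restrictTotalDegree _ _ _).1 hR, ?_, ?_⟩
  · rw [← hE, hER, Pi.single_eq_same]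
  · intro ω hω
    rw [← hE, hER, Pi.single_eq_of_ne hω]

end Pool.Agent.MSK
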