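import Pool.Agent.Lib.MP_f58a57_nt.K.Defs

/-! # K/E3b_Herm: from simple to multiple interpolation -/

open Complex

noncomputable section

namespace Pool.Agent.MSK

open MSD MSP

variable {d : ℕ}

/-- multiplying `n` times by a polynomial without constant term kills all the coefficients of degree `< n` -/
theorem e3b_low {σ : Type*} {p q : MvPolynomial σ ℂ} (hp : MvPolynomial.constantCoeff p = 0) (n : ℕ) :
    ∀ m : σ →₀ ℕ, m.degree < n → MvPolynomial.coeff m (p ^ n * q) = 0 := by
  classical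
  induction n with
  | zero => intro m hm; exact absurd hm (Nat.not_lt_zero _)
  | succ n ih =>
    intro m hm
    rw [pow_succ', mul_assoc, MvPolynomial.coeff_mul]
    refine Finset.sum_eq_zero fun x hx => ?_
    rw [Finset.HasAntidiagonal.mem_antidiagonal] at hx
    by_cases h0 : x.1 = 0
    · rw [h0]
      have h1 : MvPolynomial.coeff 0 p = 0 := hp
      rw [h1, zero_mul]
    · have h3 : x.2.degree < n := by
        have h1 : x.1.degree + x.2.degree = m.degree := by rw [← hx, map_add]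
        have h2 : x.1.degree ≠ 0 := fun h => h0 ((Finsupp.degree_eq_zero_iff _).1 h)
        omega
      rw [ih _ h3, mul_zero]

/-- the constant term of a translate -/
theorem e3b_const (c : Fin d → ℂ) (R : MvPolynomial (Fin d) ℂ) :
    MvPolynomial.constantCoeff (MvPolynomial.aeval (fun j => MvPolynomial.X j + MvPolynomial.C (c j)) R : MvPolynomial (Fin d) ℂ)
      = MvPolynomial.eval c R := by
  have h : (MvPolynomial.constantCoeff : MvPolynomial (Fin d) ℂ →+* ℂ).comp
      ((MvPolynomial.aeval (fun j => MvPolynomial.X j + MvPolynomial.C (c j)) : MvPolynomial (Fin d) ℂ →ₐ[ℂ] MvPolynomial (Fin d) ℂ) :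
        MvPolynomial (Fin d) ℂ →+* MvPolynomial (Fin d) ℂ) = MvPolynomial.eval c := by
    refine MvPolynomial.ringHom_ext (fun r => ?_) (fun i => ?_)
    · simp
    · simp
  exact RingHom.congr_fun h R

/-- the product of powers as a monomial -/
theorem e3b_prod (k : Fin d → ℕ) : (∏ j, MvPolynomial.X j ^ k j : MvPolynomial (Fin d) ℂ)
    = MvPolynomial.monomial (Finsupp.equivFunOnFinite.symm k) 1 := by
  rw [MvPolynomial.monomial_eq, map_one, one_mul, Finsupp.prod_fintype _ _ (fun i => pow_zero _)]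
  rfl

/-- E3b. PROOF. Let `H ≠ 0`. Choose `ω₀` such that `H (κ, ω₀) ≠ 0` for some `κ`, and `κ₀` with `H (κ₀, ω₀) ≠ 0` and `∑ κ₀_j` maximal. Let `R` be as in E3a for `ω₀` and
`Q = R^(dK+1) ∏_j (X_j - mu ω₀ j)^(κ₀_j)`, of total degree `≤ T₀ (dK+1) + dK`. For `ω ≠ ω₀`, `R(X + mu ω)` has constant term `0`, so all the coefficients of `Q(X + mu ω)` of total degree `≤ dK`
vanish. For `ω₀`: `Q(X + mu ω₀) = R(X + mu ω₀)^(dK+1) X^κ₀`: the coefficient of `X^κ` is `0` if `∑ κ < ∑ κ₀` or (`∑ κ = ∑ κ₀`, `κ ≠ κ₀`), and it is `R(mu ω₀)^(dK+1) = 1` for `κ₀`; for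
`∑ κ > ∑ κ₀` `H (κ, ω₀) = 0`. So `Ph z H Q = H(κ₀, ω₀) κ₀! ≠ 0`. -/
theorem hermite (z : ℂ) {K W T₀ : ℕ} (hR : ∀ ω₀ : Fin (d + 1) → Fin (2 * W + 1), ∃ R : MvPolynomial (Fin d) ℂ, R.totalDegree ≤ T₀ ∧
      MvPolynomial.eval (mu z ω₀) R = 1 ∧ ∀ ω, ω ≠ ω₀ → MvPolynomial.eval (mu z ω) R = 0)
    (H : Jx d K W → ℂ) (hH : ∀ Q : MvPolynomial (Fin d) ℂ, Q.totalDegree ≤ T₀ * (d * K + 1) + d * K → Ph z H Q = 0) : H = 0 := by
  classical
  by_contra hne
  have hex : ∃ x, H x ≠ 0 := by
    by_contra h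
    push Not at h
    exact hne (funext h)
  obtain ⟨x₁, hx₁⟩ := hex
  obtain ⟨x₀, hx₀, hmax⟩ := Finset.exists_max_image (Finset.univ.filter fun x : Jx d K W => H x ≠ 0)
    (fun x => ∑ j, (x.1 j).val) ⟨x₁, by simpa using hx₁⟩
  have hx₀' : H x₀ ≠ 0 := by simpa using hx₀
  obtain ⟨R, hRd, hR1, hR0⟩ := hR x₀.2
  have hK : ∑ j, (x₀.1 j).val ≤ d * K := by
    calc ∑ j, (x₀.1 j).val ≤ ∑ _j : Fin d, K := Finset.sum_le_sum fun j _ => Nat.le_of_lt_succ (x₀.1 j).isLt
      _ = d * K := by simp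
  have hQ := hH (R ^ (d * K + 1) * ∏ j, (MvPolynomial.X j - MvPolynomial.C (mu z x₀.2 j)) ^ (x₀.1 j).val) (by
    refine (MvPolynomial.totalDegree_mul _ _).trans (add_le_add ?_ ?_)
    · refine (MvPolynomial.totalDegree_pow _ _).trans ?_
      rw [mul_comm]
      exact Nat.mul_le_mul_right _ hRd
    · refine (MvPolynomial.totalDegree_finsetProd _ _).trans (le_trans (Finset.sum_le_sum fun j _ => ?_) hK)
      refine (MvPolynomial.totalDegree_pow _ _).trans ?_
      have h1 : (MvPolynomial.X j - MvPolynomial.C (mu z x₀.2 j) : MvPolynomial (Fin d) ℂ).totalDegree ≤ 1 :=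
        (MvPolynomial.totalDegree_sub_C_le _ _).trans (MvPolynomial.totalDegree_X j).le
      calc (x₀.1 j).val * (MvPolynomial.X j - MvPolynomial.C (mu z x₀.2 j) : MvPolynomial (Fin d) ℂ).totalDegree
          ≤ (x₀.1 j).val * 1 := Nat.mul_le_mul_left _ h1
        _ = (x₀.1 j).val := mul_one _)
  rw [Ph, Finset.sum_eq_single x₀] at hQ
  · have h1 : MvPolynomial.coeff (Finsupp.equivFunOnFinite.symm fun j => (x₀.1 j).val)
        (MvPolynomial.aeval (fun j => MvPolynomial.X j + MvPolynomial.C (mu z x₀.2 j))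
          (R ^ (d * K + 1) * ∏ j, (MvPolynomial.X j - MvPolynomial.C (mu z x₀.2 j)) ^ (x₀.1 j).val) : MvPolynomial (Fin d) ℂ) = 1 := by
      rw [map_mul, map_pow, map_prod]
      have h2 : ∀ j, MvPolynomial.aeval (fun j => MvPolynomial.X j + MvPolynomial.C (mu z x₀.2 j))
          ((MvPolynomial.X j - MvPolynomial.C (mu z x₀.2 j)) ^ (x₀.1 j).val : MvPolynomial (Fin d) ℂ)
          = (MvPolynomial.X j ^ (x₀.1 j).val : MvPolynomial (Fin d) ℂ) := by
        intro j
        rw [map_pow, map_sub, MvPolynomial.aeval_X, MvPolynomial.aeval_C]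
        congr 1
        simp [MvPolynomial.algebraMap_eq]
      rw [Finset.prod_congr rfl fun j _ => h2 j, e3b_prod, MvPolynomial.coeff_mul_monomial', if_pos le_rfl, tsub_self, mul_one]
      have h3 := e3b_const (mu z x₀.2) R
      rw [hR1] at h3
      have h4 : MvPolynomial.constantCoeff ((MvPolynomial.aeval (fun j => MvPolynomial.X j + MvPolynomial.C (mu z x₀.2 j)) R :
        MvPolynomial (Fin d) ℂ) ^ (d * K + 1)) = 1 := by rw [map_pow, h3, one_pow]
      exact h4
    rw [h1, mul_one] at hQ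
    rcases mul_eq_zero.1 hQ with h | h
    · exact hx₀' h
    · rw [Finset.prod_eq_zero_iff] at h
      obtain ⟨j, -, hj⟩ := h
      exact Nat.factorial_ne_zero _ (by exact_mod_cast hj)
  · intro x _ hx
    by_cases hHx : H x = 0
    · rw [hHx, zero_mul, zero_mul]
    have hle : ∑ j, (x.1 j).val ≤ ∑ j, (x₀.1 j).val := hmax x (by simpa using hHx)
    have hxK : ∑ j, (x.1 j).val ≤ d * K := hle.trans hK
    have hz : MvPolynomial.coeff (Finsupp.equivFunOnFinite.symm fun j => (x.1 j).val)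
        (MvPolynomial.aeval (fun j => MvPolynomial.X j + MvPolynomial.C (mu z x.2 j))
          (R ^ (d * K + 1) * ∏ j, (MvPolynomial.X j - MvPolynomial.C (mu z x₀.2 j)) ^ (x₀.1 j).val) : MvPolynomial (Fin d) ℂ) = 0 := by
      by_cases hω : x.2 = x₀.2
      · rw [map_mul, map_pow, map_prod, hω]
        have h2 : ∀ j, MvPolynomial.aeval (fun j => MvPolynomial.X j + MvPolynomial.C (mu z x₀.2 j))
            ((MvPolynomial.X j - MvPolynomial.C (mu z x₀.2 j)) ^ (x₀.1 j).val : MvPolynomial (Fin d) ℂ)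
            = (MvPolynomial.X j ^ (x₀.1 j).val : MvPolynomial (Fin d) ℂ) := by
          intro j
          rw [map_pow, map_sub, MvPolynomial.aeval_X, MvPolynomial.aeval_C]
          congr 1
          simp [MvPolynomial.algebraMap_eq]
        rw [Finset.prod_congr rfl fun j _ => h2 j, e3b_prod, MvPolynomial.coeff_mul_monomial', if_neg]
        intro hle2
        apply hx
        have h5 : ∀ j ∈ Finset.univ, (x₀.1 j).val ≤ (x.1 j).val := fun j _ => hle2 j
        have h6 : ∑ j, (x₀.1 j).val = ∑ j, (x.1 j).val := le_antisymm (Finset.sum_le_sum h5) hle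
        have h7 := (Finset.sum_eq_sum_iff_of_le h5).1 h6
        refine Prod.ext (funext fun j => ?_) hω
        exact (Fin.ext (h7 j (Finset.mem_univ j))).symm
      · rw [map_mul, map_pow]
        refine e3b_low ?_ _ _ ?_
        · rw [e3b_const]
          exact hR0 _ hω
        · rw [Finsupp.degree_eq_sum]
          refine Nat.lt_succ_of_le ?_
          simpa using hxK
    rw [hz, mul_zero]
  · intro h
    exact absurd (Finset.mem_univ _) h

end Pool.Agent.MSK
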