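import Pool.Agent.Lib.MP_f58a57_nt.K.Defs

/-! # K/E3c_Span: powers of linear forms -/

open Complex

noncomputable section

namespace Pool.Agent.MSK

open MSD MSP

variable {d : ℕ}

theorem span_mono (Φ : MvPolynomial (Fin d) ℂ →ₗ[ℂ] ℂ) (T : ℕ)
    (h : ∀ a : Fin d → ℕ, (∀ j, a j ≤ T) → ∀ k ≤ T, Φ ((∑ j, MvPolynomial.C (a j : ℂ) * MvPolynomial.X j) ^ k) = 0)
    (κ : Fin d → ℕ) (hκ : ∑ j, κ j ≤ T) :
    Φ (∏ j, MvPolynomial.X j ^ κ j) = 0 := by
  classical
  set k := ∑ j, κ j with hk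
  let G : MvPolynomial (Fin d) ℂ := ∑ κ ∈ Finset.piAntidiag (Finset.univ : Finset (Fin d)) k,
    MvPolynomial.monomial (Finsupp.equivFunOnFinite.symm κ)
      ((Nat.multinomial Finset.univ κ : ℂ) * Φ (∏ j, MvPolynomial.X j ^ κ j))
  have hG : G = 0 := by
    refine MvPolynomial.eq_zero_of_eval_zero_at_prod_finset G
      (fun _ => (Finset.range (T + 1)).image (fun n : ℕ => (n : ℂ))) ?_ ?_
    · intro i
      rw [Finset.card_image_of_injective _ Nat.cast_injective, Finset.card_range]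
      refine Nat.lt_succ_of_le ?_
      rw [MvPolynomial.degreeOf_le_iff]
      intro m hm
      have h1 := MvPolynomial.support_sum hm
      rw [Finset.mem_biUnion] at h1
      obtain ⟨κ', hκ', hm'⟩ := h1
      have h2 := MvPolynomial.support_monomial_subset hm'
      rw [Finset.mem_singleton] at h2
      rw [h2]
      rw [Finset.mem_piAntidiag] at hκ'
      change κ' i ≤ T
      calc κ' i ≤ ∑ j, κ' j := Finset.single_le_sum (f := κ') (fun _ _ => Nat.zero_le _) (Finset.mem_univ i)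
        _ = k := hκ'.1
        _ ≤ T := hκ
    · intro x hx
      have hx' : ∀ j, ∃ n : ℕ, n ≤ T ∧ (n : ℂ) = x j := by
        intro j
        obtain ⟨n, hn, hn'⟩ := Finset.mem_image.1 (hx j)
        exact ⟨n, by rw [Finset.mem_range] at hn; omega, hn'⟩
      choose a ha ha' using hx'
      have h1 := h a ha k hκ
      rw [Finset.sum_pow_eq_sum_piAntidiag, map_sum] at h1
      simp only [G]
      rw [map_sum, ← h1]
      refine Finset.sum_congr rfl fun κ' _ => ?_
      rw [MvPolynomial.eval_monomial]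
      have h2 : (Nat.multinomial Finset.univ κ' : MvPolynomial (Fin d) ℂ) *
          ∏ j, (MvPolynomial.C (a j : ℂ) * MvPolynomial.X j) ^ κ' j =
          ((Nat.multinomial Finset.univ κ' : ℂ) * ∏ j, (a j : ℂ) ^ κ' j) •
            ∏ j, MvPolynomial.X (R := ℂ) j ^ κ' j := by
        have h3 : ∀ j : Fin d, (MvPolynomial.C (a j : ℂ) * MvPolynomial.X (R := ℂ) j) ^ κ' j =
            MvPolynomial.C ((a j : ℂ) ^ κ' j) * MvPolynomial.X j ^ κ' j := by
          intro j
          rw [mul_pow, map_pow]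
        rw [Finset.prod_congr rfl fun j _ => h3 j, Finset.prod_mul_distrib, MvPolynomial.smul_eq_C_mul,
          map_mul, map_prod, map_natCast]
        ring
      rw [h2, map_smul, smul_eq_mul]
      have h4 : (Finsupp.equivFunOnFinite.symm κ' : Fin d →₀ ℕ).prod (fun n e => x n ^ e) =
          ∏ j, (a j : ℂ) ^ κ' j := by
        rw [Finsupp.prod_fintype _ _ (fun i => pow_zero _)]
        refine Finset.prod_congr rfl fun j _ => ?_
        rw [ha' j]
        rfl
      rw [h4]
      ring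
  have hcoeff : MvPolynomial.coeff (Finsupp.equivFunOnFinite.symm κ) G =
      (Nat.multinomial Finset.univ κ : ℂ) * Φ (∏ j, MvPolynomial.X j ^ κ j) := by
    simp only [G]
    rw [MvPolynomial.coeff_sum, Finset.sum_eq_single κ]
    · rw [MvPolynomial.coeff_monomial, if_pos rfl]
    · intro κ' _ hne
      rw [MvPolynomial.coeff_monomial, if_neg]
      intro h0
      exact hne (Finsupp.equivFunOnFinite.symm.injective h0)
    · intro h0
      exfalso
      apply h0
      rw [Finset.mem_piAntidiag]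
      exact ⟨hk.symm, fun _ _ => Finset.mem_univ _⟩
  rw [hG, MvPolynomial.coeff_zero] at hcoeff
  rcases mul_eq_zero.1 hcoeff.symm with h0 | h0
  · exfalso
    have := Nat.multinomial_pos Finset.univ κ
    rw [Nat.cast_eq_zero] at h0
    omega
  · exact h0

/-- E3c. PROOF. For `k ≤ T` the function `a ↦ Φ((∑ a_j X_j)^k)` is a polynomial in `a` of degree `≤ k ≤ T` in each variable, with coefficient `multinomial(σ) Φ(X^σ)` at `a^σ`
(`Finset.sum_pow_of_commute` or induction), which vanishes on `{0..T}^d`; so it is zero (`MvPolynomial.eq_zero_of_eval_zero_at_prod_finset` or similar), and `Φ(X^σ) = 0` for all `|σ| ≤ T`. -/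
theorem span_lin (Φ : MvPolynomial (Fin d) ℂ →ₗ[ℂ] ℂ) (T : ℕ)
    (h : ∀ a : Fin d → ℕ, (∀ j, a j ≤ T) → ∀ k ≤ T, Φ ((∑ j, MvPolynomial.C (a j : ℂ) * MvPolynomial.X j) ^ k) = 0) :
    ∀ Q : MvPolynomial (Fin d) ℂ, Q.totalDegree ≤ T → Φ Q = 0 := by
  intro Q hQ
  rw [MvPolynomial.as_sum Q, map_sum]
  refine Finset.sum_eq_zero fun m hm => ?_
  have h1 : (MvPolynomial.monomial m (MvPolynomial.coeff m Q) : MvPolynomial (Fin d) ℂ) =
      MvPolynomial.coeff m Q • ∏ j, MvPolynomial.X j ^ m j := by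
    rw [MvPolynomial.monomial_eq, MvPolynomial.smul_eq_C_mul]
    congr 1
    rw [Finsupp.prod_fintype _ _ (fun i => pow_zero _)]
  rw [h1, map_smul, span_mono Φ T h (fun j => m j) ?_, smul_zero]
  have h2 := MvPolynomial.le_totalDegree hm
  have h3 : (m.sum fun _ e => e) = ∑ j, m j := Finsupp.sum_fintype _ _ (fun _ => rfl)
  omega

/-- `Ph z H` is linear -/
theorem Ph_linear (z : ℂ) {K W : ℕ} (H : Jx d K W → ℂ) : ∃ Φ : MvPolynomial (Fin d) ℂ →ₗ[ℂ] ℂ, ∀ Q, Φ Q = Ph z H Q := by
  refine ⟨∑ x, (H x * (∏ j, ((x.1 j).val.factorial : ℂ))) •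
    ((MvPolynomial.lcoeff ℂ (Finsupp.equivFunOnFinite.symm (fun j => (x.1 j).val))).comp
      (MvPolynomial.aeval (fun j => (MvPolynomial.X j + MvPolynomial.C (mu z x.2 j) :
        MvPolynomial (Fin d) ℂ))).toLinearMap), ?_⟩
  intro Q
  unfold Ph
  rw [LinearMap.sum_apply]
  refine Finset.sum_congr rfl fun x _ => ?_
  rfl

end Pool.Agent.MSK
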