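import Pool.Agent.Lib.MP_f58a57_nt.K.Defs

/-! # K/E3d_Der: derivatives of exponential polynomials -/

open Complex

noncomputable section

namespace Pool.Agent.MSK

open MSD MSP

variable {d : ℕ}

/-- the common recursion -/
private lemma e3d_rec (k n : ℕ) (M : ℂ) :
    (n : ℂ) * ((k.choose (n - 1) : ℂ) * ((n - 1).factorial : ℂ) * M ^ (k - (n - 1))) +
      M * ((k.choose n : ℂ) * (n.factorial : ℂ) * M ^ (k - n)) =
      ((k + 1).choose n : ℂ) * (n.factorial : ℂ) * M ^ (k + 1 - n) := by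
  cases n with
  | zero =>
    simp only [Nat.cast_zero, zero_mul, zero_add, Nat.choose_zero_right, Nat.factorial_zero,
      Nat.cast_one, one_mul, Nat.sub_zero]
    rw [pow_succ']
  | succ n =>
    rw [Nat.add_sub_cancel, Nat.choose_succ_succ, Nat.factorial_succ, Nat.succ_sub_succ]
    by_cases h : n + 1 ≤ k
    · have h1 : k - n = (k - (n + 1)) + 1 := by omega
      rw [h1]
      push_cast
      ring
    · have h1 : k.choose (n + 1) = 0 := Nat.choose_eq_zero_of_lt (by omega)
      rw [h1]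
      push_cast
      ring

/-- the derivatives of `ζ ^ n * exp (M ζ)` at `0` -/
private lemma e3d_fun (M : ℂ) (k : ℕ) : ∀ n : ℕ,
    iteratedDeriv k (fun ζ : ℂ => ζ ^ n * cexp (M * ζ)) 0 =
      (k.choose n : ℂ) * (n.factorial : ℂ) * M ^ (k - n) := by
  induction k with
  | zero =>
    intro n
    rw [iteratedDeriv_zero]
    cases n with
    | zero => simp
    | succ n => simp
  | succ k ih =>
    intro n
    have hd : deriv (fun ζ : ℂ => ζ ^ n * cexp (M * ζ)) =
        fun ζ : ℂ => (n : ℂ) * (ζ ^ (n - 1) * cexp (M * ζ)) + M * (ζ ^ n * cexp (M * ζ)) := by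
      funext ζ
      have h1 : HasDerivAt (fun ζ : ℂ => M * ζ) M ζ := by
        simpa using (hasDerivAt_id ζ).const_mul M
      have h2 : HasDerivAt (fun ζ : ℂ => ζ ^ n * cexp (M * ζ))
          ((n : ℂ) * ζ ^ (n - 1) * cexp (M * ζ) + ζ ^ n * (cexp (M * ζ) * M)) ζ :=
        (hasDerivAt_pow n ζ).mul h1.cexp
      rw [h2.deriv]
      ring
    have hc : ∀ m : ℕ, ContDiffAt ℂ k (fun ζ : ℂ => ζ ^ m * cexp (M * ζ)) 0 := by
      intro m
      fun_prop
    rw [iteratedDeriv_succ', hd, iteratedDeriv_fun_add (contDiffAt_const.mul (hc _))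
      (contDiffAt_const.mul (hc _)), iteratedDeriv_const_mul_field, iteratedDeriv_const_mul_field,
      ih, ih, e3d_rec]

/-- the coefficients of the powers of a linear polynomial -/
private lemma e3d_coeff (a m : Fin d → ℂ) (k : ℕ) : ∀ κ : Fin d →₀ ℕ,
    (∏ j, ((κ j).factorial : ℂ)) * MvPolynomial.coeff κ
      ((∑ j, MvPolynomial.C (a j) * (MvPolynomial.X j + MvPolynomial.C (m j))) ^ k) =
      ((k.choose (∑ j, κ j) : ℂ) * ((∑ j, κ j).factorial : ℂ) *
        (∑ j, a j * m j) ^ (k - ∑ j, κ j)) * ∏ j, a j ^ κ j := by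
  induction k with
  | zero =>
    intro κ
    rw [pow_zero, MvPolynomial.coeff_one]
    by_cases h : κ = 0
    · subst h
      simp
    · rw [if_neg (fun h0 => h h0.symm), mul_zero, Nat.choose_eq_zero_of_lt, Nat.cast_zero,
        zero_mul, zero_mul, zero_mul]
      rw [pos_iff_ne_zero]
      intro h0
      apply h
      ext j
      have h1 := (Finset.sum_eq_zero_iff.1 h0) j (Finset.mem_univ j)
      simpa using h1
  | succ k ih =>
    intro κ
    set Y : MvPolynomial (Fin d) ℂ :=
      ∑ j, MvPolynomial.C (a j) * (MvPolynomial.X j + MvPolynomial.C (m j)) with hY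
    set n := ∑ j, κ j with hn
    set M := ∑ j, a j * m j with hM
    have h1 : Y ^ (k + 1) = (∑ j, MvPolynomial.C (a j) * (Y ^ k * MvPolynomial.X j)) +
        MvPolynomial.C M * Y ^ k := by
      rw [pow_succ]
      conv_lhs => rw [hY]
      rw [← hY, Finset.mul_sum, hM, map_sum, Finset.sum_mul, ← Finset.sum_add_distrib]
      refine Finset.sum_congr rfl fun j _ => ?_
      rw [MvPolynomial.C_mul]
      ring
    rw [h1, MvPolynomial.coeff_add, MvPolynomial.coeff_sum, MvPolynomial.coeff_C_mul, mul_add,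
      Finset.mul_sum]
    have h2 : ∀ j, (∏ j, ((κ j).factorial : ℂ)) * MvPolynomial.coeff κ
        (MvPolynomial.C (a j) * (Y ^ k * MvPolynomial.X j)) =
        (κ j : ℂ) * (((k.choose (n - 1) : ℂ) * ((n - 1).factorial : ℂ) * M ^ (k - (n - 1))) *
          ∏ j, a j ^ κ j) := by
      intro j
      rw [MvPolynomial.coeff_C_mul, MvPolynomial.coeff_mul_X']
      by_cases hj : κ j = 0
      · rw [if_neg (by rw [Finsupp.mem_support_iff]; exact fun h0 => h0 hj), hj]
        simp
      · rw [if_pos (Finsupp.mem_support_iff.2 hj)]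
        have h3 := ih (κ - Finsupp.single j 1)
        have hv : ∀ i, i ≠ j → (κ - Finsupp.single j 1 : Fin d →₀ ℕ) i = κ i := by
          intro i hi
          rw [Finsupp.tsub_apply, Finsupp.single_apply, if_neg (Ne.symm hi), Nat.sub_zero]
        have hvj : (κ - Finsupp.single j 1 : Fin d →₀ ℕ) j = κ j - 1 := by
          rw [Finsupp.tsub_apply, Finsupp.single_apply, if_pos rfl]
        have hs : ∑ i, (κ - Finsupp.single j 1 : Fin d →₀ ℕ) i = n - 1 := by
          rw [hn, ← Finset.add_sum_erase _ (fun i => (κ - Finsupp.single j 1 : Fin d →₀ ℕ) i)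
              (Finset.mem_univ j),
            ← Finset.add_sum_erase _ (fun i => κ i) (Finset.mem_univ j), hvj]
          have h6 : ∑ i ∈ Finset.univ.erase j, (κ - Finsupp.single j 1 : Fin d →₀ ℕ) i =
              ∑ i ∈ Finset.univ.erase j, κ i :=
            Finset.sum_congr rfl fun i hi => hv i (Finset.ne_of_mem_erase hi)
          rw [h6]
          omega
        have hf : (∏ i, ((κ i).factorial : ℂ)) =
            (κ j : ℂ) * ∏ i, (((κ - Finsupp.single j 1 : Fin d →₀ ℕ) i).factorial : ℂ) := by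
          rw [← Finset.mul_prod_erase _ (fun i => ((κ i).factorial : ℂ)) (Finset.mem_univ j),
            ← Finset.mul_prod_erase _
              (fun i => (((κ - Finsupp.single j 1 : Fin d →₀ ℕ) i).factorial : ℂ))
              (Finset.mem_univ j), hvj,
            Finset.prod_congr rfl fun i hi => by rw [← hv i (Finset.ne_of_mem_erase hi)],
            ← mul_assoc]
          congr 1
          rw [← Nat.cast_mul, Nat.mul_factorial_pred hj]
        have ha : a j * ∏ i, a i ^ (κ - Finsupp.single j 1 : Fin d →₀ ℕ) i = ∏ i, a i ^ κ i := by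
          rw [← Finset.mul_prod_erase _
              (fun i => a i ^ (κ - Finsupp.single j 1 : Fin d →₀ ℕ) i) (Finset.mem_univ j),
            ← Finset.mul_prod_erase _ (fun i => a i ^ κ i) (Finset.mem_univ j), hvj,
            Finset.prod_congr rfl fun i hi => by rw [hv i (Finset.ne_of_mem_erase hi)],
            ← mul_assoc, mul_pow_sub_one hj]
        rw [hs] at h3
        rw [hf, ← ha]
        linear_combination (κ j : ℂ) * a j * h3
    rw [Finset.sum_congr rfl fun j _ => h2 j, ← Finset.sum_mul, ← Nat.cast_sum, ← hn]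
    have h4 := ih κ
    have h5 := e3d_rec k n M
    linear_combination M * h4 + (∏ j, a j ^ κ j) * h5

/-- E3d. PROOF. `EP` along the line is `∑ H x ζ^|κ| a^κ exp(ζ (a·mu))` with `a · mu = ∑ a_j mu_j` (`ee (∑ fr(ω_l) tt_l) = exp(∑ mu_j v_j)`), and its `k`-th derivative at `0` is
`∑ H x a^κ (k!/(k-|κ|)!) (a·mu)^(k-|κ|)` (`0` if `k < |κ|`). The coefficient of `X^κ` in `(a·X + a·mu)^k` is `C(k,|κ|) (a·mu)^(k-|κ|) |κ|!/κ! a^κ`
(coefficient of `X^κ` in `(a·X)^|κ|`: multinomial), times `κ!` gives the same. (Induction on `k` with the derivation rule is an alternative: both sides satisfy the same recursion.) -/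
theorem EP_deriv (z : ℂ) {K W : ℕ} (H : Jx d K W → ℂ) (a : Fin d → ℕ) (k : ℕ) :
    iteratedDeriv k (fun ζ : ℂ => EP H (fun j => ζ * a j) (tt z (fun j => ζ * a j))) 0 =
      Ph z H ((∑ j, MvPolynomial.C (a j : ℂ) * MvPolynomial.X j) ^ k) := by
  have hlin : ∀ (x : Jx d K W) (ζ : ℂ), ∑ l, (fr (x.2 l) : ℂ) * tt z (fun j => ζ * a j) l =
      ζ * ((fr (x.2 0) : ℂ) * (-∑ j : Fin d, z ^ (j.val + 1) * a j) +
        ∑ j : Fin d, (fr (x.2 j.succ) : ℂ) * a j) := by
    intro x ζ
    rw [Fin.sum_univ_succ]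
    simp only [tt, Fin.cons_zero, Fin.cons_succ]
    have h1 : ∑ j : Fin d, z ^ (j.val + 1) * (ζ * (a j : ℂ)) =
        ζ * ∑ j : Fin d, z ^ (j.val + 1) * (a j : ℂ) := by
      rw [Finset.mul_sum]
      exact Finset.sum_congr rfl fun j _ => by ring
    have h2 : ∑ j : Fin d, (fr (x.2 j.succ) : ℂ) * (ζ * (a j : ℂ)) =
        ζ * ∑ j : Fin d, (fr (x.2 j.succ) : ℂ) * (a j : ℂ) := by
      rw [Finset.mul_sum]
      exact Finset.sum_congr rfl fun j _ => by ring
    rw [h1, h2]
    ring
  have hexp : ∀ (x : Jx d K W) (ζ : ℂ),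
      ee (∑ l, (fr (x.2 l) : ℂ) * tt z (fun j => ζ * a j) l) =
        cexp ((∑ j, (a j : ℂ) * mu z x.2 j) * ζ) := by
    intro x ζ
    unfold ee
    rw [hlin]
    congr 1
    have h1 : ∑ j, (a j : ℂ) * mu z x.2 j = 2 * Real.pi * I *
        ((fr (x.2 0) : ℂ) * (-∑ j : Fin d, z ^ (j.val + 1) * a j) +
        ∑ j : Fin d, (fr (x.2 j.succ) : ℂ) * a j) := by
      rw [mul_neg, Finset.mul_sum, ← Finset.sum_neg_distrib, ← Finset.sum_add_distrib,
        Finset.mul_sum]
      refine Finset.sum_congr rfl fun j _ => ?_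
      unfold mu
      ring
    rw [h1]
    ring
  have hterm : ∀ (x : Jx d K W) (ζ : ℂ),
      H x * (∏ j, (ζ * a j) ^ (x.1 j).val) *
        ee (∑ l, (fr (x.2 l) : ℂ) * tt z (fun j => ζ * a j) l) =
      (H x * ∏ j, (a j : ℂ) ^ (x.1 j).val) *
        (ζ ^ (∑ j, (x.1 j).val) * cexp ((∑ j, (a j : ℂ) * mu z x.2 j) * ζ)) := by
    intro x ζ
    rw [hexp]
    simp only [mul_pow]
    rw [Finset.prod_mul_distrib, Finset.prod_pow_eq_pow_sum]
    ring
  have hfun : (fun ζ : ℂ => EP H (fun j => ζ * a j) (tt z (fun j => ζ * a j))) =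
      fun ζ : ℂ => ∑ x, (H x * ∏ j, (a j : ℂ) ^ (x.1 j).val) *
        (ζ ^ (∑ j, (x.1 j).val) * cexp ((∑ j, (a j : ℂ) * mu z x.2 j) * ζ)) := by
    funext ζ
    unfold EP
    exact Finset.sum_congr rfl fun x _ => hterm x ζ
  rw [hfun, iteratedDeriv_fun_sum (fun x _ => by fun_prop)]
  unfold Ph
  refine Finset.sum_congr rfl fun x _ => ?_
  rw [iteratedDeriv_const_mul_field, e3d_fun]
  have h1 := e3d_coeff (fun j => (a j : ℂ)) (mu z x.2) k
    (Finsupp.equivFunOnFinite.symm (fun j => (x.1 j).val))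
  simp only [Finsupp.equivFunOnFinite_symm_apply_apply] at h1
  have h2 : MvPolynomial.aeval (fun j => MvPolynomial.X j + MvPolynomial.C (mu z x.2 j))
      ((∑ j, MvPolynomial.C (a j : ℂ) * MvPolynomial.X j : MvPolynomial (Fin d) ℂ) ^ k) =
      ((∑ j, MvPolynomial.C (a j : ℂ) * (MvPolynomial.X j + MvPolynomial.C (mu z x.2 j))) ^ k :
        MvPolynomial (Fin d) ℂ) := by
    rw [map_pow, map_sum]
    congr 1
    refine Finset.sum_congr rfl fun j _ => ?_
    rw [map_mul, MvPolynomial.aeval_C, MvPolynomial.aeval_X]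
    rfl
  rw [h2]
  linear_combination (-H x) * h1

end Pool.Agent.MSK
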