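import Pool.Agent.Lib.MP_f58a57_nt.K.Defs
import Pool.Agent.Lib.MP_f58a57_nt.K.E2d_Exp
import Pool.Agent.Lib.MP_f58a57_nt.K.E3_Dual
import Pool.Agent.Lib.MP_f58a57_nt.K.E3b_Herm
import Pool.Agent.Lib.MP_f58a57_nt.K.E3c_Span
import Pool.Agent.Lib.MP_f58a57_nt.K.E3d_Der

/-! # K/E4_Inj: the zero estimate for exponential polynomials, quantitative form -/

open Complex

noncomputable section

namespace Pool.Agent.MSK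

open MSD MSP

variable {d : ℕ}

/-- E4a. PROOF. `W = c₃ ℓ^d`, `X₀ = (2c₃+1) ℓ` (`(X₀+1)^d ≥ (2c₃+1) ℓ^d ≥ 2W + 1` as `d ≥ 1`), `T₀ = C W X₀` (`expsum`, `dual_basis`), `K = d ℓ^d`,
`T₀ (dK+1) + dK ≤ C₁ ℓ^(2d+1) - 1` for `C₁ = 2 C c₃ (2c₃+1)(d²+1) + d² + 1`. If all the derivatives vanish then `EP_deriv`, `span_lin` (with `Ph_linear`) and `hermite` give `H = 0`.
Here `C₁` depends only on `P` and `c₃`. -/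
theorem ep_zero (P : Par d) (hd : 1 ≤ d) (c₃ : ℕ) (hc : 1 ≤ c₃) : ∃ C₁ : ℕ, 1 ≤ C₁ ∧ ∀ ℓ : ℕ, 1 ≤ ℓ → ∀ H : Jx d (d * ℓ ^ d) (c₃ * ℓ ^ d) → ℂ,
    (∀ a : Fin d → ℕ, (∀ j, a j ≤ C₁ * ℓ ^ (2 * d + 1)) → ∀ k < C₁ * ℓ ^ (2 * d + 1),
      iteratedDeriv k (fun ζ : ℂ => EP H (fun j => ζ * a j) (tt P.z (fun j => ζ * a j))) 0 = 0) → H = 0 := by
  obtain ⟨C, hC, hexp⟩ := expsum P
  refine ⟨C * c₃ * (2 * c₃ + 1) * (d ^ 2 + 1) + d ^ 2 + 1, Nat.le_add_left _ _, ?_⟩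
  intro ℓ hℓ H h
  have hℓd : 1 ≤ ℓ ^ d := Nat.one_le_pow _ _ hℓ
  have hT : C * (c₃ * ℓ ^ d) * ((2 * c₃ + 1) * ℓ) * (d * (d * ℓ ^ d) + 1) + d * (d * ℓ ^ d)
      < (C * c₃ * (2 * c₃ + 1) * (d ^ 2 + 1) + d ^ 2 + 1) * ℓ ^ (2 * d + 1) := by
    have h1 : ℓ ^ (2 * d + 1) = ℓ ^ d * ℓ ^ d * ℓ := by ring
    have h2 : 1 ≤ ℓ ^ d * ℓ ^ d * ℓ := h1 ▸ Nat.one_le_pow _ _ hℓ
    have h3 : d * (d * ℓ ^ d) + 1 ≤ (d ^ 2 + 1) * ℓ ^ d := by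
      nlinarith
    have h4 : C * (c₃ * ℓ ^ d) * ((2 * c₃ + 1) * ℓ) * (d * (d * ℓ ^ d) + 1)
        ≤ C * (c₃ * ℓ ^ d) * ((2 * c₃ + 1) * ℓ) * ((d ^ 2 + 1) * ℓ ^ d) := Nat.mul_le_mul_left _ h3
    have h5 : d * (d * ℓ ^ d) ≤ d ^ 2 * (ℓ ^ d * ℓ ^ d * ℓ) := by
      have h6 : ℓ ^ d ≤ ℓ ^ d * ℓ ^ d * ℓ := by
        rw [mul_assoc]
        exact Nat.le_mul_of_pos_right _ (Nat.mul_pos hℓd hℓ)
      calc d * (d * ℓ ^ d) = d ^ 2 * ℓ ^ d := by ring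
        _ ≤ d ^ 2 * (ℓ ^ d * ℓ ^ d * ℓ) := Nat.mul_le_mul_left _ h6
    rw [h1]
    calc C * (c₃ * ℓ ^ d) * ((2 * c₃ + 1) * ℓ) * (d * (d * ℓ ^ d) + 1) + d * (d * ℓ ^ d)
        ≤ C * (c₃ * ℓ ^ d) * ((2 * c₃ + 1) * ℓ) * ((d ^ 2 + 1) * ℓ ^ d) + d ^ 2 * (ℓ ^ d * ℓ ^ d * ℓ) := add_le_add h4 h5
      _ < C * (c₃ * ℓ ^ d) * ((2 * c₃ + 1) * ℓ) * ((d ^ 2 + 1) * ℓ ^ d) + d ^ 2 * (ℓ ^ d * ℓ ^ d * ℓ) + (ℓ ^ d * ℓ ^ d * ℓ) :=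
          Nat.lt_add_of_pos_right h2
      _ = (C * c₃ * (2 * c₃ + 1) * (d ^ 2 + 1) + d ^ 2 + 1) * (ℓ ^ d * ℓ ^ d * ℓ) := by ring
  have hW : 2 * (c₃ * ℓ ^ d) + 1 ≤ ((2 * c₃ + 1) * ℓ + 1) ^ d := by
    calc 2 * (c₃ * ℓ ^ d) + 1 ≤ (2 * c₃ + 1) * ℓ ^ d := by nlinarith
      _ ≤ (2 * c₃ + 1) ^ d * ℓ ^ d := Nat.mul_le_mul_right _ (Nat.le_self_pow (by omega) _)
      _ = ((2 * c₃ + 1) * ℓ) ^ d := (mul_pow _ _ _).symm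
      _ ≤ ((2 * c₃ + 1) * ℓ + 1) ^ d := Nat.pow_le_pow_left (Nat.le_succ _) _
  refine hermite P.z (T₀ := C * (c₃ * ℓ ^ d) * ((2 * c₃ + 1) * ℓ)) ?_ H ?_
  · exact dual_basis P.z _ _ (hexp (c₃ * ℓ ^ d) ((2 * c₃ + 1) * ℓ) (Nat.mul_pos hc hℓd) (Nat.mul_pos (by omega) hℓ) hW)
  · intro Q hQ
    obtain ⟨Φ, hΦ⟩ := Ph_linear P.z H
    rw [← hΦ]
    refine span_lin Φ _ (fun a ha k hk => ?_) Q hQ
    rw [hΦ, ← EP_deriv]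
    exact h a (fun j => ((ha j).trans_lt hT).le) k (hk.trans_lt hT)

/-- E4b. PROOF. The map `H ↦ (iteratedDeriv ...)_{a,k}` is linear (by `EP_deriv`) between finite dimensional spaces and injective by E4a, so it is bounded below
(`LinearMap.injective_iff_antilipschitz` / `LinearMap.exists_antilipschitzWith`, sup norms). -/
theorem ep_inj (P : Par d) (hd : 1 ≤ d) (c₃ : ℕ) (hc : 1 ≤ c₃) : ∃ C₁ : ℕ, 1 ≤ C₁ ∧ ∀ ℓ : ℕ, 1 ≤ ℓ → ∃ c₀ : ℝ, 0 < c₀ ∧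
    ∀ (H : Jx d (d * ℓ ^ d) (c₃ * ℓ ^ d) → ℂ) (η : ℝ),
    (∀ a : Fin d → ℕ, (∀ j, a j ≤ C₁ * ℓ ^ (2 * d + 1)) → ∀ k < C₁ * ℓ ^ (2 * d + 1),
      ‖iteratedDeriv k (fun ζ : ℂ => EP H (fun j => ζ * a j) (tt P.z (fun j => ζ * a j))) 0‖ ≤ η) → ∀ x, c₀ * ‖H x‖ ≤ η := by
  obtain ⟨C₁, hC₁, hz⟩ := ep_zero P hd c₃ hc
  refine ⟨C₁, hC₁, fun ℓ hℓ => ?_⟩
  set N : ℕ := C₁ * ℓ ^ (2 * d + 1) with hN
  have hN1 : 0 < N := Nat.mul_pos hC₁ (Nat.one_le_pow _ _ hℓ)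
  let F : (Jx d (d * ℓ ^ d) (c₃ * ℓ ^ d) → ℂ) →ₗ[ℂ] ((Fin d → Fin (N + 1)) × Fin N → ℂ) :=
    { toFun := fun H p => Ph P.z H ((∑ j, MvPolynomial.C (((p.1 j).val : ℕ) : ℂ) * MvPolynomial.X j) ^ p.2.val)
      map_add' := by
        intro H H'
        funext p
        simp only [Ph, Pi.add_apply]
        rw [← Finset.sum_add_distrib]
        exact Finset.sum_congr rfl fun x _ => by ring
      map_smul' := by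
        intro r H
        funext p
        simp only [Ph, Pi.smul_apply, smul_eq_mul, RingHom.id_apply]
        rw [Finset.mul_sum]
        exact Finset.sum_congr rfl fun x _ => by ring }
  have hF : ∀ H p, F H p = iteratedDeriv p.2.val (fun ζ : ℂ => EP H (fun j => ζ * ((p.1 j).val : ℕ))
      (tt P.z (fun j => ζ * ((p.1 j).val : ℕ)))) 0 := fun H p => (EP_deriv P.z H (fun j => (p.1 j).val) p.2.val).symm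
  have hker : LinearMap.ker F = ⊥ := by
    rw [LinearMap.ker_eq_bot']
    intro H hH
    refine hz ℓ hℓ H fun a ha k hk => ?_
    have h1 := congrFun hH (fun j => ⟨a j, Nat.lt_succ_of_le (ha j)⟩, ⟨k, hk⟩)
    rw [hF] at h1
    exact h1
  obtain ⟨K, hK, hanti⟩ := F.exists_antilipschitzWith hker
  have hK' : (0 : ℝ) < K := by exact_mod_cast hK
  refine ⟨(K : ℝ)⁻¹, inv_pos.2 hK', fun H η hη x => ?_⟩
  have hη0 : 0 ≤ η := (norm_nonneg _).trans (hη (fun _ => 0) (fun _ => Nat.zero_le _) 0 hN1)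
  have h1 : ‖F H‖ ≤ η := by
    rw [pi_norm_le_iff_of_nonneg hη0]
    intro p
    rw [hF]
    exact hη (fun j => (p.1 j).val) (fun j => Nat.le_of_lt_succ (p.1 j).isLt) p.2.val p.2.isLt
  have h2 : ‖H‖ ≤ K * ‖F H‖ := by
    have := hanti.le_mul_dist H 0
    rwa [map_zero, dist_zero_right, dist_zero_right] at this
  have h3 : ‖H x‖ ≤ K * η := (norm_le_pi_norm H x).trans (h2.trans (mul_le_mul_of_nonneg_left h1 hK'.le))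
  rw [inv_mul_le_iff₀ hK']
  exact h3

end Pool.Agent.MSK
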