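import Pool.Agent.Lib.MP_f58a57_nt.K.Defs
import Pool.Agent.Lib.MP_f58a57_nt.K.D3c_App
import Pool.Agent.Lib.MP_f58a57_nt.K.D4_Low
import Pool.Agent.Lib.MP_f58a57_nt.K.E4_Inj
import Pool.Agent.Lib.MP_f58a57_nt.K.A4_Gmon
import Pool.Agent.Lib.MP_f58a57_nt.K.A1b_Iter

/-! # K/D5_PropZ: the zero estimate for the specialised curves -/

open Complex

noncomputable section

namespace Pool.Agent.MSK

open MSD MSP

variable {d : ℕ}

theorem d5_vanish (f h : ℂ → ℂ) (hf : AnalyticAt ℂ f 0) (hh : AnalyticAt ℂ h 0) (T : ℕ)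
    (h0 : ∀ k < T, iteratedDeriv k f 0 = 0) : ∀ k < T, iteratedDeriv k (fun ζ => f ζ * h ζ) 0 = 0 := by
  have h1 : (T : ℕ∞) ≤ analyticOrderAt f 0 := (natCast_le_analyticOrderAt_iff_iteratedDeriv_eq_zero hf).mpr h0
  have h2 : (T : ℕ∞) ≤ analyticOrderAt (fun ζ => f ζ * h ζ) 0 := by
    have e : analyticOrderAt (f * h) 0 = analyticOrderAt f 0 + analyticOrderAt h 0 := analyticOrderAt_mul hf hh
    change (T : ℕ∞) ≤ analyticOrderAt (f * h) 0
    rw [e]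
    exact h1.trans le_self_add
  exact (natCast_le_analyticOrderAt_iff_iteratedDeriv_eq_zero (hf.fun_mul hh)).mp h2

theorem d5_line_diff (a : Fin d → ℕ) : Differentiable ℂ (fun ζ : ℂ => (fun j : Fin d => ζ * (a j : ℂ))) := by
  rw [differentiable_pi]
  intro j
  fun_prop

theorem d5_tt_eq (z : ℂ) (a : Fin d → ℕ) (ζ : ℂ) (l : Fin (d + 1)) :
    tt z (fun j => ζ * (a j : ℂ)) l = ζ * tt z (fun j => (a j : ℂ)) l := tt_smul z ζ _ l

theorem d5_EP_diff (z : ℂ) {K W : ℕ} (H : Jx d K W → ℂ) (a : Fin d → ℕ) :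
    Differentiable ℂ (fun ζ : ℂ => EP H (fun j => ζ * a j) (tt z (fun j => ζ * a j))) := by
  unfold EP
  refine Differentiable.fun_sum fun x _ => ?_
  refine Differentiable.mul ?_ ?_
  · refine Differentiable.mul (by fun_prop) ?_
    refine Differentiable.fun_finsetProd fun j _ => ?_
    fun_prop
  · unfold ee
    simp only [d5_tt_eq]
    fun_prop

theorem d5_entire (P : Par d) (D : Dt d) {L : ℕ} (hL : 1 ≤ L) (c : Ix d L → ℂ) (a : Fin d → ℕ) :
    Differentiable ℂ (fun ζ : ℂ => FF P D c (fun j => ζ * a j) * pp D (tt P.z (fun j => ζ * a j)) ^ (2 * (d + 2) * L)) := by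
  have e : (fun ζ : ℂ => FF P D c (fun j => ζ * a j) * pp D (tt P.z (fun j => ζ * a j)) ^ (2 * (d + 2) * L)) =
      fun ζ : ℂ => (∑ ν, c ν * gmon P D ν (fun j => ζ * a j) (tt P.z (fun j => ζ * a j))) *
        pp D (tt P.z (fun j => ζ * a j)) ^ ((d + 2) * L) := by
    funext ζ
    have hM : 2 * (d + 2) * L = (d + 2) * L + (d + 2) * L := by ring
    have hpos : (d + 2) * L ≠ 0 := by positivity
    by_cases h : pp D (tt P.z (fun j => ζ * a j)) = 0
    · rw [h, hM, pow_add, zero_pow hpos]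
      simp
    · rw [hM, pow_add, ← mul_assoc]
      congr 1
      unfold FF Fh
      rw [Finset.sum_mul]
      refine Finset.sum_congr rfl fun ν _ => ?_
      rw [mul_assoc, gmon_eq P D ν _ _ h]
  rw [e]
  refine Differentiable.mul ?_ ?_
  · refine Differentiable.fun_sum fun ν _ => ?_
    refine Differentiable.mul (by fun_prop) ?_
    exact (gmon_differentiable P D ν).comp (d5_line_diff a)
  · exact ((pp_differentiable P D).comp (d5_line_diff a)).pow _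

/-- the radius -/
def d5_r (d : ℕ) (z : ℂ) (T : ℕ) : ℝ := 1 / (d * (1 + ‖z‖) ^ d * T)

theorem d5_r_pos (hd : 1 ≤ d) (z : ℂ) (T : ℕ) (hT : 1 ≤ T) : 0 < d5_r d z T := by
  unfold d5_r
  have h1 : (0 : ℝ) < d := by exact_mod_cast hd
  have h2 : (0 : ℝ) < T := by exact_mod_cast hT
  positivity

theorem d5_small (hd : 1 ≤ d) (z : ℂ) (T : ℕ) (hT : 1 ≤ T) (a : Fin d → ℕ) (ha : ∀ j, a j ≤ T) (ζ : ℂ) (hζ : ‖ζ‖ ≤ d5_r d z T) :
    ‖(fun j : Fin d => ζ * (a j : ℂ))‖ ≤ 1 ∧ ∀ l, |(tt z (fun j => ζ * (a j : ℂ)) l).im| ≤ 1 := by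
  have h1 : (1 : ℝ) ≤ d := by exact_mod_cast hd
  have h2 : (1 : ℝ) ≤ T := by exact_mod_cast hT
  have hz : (1 : ℝ) ≤ (1 + ‖z‖) ^ d := one_le_pow₀ (by linarith [norm_nonneg z])
  have hr : d5_r d z T * (d * (1 + ‖z‖) ^ d * T) = 1 := by
    unfold d5_r
    field_simp
  have hr0 := (d5_r_pos hd z T hT).le
  have hj : ∀ j, ‖ζ * (a j : ℂ)‖ ≤ d5_r d z T * T := by
    intro j
    rw [norm_mul]
    have h3 : ‖(a j : ℂ)‖ ≤ T := by
      rw [Complex.norm_natCast]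
      exact_mod_cast ha j
    exact mul_le_mul hζ h3 (norm_nonneg _) hr0
  have hrT : d5_r d z T * T ≤ 1 := by
    rw [← hr]
    refine mul_le_mul_of_nonneg_left ?_ hr0
    have : (1 : ℝ) ≤ d * (1 + ‖z‖) ^ d := one_le_mul_of_one_le_of_one_le h1 hz
    nlinarith
  constructor
  · rw [pi_norm_le_iff_of_nonneg zero_le_one]
    intro j
    exact (hj j).trans hrT
  · intro l
    refine (Complex.abs_im_le_norm _).trans ?_
    refine Fin.cases ?_ (fun j => ?_) l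
    · unfold tt
      rw [Fin.cons_zero, norm_neg]
      refine (norm_sum_le _ _).trans ?_
      have h4 : ∀ j ∈ (Finset.univ : Finset (Fin d)), ‖z ^ (j.val + 1) * (ζ * (a j : ℂ))‖ ≤ (1 + ‖z‖) ^ d * (d5_r d z T * T) := by
        intro j _
        rw [norm_mul, norm_pow]
        refine mul_le_mul ?_ (hj j) (norm_nonneg _) (by positivity)
        calc ‖z‖ ^ (j.val + 1) ≤ (1 + ‖z‖) ^ (j.val + 1) := pow_le_pow_left₀ (norm_nonneg _) (by linarith) _
          _ ≤ (1 + ‖z‖) ^ d := pow_le_pow_right₀ (by linarith [norm_nonneg z]) (by omega)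
      refine (Finset.sum_le_sum h4).trans ?_
      rw [Finset.sum_const, Finset.card_univ, Fintype.card_fin, nsmul_eq_mul]
      have e9 : (d : ℝ) * ((1 + ‖z‖) ^ d * (d5_r d z T * T)) = d5_r d z T * (d * (1 + ‖z‖) ^ d * T) := by ring
      rw [e9, hr]
    · unfold tt
      rw [Fin.cons_succ]
      exact (hj j).trans hrT

theorem d5_EP_bound {K W : ℕ} (H : Jx d K W → ℂ) (m : ℝ) (hH : ∀ x, ‖H x‖ ≤ m) (w : Fin d → ℂ) (t : Fin (d + 1) → ℂ)
    (ht : ∀ l, (t l).im = 0) : ‖EP H w t‖ ≤ Fintype.card (Jx d K W) * (m * (1 + ‖w‖) ^ (d * K)) := by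
  unfold EP
  refine (norm_sum_le _ _).trans ?_
  have h1 : ∀ x ∈ (Finset.univ : Finset (Jx d K W)),
      ‖H x * (∏ j, w j ^ (x.1 j).val) * ee (∑ l, (fr (x.2 l) : ℂ) * t l)‖ ≤ m * (1 + ‖w‖) ^ (d * K) := by
    intro x _
    have e1 : ‖ee (∑ l, (fr (x.2 l) : ℂ) * t l)‖ = 1 := by
      rw [t2_norm_ee]
      have : (∑ l, (fr (x.2 l) : ℂ) * t l).im = 0 := by
        rw [Complex.im_sum]
        refine Finset.sum_eq_zero fun l _ => ?_
        simp [ht l]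
      rw [this]
      simp
    rw [norm_mul, norm_mul, e1, mul_one]
    refine mul_le_mul (hH x) ?_ (norm_nonneg _) ((norm_nonneg _).trans (hH x))
    rw [norm_prod]
    calc ∏ j, ‖w j ^ (x.1 j).val‖ ≤ ∏ _j : Fin d, (1 + ‖w‖) ^ K := by
          refine Finset.prod_le_prod (fun j _ => norm_nonneg _) fun j _ => ?_
          rw [norm_pow]
          calc ‖w j‖ ^ (x.1 j).val ≤ (1 + ‖w‖) ^ (x.1 j).val :=
                pow_le_pow_left₀ (norm_nonneg _) (by linarith [norm_le_pi_norm w j]) _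
            _ ≤ (1 + ‖w‖) ^ K := pow_le_pow_right₀ (by linarith [norm_nonneg w]) (by have := (x.1 j).isLt; omega)
      _ = (1 + ‖w‖) ^ (d * K) := by
          rw [Finset.prod_const, Finset.card_univ, Fintype.card_fin, ← pow_mul, mul_comm K d]
  refine (Finset.sum_le_sum h1).trans ?_
  rw [Finset.sum_const, Finset.card_univ, nsmul_eq_mul]

theorem d5_FF_smul (P : Par d) (D : Dt d) {L : ℕ} (c : Ix d L → ℂ) (m : ℂ) (v : Fin d → ℂ) :
    FF P D (fun ν => m * c ν) v = m * FF P D c v := by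
  unfold FF Fh
  rw [Finset.mul_sum]
  exact Finset.sum_congr rfl fun ν _ => by ring

/-- D5. PROOF. `C₆` from `lower`, `c₄ = C₆ (1 + d²) + 4`, `c₃` from `approx`, `C₁` from `ep_inj P hd c₃`. Let `L = ℓ^d`, `T = C₁ ℓ^(2d+1)` and suppose that all the derivatives are `0`; scale `max ‖c ν‖ = 1`. `H` from `approx`. Let
`G(v) = FF v · pp(tt z v)^(M')` with `M' = 2(d+2)L`, `E(v) = G(v) - EP H v (tt z v)`. For a line `ζ ↦ ζ a`, `a_j ≤ T`: `FF(ζa)` is analytic at `0` with vanishing derivatives of order `< T`, so the same holds for `G(ζa)` (`FF_line_analytic`, product with an analytic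
function). For `‖ζ‖ ≤ r` (`r` depends on `T, z` only) all `|Im tt_l| ≤ 1`, `‖E‖ ≤ e^{-c₄Ly} 2^(d·dL)`; `ζ ↦ G(ζa)` is analytic near `0`: choose the radius `r = r(P, T, y, D)`... (*) the derivatives of `E(ζa)` at `0` of order `k < T` are those of `-EP`; Cauchy's estimate needs a radius which
does not depend on `y`: `G(ζa) = ∑ c ν gmon ν · pp^(dL + 2L...)` is entire (write `mon ν · pp^(M')` as an entire function, as in D3e: `gmon ν · pp ^ ((d+2) L)`, see `gmon_eq` in C6), so `E(ζa)` is entire and on `‖ζ‖ ≤ r = 1/(d (1+‖z‖)^d T)` bounded by `e^{-c₄Ly} 2^(d·dL)`, hence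
`‖(EP)^(k)(0)‖ ≤ k! r^(-k) e^{-c₄Ly} 2^(d·dL) ≤ C_ℓ e^{-c₄Ly}`. By `ep_inj` `‖H x‖ ≤ (C_ℓ/c₀) e^{-c₄Ly}`. For `t` real, `‖w‖ ≤ e^{C₆y}`: `‖EP H w t‖ ≤ #Jx · max ‖H‖ (1+‖w‖)^(d·dL)`, so `‖Fh w t pp^M'‖ ≤ e^{-(c₄-1)Ly} (1+e^{C₆y})^(d·dL) ≤ e^{-(c₄ - 2 - C₆d²)Ly}` for `y ≥ Y(ℓ)`,
and `lower` gives `1 = max ‖c ν‖ ≤ e^{C₆Ly} e^{-(c₄-2-C₆d²)Ly} < 1`. -/
theorem propZ (P : Par d) (hd : 1 ≤ d) (C₀ : ℝ) (hC : 0 ≤ C₀) : ∃ C₁ : ℕ, 1 ≤ C₁ ∧ ∀ ℓ : ℕ, 1 ≤ ℓ → ∃ Y : ℝ, 1 ≤ Y ∧ ∀ y : ℝ, Y ≤ y → ∀ D : Dt d, Adm C₀ y P D →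
    ∀ c : Ix d (ℓ ^ d) → ℂ, c ≠ 0 → ∃ a : Fin d → ℕ, (∀ j, a j ≤ C₁ * ℓ ^ (2 * d + 1)) ∧ ∃ k < C₁ * ℓ ^ (2 * d + 1),
      iteratedDeriv k (fun ζ : ℂ => FF P D c (fun j => ζ * a j)) 0 ≠ 0 := by
  set c₆ := C₀ with hc₆
  obtain ⟨C₆, hC6, hlow⟩ := lower P C₀ hC
  obtain ⟨c₃, hc3, happ⟩ := approx P hd C₀ (C₆ * (1 + d ^ 2) + 4)
  obtain ⟨C₁, hC1, hinj⟩ := ep_inj P hd c₃ hc3
  refine ⟨C₁, hC1, ?_⟩
  intro ℓ hℓ
  have hL : 1 ≤ ℓ ^ d := Nat.one_le_pow _ _ hℓ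
  obtain ⟨Y1, hY1, happ⟩ := happ (ℓ ^ d) hL
  obtain ⟨Y2, hY2, hlow⟩ := hlow (ℓ ^ d) hL
  obtain ⟨c₀, hc0, hinj⟩ := hinj ℓ hℓ
  set L : ℕ := ℓ ^ d with hLdef
  set T : ℕ := C₁ * ℓ ^ (2 * d + 1) with hTdef
  have hT1 : 1 ≤ T := by
    have : 1 ≤ ℓ ^ (2 * d + 1) := Nat.one_le_pow _ _ hℓ
    exact Nat.mul_pos hC1 this
  set r : ℝ := d5_r d P.z T with hr
  have hr0 : 0 < r := d5_r_pos hd P.z T hT1
  set n0 : ℕ := d * (d * L) with hn0
  set N : ℝ := (Fintype.card (Jx d (d * L) (c₃ * L)) : ℝ) with hN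
  have hN0 : 0 ≤ N := by positivity
  -- constant for Cauchy's estimates
  set Cl : ℝ := T.factorial * (1 + 1 / r) ^ T * 2 ^ n0 with hCl
  have hCl0 : 0 < Cl := by positivity
  set A : ℝ := N * (Cl / c₀) + 1 with hA
  have hA1 : 1 ≤ A := by
    have : 0 ≤ N * (Cl / c₀) := by positivity
    linarith
  have hLr : (1 : ℝ) ≤ L := by exact_mod_cast hL
  refine ⟨max (max Y1 Y2) (1 + (d ^ 2 * L + Real.log A)), ?_, ?_⟩
  · exact hY1.trans ((le_max_left _ _).trans (le_max_left _ _))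
  intro y hy D hD c hc
  have hyY1 : Y1 ≤ y := (le_max_left _ _).trans ((le_max_left _ _).trans hy)
  have hyY2 : Y2 ≤ y := (le_max_right _ _).trans ((le_max_left _ _).trans hy)
  have hyA : 1 + ((d : ℝ) ^ 2 * L + Real.log A) ≤ y := (le_max_right _ _).trans hy
  have hlogA : 0 ≤ Real.log A := Real.log_nonneg hA1
  have hy1 : 1 ≤ y := by
    have : (0 : ℝ) ≤ (d : ℝ) ^ 2 * L := by positivity
    linarith
  by_contra hcon
  push Not at hcon
  -- the maximal coefficient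
  obtain ⟨ν₀, -, hν₀⟩ := Finset.exists_max_image (Finset.univ : Finset (Ix d L)) (fun ν => ‖c ν‖) (by
    obtain ⟨ν, -⟩ := Function.ne_iff.mp hc
    exact ⟨ν, Finset.mem_univ _⟩)
  have hm0 : 0 < ‖c ν₀‖ := by
    obtain ⟨ν, hν⟩ := Function.ne_iff.mp hc
    exact lt_of_lt_of_le (norm_pos_iff.mpr hν) (hν₀ ν (Finset.mem_univ _))
  set c' : Ix d L → ℂ := fun ν => ((‖c ν₀‖⁻¹ : ℝ) : ℂ) * c ν with hc'
  have hc'le : ∀ ν, ‖c' ν‖ ≤ 1 := by
    intro ν
    rw [hc']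
    simp only [norm_mul, Complex.norm_real, norm_inv, norm_norm]
    rw [inv_mul_le_iff₀ hm0, mul_one]
    exact hν₀ ν (Finset.mem_univ _)
  have hc'1 : ‖c' ν₀‖ = 1 := by
    rw [hc']
    simp only [norm_mul, Complex.norm_real, norm_inv, norm_norm]
    exact inv_mul_cancel₀ hm0.ne'
  obtain ⟨H, hH⟩ := happ y hyY1 D hD c' hc'le
  set X : ℝ := Real.exp (-((C₆ * (1 + d ^ 2) + 4) * L * y)) with hX
  have hX0 : 0 < X := Real.exp_pos _
  -- small derivatives of the exponential polynomial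
  have hder : ∀ a : Fin d → ℕ, (∀ j, a j ≤ T) → ∀ k < T,
      ‖iteratedDeriv k (fun ζ : ℂ => EP H (fun j => ζ * a j) (tt P.z (fun j => ζ * a j))) 0‖ ≤ Cl * X := by
    intro a ha k hk
    set g : ℂ → ℂ := fun ζ => FF P D c' (fun j => ζ * a j) * pp D (tt P.z (fun j => ζ * a j)) ^ (2 * (d + 2) * L) with hg
    have hgd : Differentiable ℂ g := d5_entire P D hL c' a
    set p : ℂ → ℂ := fun ζ => EP H (fun j => ζ * a j) (tt P.z (fun j => ζ * a j)) with hp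
    have hpd : Differentiable ℂ p := d5_EP_diff P.z H a
    have hg0 : iteratedDeriv k g 0 = 0 := by
      have hf : AnalyticAt ℂ (fun ζ : ℂ => FF P D c' (fun j => ζ * a j)) 0 := by
        have := FF_line_analytic P D c' (fun j => (a j : ℤ))
        simpa using this
      have hh : AnalyticAt ℂ (fun ζ : ℂ => pp D (tt P.z (fun j => ζ * a j)) ^ (2 * (d + 2) * L)) 0 :=
        (((pp_differentiable P D).comp (d5_line_diff a)).pow _).analyticAt 0
      refine d5_vanish _ _ hf hh T ?_ k hk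
      intro k' hk'
      have e : (fun ζ : ℂ => FF P D c' (fun j => ζ * a j)) = fun ζ => ((‖c ν₀‖⁻¹ : ℝ) : ℂ) * FF P D c (fun j => ζ * a j) := by
        funext ζ
        exact d5_FF_smul P D c _ _
      have hfc : AnalyticAt ℂ (fun ζ : ℂ => FF P D c (fun j => ζ * a j)) 0 := by
        have := FF_line_analytic P D c (fun j => (a j : ℤ))
        simpa using this
      rw [e, iteratedDeriv_const_mul_field, hcon a ha k' hk', mul_zero]
    have hE : ‖iteratedDeriv k (fun ζ => g ζ - p ζ) 0‖ ≤ k.factorial * (X * 2 ^ n0) / r ^ k := by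
      refine norm_iteratedDeriv_le_of_forall_mem_sphere_norm_le k hr0 ((hgd.sub hpd).diffContOnCl) ?_
      intro ζ hζ
      have hζ' : ‖ζ‖ ≤ r := by
        have := mem_sphere_zero_iff_norm.mp hζ
        exact this.le
      obtain ⟨hw, ht⟩ := d5_small hd P.z T hT1 a ha ζ hζ'
      have h1 := hH (fun j => ζ * a j) (tt P.z (fun j => ζ * a j)) ht
      refine h1.trans ?_
      refine mul_le_mul_of_nonneg_left ?_ hX0.le
      exact pow_le_pow_left₀ (by positivity) (by linarith) _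
    have hsub : iteratedDeriv k (fun ζ => g ζ - p ζ) 0 = iteratedDeriv k g 0 - iteratedDeriv k p 0 := by
      exact iteratedDeriv_fun_sub (hgd.contDiff.contDiffAt) (hpd.contDiff.contDiffAt)
    rw [hsub, hg0, zero_sub, norm_neg] at hE
    refine hE.trans ?_
    have h5 : (k.factorial : ℝ) ≤ T.factorial := by exact_mod_cast Nat.factorial_le hk.le
    have h6 : 1 / r ^ k ≤ (1 + 1 / r) ^ T := by
      have : (1 : ℝ) / r ^ k = (1 / r) ^ k := by rw [div_pow, one_pow]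
      rw [this]
      have hr1 : 0 < 1 / r := by positivity
      calc (1 / r) ^ k ≤ (1 + 1 / r) ^ k := pow_le_pow_left₀ hr1.le (by linarith) _
        _ ≤ (1 + 1 / r) ^ T := pow_le_pow_right₀ (by linarith) hk.le
    calc k.factorial * (X * 2 ^ n0) / r ^ k = k.factorial * (1 / r ^ k) * (X * 2 ^ n0) := by ring
      _ ≤ T.factorial * (1 + 1 / r) ^ T * (X * 2 ^ n0) := by
          refine mul_le_mul_of_nonneg_right ?_ (by positivity)
          exact mul_le_mul h5 h6 (by positivity) (by positivity)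
      _ = Cl * X := by rw [hCl]; ring
  have hHx : ∀ x, ‖H x‖ ≤ Cl * X / c₀ := by
    intro x
    have := hinj H (Cl * X) hder x
    rw [le_div_iff₀ hc0, mul_comm]
    exact this
  -- the values of the auxiliary function
  have hval : ∀ (w : Fin d → ℂ) (t : Fin (d + 1) → ℂ), (∀ l, (t l).im = 0) → ‖w‖ ≤ Real.exp (C₆ * y) →
      ‖Fh P D c' w t * pp D t ^ (2 * (d + 2) * L)‖ ≤ X * Real.exp ((C₆ * y + 1) * n0) * A := by
    intro w t ht hw
    have h1 := hH w t (fun l => by rw [ht l]; simp)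
    have h2 := d5_EP_bound H (Cl * X / c₀) hHx w t ht
    have h3 : (1 + ‖w‖) ^ n0 ≤ Real.exp ((C₆ * y + 1) * n0) := by
      have h4 : 1 + ‖w‖ ≤ Real.exp (C₆ * y + 1) := by
        have h5 : (1 : ℝ) ≤ Real.exp (C₆ * y) := Real.one_le_exp (by positivity)
        have h6 : (2 : ℝ) ≤ Real.exp 1 := by
          have := Real.add_one_le_exp (1 : ℝ)
          linarith
        rw [Real.exp_add]
        nlinarith
      calc (1 + ‖w‖) ^ n0 ≤ Real.exp (C₆ * y + 1) ^ n0 := pow_le_pow_left₀ (by positivity) h4 _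
        _ = Real.exp ((C₆ * y + 1) * n0) := by rw [← Real.exp_nat_mul]; ring_nf
    have h7 : ‖Fh P D c' w t * pp D t ^ (2 * (d + 2) * L)‖ ≤ ‖EP H w t‖ + X * (1 + ‖w‖) ^ n0 := by
      have h8 := norm_add_le (EP H w t) (Fh P D c' w t * pp D t ^ (2 * (d + 2) * L) - EP H w t)
      rw [add_sub_cancel] at h8
      exact h8.trans (by gcongr)
    refine h7.trans ?_
    have h9 : ‖EP H w t‖ ≤ N * (Cl / c₀) * X * (1 + ‖w‖) ^ n0 := by
      refine h2.trans (le_of_eq ?_)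
      rw [hN, hn0]
      ring
    calc ‖EP H w t‖ + X * (1 + ‖w‖) ^ n0 ≤ N * (Cl / c₀) * X * (1 + ‖w‖) ^ n0 + X * (1 + ‖w‖) ^ n0 := by linarith
      _ = X * (1 + ‖w‖) ^ n0 * A := by rw [hA]; ring
      _ ≤ X * Real.exp ((C₆ * y + 1) * n0) * A := by gcongr
  have hfin := hlow y hyY2 D hD c' _ hval ν₀
  rw [hc'1] at hfin
  have hexp : Real.exp (C₆ * L * y) * (X * Real.exp ((C₆ * y + 1) * n0) * A) =
      Real.exp (C₆ * L * y - (C₆ * (1 + d ^ 2) + 4) * L * y + (C₆ * y + 1) * n0 + Real.log A) := by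
    rw [hX, Real.exp_add, Real.exp_add, Real.exp_log (by linarith), sub_eq_add_neg, Real.exp_add]
    ring
  rw [hexp] at hfin
  have hneg : C₆ * L * y - (C₆ * (1 + d ^ 2) + 4) * L * y + (C₆ * y + 1) * n0 + Real.log A < 0 := by
    have e0 : (n0 : ℝ) = d ^ 2 * L := by rw [hn0]; push_cast; ring
    rw [e0]
    have e1 : C₆ * L * y - (C₆ * (1 + d ^ 2) + 4) * L * y + (C₆ * y + 1) * ((d : ℝ) ^ 2 * L) + Real.log A =
        -(4 * (L * y)) + (d ^ 2 * L + Real.log A) := by ring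
    rw [e1]
    have : y ≤ L * y := by nlinarith
    linarith
  have := (Real.exp_lt_exp.mpr hneg).trans_eq Real.exp_zero
  linarith

end Pool.Agent.MSK
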