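import Pool.Agent.Lib.MP_f58a57_nt.P.T8c_ODE
import Pool.Agent.Lib.MP_f58a57_nt.P.T5_Growth

/-!
# MP_f58a57_nt, algebraic points of degree 3 and 4: definitions

`z = rt 0` is an algebraic number of degree `d + 1` in the upper half plane, `z ^ (d + 1) = ∑ b_l z ^ l`. The space
`V = {t ∈ ℂ^(d+1) : ∑ z ^ l t_l = 0}` has the coordinates `v = (t_1, ..., t_d)`, the map `v ↦ t` is `tt z`.
-/

open Complex MvPolynomial IntermediateField

noncomputable section

namespace Pool.Agent.MSK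

open MSD MSP

/-- an algebraic number `rt 0` of degree `d + 1` in the upper half plane, with its conjugates `rt i` and its equation -/
structure Par (d : ℕ) where
  rt : Fin (d + 1) → ℂ
  b : Fin (d + 1) → ℚ
  inj : Function.Injective rt
  rel : ∀ i, rt i ^ (d + 1) = ∑ l : Fin (d + 1), (b l : ℂ) * rt i ^ l.val
  im : 0 < (rt 0).im
  li : ∀ x : Fin (d + 1) → ℚ, ∑ l : Fin (d + 1), (x l : ℂ) * rt 0 ^ l.val = 0 → x = 0

/-- the algebraic number -/
def Par.z {d : ℕ} (P : Par d) : ℂ := P.rt 0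

/-- the point of `V` with coordinates `v` -/
def tt {d : ℕ} (z : ℂ) (v : Fin d → ℂ) : Fin (d + 1) → ℂ :=
  Fin.cons (-∑ j : Fin d, z ^ (j.val + 1) * v j) v

/-- `1/(2i)` -/
def rh : ℂ := -I / 2

/-- a curve with period ratio `τ`, a scaling `om`, a constant `kap` and `d + 1` base points `h l` -/
structure Dt (d : ℕ) where
  τ : ℂ
  im : 0 < τ.im
  om : ℂ
  ne : om ≠ 0
  kap : ℂ
  h : Fin (d + 1) → ℂ
  hh : ∀ l, th τ (h l) ≠ 0

variable {d : ℕ}

namespace Dt

/-- the Weierstrass function of the lattice `om (ℤ + ℤτ)` at the point `om (h l + t)` -/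
def X (D : Dt d) (l : Fin (d + 1)) (t : ℂ) : ℂ := wp D.τ (sE D.τ) (D.h l + t) / D.om ^ 2

/-- its derivative -/
def Y (D : Dt d) (l : Fin (d + 1)) (t : ℂ) : ℂ := deriv (wp D.τ (sE D.τ)) (D.h l + t) / D.om ^ 3

/-- the logarithmic derivative of the theta function, normalised to vanish at `t = 0` -/
def ps (D : Dt d) (l : Fin (d + 1)) (t : ℂ) : ℂ := ph D.τ (D.h l + t) - ph D.τ (D.h l)

/-- the parameter of the linear part of the additive functions -/
def s (D : Dt d) : ℂ := rh * (D.kap - sE D.τ / D.om ^ 2)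

end Dt

/-- the linear part of the additive functions: `t_j + s (t_{j-1} + b_j t_d - z t_j)`, `t = tt z w`, `j = 1, ..., d` -/
def As (P : Par d) (s : ℂ) (w : Fin d → ℂ) (j : Fin d) : ℂ :=
  tt P.z w j.succ + s * (tt P.z w j.castSucc + P.b j.succ * tt P.z w (Fin.last d) - P.z * tt P.z w j.succ)

/-- the additive functions, as functions of two independent sets of variables `w` (linear part) and `t` -/
def Xi (P : Par d) (D : Dt d) (w : Fin d → ℂ) (t : Fin (d + 1) → ℂ) (j : Fin d) : ℂ :=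
  D.om * As P D.s w j - rh / D.om * (D.ps j.castSucc (t j.castSucc) + P.b j.succ * D.ps (Fin.last d) (t (Fin.last d))
    - P.z * D.ps j.succ (t j.succ))

/-- index set of the monomials -/
abbrev Ix (d L : ℕ) : Type := (Fin (d + 1) → Fin L) × (Fin d → Fin L)

/-- the monomial functions -/
def mon (P : Par d) (D : Dt d) {L : ℕ} (ν : Ix d L) (w : Fin d → ℂ) (t : Fin (d + 1) → ℂ) : ℂ :=
  (∏ l, D.X l (t l) ^ (ν.1 l).val) * ∏ j, Xi P D w t j ^ (ν.2 j).val

/-- the auxiliary function in the independent variables `w, t` -/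
def Fh (P : Par d) (D : Dt d) {L : ℕ} (c : Ix d L → ℂ) (w : Fin d → ℂ) (t : Fin (d + 1) → ℂ) : ℂ :=
  ∑ ν, c ν * mon P D ν w t

/-- the auxiliary function on `V` -/
def FF (P : Par d) (D : Dt d) {L : ℕ} (c : Ix d L → ℂ) (v : Fin d → ℂ) : ℂ := Fh P D c v (tt P.z v)

/-- the product of the theta functions -/
def pp (D : Dt d) (t : Fin (d + 1) → ℂ) : ℂ := ∏ l, N0 D.τ (D.h l + t l)

/-- `ps l` times `pp` -/
def En (D : Dt d) (t : Fin (d + 1) → ℂ) (l : Fin (d + 1)) : ℂ :=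
  (N1 D.τ (D.h l + t l) - ph D.τ (D.h l) * N0 D.τ (D.h l + t l)) * ∏ m ∈ Finset.univ.erase l, N0 D.τ (D.h m + t m)

/-- `Xi j` times `pp` -/
def Zn (P : Par d) (D : Dt d) (w : Fin d → ℂ) (t : Fin (d + 1) → ℂ) (j : Fin d) : ℂ :=
  D.om * As P D.s w j * pp D t - rh / D.om * (En D t j.castSucc + P.b j.succ * En D t (Fin.last d) - P.z * En D t j.succ)

/-- the monomial `mon ν` times `pp ^ ((d + 2) L)`, an entire function -/
def gmon (P : Par d) (D : Dt d) {L : ℕ} (ν : Ix d L) (w : Fin d → ℂ) (t : Fin (d + 1) → ℂ) : ℂ :=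
  (∏ l, ((N2 D.τ (sE D.τ) (D.h l + t l) / D.om ^ 2) ^ (ν.1 l).val * N0 D.τ (D.h l + t l) ^ (2 * (L - (ν.1 l).val)))) *
    ∏ j, (Zn P D w t j ^ (ν.2 j).val * pp D t ^ (L - (ν.2 j).val))

/-! ### The differential ring -/

/-- variables of the differential ring -/
inductive Vr (d : ℕ) : Type
  | X (l : Fin (d + 1)) : Vr d
  | Y (l : Fin (d + 1)) : Vr d
  | Q (j : Fin d) : Vr d
  | b (l : Fin (d + 1)) : Vr d
  | g : Vr d
  | k : Vr d
  | z : Vr d
  | r : Vr d
  deriving DecidableEq, Fintype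

/-- the coordinates of `tt z a` as polynomials -/
def ca (a : Fin d → ℤ) : Fin (d + 1) → MvPolynomial (Vr d) ℤ :=
  Fin.cons (-∑ j : Fin d, MvPolynomial.X Vr.z ^ (j.val + 1) * MvPolynomial.C (a j)) (fun j => MvPolynomial.C (a j))

/-- the derivatives of the variables in the direction `a`, divided by `om` -/
def dv (a : Fin d → ℤ) : Vr d → MvPolynomial (Vr d) ℤ
  | .X l => ca a l * MvPolynomial.X (Vr.Y l)
  | .Y l => ca a l * (6 * MvPolynomial.X (Vr.X l) ^ 2 - MvPolynomial.X Vr.g)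
  | .Q j => MvPolynomial.C (a j) - MvPolynomial.X Vr.r *
      (-(ca a j.castSucc * (MvPolynomial.X (Vr.X j.castSucc) + MvPolynomial.X Vr.k))
        - MvPolynomial.X (Vr.b j.succ) * (ca a (Fin.last d) * (MvPolynomial.X (Vr.X (Fin.last d)) + MvPolynomial.X Vr.k))
        + MvPolynomial.X Vr.z * (ca a j.succ * (MvPolynomial.X (Vr.X j.succ) + MvPolynomial.X Vr.k)))
  | .b _ => 0
  | .g => 0
  | .k => 0
  | .z => 0
  | .r => 0

/-- the derivation in the direction `a` -/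
def der (a : Fin d → ℤ) : Derivation ℤ (MvPolynomial (Vr d) ℤ) (MvPolynomial (Vr d) ℤ) := MvPolynomial.mkDerivation ℤ (dv a)

/-- the monomials in the differential ring -/
def Mon {L : ℕ} (ν : Ix d L) : MvPolynomial (Vr d) ℤ :=
  (∏ l, MvPolynomial.X (Vr.X l) ^ (ν.1 l).val) * ∏ j, MvPolynomial.X (Vr.Q j) ^ (ν.2 j).val

/-- the values of the variables at the point `ζ a` -/
def ev (P : Par d) (D : Dt d) (a : Fin d → ℤ) (ζ : ℂ) : Vr d → ℂ
  | .X l => D.X l (ζ * tt P.z (fun j => (a j : ℂ)) l)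
  | .Y l => D.Y l (ζ * tt P.z (fun j => (a j : ℂ)) l)
  | .Q j => Xi P D (fun i => ζ * a i) (fun l => ζ * tt P.z (fun i => (a i : ℂ)) l) j
  | .b l => P.b l
  | .g => 2 / 3 * Real.pi ^ 4 * e4 D.τ / D.om ^ 4
  | .k => D.kap
  | .z => P.z
  | .r => rh

/-- the values of the variables at the base point -/
def vals (P : Par d) (D : Dt d) : Vr d → ℂ
  | .X l => D.X l 0
  | .Y l => D.Y l 0
  | .Q _ => 0
  | .b l => P.b l
  | .g => 2 / 3 * Real.pi ^ 4 * e4 D.τ / D.om ^ 4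
  | .k => D.kap
  | .z => P.z
  | .r => rh

/-! ### The original curve -/

/-- the base points: halves of lattice vectors -/
def hP (z : ℂ) (l : Fin (d + 1)) : ℂ := if l = 0 then -z / 2 else if l = Fin.last d then 1 / 2 else (1 - z) / 2

/-- the coordinates of the base point in `V` -/
def p0 (z : ℂ) (j : Fin d) : ℂ := hP z j.succ

/-- `D` is the curve with period ratio `z`, scaled by a square root of `π` -/
structure IsOrig (P : Par d) (D : Dt d) : Prop where
  τ : D.τ = P.z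
  om : D.om ^ 2 = Real.pi
  kap : D.kap = sE P.z / Real.pi
  h : D.h = hP P.z

/-! ### Specialised curves -/

/-- admissible data for the specialisation `τ = iy` -/
structure Adm (C₀ y : ℝ) (P : Par d) (D : Dt d) : Prop where
  τ : D.τ = I * y
  h : ∀ l, D.h l = 1 / 2 ∨ D.h l = D.τ / 2 ∨ D.h l = (1 + D.τ) / 2
  om₁ : ‖D.om‖ ≤ Real.exp (C₀ * y)
  om₂ : Real.exp (-(C₀ * y)) ≤ ‖D.om‖
  kap : ‖D.kap‖ ≤ Real.exp (C₀ * y)
  det : ∀ i, i ≠ 0 → Real.exp (-(C₀ * y)) ≤ ‖1 + D.s * (P.rt i - P.z)‖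

/-! ### Exponential polynomials -/

/-- index set of the exponential polynomials: exponents `≤ K` and frequencies `|ω_l| ≤ W` -/
abbrev Jx (d K W : ℕ) : Type := (Fin d → Fin (K + 1)) × (Fin (d + 1) → Fin (2 * W + 1))

/-- the frequency with index `i` -/
def fr {W : ℕ} (i : Fin (2 * W + 1)) : ℤ := (i.val : ℤ) - W

/-- exponential polynomials in the independent variables `w, t` -/
def EP {K W : ℕ} (H : Jx d K W → ℂ) (w : Fin d → ℂ) (t : Fin (d + 1) → ℂ) : ℂ :=
  ∑ x, H x * (∏ j, w j ^ (x.1 j).val) * ee (∑ l, (fr (x.2 l) : ℂ) * t l)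

/-- the frequency vector on `V`: `ee (∑ ω_l t_l) = exp (∑ mu_j v_j)` for `t = tt z v` -/
def mu (z : ℂ) {W : ℕ} (ω : Fin (d + 1) → Fin (2 * W + 1)) (j : Fin d) : ℂ :=
  2 * Real.pi * I * ((fr (ω j.succ) : ℂ) - z ^ (j.val + 1) * fr (ω 0))

/-- the functional on polynomials in `d` variables attached to an exponential polynomial: `Q ↦ ∑ H κ! [X^κ] Q(X + mu)` -/
def Ph (z : ℂ) {K W : ℕ} (H : Jx d K W → ℂ) (Q : MvPolynomial (Fin d) ℂ) : ℂ :=
  ∑ x, H x * (∏ j, ((x.1 j).val.factorial : ℂ)) *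
    MvPolynomial.coeff (Finsupp.equivFunOnFinite.symm (fun j => (x.1 j).val))
      (MvPolynomial.aeval (fun j => MvPolynomial.X j + MvPolynomial.C (mu z x.2 j)) Q)

/-! ### Geometry of the lattice -/

/-- the integer parts `m_l` of the lattice vector with coefficients `n_l` of `z` -/
def mm (b : Fin (d + 1) → ℚ) (n : Fin (d + 1) → ℝ) : Fin (d + 1) → ℝ :=
  Fin.cons (-(b 0 : ℝ) * n (Fin.last d)) (fun j => -n j.castSucc - (b j.succ : ℝ) * n (Fin.last d))

/-- the point `(m_j + n_j z)_j` of the real span of the lattice -/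
def gam (P : Par d) (n : Fin (d + 1) → ℝ) (j : Fin d) : ℂ := mm P.b n j.succ + n j.succ * P.z

/-- the real coordinates `Im t_l / Im z` -/
def nn (P : Par d) (v : Fin d → ℂ) (l : Fin (d + 1)) : ℝ := (tt P.z v l).im / P.z.im

/-- the real coordinates transversal to the real span of the lattice -/
def ro (P : Par d) (v : Fin d → ℂ) (l : Fin (d + 1)) : ℝ :=
  (tt P.z v l).re - (mm P.b (nn P v) l + nn P v l * P.z.re)

/-- `∑_{l ≥ 2} ro_l ^ 2` -/
def P2 (P : Par d) (v : Fin d → ℂ) : ℝ := ∑ l : Fin (d + 1), if 2 ≤ l.val then ro P v l ^ 2 else 0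

/-- the quadratic form `π (∑ (Im t_l)² / Im z + P2)` -/
def Qf (P : Par d) (v : Fin d → ℂ) : ℝ := Real.pi * (∑ l, (tt P.z v l).im ^ 2 / P.z.im + P2 P v)

/-- the normalised absolute value of `G` -/
def Nn (P : Par d) (M : ℕ) (G : (Fin d → ℂ) → ℂ) (v : Fin d → ℂ) : ℝ := ‖G v‖ * Real.exp (-(M * Qf P v))

/-! ### Embeddings -/

/-- the algebraic closure of `ℚ(θ)` in `ℂ` -/
abbrev Kc (θ : ℂ) : IntermediateField ℚ⟮θ⟯ ℂ := algebraicClosure ℚ⟮θ⟯ ℂ

/-- a ring homomorphism `Kc θ → ℂ` with `θ ↦ θ'` which fixes the algebraic numbers -/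
structure Emb (θ θ' : ℂ) where
  σ : Kc θ →+* ℂ
  th : ∀ x : Kc θ, (x : ℂ) = θ → σ x = θ'
  al : ∀ x : Kc θ, IsAlgebraic ℚ (x : ℂ) → σ x = x

/-- `e2 e4 / e6` at `iy` -/
def phi (y : ℝ) : ℂ := e2 (I * y) * e4 (I * y) / e6 (I * y)

/-- the values of the original curve lie in `Kc θ` -/
def InK (θ : ℂ) (P : Par d) (D : Dt d) : Prop := ∀ v : Vr d, IsAlgebraic ℚ⟮θ⟯ (vals P D v)

/-! ### More auxiliary functions -/

/-- the exponential sum with coefficients `c` -/
def ES (z : ℂ) {W : ℕ} (c : (Fin (d + 1) → Fin (2 * W + 1)) → ℂ) (v : Fin d → ℂ) : ℂ :=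
  ∑ ω, c ω * cexp (∑ j, mu z ω j * v j)

/-- the sum of the absolute values of the coefficients -/
def cl {σ : Type*} (p : MvPolynomial σ ℂ) : ℝ := ∑ m ∈ p.support, ‖p.coeff m‖

/-- the linear form which represents `Xi j`: variables `inl j = w_j`, `inr l = ps_l` -/
def lin (P : Par d) (D : Dt d) (j : Fin d) : MvPolynomial (Fin d ⊕ Fin (d + 1)) ℂ :=
  (∑ i : Fin d, MvPolynomial.C (D.om * As P D.s (Pi.single i 1) j) * MvPolynomial.X (Sum.inl i))
    - MvPolynomial.C (rh / D.om) * (MvPolynomial.X (Sum.inr j.castSucc) + MvPolynomial.C (P.b j.succ : ℂ) * MvPolynomial.X (Sum.inr (Fin.last d))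
      - MvPolynomial.C P.z * MvPolynomial.X (Sum.inr j.succ))

/-- the entire function in absolute coordinates (the base point is `p0`) -/
def Gab (P : Par d) (D : Dt d) {L : ℕ} (c : Ix d L → ℂ) (v : Fin d → ℂ) : ℂ :=
  ∑ ν, c ν * gmon P D ν (fun j => v j - p0 P.z j) (tt P.z (fun j => v j - p0 P.z j))

end Pool.Agent.MSK
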