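import Pool.Agent.Lib.MP_f58a57_nt.K.Defs

/-! # K/G1_Pig: the pigeonhole principle for complex linear forms -/

open Complex

noncomputable section

namespace Pool.Agent.MSK

open MSD MSP

variable {d : ℕ}

/-- G1. PROOF. Let `Y = card ι · α · B`. The vectors `x ∈ {0..B}^ι` have `A x` with real and imaginary parts in `[-Y, Y]`. Cut `[-Y, Y]` into at most `2Y/(ε/2) + 1 ≤ 4Y/ε + 1` cells of length `ε/2`. If
`(4Y/ε + 2)^(2 card κ) < (B+1)^(card ι)` two different vectors have all the real and imaginary parts of `A x` in the same cells; their difference `x` has `|x i| ≤ B` and `‖(Ax)_k‖ ≤ ε/2 + ε/2`. -/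
theorem pigeon {ι κ : Type} [Fintype ι] [Fintype κ] [Nonempty ι] (A : κ → ι → ℂ) (α ε : ℝ) (B : ℕ) (hα : 0 ≤ α) (hε : 0 < ε)
    (hA : ∀ k i, ‖A k i‖ ≤ α)
    (h : (4 * (Fintype.card ι * α * B) / ε + 2) ^ (2 * Fintype.card κ) < ((B : ℝ) + 1) ^ (Fintype.card ι)) :
    ∃ x : ι → ℤ, x ≠ 0 ∧ (∀ i, |x i| ≤ B) ∧ ∀ k, ‖∑ i, A k i * x i‖ ≤ ε := by
  classical
  set Y : ℝ := Fintype.card ι * α * B with hY
  have hY0 : 0 ≤ Y := by positivity
  set a : ℤ := ⌊-(2 * Y / ε)⌋ with ha
  set b : ℤ := ⌊2 * Y / ε⌋ with hb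
  have hc : ((Finset.Icc a b).card : ℝ) ≤ 4 * Y / ε + 2 := by
    have h1 : a ≤ b := Int.floor_le_floor (by
      have : 0 ≤ 2 * Y / ε := by positivity
      linarith)
    rw [Int.card_Icc]
    have h2 : ((b + 1 - a).toNat : ℤ) = b + 1 - a := Int.toNat_of_nonneg (by omega)
    have h3 : (((b + 1 - a).toNat : ℤ) : ℝ) = ((b + 1 - a : ℤ) : ℝ) := by rw [h2]
    rw [Int.cast_natCast] at h3
    rw [h3]
    push_cast
    have h4 : (b : ℝ) ≤ 2 * Y / ε := Int.floor_le _
    have h5 : -(2 * Y / ε) < a + 1 := Int.lt_floor_add_one _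
    have h6 : 4 * Y / ε = 2 * Y / ε + 2 * Y / ε := by ring
    rw [h6]
    linarith
  let S : Finset (ι → ℤ) := Fintype.piFinset fun _ => Finset.Icc 0 (B : ℤ)
  let T : Finset (κ → ℤ × ℤ) := Fintype.piFinset fun _ => Finset.Icc a b ×ˢ Finset.Icc a b
  let f : (ι → ℤ) → κ → ℤ × ℤ := fun x k =>
    (⌊(∑ i, A k i * x i).re / (ε / 2)⌋, ⌊(∑ i, A k i * x i).im / (ε / 2)⌋)
  have hST : T.card < S.card := by
    have hS : (S.card : ℝ) = ((B : ℝ) + 1) ^ Fintype.card ι := by
      simp only [S, Fintype.card_piFinset, Int.card_Icc, Finset.prod_const, Finset.card_univ]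
      push_cast
      congr 1
      have : ((B : ℤ) + 1 - 0).toNat = B + 1 := by omega
      rw [this]
      push_cast
      ring
    have hT : (T.card : ℝ) = (((Finset.Icc a b).card : ℝ)) ^ (2 * Fintype.card κ) := by
      simp only [T, Fintype.card_piFinset, Finset.card_product, Finset.prod_const, Finset.card_univ]
      push_cast
      rw [pow_mul, sq]
    have : (T.card : ℝ) < S.card := by
      rw [hS, hT]
      refine lt_of_le_of_lt ?_ h
      gcongr
    exact_mod_cast this
  have hbd : ∀ x ∈ S, ∀ k, ‖∑ i, A k i * x i‖ ≤ Y := by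
    intro x hx k
    simp only [S, Fintype.mem_piFinset, Finset.mem_Icc] at hx
    calc ‖∑ i, A k i * x i‖ ≤ ∑ i, ‖A k i * x i‖ := norm_sum_le _ _
      _ ≤ ∑ _i : ι, α * B := by
          refine Finset.sum_le_sum fun i _ => ?_
          rw [norm_mul]
          refine mul_le_mul (hA k i) ?_ (norm_nonneg _) hα
          rw [Complex.norm_intCast]
          have h1 := (hx i).1
          have h2 := (hx i).2
          rw [abs_of_nonneg (by exact_mod_cast h1)]
          exact_mod_cast h2
      _ = Y := by rw [Finset.sum_const, Finset.card_univ, nsmul_eq_mul, hY]; ring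
  have hcell : ∀ u : ℝ, |u| ≤ Y → ⌊u / (ε / 2)⌋ ∈ Finset.Icc a b := by
    intro u hu
    rw [abs_le] at hu
    rw [Finset.mem_Icc]
    have h1 : u / (ε / 2) = 2 * u / ε := by field_simp
    constructor
    · refine Int.floor_le_floor ?_
      rw [h1, ← neg_div]
      refine div_le_div_of_nonneg_right ?_ hε.le
      linarith [hu.1]
    · refine Int.floor_le_floor ?_
      rw [h1]
      refine div_le_div_of_nonneg_right ?_ hε.le
      linarith [hu.2]
  have hmap : ∀ x ∈ S, f x ∈ T := by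
    intro x hx
    simp only [T, Fintype.mem_piFinset, Finset.mem_product]
    intro k
    exact ⟨hcell _ ((abs_re_le_norm _).trans (hbd x hx k)), hcell _ ((abs_im_le_norm _).trans (hbd x hx k))⟩
  obtain ⟨x, hx, y, hy, hxy, hf⟩ := Finset.exists_ne_map_eq_of_card_lt_of_maps_to hST hmap
  refine ⟨x - y, sub_ne_zero.2 hxy, fun i => ?_, fun k => ?_⟩
  · simp only [S, Fintype.mem_piFinset, Finset.mem_Icc] at hx hy
    have h1 := hx i
    have h2 := hy i
    rw [Pi.sub_apply, abs_le]
    constructor <;> linarith [h1.1, h1.2, h2.1, h2.2]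
  · have hk := congrFun hf k
    simp only [f, Prod.mk.injEq] at hk
    have key : ∀ u v : ℝ, ⌊u / (ε / 2)⌋ = ⌊v / (ε / 2)⌋ → |u - v| ≤ ε / 2 := by
      intro u v huv
      have h1 := Int.abs_sub_lt_one_of_floor_eq_floor huv
      rw [← sub_div, abs_div, abs_of_pos (by positivity : (0:ℝ) < ε / 2), div_lt_one (by positivity)] at h1
      exact h1.le
    have e1 : ∑ i, A k i * ((x - y) i : ℤ) = ∑ i, A k i * x i - ∑ i, A k i * y i := by
      rw [← Finset.sum_sub_distrib]
      refine Finset.sum_congr rfl fun i _ => ?_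
      rw [Pi.sub_apply]
      push_cast
      ring
    rw [e1]
    refine (Complex.norm_le_abs_re_add_abs_im _).trans ?_
    rw [Complex.sub_re, Complex.sub_im]
    have h1 := key _ _ hk.1
    have h2 := key _ _ hk.2
    linarith

end Pool.Agent.MSK
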