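import Pool.Agent.Lib.MP_f58a57_nt.K.Defs
import Pool.Agent.Lib.MP_f58a57_nt.K.G1_Pig
import Pool.Agent.Lib.MP_f58a57_nt.K.C3_Small
import Pool.Agent.Lib.MP_f58a57_nt.K.C4b_Bound
import Pool.Agent.Lib.MP_f58a57_nt.K.A4_Gmon
import Pool.Agent.Lib.MP_f58a57_nt.K.C4_Shift

/-! # K/G2_Aux: the auxiliary function -/

open Complex

noncomputable section

namespace Pool.Agent.MSK

open MSD MSP

variable {d : ℕ}

/-- a common denominator of the coefficients -/
theorem g2_den (P : Par d) : ∃ q : ℕ, 1 ≤ q ∧ ∀ l, ∃ m : ℤ, (q : ℚ) * P.b l = m := by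
  refine ⟨∏ l, (P.b l).den, Finset.one_le_prod' fun l _ => (P.b l).den_pos, fun l => ?_⟩
  obtain ⟨k, hk⟩ := Finset.dvd_prod_of_mem (fun l => (P.b l).den) (Finset.mem_univ l)
  refine ⟨(k : ℤ) * (P.b l).num, ?_⟩
  rw [hk]
  push_cast
  have h := Rat.den_mul_eq_num (P.b l)
  rw [mul_comm ((P.b l).den : ℚ), mul_assoc, h]

theorem g2_P2 (P : Par d) (v : Fin d → ℂ) : 0 ≤ P2 P v := by
  unfold P2
  refine Finset.sum_nonneg fun l _ => ?_
  split_ifs
  · exact sq_nonneg _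
  · exact le_rfl

theorem g2_single (P : Par d) (D : Dt d) {L : ℕ} (ν : Ix d L) (v : Fin d → ℂ) :
    Gab P D (Pi.single ν 1) v = gmon P D ν (fun j => v j - p0 P.z j) (tt P.z (fun j => v j - p0 P.z j)) := by
  unfold Gab
  rw [Finset.sum_eq_single ν]
  · rw [Pi.single_eq_same, one_mul]
  · intro μ _ hμ
    rw [Pi.single_eq_of_ne hμ, zero_mul]
  · intro h
    exact absurd (Finset.mem_univ ν) h

theorem g2_Gab (P : Par d) (D : Dt d) {L : ℕ} (c : Ix d L → ℂ) (v : Fin d → ℂ) :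
    Gab P D c v = ∑ ν, c ν * Gab P D (Pi.single ν 1) v := by
  conv_lhs => unfold Gab
  exact Finset.sum_congr rfl fun ν _ => by rw [g2_single]

theorem g2_diff (P : Par d) (D : Dt d) {L : ℕ} (c : Ix d L → ℂ) : Differentiable ℂ (Gab P D c) := by
  unfold Gab
  have h0 : Differentiable ℂ (fun v : Fin d → ℂ => fun j => v j - p0 P.z j) := by
    rw [differentiable_pi]
    intro j
    exact (differentiable_apply j).sub_const _
  refine Differentiable.fun_sum fun ν _ => ?_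
  exact ((gmon_differentiable P D ν).comp h0).const_mul (c ν)

/-- the polynomials -/
def g2p {L T : ℕ} (x : Ix d L × Fin T → ℤ) (ν : Ix d L) : Polynomial ℤ :=
  ∑ i : Fin T, Polynomial.C (x (ν, i)) * Polynomial.X ^ i.val

theorem g2p_coeff {L T : ℕ} (x : Ix d L × Fin T → ℤ) (ν : Ix d L) (j : ℕ) :
    (g2p x ν).coeff j = if h : j < T then x (ν, ⟨j, h⟩) else 0 := by
  unfold g2p
  rw [Polynomial.finsetSum_coeff]
  simp_rw [Polynomial.coeff_C_mul_X_pow]
  split_ifs with h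
  · rw [Finset.sum_eq_single ⟨j, h⟩]
    · simp
    · intro i _ hi
      rw [if_neg]
      intro hj
      exact hi (Fin.ext hj.symm)
    · intro h'
      exact absurd (Finset.mem_univ _) h'
  · refine Finset.sum_eq_zero fun i _ => ?_
    rw [if_neg]
    intro hj
    exact h (hj ▸ i.isLt)

theorem g2p_deg {L T : ℕ} (x : Ix d L × Fin T → ℤ) (ν : Ix d L) : (g2p x ν).natDegree ≤ T := by
  rw [Polynomial.natDegree_le_iff_coeff_eq_zero]
  intro j hj
  rw [g2p_coeff, dif_neg (not_lt.2 hj.le)]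

theorem g2p_aeval {L T : ℕ} (x : Ix d L × Fin T → ℤ) (ν : Ix d L) (θ : ℂ) :
    Polynomial.aeval θ (g2p x ν) = ∑ i : Fin T, (x (ν, i) : ℂ) * θ ^ i.val := by
  unfold g2p
  rw [map_sum]
  refine Finset.sum_congr rfl fun i _ => ?_
  rw [map_mul, map_pow, Polynomial.aeval_X, Polynomial.aeval_C]
  simp

theorem g2_card (L T : ℕ) : (Fintype.card (Ix d L × Fin T) : ℝ) = (L : ℝ) ^ (2 * d + 1) * T := by
  rw [Fintype.card_prod, Fintype.card_prod, Fintype.card_fin, Fintype.card_fun, Fintype.card_fun, Fintype.card_fin,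
    Fintype.card_fin, Fintype.card_fin]
  push_cast
  ring

/-- the inequalities between the parameters -/
theorem g2_num (d L T : ℕ) (a n s b R g C : ℝ) (c : ℕ) (hL : 1 ≤ L) (hT : 1 ≤ T) (ha : 0 ≤ a) (hn : 0 ≤ n) (hs : 0 ≤ s)
    (hb : 0 < b) (hR : 1 ≤ R) (hg : 0 ≤ g)
    (hC : C = 2 * Real.exp s * ((d : ℝ) + 2) ^ d + (2 * d + 9 + a + n + (d + 2) * s))
    (hc : (c : ℝ) ≤ Real.exp s * R ^ (d - 1) * (((d + 2) * L : ℕ) : ℝ) ^ d)
    (h1 : C * (L + T) + C * b + C * g ≤ L * R ^ 2)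
    (h2 : C * R ^ (d - 1) * L ^ d * (C * (L + T) + b + g) < L ^ (2 * d + 1) * T * b) :
    let Λ : ℝ := ((d + 2) * s + 1) * (L + T)
    let N : ℝ := (L : ℝ) ^ (2 * d + 1) * T
    let α : ℝ := Real.exp (T * a + L * n)
    (4 * (N * α * Real.exp b) / Real.exp (-g - Λ) + 2) ^ (2 * c) < Real.exp (b * N) ∧
      Real.exp (s * ((d + 2) * L : ℕ)) * (Real.exp (-g - Λ) + (N * α * Real.exp b) * Real.exp (-(((d + 2) * L : ℕ) * R ^ 2)))
        ≤ Real.exp (-g) := by
  intro Λ N α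
  have hL1 : (1 : ℝ) ≤ L := by exact_mod_cast hL
  have hT1 : (1 : ℝ) ≤ T := by exact_mod_cast hT
  have hd0 : (0 : ℝ) ≤ d := Nat.cast_nonneg d
  have hs1 : (1 : ℝ) ≤ Real.exp s := Real.one_le_exp hs
  have hC2 : 2 * (d : ℝ) + 9 + a + n + (d + 2) * s ≤ C := by
    rw [hC]
    have : 0 ≤ 2 * Real.exp s * ((d : ℝ) + 2) ^ d := by positivity
    linarith
  have hC1 : 2 * Real.exp s * ((d : ℝ) + 2) ^ d ≤ C := by
    rw [hC]
    have : 0 ≤ 2 * (d : ℝ) + 9 + a + n + (d + 2) * s := by positivity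
    linarith
  have hCp : 1 ≤ C := by
    refine le_trans ?_ hC2
    have : 0 ≤ (d + 2) * s := by positivity
    linarith
  -- the bound of the number of unknowns
  have hN : N ≤ Real.exp ((2 * d + 1) * L + T) := by
    have hL' : (L : ℝ) ≤ Real.exp L := by
      have := Real.add_one_le_exp (L : ℝ)
      linarith
    have hT' : (T : ℝ) ≤ Real.exp T := by
      have := Real.add_one_le_exp (T : ℝ)
      linarith
    have h3 : (L : ℝ) ^ (2 * d + 1) ≤ Real.exp ((2 * d + 1) * L) := by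
      have h4 : Real.exp ((2 * d + 1) * L) = Real.exp L ^ (2 * d + 1) := by
        rw [← Real.exp_nat_mul]
        congr 1
        push_cast
        ring
      rw [h4]
      exact pow_le_pow_left₀ (by positivity) hL' _
    rw [Real.exp_add]
    exact mul_le_mul h3 hT' (by positivity) (Real.exp_pos _).le
  have hNα : N * α * Real.exp b ≤ Real.exp ((2 * d + 1) * L + T + (T * a + L * n) + b) := by
    rw [Real.exp_add, Real.exp_add]
    exact mul_le_mul_of_nonneg_right (mul_le_mul_of_nonneg_right hN (Real.exp_pos _).le) (Real.exp_pos _).le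
  have hN0 : 0 ≤ N := by positivity
  constructor
  · -- the pigeonhole inequality
    set E : ℝ := C * (L + T) + b + g with hE
    have h3 : 4 * (N * α * Real.exp b) / Real.exp (-g - Λ) + 2 ≤ Real.exp E := by
      have h4 : N * α * Real.exp b / Real.exp (-g - Λ) ≤ Real.exp ((2 * d + 1) * L + T + (T * a + L * n) + b + (g + Λ)) := by
        rw [div_le_iff₀ (Real.exp_pos _), ← Real.exp_add]
        refine hNα.trans (Real.exp_le_exp.2 (le_of_eq ?_))
        ring
      set W : ℝ := (2 * d + 1) * L + T + (T * a + L * n) + b + (g + Λ) with hW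
      have hΛ0 : 0 ≤ Λ := by positivity
      have hW0 : 0 ≤ W := by positivity
      have hW1 : 1 ≤ Real.exp W := Real.one_le_exp hW0
      have h6 : (6 : ℝ) ≤ Real.exp 6 := by
        have := Real.add_one_le_exp (6 : ℝ)
        linarith
      have h5 : 4 * (N * α * Real.exp b) / Real.exp (-g - Λ) + 2 ≤ Real.exp 6 * Real.exp W := by
        have : 4 * (N * α * Real.exp b) / Real.exp (-g - Λ) = 4 * (N * α * Real.exp b / Real.exp (-g - Λ)) := by ring
        rw [this]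
        refine le_trans (b := 6 * Real.exp W) ?_ (mul_le_mul_of_nonneg_right h6 (Real.exp_pos _).le)
        linarith only [h4, hW1]
      refine h5.trans ?_
      rw [← Real.exp_add]
      apply Real.exp_le_exp.2
      have h7 : (2 * d + 9 + a + n + (d + 2) * s) * (L + T) ≤ C * (L + T) :=
        mul_le_mul_of_nonneg_right hC2 (by positivity)
      have h8 : 0 ≤ a * L := by positivity
      have h9 : 0 ≤ n * T := by positivity
      have h10 : 0 ≤ (d : ℝ) * T := by positivity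
      rw [hE, hW]
      simp only [Λ]
      linarith only [h7, h8, h9, h10, hL1, hT1]
    have h30 : 0 ≤ 4 * (N * α * Real.exp b) / Real.exp (-g - Λ) + 2 := by positivity
    have h4 : (4 * (N * α * Real.exp b) / Real.exp (-g - Λ) + 2) ^ (2 * c) ≤ Real.exp (2 * c * E) := by
      refine (pow_le_pow_left₀ h30 h3 _).trans (le_of_eq ?_)
      rw [← Real.exp_nat_mul]
      push_cast
      ring_nf
    refine h4.trans_lt (Real.exp_lt_exp.2 ?_)
    have hE0 : 0 ≤ E := by positivity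
    have hR0 : 0 ≤ R ^ (d - 1) := by positivity
    have h5 : 2 * (c : ℝ) ≤ C * R ^ (d - 1) * L ^ d := by
      have h6 : (((d + 2) * L : ℕ) : ℝ) ^ d = ((d : ℝ) + 2) ^ d * L ^ d := by
        push_cast
        rw [mul_pow]
      rw [h6] at hc
      calc 2 * (c : ℝ) ≤ 2 * (Real.exp s * R ^ (d - 1) * (((d : ℝ) + 2) ^ d * L ^ d)) := by linarith
        _ = (2 * Real.exp s * ((d : ℝ) + 2) ^ d) * (R ^ (d - 1) * L ^ d) := by ring
        _ ≤ C * (R ^ (d - 1) * L ^ d) := mul_le_mul_of_nonneg_right hC1 (by positivity)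
        _ = C * R ^ (d - 1) * L ^ d := by ring
    calc 2 * (c : ℝ) * E ≤ C * R ^ (d - 1) * L ^ d * E := mul_le_mul_of_nonneg_right h5 hE0
      _ < L ^ (2 * d + 1) * T * b := h2
      _ = b * N := by simp only [N]; ring
  · have h2e : 2 * Real.exp (-g - 1) ≤ Real.exp (-g) := by
      have h3 : Real.exp (-g) = Real.exp 1 * Real.exp (-g - 1) := by
        rw [← Real.exp_add]
        congr 1
        ring
      have h4 := Real.add_one_le_exp (1 : ℝ)
      rw [h3]
      exact mul_le_mul_of_nonneg_right (by linarith) (Real.exp_pos _).le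
    have hM : (((d + 2) * L : ℕ) : ℝ) = (d + 2) * L := by push_cast; ring
    have h3 : Real.exp (s * ((d + 2) * L : ℕ)) * Real.exp (-g - Λ) ≤ Real.exp (-g - 1) := by
      rw [← Real.exp_add]
      apply Real.exp_le_exp.2
      rw [hM]
      simp only [Λ]
      have : 0 ≤ (d + 2) * s * T := by positivity
      linarith only [this, hL1, hT1]
    have h4 : Real.exp (s * ((d + 2) * L : ℕ)) * ((N * α * Real.exp b) * Real.exp (-(((d + 2) * L : ℕ) * R ^ 2))) ≤
        Real.exp (-g - 1) := by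
      calc Real.exp (s * ((d + 2) * L : ℕ)) * ((N * α * Real.exp b) * Real.exp (-(((d + 2) * L : ℕ) * R ^ 2)))
          ≤ Real.exp (s * ((d + 2) * L : ℕ)) * (Real.exp ((2 * d + 1) * L + T + (T * a + L * n) + b) *
            Real.exp (-(((d + 2) * L : ℕ) * R ^ 2))) :=
            mul_le_mul_of_nonneg_left (mul_le_mul_of_nonneg_right hNα (Real.exp_pos _).le) (Real.exp_pos _).le
        _ ≤ Real.exp (-g - 1) := by
            rw [← Real.exp_add, ← Real.exp_add]
            apply Real.exp_le_exp.2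
            rw [hM]
            have h5 : (2 * d + 9 + a + n + (d + 2) * s) * (L + T) ≤ C * (L + T) :=
              mul_le_mul_of_nonneg_right hC2 (by positivity)
            have h6 : b ≤ C * b := le_mul_of_one_le_left hb.le hCp
            have h7 : g ≤ C * g := le_mul_of_one_le_left hg hCp
            have h8 : (L : ℝ) * R ^ 2 ≤ (d + 2) * L * R ^ 2 := by
              have h81 : 0 ≤ (L : ℝ) * R ^ 2 := by positivity
              have h82 := mul_nonneg hd0 h81
              linarith only [h81, h82]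
            have h9 : 0 ≤ a * L := by positivity
            have h10 : 0 ≤ n * T := by positivity
            have h11 : 0 ≤ (d : ℝ) * T := by positivity
            have h12 : 0 ≤ (d + 2) * s * T := by positivity
            linarith only [h1, h5, h6, h7, h8, h9, h10, h11, h12, hL1, hT1]
    calc Real.exp (s * ((d + 2) * L : ℕ)) * (Real.exp (-g - Λ) + (N * α * Real.exp b) * Real.exp (-(((d + 2) * L : ℕ) * R ^ 2)))
        = Real.exp (s * ((d + 2) * L : ℕ)) * Real.exp (-g - Λ) +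
          Real.exp (s * ((d + 2) * L : ℕ)) * ((N * α * Real.exp b) * Real.exp (-(((d + 2) * L : ℕ) * R ^ 2))) := by ring
      _ ≤ 2 * Real.exp (-g - 1) := by linarith
      _ ≤ Real.exp (-g) := h2e

theorem g2_coef {L T : ℕ} (x : Ix d L × Fin T → ℤ) (θ : ℂ) (B : ℕ) (hx : ∀ i, |x i| ≤ B) (ν : Ix d L) :
    ‖(Polynomial.aeval θ (g2p x ν) : ℂ)‖ ≤ T * B * (max 1 ‖θ‖) ^ T := by
  rw [g2p_aeval]
  refine (norm_sum_le _ _).trans ?_
  have h : ∀ i ∈ (Finset.univ : Finset (Fin T)), ‖(x (ν, i) : ℂ) * θ ^ i.val‖ ≤ B * (max 1 ‖θ‖) ^ T := by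
    intro i _
    rw [norm_mul, norm_pow]
    have h1 : ‖(x (ν, i) : ℂ)‖ ≤ B := by
      rw [Complex.norm_intCast]
      exact_mod_cast hx (ν, i)
    have h2 : ‖θ‖ ^ i.val ≤ (max 1 ‖θ‖) ^ T :=
      (pow_le_pow_left₀ (norm_nonneg _) (le_max_right _ _) _).trans
        (pow_le_pow_right₀ (le_max_left _ _) i.isLt.le)
    exact mul_le_mul h1 h2 (by positivity) (by positivity)
  refine (Finset.sum_le_sum h).trans (le_of_eq ?_)
  rw [Finset.sum_const, Finset.card_univ, Fintype.card_fin, nsmul_eq_mul]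
  ring

/-- G2. PROOF. `q ≥ 1` with `q b_l ∈ ℤ`, `M = (d+2)L`, `Sp` from `small_all` for `M` and `R`, `card Sp ≤ C' R^(d-1) L^d`. Unknowns `x_{ν,i}`, `ν ∈ Ix d L`, `i < T`, `p ν = ∑_i x_{ν,i} X^i`; forms: for `v ∈ Sp`
`exp(-M Qf v) Gab(c)(v) = ∑ x_{ν,i} θ^i exp(-M Qf v) Gab(single ν 1)(v)` with coefficients `≤ α = max(1,‖θ‖)^T C^L` (`Nn_bound`). `ε = e^{-g - Λ}` with `Λ = C''(L+T) + log B`, `pigeon`:
`4 (L^(2d+1) T α B)/ε + 2 ≤ e^{3(Λ+g)}`, and `(B+1)^(L^(2d+1) T) ≥ e^{L^(2d+1) T log B}`, so hypothesis `h2` with a large `C` suffices. So all `Nn ≤ ε` on `Sp`; by `Nn_bound` `Nn ≤ B₁ e^{-M P2}` everywhere, `B₁ = L^(2d+1) T α B`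
(triangle inequality), `Gab` is entire, periodic by `Nn_shift`, so by `small_all`: `Nn ≤ C'^M (e^{-g-Λ} + B₁ e^{-MR²}) ≤ e^{-g}` by `h1` (`M R² ≥ L R²·...`; enlarge `C`). -/
theorem aux_exists (P : Par d) (hd : 2 ≤ d) (D : Dt d) (hD : IsOrig P D) (θ : ℂ) (htr : Transcendental ℚ θ) : ∃ C : ℝ, 1 ≤ C ∧
    ∀ (L T B : ℕ) (R g : ℝ), 1 ≤ L → 1 ≤ T → 2 ≤ B → 1 ≤ R → 0 ≤ g →
      (h1 : C * (L + T) + C * Real.log B + C * g ≤ L * R ^ 2) →
      (h2 : C * R ^ (d - 1) * L ^ d * (C * (L + T) + Real.log B + g) < L ^ (2 * d + 1) * T * Real.log B) →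
      ∃ p : Ix d L → Polynomial ℤ, p ≠ 0 ∧ (∀ ν, (p ν).natDegree ≤ T) ∧ (∀ ν i, |((p ν).coeff i : ℝ)| ≤ B) ∧
        ∀ v, Nn P ((d + 2) * L) (Gab P D (fun ν => Polynomial.aeval θ (p ν))) v ≤ Real.exp (-g) := by
  obtain ⟨q, hq, hqb⟩ := g2_den P
  obtain ⟨Cs, hCs, hsmall⟩ := small_all P hd q hq
  obtain ⟨Cn, hCn, hbd⟩ := Nn_bound P hd D hD
  obtain ⟨a, ha, hA'⟩ : ∃ a : ℝ, 0 ≤ a ∧ Real.exp a = max 1 ‖θ‖ :=
    ⟨Real.log (max 1 ‖θ‖), Real.log_nonneg (le_max_left _ _), Real.exp_log (lt_of_lt_of_le one_pos (le_max_left _ _))⟩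
  obtain ⟨n, hn, hCn'⟩ : ∃ n : ℝ, 0 ≤ n ∧ Real.exp n = Cn :=
    ⟨Real.log Cn, Real.log_nonneg hCn, Real.exp_log (lt_of_lt_of_le one_pos hCn)⟩
  obtain ⟨s, hs, hCs'⟩ : ∃ s : ℝ, 0 ≤ s ∧ Real.exp s = Cs :=
    ⟨Real.log Cs, Real.log_nonneg hCs, Real.exp_log (lt_of_lt_of_le one_pos hCs)⟩
  refine ⟨2 * Real.exp s * ((d : ℝ) + 2) ^ d + (2 * d + 9 + a + n + (d + 2) * s), ?_, ?_⟩
  · have h1 : 0 ≤ 2 * Real.exp s * ((d : ℝ) + 2) ^ d := by positivity
    have h2 : 0 ≤ ((d : ℝ) + 2) * s := by positivity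
    have h3 : (0 : ℝ) ≤ d := Nat.cast_nonneg d
    linarith
  intro L T B R g hL hT hB hR hg h1 h2
  have hB1 : (1 : ℝ) < B := by exact_mod_cast hB
  obtain ⟨b, hbl, hb, hB'⟩ : ∃ b : ℝ, Real.log B = b ∧ 0 < b ∧ Real.exp b = B :=
    ⟨Real.log B, rfl, Real.log_pos hB1, Real.exp_log (by linarith)⟩
  rw [hbl] at h1 h2
  have hM1 : 1 ≤ (d + 2) * L := Nat.one_le_iff_ne_zero.2 (Nat.mul_ne_zero (by omega) (by omega))
  obtain ⟨Sp, hSp, hsm⟩ := hsmall ((d + 2) * L) R hM1 hR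
  obtain ⟨n1, n2⟩ := g2_num d L T a n s b R g _ Sp.card hL hT ha hn hs hb hR hg rfl (by rw [hCs']; exact hSp) h1 h2
  set Λ : ℝ := ((d + 2) * s + 1) * (L + T) with hΛ
  set α : ℝ := Real.exp (T * a + L * n) with hα
  have hα' : (max 1 ‖θ‖) ^ T * Cn ^ L = α := by
    rw [← hA', ← hCn', ← Real.exp_nat_mul, ← Real.exp_nat_mul, ← Real.exp_add]
  have hne : Nonempty (Ix d L × Fin T) := by
    have h3 : Nonempty (Fin L) := ⟨⟨0, hL⟩⟩
    have h4 : Nonempty (Fin T) := ⟨⟨0, hT⟩⟩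
    infer_instance
  obtain ⟨x, hx0, hxB, hxε⟩ := pigeon (κ := Sp) (ι := Ix d L × Fin T)
    (fun v i => θ ^ i.2.val * (Gab P D (Pi.single i.1 1) v * (Real.exp (-(((d + 2) * L : ℕ) * Qf P v)) : ℝ)))
    α (Real.exp (-g - Λ)) B (Real.exp_pos _).le (Real.exp_pos _) (by
      intro k i
      rw [norm_mul, norm_pow, norm_mul, Complex.norm_real, Real.norm_of_nonneg (Real.exp_pos _).le, ← hα']
      have h3 : ‖θ‖ ^ i.2.val ≤ (max 1 ‖θ‖) ^ T :=
        (pow_le_pow_left₀ (norm_nonneg _) (le_max_right _ _) _).trans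
          (pow_le_pow_right₀ (le_max_left _ _) i.2.isLt.le)
      have h4 := hbd L hL i.1 (k : Fin d → ℂ)
      have h5 : Cn ^ L * Real.exp (-(((d + 2) * L : ℕ) * P2 P (k : Fin d → ℂ))) ≤ Cn ^ L := by
        refine mul_le_of_le_one_right (by positivity) (Real.exp_le_one_iff.2 ?_)
        have := g2_P2 P (k : Fin d → ℂ)
        rw [neg_nonpos]
        positivity
      exact mul_le_mul h3 (h4.trans h5) (by positivity) (by positivity))
    (by
      rw [Fintype.card_coe]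
      refine (lt_of_eq_of_lt ?_ n1).trans_le ?_
      · rw [g2_card, hB']
      · have h3 : Real.exp (b * ((L : ℝ) ^ (2 * d + 1) * T)) = (B : ℝ) ^ Fintype.card (Ix d L × Fin T) := by
          rw [← hB', ← Real.exp_nat_mul, g2_card]
          congr 1
          ring
        rw [h3]
        exact pow_le_pow_left₀ (by linarith) (by linarith) _)
  refine ⟨g2p x, ?_, g2p_deg x, ?_, ?_⟩
  · intro h0
    apply hx0
    funext i
    have h3 := congrArg (fun f => Polynomial.coeff (f i.1) i.2.val) h0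
    simp only [g2p_coeff, Pi.zero_apply, Polynomial.coeff_zero, i.2.isLt, dif_pos] at h3
    exact h3
  · intro ν j
    rw [g2p_coeff]
    split_ifs with h3
    · exact_mod_cast hxB (ν, ⟨j, h3⟩)
    · rw [Int.cast_zero, abs_zero]
      exact Nat.cast_nonneg B
  intro v
  have hmain := hsm (Gab P D (fun ν => (Polynomial.aeval θ (g2p x ν) : ℂ))) ((L : ℝ) ^ (2 * d + 1) * T * α * B)
    (g2_diff P D _) (fun m u => Nn_shift P hd D hD q hqb _ m u) ?_ (Real.exp (-g - Λ)) (Real.exp_pos _).le ?_ v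
  · refine hmain.trans ?_
    have h3 : Cs ^ ((d + 2) * L) = Real.exp (s * ((d + 2) * L : ℕ)) := by
      rw [← hCs', ← Real.exp_nat_mul, mul_comm]
    rw [h3, ← hB']
    exact n2
  · -- the growth
    intro u
    have h3 : ‖Gab P D (fun ν => (Polynomial.aeval θ (g2p x ν) : ℂ)) u‖ ≤
        ∑ ν : Ix d L, (T * B * (max 1 ‖θ‖) ^ T) * ‖Gab P D (Pi.single ν 1) u‖ := by
      rw [g2_Gab]
      refine (norm_sum_le _ _).trans (Finset.sum_le_sum fun ν _ => ?_)
      rw [norm_mul]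
      exact mul_le_mul_of_nonneg_right (g2_coef x θ B hxB ν) (norm_nonneg _)
    have h4 : Nn P ((d + 2) * L) (Gab P D (fun ν => (Polynomial.aeval θ (g2p x ν) : ℂ))) u ≤
        ∑ ν : Ix d L, (T * B * (max 1 ‖θ‖) ^ T) * Nn P ((d + 2) * L) (Gab P D (Pi.single ν 1)) u := by
      unfold Nn
      refine (mul_le_mul_of_nonneg_right h3 (Real.exp_pos _).le).trans (le_of_eq ?_)
      rw [Finset.sum_mul]
      exact Finset.sum_congr rfl fun ν _ => by ring
    have h5 : ∑ ν : Ix d L, (T * B * (max 1 ‖θ‖) ^ T) * Nn P ((d + 2) * L) (Gab P D (Pi.single ν 1)) u ≤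
        ∑ _ν : Ix d L, (T * B * (max 1 ‖θ‖) ^ T) * (Cn ^ L * Real.exp (-(((d + 2) * L : ℕ) * P2 P u))) :=
      Finset.sum_le_sum fun ν _ => mul_le_mul_of_nonneg_left (hbd L hL ν u) (by positivity)
    refine (h4.trans h5).trans (le_of_eq ?_)
    have h6 : (Fintype.card (Ix d L) : ℝ) = (L : ℝ) ^ (2 * d + 1) := by
      rw [Fintype.card_prod, Fintype.card_fun, Fintype.card_fun, Fintype.card_fin, Fintype.card_fin, Fintype.card_fin]
      push_cast
      ring
    rw [Finset.sum_const, Finset.card_univ, nsmul_eq_mul, h6, ← hα']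
    ring
  · -- the points
    intro u hu
    have h3 := hxε ⟨u, hu⟩
    refine le_trans (le_of_eq ?_) h3
    unfold Nn
    have h4 : ‖Gab P D (fun ν => (Polynomial.aeval θ (g2p x ν) : ℂ)) u‖ * Real.exp (-(((d + 2) * L : ℕ) * Qf P u)) =
        ‖Gab P D (fun ν => (Polynomial.aeval θ (g2p x ν) : ℂ)) u * (Real.exp (-(((d + 2) * L : ℕ) * Qf P u)) : ℝ)‖ := by
      rw [norm_mul, Complex.norm_real, Real.norm_of_nonneg (Real.exp_pos _).le]
    rw [h4, g2_Gab, Finset.sum_mul]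
    congr 1
    refine Eq.trans ?_ (Fintype.sum_prod_type (α₁ := Ix d L) (α₂ := Fin T) _).symm
    refine Finset.sum_congr rfl fun ν _ => ?_
    rw [g2p_aeval, Finset.sum_mul, Finset.sum_mul]
    refine Finset.sum_congr rfl fun i _ => ?_
    ring

end Pool.Agent.MSK
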