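import Pool.Agent.Lib.MP_f58a57_nt.K.Defs

/-! # K/G3_Par: the choice of the parameters -/

open Filter

noncomputable section

namespace Pool.Agent.MSK

open MSD MSP

variable {d : ℕ}

/-- the logarithm is small -/
theorem g3_log (K A : ℝ) (hK : 1 ≤ K) : ∀ᶠ ℓ : ℕ in atTop, K * (A + 7 * Real.log ℓ) < ℓ := by
  have h := (Real.isLittleO_log_id_atTop.comp_tendsto tendsto_natCast_atTop_atTop).bound
    (show (0 : ℝ) < 1 / (16 * K) by positivity)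
  have h2 : ∀ᶠ ℓ : ℕ in atTop, 4 * K * |A| + 1 ≤ (ℓ : ℝ) :=
    tendsto_natCast_atTop_atTop.eventually_ge_atTop _
  filter_upwards [h, h2] with ℓ h3 h4
  simp only [Function.comp_apply, id] at h3
  rw [Real.norm_eq_abs, Real.norm_eq_abs, Nat.abs_cast] at h3
  have h5 : Real.log ℓ ≤ 1 / (16 * K) * ℓ := (le_abs_self _).trans h3
  have h6 : K * (7 * Real.log ℓ) ≤ 7 / 16 * ℓ := by
    calc K * (7 * Real.log ℓ) ≤ K * (7 * (1 / (16 * K) * ℓ)) := by gcongr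
      _ = 7 / 16 * ℓ := by field_simp
  have h7 : K * A ≤ K * |A| := by
    have := le_abs_self A
    nlinarith
  have h8 : 0 ≤ K * |A| := by positivity
  nlinarith

/-- the algebra -/
theorem g3_alg (d : ℕ) (hd : d = 2 ∨ d = 3) (C Λ L T lg R : ℝ) (hC : 1 ≤ C) (hΛ : 1 ≤ Λ)
    (hL : 1 ≤ L) (hLT : L ≤ T) (hlg : 1 ≤ lg) (hR0 : 1 ≤ R) (hR : L * R ^ 2 = 4 * C * Λ * T ^ 2 * lg)
    (hmain : 4 * C ^ 2 * Λ * R ^ (d - 1) < L ^ (d + 1)) :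
    C * (L + T) + C * (T * lg) + C * (Λ * T ^ 2 * lg) ≤ L * R ^ 2 ∧
      C * R ^ (d - 1) * L ^ d * (C * (L + T) + T * lg + Λ * T ^ 2 * lg) <
        L ^ (2 * d + 1) * T * (T * lg) := by
  have hT : 1 ≤ T := hL.trans hLT
  have h1 : T ≤ Λ * T ^ 2 * lg := by
    calc T = 1 * (T * 1) * 1 := by ring
      _ ≤ Λ * (T * T) * lg := by gcongr
      _ = Λ * T ^ 2 * lg := by ring
  have h2 : T * lg ≤ Λ * T ^ 2 * lg := by
    calc T * lg = 1 * (T * 1) * lg := by ring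
      _ ≤ Λ * (T * T) * lg := by gcongr
      _ = Λ * T ^ 2 * lg := by ring
  set S := Λ * T ^ 2 * lg with hS
  have hS0 : 0 < S := by positivity
  have h3 : C * (L + T) ≤ C * (2 * S) := by
    apply mul_le_mul_of_nonneg_left _ (by linarith)
    linarith
  refine ⟨?_, ?_⟩
  · rw [hR]
    have e1 : 4 * C * Λ * T ^ 2 * lg = C * (4 * S) := by rw [hS]; ring
    rw [e1]
    have h4 : C * (T * lg) ≤ C * S := mul_le_mul_of_nonneg_left h2 (by linarith)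
    nlinarith
  · have h4 : C * (L + T) + T * lg + S ≤ 4 * C * S := by
      have h5 : S ≤ C * S := le_mul_of_one_le_left hS0.le hC
      nlinarith
    have hp : 0 < T ^ 2 * lg * L ^ d := by positivity
    calc C * R ^ (d - 1) * L ^ d * (C * (L + T) + T * lg + S)
        ≤ C * R ^ (d - 1) * L ^ d * (4 * C * S) := by gcongr
      _ = (4 * C ^ 2 * Λ * R ^ (d - 1)) * (T ^ 2 * lg * L ^ d) := by rw [hS]; ring
      _ < L ^ (d + 1) * (T ^ 2 * lg * L ^ d) := mul_lt_mul_of_pos_right hmain hp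
      _ = L ^ (2 * d + 1) * T * (T * lg) := by
          rw [show 2 * d + 1 = (d + 1) + d by ring, pow_add L (d + 1) d]
          ring

/-- G3. PROOF. `T = C₁ ℓ^(2d+1)`, `L = ℓ^d`, `B = T^T`, `log B = T log T`, `g = Λ T² log T`. Let `R² = 4 C Λ T² log T/L`, `R ≥ 1` for large `ℓ`. h1: `C(L+T) + C T log T + C Λ T² log T ≤ 4 C Λ T² log T`. h2: the left side is `≤ C R^(d-1) L^d · 2 Λ T² log T`,
the right side is `L^(2d+1) T² log T`, so we need `2 C Λ R^(d-1) < L^(d+1)`; `R^(d-1) = (4CΛ C₁² ℓ^(4d+2-d) log T)^((d-1)/2)`: for `d = 2` `C' ℓ^4 (log T)^{1/2} < ℓ^6`, for `d = 3` `C' ℓ^11 log T < ℓ^12`. -/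
theorem params (d : ℕ) (hd : d = 2 ∨ d = 3) (C Λ : ℝ) (hC : 1 ≤ C) (hΛ : 1 ≤ Λ) (C₁ : ℕ) (hC₁ : 1 ≤ C₁) :
    ∀ᶠ ℓ : ℕ in atTop, ∃ R : ℝ, 1 ≤ R ∧
      C * ((ℓ ^ d : ℕ) + (C₁ * ℓ ^ (2 * d + 1) : ℕ)) + C * Real.log (((C₁ * ℓ ^ (2 * d + 1)) ^ (C₁ * ℓ ^ (2 * d + 1)) : ℕ)) +
        C * (Λ * (C₁ * ℓ ^ (2 * d + 1) : ℕ) ^ 2 * Real.log (C₁ * ℓ ^ (2 * d + 1) : ℕ)) ≤ (ℓ ^ d : ℕ) * R ^ 2 ∧
      C * R ^ (d - 1) * ((ℓ ^ d : ℕ) : ℝ) ^ d * (C * ((ℓ ^ d : ℕ) + (C₁ * ℓ ^ (2 * d + 1) : ℕ)) +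
          Real.log (((C₁ * ℓ ^ (2 * d + 1)) ^ (C₁ * ℓ ^ (2 * d + 1)) : ℕ)) +
          Λ * (C₁ * ℓ ^ (2 * d + 1) : ℕ) ^ 2 * Real.log (C₁ * ℓ ^ (2 * d + 1) : ℕ)) <
        ((ℓ ^ d : ℕ) : ℝ) ^ (2 * d + 1) * (C₁ * ℓ ^ (2 * d + 1) : ℕ) *
          Real.log (((C₁ * ℓ ^ (2 * d + 1)) ^ (C₁ * ℓ ^ (2 * d + 1)) : ℕ)) := by
  set K : ℝ := 64 * C ^ 5 * Λ ^ 3 * C₁ ^ 2 with hK
  have hC₁' : (1 : ℝ) ≤ C₁ := by exact_mod_cast hC₁
  have hK1 : 1 ≤ K := by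
    have h1 : 1 ≤ C ^ 5 := one_le_pow₀ hC
    have h2 : 1 ≤ Λ ^ 3 := one_le_pow₀ hΛ
    have h3 : (1 : ℝ) ≤ C₁ ^ 2 := one_le_pow₀ hC₁'
    calc (1 : ℝ) = 1 * 1 * 1 * 1 := by ring
      _ ≤ 64 * C ^ 5 * Λ ^ 3 * C₁ ^ 2 := by gcongr; norm_num
  filter_upwards [g3_log K (Real.log C₁) hK1, eventually_ge_atTop 3] with ℓ hlog hℓ
  have hℓ' : (3 : ℝ) ≤ ℓ := by exact_mod_cast hℓ
  have hℓ1 : (1 : ℝ) ≤ ℓ := by linarith
  set x : ℝ := (ℓ : ℝ) with hx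
  set T : ℝ := C₁ * x ^ (2 * d + 1) with hT
  have hTc : ((C₁ * ℓ ^ (2 * d + 1) : ℕ) : ℝ) = T := by push_cast; rfl
  have hLc : ((ℓ ^ d : ℕ) : ℝ) = x ^ d := by push_cast; rfl
  set lg : ℝ := Real.log T with hlgd
  have hlogT : Real.log (((C₁ * ℓ ^ (2 * d + 1)) ^ (C₁ * ℓ ^ (2 * d + 1)) : ℕ)) = T * lg := by
    rw [Nat.cast_pow, Real.log_pow, hTc]
  rw [hlogT, hTc, hLc]
  have hxT : x ≤ T := by
    calc x = 1 * x ^ 1 := by ring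
      _ ≤ C₁ * x ^ (2 * d + 1) := by
        gcongr
        omega
  have hlg1 : 1 ≤ lg := by
    rw [hlgd, Real.le_log_iff_exp_le (by linarith)]
    have := Real.exp_one_lt_d9
    linarith
  have hLT : x ^ d ≤ T := by
    calc x ^ d = 1 * x ^ d := by ring
      _ ≤ C₁ * x ^ (2 * d + 1) := by
        gcongr
        omega
  have hL1 : 1 ≤ x ^ d := one_le_pow₀ hℓ1
  have hlgle : lg ≤ Real.log C₁ + 7 * Real.log x := by
    rw [hlgd, hT, Real.log_mul (by linarith) (by positivity), Real.log_pow]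
    have h1 : 0 ≤ Real.log x := Real.log_nonneg hℓ1
    have h2 : ((2 * d + 1 : ℕ) : ℝ) ≤ 7 := by
      have : 2 * d + 1 ≤ 7 := by omega
      exact_mod_cast this
    nlinarith
  have hKlg : K * lg < x := by
    have : K * lg ≤ K * (Real.log C₁ + 7 * Real.log x) := by gcongr
    linarith
  set Q : ℝ := 4 * C * Λ * T ^ 2 * lg / x ^ d with hQ
  have hxd : 0 < x ^ d := by positivity
  have hQ1 : 1 ≤ Q := by
    rw [hQ, le_div_iff₀ hxd, one_mul]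
    have hT1 : 1 ≤ T := hL1.trans hLT
    calc x ^ d ≤ T := hLT
      _ = 1 * 1 * 1 * (T * 1) * 1 := by ring
      _ ≤ 4 * C * Λ * (T * T) * lg := by gcongr; norm_num
      _ = 4 * C * Λ * T ^ 2 * lg := by ring
  have hQ0 : 0 ≤ Q := by linarith
  have hsq : Real.sqrt Q ^ 2 = Q := Real.sq_sqrt hQ0
  have hR1 : 1 ≤ Real.sqrt Q := by rw [Real.one_le_sqrt]; exact hQ1
  refine ⟨Real.sqrt Q, hR1, g3_alg d hd C Λ (x ^ d) T lg (Real.sqrt Q) hC hΛ hL1 hLT hlg1 hR1 ?_ ?_⟩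
  · rw [hsq, hQ]
    field_simp
  have hK2 : 16 * C ^ 3 * Λ ^ 2 * C₁ ^ 2 ≤ K := by
    rw [hK]
    have h1 : C ^ 3 ≤ C ^ 5 := pow_le_pow_right₀ hC (by norm_num)
    have h2 : Λ ^ 2 ≤ Λ ^ 3 := pow_le_pow_right₀ hΛ (by norm_num)
    have h3 : (0 : ℝ) ≤ C ^ 3 := by positivity
    have h4 : (0 : ℝ) ≤ Λ ^ 2 := by positivity
    gcongr
    norm_num
  rcases hd with rfl | rfl
  · -- d = 2
    have h1 : (4 * C ^ 2 * Λ * Real.sqrt Q) ^ 2 < ((x ^ 2) ^ 3) ^ 2 := by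
      rw [mul_pow, hsq, hQ, hT]
      have e1 : (4 * C ^ 2 * Λ) ^ 2 * (4 * C * Λ * (C₁ * x ^ (2 * 2 + 1)) ^ 2 * lg / x ^ 2) =
          (K * lg) * x ^ 8 := by
        rw [hK]
        field_simp
        ring
      rw [e1]
      calc K * lg * x ^ 8 < x * x ^ 8 := mul_lt_mul_of_pos_right hKlg (by positivity)
        _ = x ^ 9 := by ring
        _ ≤ x ^ 12 := pow_le_pow_right₀ hℓ1 (by norm_num)
        _ = ((x ^ 2) ^ 3) ^ 2 := by ring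
    have h2 := lt_of_pow_lt_pow_left₀ 2 (by positivity) h1
    simpa using h2
  · -- d = 3
    have e1 : 4 * C ^ 2 * Λ * Real.sqrt Q ^ (3 - 1) =
        (16 * C ^ 3 * Λ ^ 2 * C₁ ^ 2) * lg * x ^ 11 := by
      rw [show 3 - 1 = 2 from rfl, hsq, hQ, hT]
      field_simp
      ring
    rw [e1]
    calc 16 * C ^ 3 * Λ ^ 2 * C₁ ^ 2 * lg * x ^ 11 ≤ K * lg * x ^ 11 := by gcongr
      _ < x * x ^ 11 := mul_lt_mul_of_pos_right hKlg (by positivity)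
      _ = (x ^ 3) ^ (3 + 1) := by ring

end Pool.Agent.MSK
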