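import Pool.Agent.Lib.MP_f58a57_nt.K.Defs
import Pool.Agent.Lib.MP_f58a57_nt.K.G2_Aux
import Pool.Agent.Lib.MP_f58a57_nt.K.G3_Par
import Pool.Agent.Lib.MP_f58a57_nt.K.D6_Zero
import Pool.Agent.Lib.MP_f58a57_nt.K.A2_Bd
import Pool.Agent.Lib.MP_f58a57_nt.K.A3_Norm
import Pool.Agent.Lib.MP_f58a57_nt.K.C4c_Deriv
import Pool.Agent.Lib.MP_f58a57_nt.K.A1b_Iter

/-! # K/G4_Step: small nonzero values of integer polynomials at `j(z)` -/

open Complex Filter Topology IntermediateField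

noncomputable section

namespace Pool.Agent.MSK

open MSD MSP

variable {d : ℕ}

theorem g4_logT (T : ℕ) (hT : 3 ≤ T) : 1 ≤ Real.log T := by
  rw [Real.le_log_iff_exp_le (by positivity)]
  have h1 : Real.exp 1 < 2.7182818286 := Real.exp_one_lt_d9
  have h2 : (3 : ℝ) ≤ T := by exact_mod_cast hT
  linarith

theorem g4_a (d : ℝ) (hd : 0 ≤ d) : 1 ≤ 8 * (d + 1) * (3 * d + 4) := by
  have h := mul_nonneg hd hd
  linarith only [h, hd]

theorem g4_b (d L T : ℝ) (hd : 0 ≤ d) (h : L ≤ T) : (2 * d + 1) * L + (d + 3) * T ≤ (3 * d + 4) * T := by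
  have h1 := mul_le_mul_of_nonneg_left h (by linarith only [hd] : 0 ≤ 2 * d + 1)
  linarith only [h1]

theorem g4_log (d T L : ℕ) (hT : 3 ≤ T) (hL : 1 ≤ L) (hLT : L ≤ T) :
    Real.log ((L : ℝ) ^ (2 * d + 1) * (8 * (d + 1) * T * ((2 * d + 1) * L + (d + 3) * T)) ^ T * ((T + 1) * (T : ℝ) ^ T)) ≤
      (2 * d + 5 + Real.log (8 * (d + 1) * (3 * d + 4))) * (T * Real.log T) := by
  have hlg := g4_logT T hT
  have hT1 : (1 : ℝ) ≤ T := by exact_mod_cast (by omega : 1 ≤ T)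
  have hL1 : (1 : ℝ) ≤ L := by exact_mod_cast hL
  have hLT' : (L : ℝ) ≤ T := by exact_mod_cast hLT
  have hK : 0 ≤ Real.log (8 * (d + 1) * (3 * d + 4)) := by
    exact Real.log_nonneg (g4_a d (Nat.cast_nonneg d))
  set K := Real.log (8 * (d + 1) * (3 * d + 4)) with hKdef
  have hd0 : (0 : ℝ) ≤ d := Nat.cast_nonneg d
  have hpos : 0 < 8 * ((d : ℝ) + 1) * T * ((2 * d + 1) * L + (d + 3) * T) := by positivity
  rw [Real.log_mul (by positivity) (by positivity), Real.log_mul (by positivity) (by positivity),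
    Real.log_mul (by positivity) (by positivity), Real.log_pow, Real.log_pow, Real.log_pow]
  have e1 : Real.log L ≤ Real.log T := Real.log_le_log (by linarith) hLT'
  have e2 : Real.log (8 * ((d : ℝ) + 1) * T * ((2 * d + 1) * L + (d + 3) * T)) ≤ K + 2 * Real.log T := by
    have h1 : 8 * ((d : ℝ) + 1) * T * ((2 * d + 1) * L + (d + 3) * T) ≤ (8 * (d + 1) * (3 * d + 4)) * (T : ℝ) ^ 2 := by
      have h2 : (2 * (d : ℝ) + 1) * L + (d + 3) * T ≤ (3 * d + 4) * T := g4_b d L T hd0 hLT'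
      calc 8 * ((d : ℝ) + 1) * T * ((2 * d + 1) * L + (d + 3) * T) ≤ 8 * ((d : ℝ) + 1) * T * ((3 * d + 4) * T) := by gcongr
        _ = (8 * (d + 1) * (3 * d + 4)) * (T : ℝ) ^ 2 := by ring
    refine (Real.log_le_log hpos h1).trans ?_
    rw [Real.log_mul (by positivity) (by positivity), Real.log_pow, hKdef]
    push_cast
    linarith
  have e3 : Real.log ((T : ℝ) + 1) ≤ T := by
    have := Real.log_le_sub_one_of_pos (by linarith : (0 : ℝ) < (T : ℝ) + 1)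
    linarith
  push_cast
  have f1 : (2 * (d : ℝ) + 1) * Real.log L ≤ (2 * d + 1) * (T * Real.log T) := by
    exact mul_le_mul_of_nonneg_left (e1.trans (le_mul_of_one_le_left (by linarith only [hlg]) hT1)) (by positivity)
  have f2 : (T : ℝ) * Real.log (8 * ((d : ℝ) + 1) * T * ((2 * d + 1) * L + (d + 3) * T)) ≤ (K + 2) * (T * Real.log T) := by
    refine (mul_le_mul_of_nonneg_left e2 (by positivity)).trans ?_
    have h3 : K * T ≤ K * (T * Real.log T) := by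
      exact mul_le_mul_of_nonneg_left (le_mul_of_one_le_right (by linarith only [hT1]) hlg) hK
    linarith only [h3]
  have f3 : (T : ℝ) ≤ T * Real.log T := le_mul_of_one_le_right (by linarith only [hT1]) hlg
  linarith only [f1, f2, f3, e3]

theorem g4_nn (T L d : ℕ) (hL : 1 ≤ L) (hT : 1 ≤ T) : (1 : ℝ) ≤ (8 * (d + 1) * T * ((2 * d + 1) * L + (d + 3) * T)) ^ T := by
  apply one_le_pow₀
  have hT1 : (1 : ℝ) ≤ T := by exact_mod_cast hT
  have hL1 : (1 : ℝ) ≤ L := by exact_mod_cast hL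
  have hd0 : (0 : ℝ) ≤ d := Nat.cast_nonneg d
  have e1 := mul_nonneg hd0 (zero_le_one.trans hT1)
  have e2 := mul_nonneg hd0 (zero_le_one.trans hL1)
  have h1 : (1 : ℝ) ≤ 8 * (d + 1) * T := by linarith only [e1, hT1]
  have h2 : (1 : ℝ) ≤ (2 * d + 1) * L + (d + 3) * T := by linarith only [e1, e2, hT1, hL1]
  exact one_le_mul_of_one_le_of_one_le h1 h2

/-- the final estimate -/
theorem g4_end (T lg Λ C g : ℝ) (hlg : 1 ≤ lg) (hT : 0 ≤ T) (hΛ : 1 ≤ Λ) (hCT : 2 * C ≤ T) (hg : g = Λ * T ^ 2 * lg) :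
    -g + C * (T * lg) ≤ -(Λ / 2 * T ^ 2 * lg) := by
  rw [hg]
  have h1 : C * (T * lg) ≤ (T / 2) * (T * lg) := mul_le_mul_of_nonneg_right (by linarith) (by positivity)
  have h2 : (T / 2) * (T * lg) ≤ Λ * ((T / 2) * (T * lg)) := by
    have : 0 ≤ (T / 2) * (T * lg) := by positivity
    exact le_mul_of_one_le_left this hΛ
  linarith only [h1, h2]

/-- G4. PROOF. `C₁` from `zero_est`, `T = C₁ ℓ^(2d+1)`, `L = ℓ^d`, `B = T^T`, `g = Λ T² log T`, `p` from `aux_exists` (with `R` from `params`), `a, k` from `zero_est`, `S = ∑ aeval θ (p ν) aeval vals (der^[k] (Mon ν)) ≠ 0`. By `iteratedDeriv_FF` and `small_deriv`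
`‖S‖ = ‖om‖^(-k) ‖iteratedDeriv k‖ ≤ C^T (C T²)^T C^L e^{-g}`. `norm_lemma_fin` for `y = vals P D`, `ι = Ix d L`, `l = (2d+1)L + (d+3)T`, `δ = T`, `H = (8(d+1)T((2d+1)L+(d+3)T))^T` (`der_iter_Mon` with `A = T`), `H' = (T+1) B`: a polynomial `Q` of degree
`≤ C₂ T`, `log len Q ≤ C₂ T log T`, `log ‖Q(θ)‖ ≤ log ‖S‖ + C T log T ≤ -g + C' T log T ≤ -(Λ/2) T² log T` for `ℓ` large. `C₂` does not depend on `Λ`. -/
theorem step (P : Par d) (hd : d = 2 ∨ d = 3) (D : Dt d) (hD : IsOrig P D) (hj : deriv jj P.z ≠ 0) (htr : Transcendental ℚ (jj P.z))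
    (hal : InK (jj P.z) P D) : ∃ (C₁ : ℕ) (C₂ : ℝ), 1 ≤ C₁ ∧ 1 ≤ C₂ ∧ ∀ Λ : ℝ, 1 ≤ Λ → ∀ᶠ ℓ : ℕ in atTop, ∃ Q : Polynomial ℤ,
      Polynomial.aeval (jj P.z) Q ≠ 0 ∧ (Q.natDegree : ℝ) ≤ C₂ * (C₁ * ℓ ^ (2 * d + 1) : ℕ) ∧
      Real.log (len Q) ≤ C₂ * (C₁ * ℓ ^ (2 * d + 1) : ℕ) * Real.log (C₁ * ℓ ^ (2 * d + 1) : ℕ) ∧
      ‖Polynomial.aeval (jj P.z) Q‖ ≤ Real.exp (-(Λ / 2 * (C₁ * ℓ ^ (2 * d + 1) : ℕ) ^ 2 * Real.log (C₁ * ℓ ^ (2 * d + 1) : ℕ))) := by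
  have hd1 : 1 ≤ d := by omega
  have hd2 : 2 ≤ d := by omega
  obtain ⟨C₁, hC₁, hzero⟩ := zero_est P hd1 D hD hj htr hal
  obtain ⟨Ca, hCa, haux⟩ := aux_exists P hd2 D hD (jj P.z) htr
  obtain ⟨Cd, hCd, hder⟩ := small_deriv P hd2 D hD
  obtain ⟨Cn, hCn, hnorm⟩ := norm_lemma_fin (jj P.z) htr (vals P D) hal
  have hd0 : (0 : ℝ) ≤ d := Nat.cast_nonneg d
  obtain ⟨K, hKdef⟩ : ∃ K, K = Real.log (8 * ((d : ℝ) + 1) * (3 * d + 4)) := ⟨_, rfl⟩
  have hK : 0 ≤ K := by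
    rw [hKdef]
    exact Real.log_nonneg (g4_a d hd0)
  have hCdlog : 0 ≤ Real.log Cd := Real.log_nonneg hCd
  have hC₂ : 1 ≤ Cn * (5 * d + 11 + K) := one_le_mul_of_one_le_of_one_le hCn (by linarith only [hd0, hK])
  refine ⟨C₁, Cn * (5 * d + 11 + K), hC₁, hC₂, fun Λ hΛ => ?_⟩
  filter_upwards [params d hd Ca Λ hCa hΛ C₁ hC₁,
    eventually_ge_atTop (max 3 ⌈2 * (Cn * (5 * d + 11 + K) + (2 * Real.log Cd + 2))⌉₊)] with ℓ hpar hℓ
  obtain ⟨R, hR1, h1, h2⟩ := hpar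
  have hℓ3 : 3 ≤ ℓ := (le_max_left _ _).trans hℓ
  have hℓC : 2 * (Cn * (5 * d + 11 + K) + (2 * Real.log Cd + 2)) ≤ ℓ :=
    (Nat.le_ceil _).trans (by exact_mod_cast (le_max_right _ _).trans hℓ)
  have hℓ1 : 1 ≤ ℓ := by omega
  have hLT' : ℓ ^ d ≤ C₁ * ℓ ^ (2 * d + 1) :=
    (Nat.pow_le_pow_right hℓ1 (by omega)).trans (Nat.le_mul_of_pos_left _ hC₁)
  have hℓT' : ℓ ≤ C₁ * ℓ ^ (2 * d + 1) := by
    calc ℓ = ℓ ^ 1 := (pow_one _).symm
      _ ≤ ℓ ^ (2 * d + 1) := Nat.pow_le_pow_right hℓ1 (by omega)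
      _ ≤ C₁ * ℓ ^ (2 * d + 1) := Nat.le_mul_of_pos_left _ hC₁
  have hL1' : 1 ≤ ℓ ^ d := Nat.one_le_pow _ _ hℓ1
  have hz := hzero ℓ hℓ1
  revert h1 h2 hLT' hℓT' hL1' hz
  generalize C₁ * ℓ ^ (2 * d + 1) = T
  generalize ℓ ^ d = L
  intro h1 h2 hLT hℓT hL1 hz
  have hT3 : 3 ≤ T := hℓ3.trans hℓT
  have hT1 : 1 ≤ T := by omega
  have hT1' : (1 : ℝ) ≤ T := by exact_mod_cast hT1
  have hL1' : (1 : ℝ) ≤ L := by exact_mod_cast hL1
  have hLT' : (L : ℝ) ≤ T := by exact_mod_cast hLT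
  have hlg := g4_logT T hT3
  have hg : 0 ≤ Λ * (T : ℝ) ^ 2 * Real.log T := by positivity
  have hB2 : 2 ≤ T ^ T := by
    calc 2 ≤ T := by omega
      _ = T ^ 1 := (pow_one _).symm
      _ ≤ T ^ T := Nat.pow_le_pow_right hT1 hT1
  obtain ⟨p, hp0, hpd, hpc, hsm⟩ := haux L T (T ^ T) R (Λ * (T : ℝ) ^ 2 * Real.log T) hL1 hT1 hB2 hR1 hg h1 h2
  obtain ⟨a, ha, k, hk, hS⟩ := hz p hp0
  have hom : 1 ≤ ‖D.om‖ := by
    have h3 : ‖D.om‖ ^ 2 = Real.pi := by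
      rw [← norm_pow, hD.om, Complex.norm_real, Real.norm_of_nonneg Real.pi_pos.le]
    have h4 : 1 ≤ ‖D.om‖ ^ 2 := by
      rw [h3]
      linarith [Real.pi_gt_three]
    by_contra h5
    push Not at h5
    have h6 := pow_lt_one₀ (norm_nonneg D.om) h5 (two_ne_zero)
    linarith only [h4, h6]
  have hSle : ‖∑ ν, Polynomial.aeval (jj P.z) (p ν) * MvPolynomial.aeval (vals P D) ((der (fun j => (a j : ℤ)))^[k] (Mon ν))‖ ≤
      (Cd * T ^ 2) ^ T * Cd ^ L * Real.exp (-(Λ * (T : ℝ) ^ 2 * Real.log T)) := by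
    have h3 := hder L hL1 (fun ν => Polynomial.aeval (jj P.z) (p ν)) _ (Real.exp_pos _).le hsm T hT1 a ha k hk.le
    have h4 := iteratedDeriv_FF P D (fun ν => Polynomial.aeval (jj P.z) (p ν)) (fun j => (a j : ℤ)) k
    simp only [Int.cast_natCast] at h4
    rw [h4, norm_mul, norm_pow] at h3
    refine le_trans ?_ h3
    exact le_mul_of_one_le_left (norm_nonneg _) (one_le_pow₀ hom)
  have hSpos : 0 < ‖∑ ν, Polynomial.aeval (jj P.z) (p ν) * MvPolynomial.aeval (vals P D) ((der (fun j => (a j : ℤ)))^[k] (Mon ν))‖ :=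
    norm_pos_iff.2 hS
  have hSlog : Real.log ‖∑ ν, Polynomial.aeval (jj P.z) (p ν) * MvPolynomial.aeval (vals P D) ((der (fun j => (a j : ℤ)))^[k] (Mon ν))‖ ≤
      (2 * Real.log Cd + 2) * (T * Real.log T) - Λ * (T : ℝ) ^ 2 * Real.log T := by
    refine (Real.log_le_log hSpos hSle).trans ?_
    have hCd0 : 0 < Cd := by linarith
    rw [Real.log_mul (by positivity) (by positivity), Real.log_mul (by positivity) (by positivity), Real.log_exp,
      Real.log_pow, Real.log_pow, Real.log_mul (by positivity) (by positivity), Real.log_pow]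
    push_cast
    have h5 : (T : ℝ) * Real.log Cd ≤ Real.log Cd * (T * Real.log T) := by
      rw [mul_comm]
      exact mul_le_mul_of_nonneg_left (le_mul_of_one_le_right (by linarith only [hT1']) hlg) hCdlog
    have h6 : (L : ℝ) * Real.log Cd ≤ Real.log Cd * (T * Real.log T) := by
      refine le_trans ?_ h5
      exact mul_le_mul_of_nonneg_right hLT' hCdlog
    linarith only [h5, h6]
  have hcard : (Fintype.card (Ix d L) : ℝ) = (L : ℝ) ^ (2 * d + 1) := by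
    have h : Fintype.card (Ix d L) = L ^ (d + 1) * L ^ d := by
      show Fintype.card ((Fin (d + 1) → Fin L) × (Fin d → Fin L)) = _
      simp
    rw [h]
    push_cast
    ring
  obtain ⟨Q, hQ0, hQd, hQl, hQn⟩ := hnorm (Ix d L) ((2 * d + 1) * L + (d + 3) * T) T
    ((8 * (d + 1) * T * ((2 * d + 1) * L + (d + 3) * T)) ^ T) ((T + 1) * (T : ℝ) ^ T) p
    (fun ν => (der (fun j => (a j : ℤ)))^[k] (Mon ν)) (g4_nn T L d hL1 hT1)
    (by
      exact one_le_mul_of_one_le_of_one_le (by linarith only [hT1']) (one_le_pow₀ hT1'))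
    (fun ν => by
      have h3 := der_iter_Mon (fun j => (a j : ℤ)) (T : ℝ) hT1' (fun j => by
        rw [Int.cast_natCast, abs_of_nonneg (Nat.cast_nonneg _)]
        exact_mod_cast ha j) ν T k hT1 hk.le
      exact h3)
    hpd
    (fun ν => by
      have hB' : (((T ^ T : ℕ) : ℝ)) = (T : ℝ) ^ T := by push_cast; rfl
      have h3 := len_le_of_coeff (p ν) ((T : ℝ) ^ T) (fun i => by
        have := hpc ν i
        rw [hB'] at this
        exact this)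
      refine h3.trans (mul_le_mul_of_nonneg_right ?_ (by positivity))
      have : ((p ν).natDegree : ℝ) ≤ T := by exact_mod_cast hpd ν
      linarith)
    hS
  rw [hcard] at hQl hQn
  have hlog := g4_log d T L hT3 hL1 hLT
  rw [← hKdef] at hlog
  have hTT : (T : ℝ) ≤ T * Real.log T := le_mul_of_one_le_right (by linarith only [hT1']) hlg
  have hl : ((((2 * d + 1) * L + (d + 3) * T : ℕ)) : ℝ) ≤ (3 * d + 4) * T := by
    push_cast
    exact g4_b d L T hd0 hLT'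
  refine ⟨Q, hQ0, ?_, ?_, ?_⟩
  · refine hQd.trans ?_
    rw [mul_assoc]
    refine mul_le_mul_of_nonneg_left ?_ (by linarith)
    have h3 := mul_nonneg (by linarith only [hd0, hK] : 0 ≤ 2 * (d : ℝ) + 6 + K) (zero_le_one.trans hT1')
    linarith only [hl, h3]
  · refine hQl.trans ?_
    have e : Cn * (5 * d + 11 + K) * (T : ℝ) * Real.log T = Cn * ((5 * d + 11 + K) * (T * Real.log T)) := by ring
    rw [e]
    refine mul_le_mul_of_nonneg_left ?_ (by linarith)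
    have h3 := mul_le_mul_of_nonneg_left hTT (by linarith only [hd0] : 0 ≤ 3 * (d : ℝ) + 4)
    linarith only [hlog, hl, h3, hTT, hT1']
  · rw [← Real.log_le_iff_le_exp (norm_pos_iff.2 hQ0)]
    refine (hQn.trans ?_)
    have h3 : Real.log ((L : ℝ) ^ (2 * d + 1) * (8 * (d + 1) * T * ((2 * d + 1) * L + (d + 3) * T)) ^ T * ((T + 1) * (T : ℝ) ^ T)) +
        ((((2 * d + 1) * L + (d + 3) * T : ℕ) : ℝ) + T + 1) ≤ (5 * d + 11 + K) * (T * Real.log T) := by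
      have h4 := mul_le_mul_of_nonneg_left hTT (by linarith only [hd0] : 0 ≤ 3 * (d : ℝ) + 4)
      linarith only [hlog, hl, h4, hTT, hT1']
    have h5 := mul_le_mul_of_nonneg_left h3 (by linarith : (0 : ℝ) ≤ Cn)
    have h6 := g4_end T (Real.log T) Λ (Cn * (5 * d + 11 + K) + (2 * Real.log Cd + 2)) _ hlg (by positivity) hΛ
      (hℓC.trans (by exact_mod_cast hℓT)) rfl
    refine le_trans ?_ h6
    calc _ ≤ ((2 * Real.log Cd + 2) * (T * Real.log T) - Λ * (T : ℝ) ^ 2 * Real.log T) + Cn * ((5 * d + 11 + K) * (T * Real.log T)) :=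
          add_le_add hSlog h5
      _ = _ := by ring

end Pool.Agent.MSK
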