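import Pool.Agent.Lib.MP_f58a57_nt.K.Defs

/-! # K/G6_Par: the data of an algebraic number -/

open Complex Filter Topology IntermediateField

noncomputable section

namespace Pool.Agent.MSK

open MSD MSP

variable {d : ℕ}

/-- G6a. PROOF. The minimal polynomial of `z` over `ℚ` is irreducible, separable, monic of degree `d + 1`; it has `d + 1` different roots in `ℂ`, enumerate them starting with `z`
(`Fin (d+1) ≃` root set, composed with a swap); `b_l = -coeff l`; `li`: `z` is not a root of a nonzero polynomial of degree `≤ d`. -/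
theorem exists_par (z : ℂ) (hz : 0 < z.im) (hd : (minpoly ℚ z).natDegree = d + 1) : ∃ P : Par d, P.z = z := by
  classical
  set p := minpoly ℚ z with hp
  have hint : IsIntegral ℚ z := by
    by_contra h
    have h0 : p = 0 := minpoly.eq_zero h
    rw [h0] at hd
    simp at hd
  have hirr : Irreducible p := minpoly.irreducible hint
  have hmon : p.Monic := minpoly.monic hint
  have hsep : p.Separable := hirr.separable
  have hcard : Fintype.card (p.rootSet ℂ) = d + 1 := by
    rw [← hd]
    exact Polynomial.card_rootSet_eq_natDegree hsep (IsAlgClosed.splits _)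
  have hzmem : z ∈ p.rootSet ℂ := by
    rw [Polynomial.mem_rootSet]
    exact ⟨hirr.ne_zero, minpoly.aeval ℚ z⟩
  let e0 : Fin (d + 1) ≃ p.rootSet ℂ := (Fintype.equivFinOfCardEq hcard).symm
  let i0 : Fin (d + 1) := e0.symm ⟨z, hzmem⟩
  let e : Fin (d + 1) ≃ p.rootSet ℂ := (Equiv.swap 0 i0).trans e0
  have he0 : ((e 0 : p.rootSet ℂ) : ℂ) = z := by
    simp [e, i0]
  have hroot : ∀ i, Polynomial.aeval ((e i : p.rootSet ℂ) : ℂ) p = 0 := by
    intro i
    exact ((Polynomial.mem_rootSet).1 (e i).2).2
  refine ⟨⟨fun i => ((e i : p.rootSet ℂ) : ℂ), fun l => - p.coeff l.val, ?_, ?_, ?_, ?_⟩, ?_⟩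
  · intro i j hij
    exact e.injective (Subtype.ext hij)
  · intro i
    have h := hroot i
    rw [Polynomial.aeval_eq_sum_range, hd, Finset.sum_range_succ] at h
    have hl : p.coeff (d + 1) = 1 := by
      have := hmon.coeff_natDegree
      rwa [hd] at this
    rw [hl, one_smul] at h
    have h2 : ∑ l : Fin (d + 1), ((- p.coeff l.val : ℚ) : ℂ) * ((e i : p.rootSet ℂ) : ℂ) ^ l.val
        = - ∑ x ∈ Finset.range (d + 1), p.coeff x • ((e i : p.rootSet ℂ) : ℂ) ^ x := by
      rw [Finset.sum_range, ← Finset.sum_neg_distrib]
      refine Finset.sum_congr rfl fun l _ => ?_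
      rw [Algebra.smul_def]
      push_cast
      simp
    show ((e i : p.rootSet ℂ) : ℂ) ^ (d + 1) = _
    rw [h2]
    linear_combination h
  · show 0 < (((e 0 : p.rootSet ℂ) : ℂ)).im
    rw [he0]; exact hz
  · intro x hx
    have hx' : ∑ l : Fin (d + 1), (x l : ℂ) * z ^ l.val = 0 := by
      have := hx
      simp only [he0] at this
      exact this
    set q : Polynomial ℚ := ∑ l : Fin (d + 1), Polynomial.monomial l.val (x l) with hq
    have hq0 : Polynomial.aeval z q = 0 := by
      rw [hq, map_sum]
      rw [← hx']
      refine Finset.sum_congr rfl fun l _ => ?_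
      rw [Polynomial.aeval_monomial]
      simp
    have hdeg : q.degree < p.degree := by
      rw [Polynomial.degree_eq_natDegree hirr.ne_zero, hd]
      rw [hq]
      refine lt_of_le_of_lt (Polynomial.degree_sum_le _ _) ?_
      rw [Finset.sup_lt_iff (by exact WithBot.bot_lt_coe _)]
      intro l _
      refine lt_of_le_of_lt (Polynomial.degree_monomial_le _ _) ?_
      exact_mod_cast l.2
    have hq1 : q = 0 := by
      by_contra hne
      exact absurd (minpoly.degree_le_of_ne_zero ℚ z hne hq0) (not_le.2 hdeg)
    funext l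
    have hc : q.coeff l.val = x l := by
      rw [hq, Polynomial.finsetSum_coeff]
      rw [Finset.sum_eq_single l]
      · simp
      · intro m _ hm
        rw [Polynomial.coeff_monomial, if_neg]
        intro h; exact hm (Fin.ext h)
      · intro h; exact absurd (Finset.mem_univ _) h
    rw [← hc, hq1]; simp
  · exact he0

end Pool.Agent.MSK
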