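import Pool.Agent.Lib.MP_f58a57_nt.K.Defs
import Pool.Agent.Lib.MP_f58a57_nt.P.T3_Zeros

/-! # K/G6b_Orig: the original curve -/

open Complex Filter Topology IntermediateField

noncomputable section

namespace Pool.Agent.MSK

open MSD MSP

variable {d : ℕ}

/-- a point with half integral `z` coordinate is not in the lattice -/
theorem g6b_half (z : ℂ) (hz : 0 < z.im) (t : ℂ) (ht : t.im = -(z.im / 2)) : th z t ≠ 0 := by
  intro h0
  obtain ⟨m, n, h⟩ := (th_eq_zero_iff z hz t).1 h0
  have h1 : t.im = n * z.im := by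
    rw [h]
    simp
  rw [ht] at h1
  have h2 : (n : ℝ) = -(1 / 2) := by
    have : (n + 1 / 2 : ℝ) * z.im = 0 := by linarith
    rcases mul_eq_zero.1 this with h | h
    · linarith
    · exact absurd h hz.ne'
  have h3 : (2 * n : ℤ) = -1 := by
    have : (2 * n : ℝ) = -1 := by linarith
    exact_mod_cast this
  omega

theorem g6b_half2 (z : ℂ) (hz : 0 < z.im) : th z (1 / 2) ≠ 0 := by
  intro h0
  obtain ⟨m, n, h⟩ := (th_eq_zero_iff z hz _).1 h0
  have h1 : (0 : ℝ) = n * z.im := by
    have := congrArg Complex.im h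
    simpa using this
  have h2 : (n : ℝ) = 0 := by
    rcases mul_eq_zero.1 h1.symm with h | h
    · exact h
    · exact absurd h hz.ne'
  have h3 : (2 * m : ℤ) = 1 := by
    have hn : (n : ℂ) = 0 := by exact_mod_cast h2
    rw [hn, zero_mul, add_zero] at h
    have : (2 * m : ℂ) = 1 := by rw [← h]; norm_num
    exact_mod_cast this
  omega

/-- G6b. PROOF. `om = √π`, `kap = sE z/π`, `h = hP z`; `hP z l` is not in the lattice `ℤ + ℤz` (`th_eq_zero_iff`; `z.im > 0`). -/
theorem exists_orig (P : Par d) (hd : 1 ≤ d) : ∃ D : Dt d, IsOrig P D := by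
  have hpi : (0 : ℝ) < Real.pi := Real.pi_pos
  have him : 0 < P.z.im := P.im
  have hne : ((Real.sqrt Real.pi : ℝ) : ℂ) ≠ 0 := by
    have := (Real.sqrt_pos.2 hpi).ne'
    exact_mod_cast this
  refine ⟨⟨P.z, him, ((Real.sqrt Real.pi : ℝ) : ℂ), hne, sE P.z / Real.pi, hP P.z, ?_⟩, rfl, ?_, rfl, rfl⟩
  · intro l
    unfold hP
    split_ifs with h1 h2
    · refine g6b_half P.z him _ ?_
      simp only [neg_div, Complex.neg_im]
      congr 1
      have : P.z / 2 = P.z * ((1 / 2 : ℝ) : ℂ) := by push_cast; ring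
      rw [this, Complex.im_mul_ofReal]
      ring
    · exact g6b_half2 P.z him
    · refine g6b_half P.z him _ ?_
      have : (1 - P.z) / 2 = (1 - P.z) * ((1 / 2 : ℝ) : ℂ) := by push_cast; ring
      rw [this, Complex.im_mul_ofReal]
      simp only [Complex.sub_im, Complex.one_im]
      ring
  · change ((Real.sqrt Real.pi : ℝ) : ℂ) ^ 2 = (Real.pi : ℂ)
    have := Real.sq_sqrt hpi.le
    exact_mod_cast this

end Pool.Agent.MSK
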