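import Pool.Agent.Lib.MP_f58a57_nt.K.Defs
import Pool.Agent.Lib.MP_f58a57_nt.K.T3b_Half
import Pool.Agent.Lib.MP_f58a57_nt.N.Link
import Pool.Agent.Lib.MP_f58a57_nt.K.A1_Deriv

/-! # K/G6c_Alg: the values are algebraic over `ℚ(θ)` -/

open Complex Filter Topology IntermediateField

noncomputable section

namespace Pool.Agent.MSK

open MSD MSP

variable {d : ℕ}

theorem g6c_z (P : Par d) : IsAlgebraic ℚ P.z := by
  have hdeg : Polynomial.degree (∑ l : Fin (d + 1), Polynomial.C (P.b l) * Polynomial.X ^ l.val) ≤ (d : ℕ) := by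
    refine (Polynomial.degree_sum_le _ _).trans (Finset.sup_le fun l _ => ?_)
    refine (Polynomial.degree_C_mul_X_pow_le _ _).trans ?_
    exact_mod_cast Nat.lt_succ_iff.mp l.2
  have hm := Polynomial.monic_X_pow_sub (n := d + 1) (lt_of_le_of_lt hdeg (by exact_mod_cast Nat.lt_succ_self d))
  refine ⟨_, hm.ne_zero, ?_⟩
  have h := P.rel 0
  simp only [map_sub, map_sum, map_mul, map_pow, Polynomial.aeval_X, Polynomial.aeval_C]
  rw [sub_eq_zero]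
  exact h

/-- a root of a cubic polynomial with algebraic coefficients -/
theorem g6c_cubic (K : IntermediateField ℚ ℂ) {a b x : ℂ} (ha : IsAlgebraic K a) (hb : IsAlgebraic K b)
    (h : 4 * x ^ 3 - 4 / 3 * a * x - 8 / 27 * b = 0) : IsAlgebraic K x := by
  let L := algebraicClosure K ℂ
  have hL : Algebra.IsAlgebraic K L := algebraicClosure.isAlgebraic K ℂ
  have hx : IsAlgebraic L x := by
    let a' : L := ⟨a, mem_algebraicClosure_iff.mpr ha⟩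
    let b' : L := ⟨b, mem_algebraicClosure_iff.mpr hb⟩
    refine ⟨Polynomial.C 4 * Polynomial.X ^ 3 - Polynomial.C (4 / 3 * a') * Polynomial.X - Polynomial.C (8 / 27 * b'), ?_, ?_⟩
    · intro h0
      have h1 := congrArg (fun q => Polynomial.coeff q 3) h0
      simp at h1
    · have e1 : algebraMap L ℂ a' = a := rfl
      have e2 : algebraMap L ℂ b' = b := rfl
      simp only [map_sub, map_mul, map_pow, Polynomial.aeval_X, Polynomial.aeval_C, e1, e2, map_div₀, map_ofNat]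
      exact h
  exact hx.restrictScalars K

/-- G6c. PROOF. With `Ω² = 1/π` the library's `link4, link6` (file G2_Link), `link2'` (N/Link) show that `π² e4(z), π³ e6(z), π e2(z)` are rational functions of `i, z?, j, j', j''` (`π Ω² = 1`), hence algebraic over `ℚ(j(z))`. So `vals g = (2/3) π⁴ e4/om⁴ = (2/3) π² e4`,
`vals k = sE/π = (π/3) e2` are in `Kc`; `vals (X l)` is a root of `4X³ - (4/3)π²e4 X - (8/27)π³e6` (`wp_ode` divided by `om⁶ = π³`, derivative `0` at the half period by `wp_half'`), `vals (Y l) = 0`; `z`, `b`, `r` are algebraic over `ℚ`. -/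
theorem vals_alg (P : Par d) (hd : 1 ≤ d) (D : Dt d) (hD : IsOrig P D) (hj : deriv jj P.z ≠ 0) (θ : ℂ) (h0 : IsAlgebraic ℚ⟮θ⟯ (jj P.z))
    (h1 : IsAlgebraic ℚ⟮θ⟯ (deriv jj P.z)) (h2 : IsAlgebraic ℚ⟮θ⟯ (deriv (deriv jj) P.z)) : InK θ P D := by
  have hz : 0 < P.z.im := P.im
  have hpi : (Real.pi : ℂ) ≠ 0 := by exact_mod_cast Real.pi_ne_zero
  have hom := D.ne
  have hΩ : (D.om)⁻¹ ≠ 0 := inv_ne_zero hom
  have hπ : (Real.pi : ℂ) * (D.om)⁻¹ ^ 2 = 1 := by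
    rw [inv_pow, hD.om]
    exact mul_inv_cancel₀ hpi
  have tI := MSN.gm_algI ℚ⟮θ⟯
  have tZ := MSN.gm_algZ ℚ⟮θ⟯
  have t2 : IsAlgebraic ℚ⟮θ⟯ (2 : ℂ) := by simpa using tZ 2
  have t3 : IsAlgebraic ℚ⟮θ⟯ (3 : ℂ) := by simpa using tZ 3
  have t4 : IsAlgebraic ℚ⟮θ⟯ (4 : ℂ) := by simpa using tZ 4
  have t6 : IsAlgebraic ℚ⟮θ⟯ (6 : ℂ) := by simpa using tZ 6
  have t1728 : IsAlgebraic ℚ⟮θ⟯ (1728 : ℂ) := by simpa using tZ 1728
  have e4' : D.om ^ 4 = Real.pi ^ 2 := by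
    rw [← hD.om]; ring
  have e6' : D.om ^ 6 = Real.pi ^ 3 := by
    rw [← hD.om]; ring
  have a4 : IsAlgebraic ℚ⟮θ⟯ (Real.pi ^ 2 * e4 P.z) := by
    have h := link4 P.z (D.om)⁻¹ hz hΩ hj
    rw [hπ, inv_pow, div_inv_eq_mul, e4', mul_comm] at h
    rw [h, one_pow, mul_one]
    exact MSN.gm_alg _ (h1.pow 2).neg ((t4.mul h0).mul (h0.sub t1728))
  have a6 : IsAlgebraic ℚ⟮θ⟯ (Real.pi ^ 3 * e6 P.z) := by
    have h := link6 P.z (D.om)⁻¹ hz hΩ hj
    rw [hπ, inv_pow, div_inv_eq_mul, inv_pow, div_inv_eq_mul, e4', e6', mul_comm, mul_comm (e4 P.z)] at h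
    rw [h, mul_one]
    exact a4.mul (MSN.gm_alg _ h1.neg ((t2.mul tI).mul h0))
  have a2 : IsAlgebraic ℚ⟮θ⟯ (Real.pi * e2 P.z) := by
    have h := MSN.link2' P.z (D.om)⁻¹ hz hΩ hj
    rw [hπ, inv_pow, div_inv_eq_mul, inv_pow, div_inv_eq_mul, inv_pow, div_inv_eq_mul, hD.om, e4', e6', mul_comm,
      mul_comm (e4 P.z), mul_comm (e6 P.z)] at h
    rw [h, mul_one]
    refine t6.mul (((MSN.gm_alg _ (MSN.gm_alg _ h2 h1) (t2.mul tI)).add ((MSN.gm_alg _ t2 t3).mul (MSN.gm_alg _ a6 a4))).add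
      (MSN.gm_alg _ (a4.pow 2) (t2.mul a6)))
  have hh : ∀ l, ∃ m n : ℤ, D.h l = (m + n * D.τ) / 2 := by
    intro l
    rw [hD.h, hD.τ]
    unfold hP
    split_ifs
    · exact ⟨0, -1, by push_cast; ring⟩
    · exact ⟨1, 0, by push_cast; ring⟩
    · exact ⟨1, -1, by push_cast; ring⟩
  have hY : ∀ l, deriv (wp D.τ (sE D.τ)) (D.h l) = 0 := by
    intro l
    obtain ⟨m, n, hmn⟩ := hh l
    have h3 := D.hh l
    rw [hmn] at h3 ⊢
    exact wp_half' D.τ D.im m n h3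
  intro v
  cases v with
  | X l =>
    change IsAlgebraic ℚ⟮θ⟯ (wp D.τ (sE D.τ) (D.h l + 0) / D.om ^ 2)
    rw [add_zero]
    apply g6c_cubic ℚ⟮θ⟯ a4 a6
    have h := wp_ode D.τ D.im (D.h l) (D.hh l)
    rw [hY l, hD.τ] at h
    rw [hD.τ, hD.om]
    field_simp
    linear_combination (-81 : ℂ) * h
  | Y l =>
    change IsAlgebraic ℚ⟮θ⟯ (deriv (wp D.τ (sE D.τ)) (D.h l + 0) / D.om ^ 3)
    rw [add_zero, hY l, zero_div]
    exact isAlgebraic_zero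
  | Q j => exact isAlgebraic_zero
  | b l =>
    change IsAlgebraic ℚ⟮θ⟯ ((P.b l : ℚ) : ℂ)
    exact isAlgebraic_algebraMap (A := ℂ) ((P.b l : ℚ) : ℚ⟮θ⟯)
  | g =>
    change IsAlgebraic ℚ⟮θ⟯ (2 / 3 * Real.pi ^ 4 * e4 D.τ / D.om ^ 4)
    have h : 2 / 3 * (Real.pi : ℂ) ^ 4 * e4 D.τ / D.om ^ 4 = 2 / 3 * (Real.pi ^ 2 * e4 P.z) := by
      rw [e4', hD.τ]
      field_simp
    rw [h]
    exact (MSN.gm_alg _ t2 t3).mul a4
  | k =>
    change IsAlgebraic ℚ⟮θ⟯ D.kap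
    have h : D.kap = Real.pi * e2 P.z / 3 := by
      rw [hD.kap]
      unfold sE
      field_simp
    rw [h]
    exact MSN.gm_alg _ a2 t3
  | z =>
    exact (g6c_z P).tower_top _
  | r =>
    change IsAlgebraic ℚ⟮θ⟯ (-I / 2)
    exact MSN.gm_alg _ tI.neg t2

end Pool.Agent.MSK
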