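import Pool.Agent.Lib.MP_f58a57_nt.K.Defs
import Pool.Agent.Lib.MP_f58a57_nt.K.G5_Core
import Pool.Agent.Lib.MP_f58a57_nt.K.G6_Par
import Pool.Agent.Lib.MP_f58a57_nt.K.G6b_Orig
import Pool.Agent.Lib.MP_f58a57_nt.K.G6c_Alg
import Pool.Agent.Lib.MP_f58a57_nt.N.Main

/-! # K/G7_Main: the theorem -/

open Complex Filter Topology IntermediateField

noncomputable section

namespace Pool.Agent.MSK

open MSD MSP

variable {d : ℕ}

/-- a special point has degree at most two -/
theorem g7_special (z : ℂ) (h : IsSpecial z) : (minpoly ℚ z).natDegree ≤ 2 := by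
  obtain ⟨a, b, c, hne, he⟩ := h
  set p : Polynomial ℚ := Polynomial.C (a : ℚ) * Polynomial.X ^ 2 + Polynomial.C (b : ℚ) * Polynomial.X + Polynomial.C (c : ℚ) with hp
  have hp0 : p ≠ 0 := by
    intro h0
    apply hne
    have hc : ∀ a b c : ℚ, ∀ k : ℕ, (Polynomial.C a * Polynomial.X ^ 2 + Polynomial.C b * Polynomial.X + Polynomial.C c).coeff k =
        (if k = 2 then a else 0) + (if k = 1 then b else 0) + (if k = 0 then c else 0) := by
      intro a b c k
      rw [Polynomial.coeff_add, Polynomial.coeff_add, Polynomial.coeff_C_mul_X_pow, Polynomial.coeff_C_mul_X, Polynomial.coeff_C]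
    have h2 := hc a b c 2
    have h1 := hc a b c 1
    have h3 := hc a b c 0
    rw [← hp, h0, Polynomial.coeff_zero] at h1 h2 h3
    norm_num at h1 h2 h3
    exact ⟨by exact_mod_cast h2.symm, by exact_mod_cast h1.symm, by exact_mod_cast h3.symm⟩
  have hev : Polynomial.aeval z p = 0 := by
    rw [hp]
    simpa using he
  have h4 : (minpoly ℚ z).degree ≤ p.degree := minpoly.degree_le_of_ne_zero ℚ z hp0 hev
  have h5 : p.degree ≤ 2 := Polynomial.degree_quadratic_le
  exact Polynomial.natDegree_le_of_degree_le (h4.trans h5)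

/-- G6d. PROOF. Suppose not. If `jj z` is algebraic: `z` is not special (degree `≥ 3`), and `MSN.trdeg_nonspecial` (N/Final, with `Steps` proved in N/Main) gives the inequality. Otherwise `jj z` is transcendental, and every element of the set is algebraic over
`ℚ(jj z)` (compare `exists_theta_set` in N/Final, take `ϑ = jj z`: `MSP.f3_indep`), so `exists_par, exists_orig, vals_alg, core` give a contradiction. -/
theorem main_point (z : ℂ) (hz : 0 < z.im) (hj : deriv jj z ≠ 0) (hd : (minpoly ℚ z).natDegree = 3 ∨ (minpoly ℚ z).natDegree = 4) (S : Set ℂ)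
    (m : z ∈ S) (m0 : jj z ∈ S) (m1 : deriv jj z ∈ S) (m2 : deriv (deriv jj) z ∈ S) :
    (2 : Cardinal) ≤ Algebra.trdeg ℚ (adjoin ℚ S) := by
  by_cases ha : IsAlgebraic ℚ (jj z)
  · have hns : ¬ IsSpecial z := by
      intro hs
      have := g7_special z hs
      omega
    exact MSN.trdeg_nonspecial MSN.steps z hz hns hj ha S m m1 m2
  · have htr : Transcendental ℚ (jj z) := ha
    by_contra hcon
    have hal : ∀ t ∈ S, IsAlgebraic ℚ⟮jj z⟯ t := by
      intro t ht
      by_contra hc
      apply hcon
      have key := MSP.f3_indep (jj z) t htr hc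
      have ms : jj z ∈ adjoin ℚ S := subset_adjoin _ _ m0
      have mt : t ∈ adjoin ℚ S := subset_adjoin _ _ ht
      have hx : AlgebraicIndependent ℚ ![(⟨jj z, ms⟩ : adjoin ℚ S), ⟨t, mt⟩] := by
        apply AlgebraicIndependent.of_comp (IntermediateField.val _)
        have e : ((IntermediateField.val (adjoin ℚ S)) ∘ ![(⟨jj z, ms⟩ : adjoin ℚ S), ⟨t, mt⟩]) = ![jj z, t] := by
          funext i
          fin_cases i <;> rfl
        rw [e]
        exact key
      have h2 := hx.cardinalMk_le_trdeg
      simpa using h2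
    have fin : ∀ d : ℕ, (d = 2 ∨ d = 3) → (minpoly ℚ z).natDegree = d + 1 → False := by
      intro d hd2 hdeg
      obtain ⟨P, rfl⟩ := exists_par (d := d) z hz hdeg
      obtain ⟨D, hD⟩ := exists_orig P (by omega)
      exact core P hd2 D hD hj htr (vals_alg P (by omega) D hD hj _ (hal _ m0) (hal _ m1) (hal _ m2))
    rcases hd with hd | hd
    · exact fin 2 (Or.inl rfl) hd
    · exact fin 3 (Or.inr rfl) hd

end Pool.Agent.MSK
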